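import Pool.Agent.MP_6b3afb_co.Grp

namespace Pool.Agent.MP_6b3afb_co

variable {s t u v : ℕ}

structure Act (s t u v : ℕ) (X : Type) where
  r : Fin 4 → X → X
  invol : ∀ i, Function.Involutive (r i)
  rel : Rel363 s t u v fun i => (invol i).toPerm

namespace Act
variable {X : Type} (a : Act s t u v X)

theorem run_eq_hom (w : List (Fin 4)) (x : X) :
    run a.r w x = (a.rel.hom (ev (rho s t u v) w))⁻¹ x := by
  rw [Rel363.hom_ev, ev_perm_inv_apply]

theorem run_congr {w w' : List (Fin 4)} (h : ev (rho s t u v) w = ev (rho s t u v) w') (x : X) :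
    run a.r w x = run a.r w' x := by
  rw [a.run_eq_hom, a.run_eq_hom, h]

theorem good (hs : Adm s t)
    (E1 : ∀ w, (∀ x, run a.r (w.map posA) x = x) → K s t w)
    (E2 : ∀ w, (∀ x, run a.r (w.map posB) x = x) → K u v w)
    (E3 : ∀ w y, (0 : Fin 4) ∉ y → (∀ x, run a.r (w.map posA) x = run a.r y x) →
      Lat s t (fr w).1) : Good s t u v (rho s t u v) where
  rel := rel363_rho
  A w hw := E1 w fun x => a.run_congr (w' := []) (by rw [← ev_fA, hw]; rfl) x
  B w hw := E2 w fun x => a.run_congr (w' := []) (by rw [← ev_fB, hw]; rfl) x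
  ip := by
    rintro g ⟨y, hy, rfl⟩ ⟨z, hz, e⟩
    obtain ⟨w, rfl⟩ := exists_map_pos posA y (fun i hi =>
      (show ∀ i ∈ ({0, 1, 2} : Finset (Fin 4)), ∃ j, posA j = i by decide) i (hy i hi))
    have h1 := E3 w z (fun h => absurd (hz _ h) (by decide)) (fun x => a.run_congr e.symm x)
    have hr := rel363_rho (s := s) (t := t) (u := u) (v := v)
    obtain ⟨l, k, hk, h2, h3⟩ := hr.A.toRel36.nf_fr w
    have h4 : (fr w).1 = l := by simp [h3, shift, D12_fst k hk]
    rw [h4] at h1
    rw [hr.A.tau_eq_one hs h1, one_mul] at h2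
    refine ⟨k.map posA, ?_, by rw [← ev_fA, ← ev_fA, h2]⟩
    intro i hi
    obtain ⟨j, hj, rfl⟩ := List.mem_map.mp hi
    have := stab_avoid 0 k hk
    exact (show ∀ j : Fin 3, j ≠ 0 → posA j ∈ ({1, 2} : Finset (Fin 4)) by decide) j
      (fun h => this (h ▸ hj))

end Act

theorem ev_toPerm_eq_one {ι X : Type} {r : ι → X → X} (hr : ∀ i, Function.Involutive (r i))
    {w : List ι} (h : ∀ x, run r w x = x) : ev (fun i => (hr i).toPerm) w = 1 := by
  rw [← inv_eq_one]
  ext1 x
  exact (ev_perm_inv_apply hr w x).trans (h x)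

def Act.ofK {X : Type} (r : Fin 4 → X → X) (hr : ∀ i, Function.Involutive (r i))
    (hA : ∀ w, K s t w → ∀ x, run r (w.map posA) x = x)
    (hB : ∀ w, K u v w → ∀ x, run r (w.map posB) x = x)
    (h03 : ∀ x, run r [0, 3, 0, 3] x = x) : Act s t u v X where
  r := r
  invol := hr
  rel := {
    A := relT_of_K fun w hw => by
      rw [ev_fA]
      exact ev_toPerm_eq_one hr (hA w hw)
    B := relT_of_K fun w hw => by
      rw [ev_fB]
      exact ev_toPerm_eq_one hr (hB w hw)
    ad := by simpa [pow_succ, mul_assoc] using ev_toPerm_eq_one hr h03 }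

end Pool.Agent.MP_6b3afb_co
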