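import Pool.Agent.MP_6b3afb_co.Model

namespace Pool.Agent.MP_6b3afb_co

def tyL (M : Mod) : List M.T → Bool
  | [] => true
  | x :: _ => M.τ x

structure BInv (M : Mod) (n : ℕ) (V : List M.T → Prop) (A : List M.T → List M.T → Prop) :
    Prop where
  symm : ∀ {x y}, A x y → A y x
  irrefl : ∀ x, ¬ A x x
  mem : ∀ {x y}, A x y → V x
  le : ∀ {x}, V x → x.length ≤ n
  lip : ∀ {x y}, A x y → x.length ≤ y.length + 1
  full : ∀ v, V v → v.length < n → ∃ φ, Full M A (tyL M) v φ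
  top : ∀ v, V v → v.length = n → ∃ φ, Chart M A (tyL M) v φ ∧
    ∀ p x, (A v p ∧ p.length < n) → M.L (φ p) x → ∃ w, A v w ∧ φ w = x
  clique : ∀ {v p q}, v.length = n → A v p → A v q → p.length < n → q.length < n → p ≠ q → A p q
  edge : ∀ {v w}, A v w → v.length = n → w.length = n → ∃ p, p.length < n ∧ A v p ∧ A w p
  tri : ∀ {u v w}, A u v → A v w → A u w → u.length = n → v.length = n → w.length = n →
    ∃ p, p.length < n ∧ A u p ∧ A v p ∧ A w p
  down : ∀ v, V v → v ≠ [] → ∃ p, A v p ∧ p.length < v.length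
  ex : ∃ v, V v ∧ v.length = n
  root : V []

structure Pre (M : Mod) where
  n : ℕ
  V : List M.T → Prop
  A : List M.T → List M.T → Prop
  inv : BInv M n V A
  φ : List M.T → List M.T → M.T
  ch : ∀ {v}, V v → v.length = n → Chart M A (tyL M) v (φ v)
  cl : ∀ {v p x}, V v → v.length = n → A v p → p.length < n → M.L (φ v p) x →
    ∃ w, A v w ∧ φ v w = x

namespace Pre
variable {M : Mod} (P : Pre M)

structure New (p : List M.T × M.T) : Prop where
  mem : P.V p.1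
  len : p.1.length = P.n
  kap : M.κ p.2 = tyL M p.1
  ne : ∀ w, P.A p.1 w → P.φ p.1 w ≠ p.2

structure Th (p q : List M.T × M.T) : Prop where
  l : P.New p
  r : P.New q
  adj : P.A p.1 q.1
  hl : M.L (P.φ p.1 q.1) p.2
  hr : M.L (P.φ q.1 p.1) q.2
  pat : ∀ u, P.A p.1 u → P.A q.1 u → (M.L p.2 (P.φ p.1 u) ↔ M.L q.2 (P.φ q.1 u))

variable {P}

theorem Th.symm {p q} (h : P.Th p q) : P.Th q p :=
  ⟨h.r, h.l, P.inv.symm h.adj, h.hr, h.hl, fun u h1 h2 => (h.pat u h2 h1).symm⟩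

theorem New.not_low {v x p} (h : P.New (v, x)) (hp : P.A v p) (hl : p.length < P.n) :
    ¬ M.L (P.φ v p) x := fun e => by
  obtain ⟨w, h1, h2⟩ := P.cl h.mem h.len hp hl e
  exact h.ne w h1 h2

theorem hexpair {v w} (hvw : P.A v w) (lv : v.length = P.n) (lw : w.length = P.n) :
    ∃ h h', IsHex M.L (P.φ v w) h ∧ IsHex M.L (P.φ w v) h' ∧ (∀ k, M.τ (h k) = M.τ (h' k)) ∧
      (∀ k, P.New (v, h k) → P.New (w, h' k)) ∧
      ∀ k l, P.Th (v, h k) (w, h' l) ↔ P.New (v, h k) ∧ k = l := by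
  have hs := @P.inv.symm
  have hwv := hs hvw
  have Vv := P.inv.mem hvw
  have Vw := P.inv.mem hwv
  have cv := P.ch Vv lv
  have cw := P.ch Vw lw
  obtain ⟨p, lp, vp, wp⟩ := P.inv.edge hvw lv lw
  obtain ⟨h0, hh0⟩ := M.hex (P.φ v w)
  have hwp := (cv.adj hvw vp).mp wp
  obtain ⟨i, hi⟩ := (hh0.mem _).mp hwp
  obtain ⟨h, hh, e0, e1⟩ := M.hex_start hwp ((hh0.mem _).mpr ⟨i + 1, rfl⟩)
    (hi ▸ (hh0.adj _ _).mpr (Or.inl rfl))
  have hm : ∀ k, M.L (P.φ v w) (h k) := fun k => (hh.mem _).mpr ⟨k, rfl⟩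
  obtain ⟨q1, vq1, f1⟩ := P.cl (x := h 1) Vv lv vp lp (e0 ▸ (hh.adj 0 1).mpr (by decide))
  obtain ⟨q5, vq5, f5⟩ := P.cl (x := h 5) Vv lv vp lp (e0 ▸ (hh.adj 0 5).mpr (by decide))
  have wq1 : P.A w q1 := (cv.adj hvw vq1).mpr (f1 ▸ hm 1)
  have wq5 : P.A w q5 := (cv.adj hvw vq5).mpr (f5 ▸ hm 5)
  have pq1 : P.A p q1 := (cv.adj vp vq1).mpr (by rw [f1, ← e0, hh.adj]; decide)
  have pq5 : P.A p q5 := (cv.adj vp vq5).mpr (by rw [f5, ← e0, hh.adj]; decide)
  obtain ⟨h', hh', e0', e1'⟩ := M.hex_start ((cw.adj hwv wp).mp vp) ((cw.adj hwv wq1).mp vq1)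
    ((cw.adj wp wq1).mp pq1)
  have hm' : ∀ k, M.L (P.φ w v) (h' k) := fun k => (hh'.mem _).mpr ⟨k, rfl⟩
  have e5' : h' 5 = P.φ w q5 := by
    obtain ⟨k, hk⟩ := (hh'.mem _).mp ((cw.adj hwv wq5).mp vq5)
    have h1 := (cw.adj wp wq5).mp pq5
    rw [← hk, ← e0', hh'.adj] at h1
    have h2 : k ≠ 1 := by
      rintro rfl
      have := cw.inj wq1 wq5 (e1'.symm.trans hk)
      rw [this, f5] at f1
      exact absurd (hh.inj f1) (by decide)
    obtain rfl : k = 5 := (show ∀ k : Fin 6, hadj 0 k → k ≠ 1 → k = 5 by decide) k h1 h2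
    exact hk
  have rig : ∀ u k l, P.A v u → P.A w u → h k = P.φ v u → h' l = P.φ w u → k = l := by
    intro u k l vu wu ek el
    have key : ∀ k l : Fin 6, (k = 0 ↔ l = 0) → (k = 1 ↔ l = 1) → (k = 5 ↔ l = 5) →
        (hadj k 1 ↔ hadj l 1) → (hadj k 5 ↔ hadj l 5) → k = l := by decide
    have eq : ∀ q m, P.A v q → P.A w q → h m = P.φ v q → h' m = P.φ w q → (k = m ↔ l = m) := by
      intro q m vq wq a b
      constructor
      · rintro rfl
        exact hh'.inj (by rw [el, b, cv.inj vu vq (ek.symm.trans a)])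
      · rintro rfl
        exact hh.inj (by rw [ek, a, cw.inj wu wq (el.symm.trans b)])
    have ad : ∀ q m, P.A v q → P.A w q → h m = P.φ v q → h' m = P.φ w q →
        (hadj k m ↔ hadj l m) := by
      intro q m vq wq a b
      rw [← hh.adj, ← hh'.adj, ek, el, a, b, ← cv.adj vu vq, ← cw.adj wu wq]
    exact key k l (eq p 0 vp wp e0 e0') (eq q1 1 vq1 wq1 f1.symm e1') (eq q5 5 vq5 wq5 f5.symm e5')
      (ad q1 1 vq1 wq1 f1.symm e1') (ad q5 5 vq5 wq5 f5.symm e5')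
  have idx : ∀ u, P.A v u → P.A w u → ∃ k, h k = P.φ v u ∧ h' k = P.φ w u := by
    intro u vu wu
    obtain ⟨k, hk⟩ := (hh.mem _).mp ((cv.adj hvw vu).mp wu)
    obtain ⟨l, hl⟩ := (hh'.mem _).mp ((cw.adj hwv wu).mp vu)
    obtain rfl := rig u k l vu wu hk hl
    exact ⟨k, hk, hl⟩
  have nw : ∀ k, P.New (v, h k) → P.New (w, h' k) := by
    intro k hk
    refine ⟨Vw, lw, (M.kap (hm' k)).symm.trans (cw.kap hwv), fun u wu e => ?_⟩
    have vu : P.A v u := (cw.adj hwv wu).mpr (e ▸ hm' k)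
    obtain ⟨l, a, b⟩ := idx u vu wu
    obtain rfl := hh'.inj (b.trans e)
    exact hk.ne u vu a.symm
  refine ⟨h, h', hh, hh', M.hex_type hh hh' ?_ ?_, nw, fun k l => ⟨fun t => ⟨t.l, ?_⟩, ?_⟩⟩
  · rw [cv.kap hvw, cv.tau hvw, cw.kap hwv, cw.tau hwv, Bool.or_comm]
  · rw [e0, e0', cv.tau vp, cw.tau wp]
  · have key : ∀ k l : Fin 6, k ≠ 0 → l ≠ 0 → k ≠ 1 → l ≠ 1 → k ≠ 5 → l ≠ 5 →
        (hadj k 1 ↔ hadj l 1) → (hadj k 5 ↔ hadj l 5) → k = l := by decide
    refine key k l ?_ ?_ ?_ ?_ ?_ ?_ ?_ ?_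
    · rintro rfl; exact t.l.ne p vp e0.symm
    · rintro rfl; exact t.r.ne p wp e0'.symm
    · rintro rfl; exact t.l.ne q1 vq1 f1
    · rintro rfl; exact t.r.ne q1 wq1 e1'.symm
    · rintro rfl; exact t.l.ne q5 vq5 f5
    · rintro rfl; exact t.r.ne q5 wq5 e5'.symm
    · have := t.pat q1 vq1 wq1
      simp only at this
      rwa [f1, ← e1', hh.adj, hh'.adj] at this
    · have := t.pat q5 vq5 wq5
      simp only at this
      rwa [f5, ← e5', hh.adj, hh'.adj] at this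
  · rintro ⟨hk, rfl⟩
    refine ⟨hk, nw k hk, hvw, hm k, hm' k, fun u vu wu => ?_⟩
    obtain ⟨l, a, b⟩ := idx u vu wu
    simp only
    rw [← a, ← b, hh.adj, hh'.adj]

theorem New.exists_th {v w x} (hx : P.New (v, x)) (hvw : P.A v w) (hl : M.L (P.φ v w) x) :
    ∃ y, P.Th (v, x) (w, y) := by
  have lw : w.length = P.n := by
    by_contra hne
    exact hx.not_low hvw (lt_of_le_of_ne (P.inv.le (P.inv.mem (P.inv.symm hvw))) hne) hl
  obtain ⟨h, h', hh, hh', -, -, e⟩ := hexpair hvw hx.len lw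
  obtain ⟨k, rfl⟩ := (hh.mem _).mp hl
  exact ⟨h' k, (e k k).mpr ⟨hx, rfl⟩⟩

theorem Th.tau {p q} (t : P.Th p q) : M.τ p.2 = M.τ q.2 := by
  obtain ⟨v, x⟩ := p
  obtain ⟨w, y⟩ := q
  obtain ⟨h, h', hh, hh', e1, -, e⟩ := hexpair t.adj t.l.len t.r.len
  obtain ⟨k, rfl⟩ := (hh.mem x).mp t.hl
  obtain ⟨l, rfl⟩ := (hh'.mem y).mp t.hr
  obtain ⟨-, rfl⟩ := (e k l).mp t
  exact e1 k

theorem Th.two {v w x x' y y'} (t : P.Th (v, x) (w, y)) (t' : P.Th (v, x') (w, y')) :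
    (M.L x x' ↔ M.L y y') ∧ (x = x' ↔ y = y') := by
  obtain ⟨h, h', hh, hh', -, -, e⟩ := hexpair t.adj t.l.len t.r.len
  obtain ⟨k, rfl⟩ := (hh.mem x).mp t.hl
  obtain ⟨l, rfl⟩ := (hh'.mem y).mp t.hr
  obtain ⟨k', rfl⟩ := (hh.mem x').mp t'.hl
  obtain ⟨l', rfl⟩ := (hh'.mem y').mp t'.hr
  obtain ⟨-, rfl⟩ := (e k l).mp t
  obtain ⟨-, rfl⟩ := (e k' l').mp t'
  rw [hh.adj, hh'.adj, hh.inj.eq_iff, hh'.inj.eq_iff]
  exact ⟨Iff.rfl, Iff.rfl⟩

theorem Th.trans {v w u x y z} (t : P.Th (v, x) (w, y)) (t' : P.Th (w, y) (u, z)) (hne : v ≠ u) :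
    P.Th (v, x) (u, z) := by
  have hs := @P.inv.symm
  have vw : P.A v w := t.adj
  have wu : P.A w u := t'.adj
  have cv := P.ch t.l.mem t.l.len
  have cw := P.ch t.r.mem t.r.len
  have cu := P.ch t'.r.mem t'.r.len
  obtain ⟨p, lp, vp, wp⟩ := P.inv.edge vw t.l.len t.r.len
  obtain ⟨q, lq, wq, uq⟩ := P.inv.edge wu t.r.len t'.r.len
  have vu : P.A v u := by
    rw [cw.adj (hs vw) wu]
    refine M.conv (M.symm t.hr) (M.symm t'.hl) ((cw.adj (hs vw) wp).mp vp) ((cw.adj wu wq).mp uq)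
      ?_ (fun e => t.r.not_low wp lp (M.symm e)) (fun e => t.r.not_low wq lq (M.symm e))
      (t.r.ne p wp).symm (t.r.ne q wq).symm (fun e => hne (cw.inj (hs vw) wu e))
    by_cases e : p = q
    · exact Or.inl (by rw [e])
    · exact Or.inr ((cw.adj wp wq).mp (P.inv.clique t.r.len wp wq lp lq e))
  obtain ⟨z', t2⟩ := t.l.exists_th vu (M.symm ((t.pat u vu wu).mpr (M.symm t'.hl)))
  obtain ⟨r, lr, vr, wr, ur⟩ := P.inv.tri vw wu vu t.l.len t.r.len t'.r.len
  have h1 : M.L (P.φ u w) z' := M.symm ((t2.pat w vw (hs wu)).mp (M.symm t.hl))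
  have h2 : M.L (P.φ u v) z := M.symm ((t'.pat v (hs vw) (hs vu)).mp (M.symm t.hr))
  rcases M.two ((cu.adj (hs vu) (hs wu)).mp vw) t2.hr h2 ((cu.adj (hs vu) ur).mp vr) h1 t'.hr
    ((cu.adj (hs wu) ur).mp wr) with e | e | e
  · exact e ▸ t2
  · exact absurd e.symm (t2.r.ne r ur)
  · exact absurd e.symm (t'.r.ne r ur)

variable (P)

def cls : Setoid (List M.T × M.T) where
  r p q := p = q ∨ P.Th p q
  iseqv := by
    refine ⟨fun _ => Or.inl rfl, fun h => h.imp Eq.symm Th.symm, ?_⟩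
    rintro ⟨v, x⟩ ⟨w, y⟩ ⟨u, z⟩ (e | t) (e' | t')
    · exact Or.inl (e.trans e')
    · exact Or.inr (e ▸ t')
    · exact Or.inr (e' ▸ t)
    · by_cases hvu : v = u
      · subst hvu
        exact Or.inl (by rw [(t.two t'.symm).2.mpr rfl])
      · exact Or.inr (t.trans t' hvu)

noncomputable def nm (p : List M.T × M.T) : List M.T :=
  (Quotient.mk P.cls p).out.2 :: (Quotient.mk P.cls p).out.1

variable {P}

theorem nm_eq {p q} : P.nm p = P.nm q ↔ p = q ∨ P.Th p q := by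
  unfold nm
  rw [List.cons.injEq, and_comm, ← Prod.ext_iff, Quotient.out_inj, Quotient.eq]
  rfl

theorem New.nm_len {p} (h : P.New p) : (P.nm p).length = P.n + 1 := by
  rcases (Quotient.mk_out (s := P.cls) p) with e | t
  · simp only [nm, List.length_cons, e, h.len]
  · simp only [nm, List.length_cons, t.l.len]

theorem nm_ty (p) : tyL M (P.nm p) = M.τ p.2 := by
  rcases (Quotient.mk_out (s := P.cls) p) with e | t
  · simp only [nm, tyL, e]
  · exact t.tau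

theorem nm_inj {v x x'} (e : P.nm (v, x) = P.nm (v, x')) : x = x' := by
  rcases nm_eq.mp e with e | t
  · exact congrArg Prod.snd e
  · exact absurd t.adj (P.inv.irrefl v)

variable (P)

def Up (v z : List M.T) : Prop := ∃ x, P.New (v, x) ∧ z = P.nm (v, x)

def V' (z : List M.T) : Prop := P.V z ∨ ∃ v, P.Up v z

def A' (y z : List M.T) : Prop := P.A y z ∨ P.Up y z ∨ P.Up z y ∨
  ∃ v x x', P.New (v, x) ∧ P.New (v, x') ∧ M.L x x' ∧ y = P.nm (v, x) ∧ z = P.nm (v, x')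

variable {P}

theorem Up.len {v z} (h : P.Up v z) : v.length = P.n ∧ z.length = P.n + 1 := by
  obtain ⟨x, hx, rfl⟩ := h
  exact ⟨hx.len, hx.nm_len⟩

theorem A_len {x y} (h : P.A x y) : x.length ≤ P.n ∧ y.length ≤ P.n :=
  ⟨P.inv.le (P.inv.mem h), P.inv.le (P.inv.mem (P.inv.symm h))⟩

theorem A'_symm {y z} (h : P.A' y z) : P.A' z y := by
  rcases h with h | h | h | ⟨v, x, x', h1, h2, h3, h4, h5⟩
  · exact Or.inl (P.inv.symm h)
  · exact Or.inr (Or.inr (Or.inl h))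
  · exact Or.inr (Or.inl h)
  · exact Or.inr (Or.inr (Or.inr ⟨v, x', x, h2, h1, M.symm h3, h5, h4⟩))

theorem A'_old {y z} (hy : y.length ≤ P.n) (hz : z.length ≤ P.n) : P.A' y z ↔ P.A y z := by
  refine ⟨?_, Or.inl⟩
  rintro (h | h | h | ⟨v, x, x', h1, h2, h3, rfl, rfl⟩)
  · exact h
  · have := h.len; omega
  · have := h.len; omega
  · have := h1.nm_len; omega

theorem A'_low {y z} (hy : y.length ≤ P.n) : P.A' y z ↔ P.A y z ∨ P.Up y z := by
  refine ⟨?_, fun h => h.elim Or.inl (fun h => Or.inr (Or.inl h))⟩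
  rintro (h | h | h | ⟨v, x, x', h1, h2, h3, rfl, rfl⟩)
  · exact Or.inl h
  · exact Or.inr h
  · have := h.len; omega
  · have := h1.nm_len; omega

theorem A'_up {y z} (hy : y.length ≤ P.n) (hz : P.n < z.length) : P.A' y z ↔ P.Up y z := by
  rw [A'_low hy]
  exact or_iff_right (fun h => by have := A_len h; omega)

theorem A'_top {y z} (hy : P.n < y.length) (hz : P.n < z.length) (h : P.A' y z) :
    ∃ v x x', P.New (v, x) ∧ P.New (v, x') ∧ M.L x x' ∧ y = P.nm (v, x) ∧ z = P.nm (v, x') := by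
  rcases h with h | h | h | h
  · have := A_len h; omega
  · have := h.len; omega
  · have := h.len; omega
  · exact h

theorem A'_irrefl (y) : ¬ P.A' y y := by
  rintro (h | h | h | ⟨v, x, x', h1, h2, h3, h4, h5⟩)
  · exact P.inv.irrefl _ h
  · have := h.len; omega
  · have := h.len; omega
  · rw [nm_inj (h4.symm.trans h5)] at h3
    exact M.irrefl _ h3

theorem full_top {v} (hv : P.V v) (lv : v.length = P.n) : ∃ ψ, Full M P.A' (tyL M) v ψ := by
  classical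
  have cv := P.ch hv lv
  let ψ : List M.T → M.T := fun y => if h : P.Up v y then h.choose else P.φ v y
  have ψo : ∀ {y}, P.A v y → ψ y = P.φ v y := fun {y} h =>
    dif_neg (fun h' => by have := h'.len; have := A_len h; omega)
  have ψn : ∀ {x}, P.New (v, x) → ψ (P.nm (v, x)) = x := fun {x} h => by
    have h' : P.Up v (P.nm (v, x)) := ⟨x, h, rfl⟩
    simp only [ψ, dif_pos h']
    exact (nm_inj h'.choose_spec.2).symm
  have mix : ∀ {w x}, P.A v w → P.New (v, x) → (P.A' w (P.nm (v, x)) ↔ M.L (P.φ v w) x) := by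
    intro w x hw hx
    rw [A'_up (A_len hw).2 (by rw [hx.nm_len]; omega)]
    constructor
    · rintro ⟨y, hy, e⟩
      rcases nm_eq.mp e with e | t
      · obtain rfl : v = w := congrArg Prod.fst e
        exact absurd hw (P.inv.irrefl _)
      · exact t.hl
    · intro e
      obtain ⟨y, t⟩ := hx.exists_th hw e
      exact ⟨y, t.r, nm_eq.mpr (Or.inr t)⟩
  refine ⟨ψ, ⟨fun {w} hw => ?_, fun {w} hw => ?_, fun {w w'} hw hw' => ?_,
    fun {w w'} hw hw' e => ?_⟩, fun x hx => ?_⟩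
  · rcases (A'_low lv.le).mp hw with h | ⟨x, hx, rfl⟩
    · rw [ψo h, cv.kap h]
    · rw [ψn hx, hx.kap]
  · rcases (A'_low lv.le).mp hw with h | ⟨x, hx, rfl⟩
    · rw [ψo h, cv.tau h]
    · rw [ψn hx, nm_ty]
  · rcases (A'_low lv.le).mp hw with h | ⟨x, hx, rfl⟩ <;>
      rcases (A'_low lv.le).mp hw' with h' | ⟨x', hx', rfl⟩
    · rw [ψo h, ψo h', A'_old (A_len h).2 (A_len h').2, cv.adj h h']
    · rw [ψo h, ψn hx', mix h hx']
    · rw [ψo h', ψn hx]
      exact ⟨fun e => M.symm ((mix h' hx).mp (A'_symm e)),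
        fun e => A'_symm ((mix h' hx).mpr (M.symm e))⟩
    · rw [ψn hx, ψn hx']
      refine ⟨fun e => ?_, fun e => Or.inr (Or.inr (Or.inr ⟨v, x, x', hx, hx', e, rfl, rfl⟩))⟩
      obtain ⟨u, y, y', h1, h2, h3, h4, h5⟩ := A'_top (by rw [hx.nm_len]; omega)
        (by rw [hx'.nm_len]; omega) e
      rcases nm_eq.mp h4 with e1 | t
      · obtain ⟨rfl, rfl⟩ := Prod.ext_iff.mp e1
        rwa [nm_inj h5]
      rcases nm_eq.mp h5 with e1 | t'
      · obtain ⟨rfl, rfl⟩ := Prod.ext_iff.mp e1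
        exact absurd t.adj (P.inv.irrefl _)
      exact (t.two t').1.mpr h3
  · rcases (A'_low lv.le).mp hw with h | ⟨x, hx, rfl⟩ <;>
      rcases (A'_low lv.le).mp hw' with h' | ⟨x', hx', rfl⟩
    · rw [ψo h, ψo h'] at e
      exact cv.inj h h' e
    · rw [ψo h, ψn hx'] at e
      exact absurd e (hx'.ne _ h)
    · rw [ψo h', ψn hx] at e
      exact absurd e.symm (hx.ne _ h')
    · rw [ψn hx, ψn hx'] at e
      rw [e]
  · by_cases h : ∃ w, P.A v w ∧ P.φ v w = x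
    · obtain ⟨w, h1, h2⟩ := h
      exact ⟨w, Or.inl h1, (ψo h1).trans h2⟩
    · have hx' : P.New (v, x) := ⟨hv, lv, hx, fun w h1 h2 => h ⟨w, h1, h2⟩⟩
      exact ⟨_, Or.inr (Or.inl ⟨x, hx', rfl⟩), ψn hx'⟩

theorem Up.clique {v w z} (h : P.Up v z) (h' : P.Up w z) (hne : v ≠ w) : P.A v w := by
  obtain ⟨x, hx, rfl⟩ := h
  obtain ⟨y, hy, e⟩ := h'
  rcases nm_eq.mp e with e | t
  · exact absurd (congrArg Prod.fst e) hne
  · exact t.adj

theorem Up.adj {v z} (h : P.Up v z) : P.A' v z := Or.inr (Or.inl h)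

theorem Up.mem {v z} (h : P.Up v z) : P.V v := by
  obtain ⟨x, hx, -⟩ := h
  exact hx.mem

theorem top_edge {y z} (hy : P.n < y.length) (hz : P.n < z.length) (h : P.A' y z) :
    ∃ v, P.Up v y ∧ P.Up v z := by
  obtain ⟨v, x, x', h1, h2, -, h4, h5⟩ := A'_top hy hz h
  exact ⟨v, ⟨x, h1, h4⟩, ⟨x', h2, h5⟩⟩

theorem top_tri {x y z} (hx : P.n < x.length) (hy : P.n < y.length) (hz : P.n < z.length)
    (xy : P.A' x y) (yz : P.A' y z) (xz : P.A' x z) : ∃ v, P.Up v x ∧ P.Up v y ∧ P.Up v z := by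
  obtain ⟨v, vx, vy⟩ := top_edge hx hy xy
  obtain ⟨w, wx, wz⟩ := top_edge hx hz xz
  obtain ⟨u, uy, uz⟩ := top_edge hy hz yz
  by_cases e1 : v = w
  · exact ⟨v, vx, vy, e1 ▸ wz⟩
  by_cases e2 : v = u
  · exact ⟨v, vx, vy, e2 ▸ uz⟩
  by_cases e3 : w = u
  · exact ⟨w, wx, e3 ▸ uy, wz⟩
  obtain ⟨ψ, hψ⟩ := full_top vx.mem vx.len.1
  have vw : P.A' v w := Or.inl (vx.clique wx e1)
  have vu : P.A' v u := Or.inl (vy.clique uy e2)
  have wu : P.A' w u := Or.inl (wz.clique uz e3)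
  have lw := wx.len.1
  have lu := uy.len.1
  rcases M.c4 ((hψ.adj vw vu).mp wu) ((hψ.adj vu vy.adj).mp uy.adj)
    ((hψ.adj vy.adj vx.adj).mp (A'_symm xy)) ((hψ.adj vx.adj vw).mp (A'_symm wx.adj))
    (fun e => by have := congrArg List.length (hψ.inj vw vy.adj e); omega)
    (fun e => by have := congrArg List.length (hψ.inj vu vx.adj e); omega) with e | e
  · exact ⟨w, wx, (A'_up lw.le hy).mp ((hψ.adj vw vy.adj).mpr e), wz⟩
  · exact ⟨u, (A'_up lu.le hx).mp ((hψ.adj vu vx.adj).mpr e), uy, uz⟩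

theorem A'_len {y z} (h : P.A' y z) : y.length ≤ P.n + 1 ∧ y.length ≤ z.length + 1 ∧ P.V' y := by
  rcases h with h | h | h | ⟨v, x, x', h1, h2, h3, rfl, rfl⟩
  · exact ⟨by have := A_len h; omega, P.inv.lip h, Or.inl (P.inv.mem h)⟩
  · exact ⟨by have := h.len; omega, by have := h.len; omega, Or.inl h.mem⟩
  · exact ⟨by have := h.len; omega, by have := h.len; omega, Or.inr ⟨_, h⟩⟩
  · exact ⟨h1.nm_len.le, by rw [h1.nm_len, h2.nm_len]; omega, Or.inr ⟨v, x, h1, rfl⟩⟩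

theorem exists_new : ∃ p, P.New p := by
  obtain ⟨v, hv, lv⟩ := P.inv.ex
  have cv := P.ch hv lv
  have low : ∀ w, P.A v w → ∃ p, p.length < P.n ∧ P.A v p ∧ (w = p ∨ P.A w p) := by
    intro w hw
    by_cases lw : w.length = P.n
    · obtain ⟨p, h1, h2, h3⟩ := P.inv.edge hw lv lw
      exact ⟨p, h1, h2, Or.inr h3⟩
    · exact ⟨w, lt_of_le_of_ne (A_len hw).2 lw, hw, Or.inl rfl⟩
  by_cases h : ∃ w, P.A v w
  · obtain ⟨w, hw⟩ := h
    obtain ⟨p, lp, vp, -⟩ := low w hw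
    obtain ⟨h, hh⟩ := M.hex (P.φ v p)
    obtain ⟨a, b, pa, pb, ab, hsub⟩ := M.clique_sub (P.φ v p)
      (fun x => ∃ q, q.length < P.n ∧ P.A v q ∧ q ≠ p ∧ P.φ v q = x)
      (by
        rintro _ ⟨q, lq, vq, hn, rfl⟩
        exact (cv.adj vp vq).mp (P.inv.clique lv vp vq lp lq hn.symm))
      (by
        rintro _ _ ⟨q, lq, vq, hn, rfl⟩ ⟨q', lq', vq', hn', rfl⟩ e
        exact (cv.adj vq vq').mp (P.inv.clique lv vq vq' lq lq' (fun e' => e (by rw [e']))))
    obtain ⟨x, k, n1, n2, n3⟩ := M.far (P.φ v p)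
    refine ⟨(v, x), hv, lv, k.trans (cv.kap vp), fun u vu e => ?_⟩
    obtain ⟨q, lq, vq, h1⟩ := low u vu
    simp only at e vu
    subst e
    by_cases e2 : q = p
    · subst e2
      rcases h1 with rfl | h1
      · exact n1 rfl
      · exact n2 (M.symm ((cv.adj vu vq).mp h1))
    · have pq := (cv.adj vp vq).mp (P.inv.clique lv vp vq lp lq (Ne.symm e2))
      rcases h1 with rfl | h1
      · exact n2 pq
      · exact n3 _ pq (M.symm ((cv.adj vu vq).mp h1))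
  · obtain ⟨x, -, -, -, -, -, k, -⟩ := M.real (tyL M v) (!tyL M v) false false
      (by cases tyL M v <;> decide)
    exact ⟨(v, x), hv, lv, k, fun u vu => absurd ⟨u, vu⟩ h⟩

theorem step : BInv M (P.n + 1) P.V' P.A' where
  symm := A'_symm
  irrefl := A'_irrefl
  mem h := (A'_len h).2.2
  le := by
    rintro x (h | ⟨v, h⟩)
    · exact (P.inv.le h).trans (Nat.le_succ _)
    · exact h.len.2.le
  lip h := (A'_len h).2.1
  full := by
    rintro v (h | ⟨w, h⟩) lv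
    · by_cases e : v.length = P.n
      · exact full_top h e
      obtain ⟨φ, hφ⟩ := P.inv.full v h (by omega)
      have key : ∀ {w}, P.A' v w → P.A v w := fun hw =>
        ((A'_low (by omega)).mp hw).resolve_right (fun h => e h.len.1)
      refine ⟨φ, ⟨fun hw => hφ.kap (key hw), fun hw => hφ.tau (key hw), fun hw hw' => ?_,
        fun hw hw' => hφ.inj (key hw) (key hw')⟩, fun x hx => ?_⟩
      · rw [A'_old (A_len (key hw)).2 (A_len (key hw')).2, hφ.adj (key hw) (key hw')]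
      · obtain ⟨w, h1, h2⟩ := hφ.surj x hx
        exact ⟨w, Or.inl h1, h2⟩
    · have := h.len; omega
  top := by
    rintro z (h | ⟨v, h⟩) lz
    · have := P.inv.le h; omega
    have low : ∀ {p}, P.A' z p → p.length ≤ P.n → P.Up p z := fun hp lp =>
      (A'_up lp (by omega)).mp (A'_symm hp)
    obtain ⟨φ, h1, h2⟩ := new_chart (M := M) (ty := tyL M) (A := P.A') A'_symm A'_irrefl (z := z)
      (fun p => P.Up p z) (fun p hp => A'_symm hp.adj) ⟨v, h⟩
      (fun p q hp hq e => Or.inl (hp.clique hq e)) (fun p hp => full_top hp.mem hp.len.1)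
      (fun y hy => by
        by_cases ly : y.length ≤ P.n
        · exact ⟨y, low hy ly, Or.inl rfl⟩
        · obtain ⟨p, h1, h2⟩ := top_edge (by omega) (by omega) hy
          exact ⟨p, h1, Or.inr h2.adj⟩)
      (fun y y' hy hy' e => by
        by_cases ly : y.length ≤ P.n
        · exact ⟨y, low hy ly, Or.inl rfl, Or.inr e⟩
        by_cases ly' : y'.length ≤ P.n
        · exact ⟨y', low hy' ly', Or.inr (A'_symm e), Or.inl rfl⟩
        obtain ⟨p, h1, h2, h3⟩ := top_tri (by omega) (by omega) (by omega) hy e hy'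
        exact ⟨p, h1, Or.inr h2.adj, Or.inr h3.adj⟩)
    exact ⟨φ, h1, fun p x hp => h2 p x (low hp.1 (by omega))⟩
  clique := by
    intro z p q lz zp zq lp lq e
    exact Or.inl (((A'_up (by omega) (by omega)).mp (A'_symm zp)).clique
      ((A'_up (by omega) (by omega)).mp (A'_symm zq)) e)
  edge := by
    intro y z h ly lz
    obtain ⟨p, h1, h2⟩ := top_edge (by omega) (by omega) h
    exact ⟨p, by have := h1.len; omega, A'_symm h1.adj, A'_symm h2.adj⟩
  tri := by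
    intro x y z xy yz xz lx ly lz
    obtain ⟨p, h1, h2, h3⟩ := top_tri (by omega) (by omega) (by omega) xy yz xz
    exact ⟨p, by have := h1.len; omega, A'_symm h1.adj, A'_symm h2.adj, A'_symm h3.adj⟩
  down := by
    rintro z (h | ⟨v, h⟩) e
    · obtain ⟨p, h1, h2⟩ := P.inv.down z h e
      exact ⟨p, Or.inl h1, h2⟩
    · exact ⟨v, A'_symm h.adj, by have := h.len; omega⟩
  ex := by
    obtain ⟨⟨v, x⟩, h⟩ := exists_new (P := P)
    exact ⟨_, Or.inr ⟨v, x, h, rfl⟩, h.nm_len⟩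
  root := Or.inl P.inv.root

end Pre

theorem BInv.step {M : Mod} {n V A} (h : BInv M n V A) : ∃ V' A', BInv M (n + 1) V' A' ∧
    (∀ x, V x → V' x) ∧ ∀ x y, x.length ≤ n → y.length ≤ n → (A' x y ↔ A x y) := by
  classical
  have : ∀ v, ∃ φ, V v → v.length = n → Chart M A (tyL M) v φ ∧
      ∀ p x, (A v p ∧ p.length < n) → M.L (φ p) x → ∃ w, A v w ∧ φ w = x := by
    intro v
    by_cases hv : V v ∧ v.length = n
    · obtain ⟨φ, hφ⟩ := h.top v hv.1 hv.2
      exact ⟨φ, fun _ _ => hφ⟩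
    · obtain ⟨x, -⟩ := M.real true false false false (by decide)
      exact ⟨fun _ => x, fun h1 h2 => absurd ⟨h1, h2⟩ hv⟩
  choose φ hφ using this
  let P : Pre M := ⟨n, V, A, h, φ, fun h1 h2 => (hφ _ h1 h2).1,
    fun h1 h2 h3 h4 h5 => (hφ _ h1 h2).2 _ _ ⟨h3, h4⟩ h5⟩
  exact ⟨P.V', P.A', P.step, fun x hx => Or.inl hx, fun x y h1 h2 => Pre.A'_old (P := P) h1 h2⟩

theorem binv_zero (M : Mod) : BInv M 0 (fun v => v = []) (fun _ _ => False) where
  symm h := h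
  irrefl _ h := h
  mem h := h.elim
  le h := by simp [h]
  lip h := h.elim
  full _ _ h := absurd h (Nat.not_lt_zero _)
  top v _ _ := by
    obtain ⟨x, -⟩ := M.real true false false false (by decide)
    exact ⟨fun _ => x, ⟨False.elim, False.elim, False.elim, False.elim⟩, fun _ _ h => h.1.elim⟩
  clique _ h := h.elim
  edge h := h.elim
  tri h := h.elim
  down _ h e := absurd h e
  ex := ⟨[], rfl, rfl⟩
  root := rfl

theorem Mod.exists_graph (M : Mod) : ∃ (U : Type) (V : Set U) (A : U → U → Prop) (ty : U → Bool)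
    (o : U), (∀ x y, A x y → A y x) ∧ (∀ x y, A x y → x ∈ V) ∧
    (∀ v ∈ V, ∃ φ, Full M A ty v φ) ∧ o ∈ V ∧ ty o = true ∧
    (∀ v ∈ V, Relation.ReflTransGen A o v) ∧ V.Infinite := by
  choose V' A' h1 h2 h3 using fun (n : ℕ) (S : {S : (List M.T → Prop) ×
    (List M.T → List M.T → Prop) // BInv M n S.1 S.2}) => S.2.step
  let S : ∀ n : ℕ, {S : (List M.T → Prop) × (List M.T → List M.T → Prop) // BInv M n S.1 S.2} :=
    fun n => Nat.rec ⟨(_, _), binv_zero M⟩ (fun n S => ⟨(V' n S, A' n S), h1 n S⟩) n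
  have hV : ∀ m n, m ≤ n → ∀ x, (S m).1.1 x → (S n).1.1 x := by
    intro m n hmn x hx
    induction hmn with
    | refl => exact hx
    | step _ ih => exact h2 _ (S _) x ih
  have hA : ∀ m n, m ≤ n → ∀ x y, x.length ≤ m → y.length ≤ m →
      ((S n).1.2 x y ↔ (S m).1.2 x y) := by
    intro m n hmn x y hx hy
    induction hmn with
    | refl => rfl
    | step h ih => exact (h3 _ (S _) x y (hx.trans h) (hy.trans h)).trans ih
  let A : List M.T → List M.T → Prop := fun x y => ∃ n, (S n).1.2 x y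
  have hA' : ∀ n x y, x.length ≤ n → y.length ≤ n → (A x y ↔ (S n).1.2 x y) := by
    intro n x y hx hy
    refine ⟨?_, fun h => ⟨n, h⟩⟩
    rintro ⟨m, h⟩
    rcases le_total m n with e | e
    · exact (hA m n e x y ((S m).2.le ((S m).2.mem h))
        ((S m).2.le ((S m).2.mem ((S m).2.symm h)))).mpr h
    · exact (hA n m e x y hx hy).mp h
  refine ⟨List M.T, {x | ∃ n, (S n).1.1 x}, A, tyL M, [], ?_, ?_, ?_, ⟨0, rfl⟩, rfl, ?_, ?_⟩
  · rintro x y ⟨n, h⟩
    exact ⟨n, (S n).2.symm h⟩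
  · rintro x y ⟨n, h⟩
    exact ⟨n, (S n).2.mem h⟩
  · rintro v ⟨n, h⟩
    have lv := (S n).2.le h
    obtain ⟨φ, hφ⟩ := (S (n + 1)).2.full v (hV n _ (Nat.le_succ n) v h) (by omega)
    have len : ∀ {w}, A v w → w.length ≤ n + 1 := by
      rintro w ⟨m, hw⟩
      have := (S m).2.lip ((S m).2.symm hw)
      omega
    have key : ∀ {w}, A v w → (S (n + 1)).1.2 v w := fun hw =>
      (hA' _ _ _ (by omega) (len hw)).mp hw
    refine ⟨φ, ⟨fun hw => hφ.kap (key hw), fun hw => hφ.tau (key hw), fun hw hw' => ?_,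
      fun hw hw' => hφ.inj (key hw) (key hw')⟩, fun x hx => ?_⟩
    · rw [hA' _ _ _ (len hw) (len hw'), hφ.adj (key hw) (key hw')]
    · obtain ⟨w, h1, h2⟩ := hφ.surj x hx
      exact ⟨w, ⟨_, h1⟩, h2⟩
  · rintro v ⟨n, h⟩
    induction hl : v.length using Nat.strong_induction_on generalizing v with
    | _ k ih =>
      by_cases e : v = []
      · rw [e]
      obtain ⟨p, h1, h2⟩ := (S n).2.down v h e
      exact (ih _ (hl ▸ h2) p ((S n).2.mem ((S n).2.symm h1)) rfl).tail ⟨n, (S n).2.symm h1⟩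
  · apply Set.Infinite.of_image List.length
    apply Set.infinite_of_forall_exists_gt
    intro n
    obtain ⟨v, h1, h2⟩ := (S (n + 1)).2.ex
    exact ⟨_, ⟨v, ⟨_, h1⟩, rfl⟩, by omega⟩

end Pool.Agent.MP_6b3afb_co
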