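import Pool.Agent.MP_6b3afb_co.Torus

namespace Pool.Agent.MP_6b3afb_co

def Chain (P : Type) [PartialOrder P] : Type := {φ : Fin 6 → P // StrictMono φ}

def lo (i : Fin 4) : Fin 6 := ⟨i, by omega⟩
def mid (i : Fin 4) : Fin 6 := ⟨i + 1, by omega⟩
def hi (i : Fin 4) : Fin 6 := ⟨i + 2, by omega⟩

theorem mid_inj {i j : Fin 4} (h : mid i = mid j) : i = j := by
  revert i j; decide

section general
variable {P : Type} [PartialOrder P]

theorem no7 (hc : ∀ X : Flag P, (X : Set P).ncard = 6) (χ : Fin 7 → P) (h : StrictMono χ) :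
    False := by
  obtain ⟨X, hX⟩ := h.monotone.isChain_range.exists_subset_flag
  have hfin : (X : Set P).Finite := Set.finite_of_ncard_ne_zero (by rw [hc]; norm_num)
  have := Set.ncard_le_ncard hX hfin
  rw [hc, Set.ncard_range_of_injective h.injective] at this
  simp at this

theorem Chain.exists_flag (hc : ∀ X : Flag P, (X : Set P).ncard = 6) (φ : Chain P) :
    ∃ X : Flag P, (X : Set P) = Set.range φ.1 := by
  obtain ⟨X, hX⟩ := φ.2.monotone.isChain_range.exists_subset_flag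
  have hfin : (X : Set P).Finite := Set.finite_of_ncard_ne_zero (by rw [hc]; norm_num)
  refine ⟨X, (Set.eq_of_subset_of_ncard_le hX ?_ hfin).symm⟩
  rw [hc, Set.ncard_range_of_injective φ.2.injective]
  simp

theorem exists_chain (hc : ∀ X : Flag P, (X : Set P).ncard = 6) (X : Flag P) :
    ∃ φ : Chain P, (X : Set P) = Set.range φ.1 := by
  classical
  have hfin : (X : Set P).Finite := Set.finite_of_ncard_ne_zero (by rw [hc]; norm_num)
  have : Fintype X := hfin.fintype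
  have hcard : Fintype.card X = 6 := by
    rw [← hc X, ← Nat.card_eq_fintype_card]
    rfl
  let e := monoEquivOfFin X hcard
  refine ⟨⟨fun i => (e i : P), fun i j h => e.strictMono h⟩, ?_⟩
  ext x
  constructor
  · intro hx
    exact ⟨e.symm ⟨x, hx⟩, by simp⟩
  · rintro ⟨i, rfl⟩
    exact (e i).2

theorem Chain.rank (hc : ∀ X : Flag P, (X : Set P).ncard = 6) :
    ∀ (φ ψ : Chain P) {i j : Fin 6}, φ.1 i = ψ.1 j → i = j := by
  have key : ∀ (φ ψ : Chain P) {i j : Fin 6}, φ.1 i = ψ.1 j → ¬ i < j := by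
    intro φ ψ i j h hij
    apply no7 hc (fun k : Fin 7 => if hk : (k : ℕ) ≤ j then ψ.1 ⟨k, by omega⟩
      else φ.1 ⟨k - j + i, by omega⟩)
    intro a b hab
    have hab' : (a : ℕ) < b := hab
    dsimp only
    split_ifs with h1 h2 h2
    · exact ψ.2 hab'
    · calc ψ.1 ⟨a, by omega⟩ ≤ ψ.1 j := ψ.2.monotone h1
        _ = φ.1 i := h.symm
        _ < _ := φ.2 (show (i : ℕ) < b - j + i by omega)
    · omega
    · exact φ.2 (show (a : ℕ) - j + i < b - j + i by omega)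
  intro φ ψ i j h
  exact le_antisymm (not_lt.mp (key ψ φ h.symm)) (not_lt.mp (key φ ψ h))

theorem Chain.ext_range (hc : ∀ X : Flag P, (X : Set P).ncard = 6) {φ ψ : Chain P}
    (h : Set.range φ.1 = Set.range ψ.1) : φ = ψ := by
  apply Subtype.ext
  funext i
  obtain ⟨j, hj⟩ : φ.1 i ∈ Set.range ψ.1 := h ▸ ⟨i, rfl⟩
  rw [← hj, Chain.rank hc _ _ hj]

theorem Chain.covBy (hc : ∀ X : Flag P, (X : Set P).ncard = 6) (φ : Chain P) {i j : Fin 6}
    (hij : (j : ℕ) = i + 1) : φ.1 i ⋖ φ.1 j := by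
  refine ⟨φ.2 (show (i : ℕ) < j by omega), fun x h1 h2 => ?_⟩
  obtain ⟨X, hX⟩ := φ.exists_flag hc
  have hx : x ∈ X := by
    rw [Flag.mem_iff_forall_le_or_ge]
    intro b hb
    obtain ⟨k, rfl⟩ : b ∈ Set.range φ.1 := hX ▸ hb
    by_cases hk : k ≤ i
    · exact Or.inr ((φ.2.monotone hk).trans h1.le)
    · exact Or.inl (h2.le.trans (φ.2.monotone (show (j : ℕ) ≤ k by omega)))
  obtain ⟨k, rfl⟩ : x ∈ Set.range φ.1 := hX ▸ hx
  have h3 := φ.2.lt_iff_lt.mp h1
  have h4 := φ.2.lt_iff_lt.mp h2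
  omega

theorem exists_chain_mem (hc : ∀ X : Flag P, (X : Set P).ncard = 6) (x : P) :
    ∃ (φ : Chain P) (i : Fin 6), φ.1 i = x := by
  obtain ⟨X, hX⟩ := Flag.exists_mem x
  obtain ⟨φ, hφ⟩ := exists_chain hc X
  obtain ⟨i, hi⟩ : x ∈ Set.range φ.1 := hφ ▸ hX
  exact ⟨φ, i, hi⟩

variable [BoundedOrder P]

theorem Chain.zero (hc : ∀ X : Flag P, (X : Set P).ncard = 6) (φ : Chain P) : φ.1 0 = ⊥ := by
  obtain ⟨X, hX⟩ := φ.exists_flag hc
  obtain ⟨k, hk⟩ : ⊥ ∈ Set.range φ.1 := hX ▸ X.bot_mem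
  exact le_bot_iff.mp (hk ▸ φ.2.monotone (Fin.zero_le k))

theorem Chain.five (hc : ∀ X : Flag P, (X : Set P).ncard = 6) (φ : Chain P) : φ.1 5 = ⊤ := by
  obtain ⟨X, hX⟩ := φ.exists_flag hc
  obtain ⟨k, hk⟩ : ⊤ ∈ Set.range φ.1 := hX ▸ X.top_mem
  exact top_le_iff.mp (hk ▸ φ.2.monotone (Fin.le_last k))

omit [BoundedOrder P] in
def AdjAt (i : Fin 4) (φ ψ : Chain P) : Prop :=
  ψ.1 (mid i) ≠ φ.1 (mid i) ∧ ∀ j, j ≠ mid i → ψ.1 j = φ.1 j

omit [BoundedOrder P] in
theorem AdjAt.symm {i : Fin 4} {φ ψ : Chain P} (h : AdjAt i φ ψ) : AdjAt i ψ φ :=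
  ⟨h.1.symm, fun j hj => (h.2 j hj).symm⟩

theorem adjacent_iff (hc : ∀ X : Flag P, (X : Set P).ncard = 6) {X Y : Flag P} {φ ψ : Chain P}
    (hX : (X : Set P) = Set.range φ.1) (hY : (Y : Set P) = Set.range ψ.1) :
    Adjacent X Y ↔ ∃ i, AdjAt i φ ψ := by
  unfold Adjacent
  rw [hX, hY, Set.ncard_eq_one]
  constructor
  · rintro ⟨x, hx⟩
    obtain ⟨⟨k, rfl⟩, hk⟩ : x ∈ Set.range φ.1 \ Set.range ψ.1 := hx ▸ rfl
    have h0 : k ≠ 0 := by
      rintro rfl
      exact hk ⟨0, by rw [Chain.zero hc, Chain.zero hc]⟩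
    have h5 : k ≠ 5 := by
      rintro rfl
      exact hk ⟨5, by rw [Chain.five hc, Chain.five hc]⟩
    obtain ⟨i, rfl⟩ : ∃ i, k = mid i :=
      (show ∀ k : Fin 6, k ≠ 0 → k ≠ 5 → ∃ i, k = mid i by decide) k h0 h5
    refine ⟨i, fun h => hk ⟨_, h⟩, fun j hj => ?_⟩
    by_contra hne
    have : φ.1 j ∈ Set.range φ.1 \ Set.range ψ.1 := by
      refine ⟨⟨j, rfl⟩, ?_⟩
      rintro ⟨j', hj'⟩
      exact hne (by rw [← hj', Chain.rank hc _ _ hj'])
    rw [hx] at this
    exact hj (φ.2.injective this)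
  · rintro ⟨i, h1, h2⟩
    refine ⟨φ.1 (mid i), ?_⟩
    ext x
    constructor
    · rintro ⟨⟨j, rfl⟩, hj⟩
      by_contra hne
      have : j ≠ mid i := fun h => hne (by rw [h]; rfl)
      exact hj ⟨j, h2 j this⟩
    · rintro rfl
      refine ⟨⟨_, rfl⟩, ?_⟩
      rintro ⟨j, hj⟩
      have := Chain.rank hc _ _ hj
      subst this
      exact h1 hj

end general

variable {s t u v : ℕ} (Q : Poly s t u v)

theorem Poly.exists_unique_adj (i : Fin 4) (φ : Chain Q.P) : ∃! ψ, AdjAt i φ ψ := by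
  have h1 := φ.covBy Q.flag_card (i := lo i) (j := mid i) rfl
  have h2 := φ.covBy Q.flag_card (i := mid i) (j := hi i) rfl
  have hd := Q.diamond _ _ _ h1 h2
  have hm : φ.1 (mid i) ∈ Set.Ioo (φ.1 (lo i)) (φ.1 (hi i)) := ⟨h1.lt, h2.lt⟩
  obtain ⟨b, hb, hbne, hbu⟩ : ∃ b ∈ Set.Ioo (φ.1 (lo i)) (φ.1 (hi i)), b ≠ φ.1 (mid i) ∧
      ∀ c ∈ Set.Ioo (φ.1 (lo i)) (φ.1 (hi i)), c ≠ φ.1 (mid i) → c = b := by
    obtain ⟨x, y, hxy, hs⟩ := Set.ncard_eq_two.mp hd
    rw [hs] at hm ⊢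
    rcases hm with hm | hm
    · rw [hm]
      exact ⟨y, by simp, hxy.symm, fun c hc hc' => hc.resolve_left hc'⟩
    · rw [hm]
      exact ⟨x, by simp, hxy, fun c hc hc' => hc.resolve_right hc'⟩
  have hlo : lo i ≠ mid i := (show ∀ i, lo i ≠ mid i by decide) i
  have hhi : hi i ≠ mid i := (show ∀ i, hi i ≠ mid i by decide) i
  refine ⟨⟨Function.update φ.1 (mid i) b, ?_⟩, ⟨by simpa using hbne, fun j hj => by simp [hj]⟩, ?_⟩
  · intro a c hac
    by_cases ha : a = mid i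
    · subst ha
      rw [Function.update_self, Function.update_of_ne hac.ne']
      exact hb.2.trans_le (φ.2.monotone (show (i : ℕ) + 2 ≤ c by
        have : (i : ℕ) + 1 < c := hac
        omega))
    · rw [Function.update_of_ne ha]
      by_cases hc : c = mid i
      · subst hc
        rw [Function.update_self]
        exact (φ.2.monotone (show (a : ℕ) ≤ i by
          have : (a : ℕ) < i + 1 := hac
          omega)).trans_lt hb.1
      · rw [Function.update_of_ne hc]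
        exact φ.2 hac
  · rintro ψ ⟨h3, h4⟩
    apply Subtype.ext
    funext j
    by_cases hj : j = mid i
    · subst hj
      simp only [Function.update_self]
      refine hbu _ ⟨?_, ?_⟩ h3
      · rw [← h4 _ hlo]
        exact ψ.2 (show (i : ℕ) < i + 1 by omega)
      · rw [← h4 _ hhi]
        exact ψ.2 (show (i : ℕ) + 1 < i + 2 by omega)
    · simp [hj, h4 j hj]

noncomputable def Poly.r (i : Fin 4) (φ : Chain Q.P) : Chain Q.P :=
  (Q.exists_unique_adj i φ).choose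

theorem Poly.r_adj (i : Fin 4) (φ : Chain Q.P) : AdjAt i φ (Q.r i φ) :=
  (Q.exists_unique_adj i φ).choose_spec.1

theorem Poly.r_eq {i : Fin 4} {φ ψ : Chain Q.P} (h : AdjAt i φ ψ) : Q.r i φ = ψ :=
  ((Q.exists_unique_adj i φ).choose_spec.2 ψ h).symm

theorem Poly.r_invol (i : Fin 4) : Function.Involutive (Q.r i) :=
  fun φ => Q.r_eq (Q.r_adj i φ).symm

theorem Poly.conn (φ ψ : Chain Q.P) : ∃ w, run Q.r w φ = ψ := by
  obtain ⟨X, hX⟩ := φ.exists_flag Q.flag_card
  obtain ⟨Y, hY⟩ := ψ.exists_flag Q.flag_card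
  have h := Q.connected X Y
  have key : ∀ Z : Flag Q.P, Relation.ReflTransGen
      (fun A B : Flag Q.P => Adjacent A B ∧ (X : Set Q.P) ∩ Y ⊆ B) X Z →
      ∃ w, (Z : Set Q.P) = Set.range (run Q.r w φ).1 := by
    intro Z hZ
    induction hZ with
    | refl => exact ⟨[], hX⟩
    | tail _ hab ih =>
      obtain ⟨w, hw⟩ := ih
      rename_i A B _
      obtain ⟨χ, hχ⟩ := exists_chain Q.flag_card B
      obtain ⟨i, hi⟩ := (adjacent_iff Q.flag_card hw hχ).mp hab.1
      exact ⟨w ++ [i], by rw [run_append, hχ, ← Q.r_eq hi]; rfl⟩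
  obtain ⟨w, hw⟩ := key Y h
  exact ⟨w, Chain.ext_range Q.flag_card (hw.symm.trans hY)⟩

def Poly.act (f : Q.P ≃o Q.P) (φ : Chain Q.P) : Chain Q.P := ⟨f ∘ φ.1, f.strictMono.comp φ.2⟩

theorem Poly.act_r (f : Q.P ≃o Q.P) (i : Fin 4) (φ : Chain Q.P) :
    Q.act f (Q.r i φ) = Q.r i (Q.act f φ) := by
  symm
  apply Q.r_eq
  obtain ⟨h1, h2⟩ := Q.r_adj i φ
  exact ⟨fun h => h1 (f.injective h), fun j hj => congrArg f (h2 j hj)⟩

theorem Poly.act_run (f : Q.P ≃o Q.P) (w : List (Fin 4)) (φ : Chain Q.P) :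
    Q.act f (run Q.r w φ) = run Q.r w (Q.act f φ) :=
  run_semiconj (Q.act f) (Q.act_r f) w φ

theorem Poly.act_mul (f g : Q.P ≃o Q.P) (φ : Chain Q.P) :
    Q.act (f * g) φ = Q.act f (Q.act g φ) := rfl

theorem Poly.act_inj {f g : Q.P ≃o Q.P} {φ : Chain Q.P} (h : Q.act f φ = Q.act g φ) : f = g := by
  ext x
  obtain ⟨ψ, j, rfl⟩ := exists_chain_mem Q.flag_card x
  obtain ⟨w, rfl⟩ := Q.conn φ ψ
  have : Q.act f (run Q.r w φ) = Q.act g (run Q.r w φ) := by rw [Q.act_run, Q.act_run, h]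
  exact congrFun (congrArg Subtype.val this) j

theorem Poly.act_trans (φ ψ : Chain Q.P) : ∃ f, Q.act f φ = ψ := by
  obtain ⟨X, hX⟩ := φ.exists_flag Q.flag_card
  obtain ⟨Y, hY⟩ := ψ.exists_flag Q.flag_card
  obtain ⟨f, hf⟩ := Q.regular X Y
  refine ⟨f, Chain.ext_range Q.flag_card ?_⟩
  rw [← hY, ← hf, Flag.coe_map, hX, ← Set.range_comp]
  rfl

theorem Poly.nonempty_chain : Nonempty (Chain Q.P) := by
  obtain ⟨φ, -⟩ := exists_chain_mem Q.flag_card (⊥ : Q.P)
  exact ⟨φ⟩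

theorem Poly.run_fix {i : Fin 4} {w : List (Fin 4)} (hw : i ∉ w) (φ : Chain Q.P) :
    (run Q.r w φ).1 (mid i) = φ.1 (mid i) :=
  run_invariant (fun ψ : Chain Q.P => ψ.1 (mid i) = φ.1 (mid i)) w
    (fun j hj ψ hψ => by
      rw [(Q.r_adj j ψ).2 (mid i) (fun h => hw (mid_inj h ▸ hj)), hψ]) φ rfl

theorem Poly.r_comm03 (φ : Chain Q.P) : run Q.r [0, 3, 0, 3] φ = φ := by
  have key : Q.r 0 (Q.r 3 φ) = Q.r 3 (Q.r 0 φ) := by
    have h0 := Q.r_adj 0 φ
    have h3 := Q.r_adj 3 φ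
    let χ : Chain Q.P := ⟨![φ.1 0, (Q.r 0 φ).1 1, φ.1 2, φ.1 3, (Q.r 3 φ).1 4, φ.1 5], by
      rw [Fin.strictMono_iff_lt_succ]
      intro j
      fin_cases j
      · exact h0.2 0 (by decide) ▸ (Q.r 0 φ).2 (show (0 : Fin 6) < 1 by decide)
      · exact h0.2 2 (by decide) ▸ (Q.r 0 φ).2 (show (1 : Fin 6) < 2 by decide)
      · exact φ.2 (show (2 : Fin 6) < 3 by decide)
      · exact h3.2 3 (by decide) ▸ (Q.r 3 φ).2 (show (3 : Fin 6) < 4 by decide)
      · exact h3.2 5 (by decide) ▸ (Q.r 3 φ).2 (show (4 : Fin 6) < 5 by decide)⟩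
    have e1 : Q.r 0 (Q.r 3 φ) = χ := by
      apply Q.r_eq
      refine ⟨fun h => h0.1 (h.trans (h3.2 _ (by decide))), fun j hj => ?_⟩
      fin_cases j
      · exact (h3.2 0 (by decide)).symm
      · exact absurd rfl hj
      · exact (h3.2 2 (by decide)).symm
      · exact (h3.2 3 (by decide)).symm
      · rfl
      · exact (h3.2 5 (by decide)).symm
    have e2 : Q.r 3 (Q.r 0 φ) = χ := by
      apply Q.r_eq
      refine ⟨fun h => h3.1 (h.trans (h0.2 _ (by decide))), fun j hj => ?_⟩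
      fin_cases j
      · exact (h0.2 0 (by decide)).symm
      · rfl
      · exact (h0.2 2 (by decide)).symm
      · exact (h0.2 3 (by decide)).symm
      · exact absurd rfl hj
      · exact (h0.2 5 (by decide)).symm
    rw [e1, e2]
  simp only [run_cons, run_nil]
  rw [← key, Q.r_invol, Q.r_invol]

theorem K_cancel {s t : ℕ} (w0 w : List (Fin 3)) : K s t (w0.reverse ++ (w0 ++ w)) ↔ K s t w := by
  unfold K
  rw [← List.append_assoc, fr_append, fr_append, fr, run_run_reverse sf_invol]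
  rfl

theorem Poly.section_lemma {a b : ℕ} (hab : Adm a b) (pos : Fin 3 → Fin 4)
    (g : TorusFace a b → Q.P) (hg : Function.Injective g)
    (C : List (Fin 3) → Chain Q.P) (hC1 : ∀ w i, (C w).1 (mid (pos i)) = g (tf a b w i))
    (hC2 : ∀ w w' j, (∀ i, j ≠ mid (pos i)) → (C w).1 j = (C w').1 j) (w0 w : List (Fin 3)) :
    run Q.r (w.map pos) (C w0) = C w0 ↔ K a b w := by
  have h1 : ∀ w j, Q.r (pos j) (C w) = C (w ++ [j]) := by
    intro w j
    apply Q.r_eq
    refine ⟨?_, fun k hk => ?_⟩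
    · rw [hC1, hC1]
      exact fun h => tf_append_ne hab w j (hg h)
    · by_cases h : ∃ i, k = mid (pos i)
      · obtain ⟨i, rfl⟩ := h
        rw [hC1, hC1, tf_append_avoid hab]
        simp only [List.mem_singleton]
        rintro rfl
        exact hk rfl
      · exact hC2 _ _ _ (fun i hi => h ⟨i, hi⟩)
  have h2 : ∀ w w0, run Q.r (w.map pos) (C w0) = C (w0 ++ w) := by
    intro w
    induction w with
    | nil => simp
    | cons j w ih => intro w0; simp [h1, ih]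
  rw [h2, ← K_cancel w0]
  constructor
  · intro h
    apply K_of_tf_eq hab
    intro i
    apply hg
    rw [← hC1, ← hC1, h]
  · intro h
    apply Subtype.ext
    funext k
    by_cases hk : ∃ i, k = mid (pos i)
    · obtain ⟨i, rfl⟩ := hk
      rw [hC1, hC1, tf_eq_of_K hab h]
    · exact hC2 _ _ _ (fun i hi => hk ⟨i, hi⟩)

def up {a b : ℕ} (x : TorusFace a b) : Map36 a b := ((x : WithTop (TorusFace a b)) : WithBot _)

theorem up_inj {a b : ℕ} : Function.Injective (up : TorusFace a b → Map36 a b) :=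
  fun _ _ h => WithTop.coe_injective (WithBot.coe_injective h)

theorem up_le {a b : ℕ} {x y : TorusFace a b} : up x ≤ up y ↔ x ≤ y := by
  unfold up
  rw [WithBot.coe_le_coe, WithTop.coe_le_coe]

def mtop (a b : ℕ) : Map36 a b := ((⊤ : WithTop (TorusFace a b)) : WithBot _)

theorem map36_cases {a b : ℕ} (x : Map36 a b) : x = ⊥ ∨ x = mtop a b ∨ ∃ y, x = up y := by
  induction x using WithBot.recBotCoe with
  | bot => exact Or.inl rfl
  | coe x =>
    induction x using WithTop.recTopCoe with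
    | top => exact Or.inr (Or.inl rfl)
    | coe y => exact Or.inr (Or.inr ⟨y, rfl⟩)

theorem up_le_mtop {a b : ℕ} (x : TorusFace a b) : up x ≤ mtop a b := by
  unfold up mtop
  rw [WithBot.coe_le_coe]
  exact le_top

theorem not_mtop_le_up {a b : ℕ} (x : TorusFace a b) : ¬ mtop a b ≤ up x := by
  unfold up mtop
  rw [WithBot.coe_le_coe]
  exact WithTop.not_top_le_coe x

theorem up_ne_mtop {a b : ℕ} (x : TorusFace a b) : up x ≠ mtop a b :=
  fun h => WithTop.coe_ne_top (WithBot.coe_injective h)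

theorem bot_ne_up {a b : ℕ} (x : TorusFace a b) : ⊥ ≠ up x := WithBot.bot_ne_coe

theorem not_up_le_bot {a b : ℕ} (x : TorusFace a b) : ¬ up x ≤ ⊥ := WithBot.not_coe_le_bot _

theorem not_mtop_le_bot {a b : ℕ} : ¬ mtop a b ≤ ⊥ := WithBot.not_coe_le_bot _

theorem map36_chain {a b : ℕ} (hab : Adm a b) (x0 x1 x2 x3 x4 : Map36 a b)
    (h01 : x0 ≤ x1) (h12 : x1 ≤ x2) (h23 : x2 ≤ x3) (h34 : x3 ≤ x4)
    (n01 : x0 ≠ x1) (n12 : x1 ≠ x2) (n23 : x2 ≠ x3) (n34 : x3 ≠ x4) :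
    ∃ w, x1 = up (tf a b w 0) ∧ x2 = up (tf a b w 1) ∧ x3 = up (tf a b w 2) := by
  have key : ∀ x y z : Map36 a b, x ≤ y → y ≤ z → x ≠ y → y ≠ z → ∃ w i, y = up (tf a b w i) := by
    intro x y z hxy hyz nxy nyz
    rcases map36_cases y with rfl | rfl | ⟨y, rfl⟩
    · rcases map36_cases x with rfl | rfl | ⟨x, rfl⟩
      · exact absurd rfl nxy
      · exact absurd hxy not_mtop_le_bot
      · exact absurd hxy (not_up_le_bot _)
    · rcases map36_cases z with rfl | rfl | ⟨z, rfl⟩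
      · exact absurd hyz not_mtop_le_bot
      · exact absurd rfl nyz
      · exact absurd hyz (not_mtop_le_up _)
    · obtain ⟨w, i, rfl⟩ := tf_surj y
      exact ⟨w, i, rfl⟩
  obtain ⟨w1, i1, rfl⟩ := key _ _ _ h01 h12 n01 n12
  obtain ⟨w2, i2, rfl⟩ := key _ _ _ h12 h23 n12 n23
  obtain ⟨w3, i3, rfl⟩ := key _ _ _ h23 h34 n23 n34
  rw [up_le] at h12 h23
  have key2 : ∀ {w w' i j}, tf a b w i ≤ tf a b w' j → up (tf a b w i) ≠ up (tf a b w' j) →
      i < j := by
    intro w w' i j h hn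
    obtain ⟨hij, x, h1, h2⟩ := (tf_le_iff hab _ _ _ _).mp h
    refine lt_of_le_of_ne hij ?_
    rintro rfl
    exact hn (by rw [← h1, ← h2])
  have h1 := key2 h12 n12
  have h2 := key2 h23 n23
  obtain rfl : i1 = 0 := by omega
  obtain rfl : i2 = 1 := by omega
  obtain rfl : i3 = 2 := by omega
  obtain ⟨w, e1, e2, e3⟩ := tf_chain hab rfl rfl rfl h12 h23
  exact ⟨w, by rw [e1], by rw [e2], by rw [e3]⟩

theorem tf_le_tf {a b : ℕ} (hab : Adm a b) (w : List (Fin 3)) {i j : Fin 3} (h : i ≤ j) :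
    tf a b w i ≤ tf a b w j := (tf_le_iff hab _ _ _ _).mpr ⟨h, w, rfl, rfl⟩

theorem tf_ne_tf {a b : ℕ} (hab : Adm a b) (w : List (Fin 3)) {i j : Fin 3} (h : i ≠ j) :
    tf a b w i ≠ tf a b w j := fun hh => h ((tf_eq_iff hab _ _ _ _).mp hh).1

def posA (i : Fin 3) : Fin 4 := ⟨i, by omega⟩
def posB (i : Fin 3) : Fin 4 := ⟨3 - i, by omega⟩

theorem Poly.facet_run (hs : Adm s t) (φ : Chain Q.P) (w : List (Fin 3)) :
    run Q.r (w.map posA) φ = φ ↔ K s t w := by
  have hco : IsCoatom (φ.1 4) := by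
    rw [← covBy_top_iff, ← φ.five Q.flag_card]
    exact φ.covBy Q.flag_card rfl
  obtain ⟨e⟩ := Q.facet _ hco
  let g : Map36 s t → Q.P := fun x => (e.symm x : Q.P)
  have hgl : ∀ x y, x ≤ y → x ≠ y → g x < g y := fun x y h hn =>
    lt_of_le_of_ne (e.symm.le_iff_le.mpr h) (fun hh => hn (e.symm.injective (Subtype.ext hh)))
  let C : List (Fin 3) → Chain Q.P := fun w =>
    ⟨![⊥, g (up (tf s t w 0)), g (up (tf s t w 1)), g (up (tf s t w 2)), φ.1 4, ⊤], by
      rw [Fin.strictMono_iff_lt_succ]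
      intro j
      fin_cases j
      · exact bot_le.trans_lt (hgl ⊥ _ bot_le (bot_ne_up _))
      · exact hgl _ _ (up_le.mpr (tf_le_tf hs w (by decide)))
          (fun h => tf_ne_tf hs w (by decide) (up_inj h))
      · exact hgl _ _ (up_le.mpr (tf_le_tf hs w (by decide)))
          (fun h => tf_ne_tf hs w (by decide) (up_inj h))
      · exact (hgl _ (mtop s t) (up_le_mtop _)
          (up_ne_mtop _)).trans_le
          (e.symm _).2
      · exact hco.1.lt_top⟩
  let y : Fin 5 → Set.Iic (φ.1 4) := fun k =>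
    ⟨φ.1 k.castSucc, φ.2.monotone (show (k : ℕ) ≤ 4 by omega)⟩
  have hy : ∀ k l : Fin 5, k < l → e (y k) ≤ e (y l) ∧ e (y k) ≠ e (y l) := fun k l h =>
    ⟨e.le_iff_le.mpr (φ.2.monotone h.le), fun hh =>
      (φ.2 (show k.castSucc < l.castSucc from h)).ne (congrArg Subtype.val (e.injective hh))⟩
  obtain ⟨w0, e1, e2, e3⟩ := map36_chain hs _ _ _ _ _ (hy 0 1 (by decide)).1
    (hy 1 2 (by decide)).1 (hy 2 3 (by decide)).1 (hy 3 4 (by decide)).1 (hy 0 1 (by decide)).2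
    (hy 1 2 (by decide)).2 (hy 2 3 (by decide)).2 (hy 3 4 (by decide)).2
  have hφ : φ = C w0 := by
    apply Subtype.ext
    funext j
    fin_cases j
    · exact φ.zero Q.flag_card
    · simp only [C, g, ← e1, OrderIso.symm_apply_apply]; rfl
    · simp only [C, g, ← e2, OrderIso.symm_apply_apply]; rfl
    · simp only [C, g, ← e3, OrderIso.symm_apply_apply]; rfl
    · rfl
    · exact φ.five Q.flag_card
  have := Q.section_lemma hs posA (fun x => g (up x))
    (fun x y h => up_inj (e.symm.injective (Subtype.ext h))) C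
    (fun w i => by fin_cases i <;> rfl)
    (fun w w' j hj => by
      fin_cases j
      · rfl
      · exact absurd rfl (hj 0)
      · exact absurd rfl (hj 1)
      · exact absurd rfl (hj 2)
      · rfl
      · rfl) w0 w
  rw [← hφ] at this
  exact this

theorem Poly.vfig_run (hu : Adm u v) (φ : Chain Q.P) (w : List (Fin 3)) :
    run Q.r (w.map posB) φ = φ ↔ K u v w := by
  have hco : IsAtom (φ.1 1) := by
    rw [← bot_covBy_iff, ← φ.zero Q.flag_card]
    exact φ.covBy Q.flag_card rfl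
  obtain ⟨e⟩ := Q.vertexFigure _ hco
  let g : Map36 u v → Q.P := fun x => (e.symm (OrderDual.toDual x) : Q.P)
  have hgl : ∀ x y, x ≤ y → x ≠ y → g y < g x := fun x y h hn =>
    lt_of_le_of_ne (e.symm.le_iff_le.mpr h)
      (fun hh => hn (e.symm.injective (Subtype.ext hh)).symm)
  let C : List (Fin 3) → Chain Q.P := fun w =>
    ⟨![⊥, φ.1 1, g (up (tf u v w 2)), g (up (tf u v w 1)), g (up (tf u v w 0)), ⊤], by
      rw [Fin.strictMono_iff_lt_succ]
      intro j
      fin_cases j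
      · exact hco.bot_lt
      · exact LE.le.trans_lt (e.symm _).2 (hgl _ (mtop u v) (up_le_mtop _)
          (up_ne_mtop _))
      · exact hgl _ _ (up_le.mpr (tf_le_tf hu w (by decide)))
          (fun h => tf_ne_tf hu w (by decide) (up_inj h))
      · exact hgl _ _ (up_le.mpr (tf_le_tf hu w (by decide)))
          (fun h => tf_ne_tf hu w (by decide) (up_inj h))
      · exact (hgl ⊥ _ bot_le (bot_ne_up _)).trans_le le_top⟩
  let y : Fin 5 → Set.Ici (φ.1 1) := fun k =>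
    ⟨φ.1 k.succ, φ.2.monotone (show 1 ≤ (k : ℕ) + 1 by omega)⟩
  have hy : ∀ k l : Fin 5, k < l → OrderDual.ofDual (e (y l)) ≤ OrderDual.ofDual (e (y k)) ∧
      OrderDual.ofDual (e (y l)) ≠ OrderDual.ofDual (e (y k)) := fun k l h =>
    ⟨e.le_iff_le.mpr (φ.2.monotone (show k.succ ≤ l.succ from Fin.succ_le_succ_iff.mpr h.le)),
      fun hh => (φ.2 (show k.succ < l.succ from Fin.succ_lt_succ_iff.mpr h)).ne'
        (congrArg Subtype.val (e.injective hh))⟩
  obtain ⟨w0, e1, e2, e3⟩ := map36_chain hu _ _ _ _ _ (hy 3 4 (by decide)).1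
    (hy 2 3 (by decide)).1 (hy 1 2 (by decide)).1 (hy 0 1 (by decide)).1 (hy 3 4 (by decide)).2
    (hy 2 3 (by decide)).2 (hy 1 2 (by decide)).2 (hy 0 1 (by decide)).2
  have hφ : φ = C w0 := by
    apply Subtype.ext
    funext j
    fin_cases j
    · exact φ.zero Q.flag_card
    · rfl
    · simp only [C, g, ← e3, OrderDual.toDual_ofDual, OrderIso.symm_apply_apply]; rfl
    · simp only [C, g, ← e2, OrderDual.toDual_ofDual, OrderIso.symm_apply_apply]; rfl
    · simp only [C, g, ← e1, OrderDual.toDual_ofDual, OrderIso.symm_apply_apply]; rfl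
    · exact φ.five Q.flag_card
  have := Q.section_lemma hu posB (fun x => g (up x))
    (fun x y h => up_inj (e.symm.injective (Subtype.ext h))) C
    (fun w i => by fin_cases i <;> rfl)
    (fun w w' j hj => by
      fin_cases j
      · rfl
      · rfl
      · exact absurd rfl (hj 2)
      · exact absurd rfl (hj 1)
      · exact absurd rfl (hj 0)
      · rfl) w0 w
  rw [← hφ] at this
  exact this

end Pool.Agent.MP_6b3afb_co
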