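import Pool.Agent.MP_6b3afb_co.Grp

set_option synthInstance.maxSize 4000

namespace Pool.Agent.MP_6b3afb_co

/-! ### the full face poset of a toroidal map through words -/

def mf (a b : ℕ) (w : List (Fin 3)) : Fin 5 → Map36 a b :=
  ![⊥, up (tf a b w 0), up (tf a b w 1), up (tf a b w 2), mtop a b]

def m5 (i : Fin 3) : Fin 5 := ⟨i + 1, by omega⟩

theorem mf_m5 (a b : ℕ) (w : List (Fin 3)) (i : Fin 3) : mf a b w (m5 i) = up (tf a b w i) := by
  fin_cases i <;> rfl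

theorem fin5_cases (k : Fin 5) : k = 0 ∨ k = 4 ∨ ∃ i, k = m5 i := by revert k; decide

theorem mf_surj {a b : ℕ} (x : Map36 a b) : ∃ w k, x = mf a b w k := by
  rcases map36_cases x with rfl | rfl | ⟨y, rfl⟩
  · exact ⟨[], 0, rfl⟩
  · exact ⟨[], 4, rfl⟩
  · obtain ⟨w, i, rfl⟩ := tf_surj y
    exact ⟨w, m5 i, (mf_m5 _ _ _ _).symm⟩

theorem K_rev_self (a b : ℕ) (w w' : List (Fin 3)) :
    K a b (w'.reverse ++ (w ++ (w.reverse ++ w'))) := by
  apply K_of_fr (Lat.zero a b)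
  rw [shift_zero, fr_append, run_append, fr, run_reverse_run sf_invol, fr]

theorem bot_ne_mtop {a b : ℕ} : (⊥ : Map36 a b) ≠ mtop a b := WithBot.bot_ne_coe

theorem mf_eq_iff {a b : ℕ} (hab : Adm a b) (w w' : List (Fin 3)) (k l : Fin 5) :
    mf a b w k = mf a b w' l ↔
      k = l ∧ ∃ h, (∀ i ∈ h, m5 i ≠ k) ∧ K a b (w'.reverse ++ (w ++ h)) := by
  have h0 : ∀ i, m5 i ≠ 0 := by decide
  have h4 : ∀ i, m5 i ≠ 4 := by decide
  have hm : ∀ i j, m5 i = m5 j ↔ i = j := by decide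
  rcases fin5_cases k with rfl | rfl | ⟨i, rfl⟩ <;> rcases fin5_cases l with rfl | rfl | ⟨j, rfl⟩
  · exact ⟨fun _ => ⟨rfl, _, fun i _ => h0 i, K_rev_self a b w w'⟩, fun _ => rfl⟩
  · exact ⟨fun h => absurd h bot_ne_mtop, fun h => absurd h.1 (by decide)⟩
  · rw [mf_m5]
    exact ⟨fun h => absurd h (bot_ne_up _), fun h => absurd h.1.symm (h0 _)⟩
  · exact ⟨fun h => absurd h.symm bot_ne_mtop, fun h => absurd h.1 (by decide)⟩
  · exact ⟨fun _ => ⟨rfl, _, fun i _ => h4 i, K_rev_self a b w w'⟩, fun _ => rfl⟩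
  · rw [mf_m5]
    exact ⟨fun h => absurd h.symm (up_ne_mtop _), fun h => absurd h.1.symm (h4 _)⟩
  · rw [mf_m5]
    exact ⟨fun h => absurd h.symm (bot_ne_up _), fun h => absurd h.1 (h0 _)⟩
  · rw [mf_m5]
    exact ⟨fun h => absurd h (up_ne_mtop _), fun h => absurd h.1 (h4 _)⟩
  · rw [mf_m5, mf_m5, up_inj.eq_iff, tf_eq_iff hab, hm]
    constructor
    · rintro ⟨rfl, h, h1, h2⟩
      exact ⟨rfl, h, fun k hk hh => h1 ((hm _ _).mp hh ▸ hk), h2⟩
    · rintro ⟨rfl, h, h1, h2⟩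
      exact ⟨rfl, h, fun hh => h1 _ hh rfl, h2⟩

theorem mtop_le_mtop {a b : ℕ} : mtop a b ≤ mtop a b := by
  unfold mtop
  rw [WithBot.coe_le_coe]
  exact le_top

theorem mf_le_iff {a b : ℕ} (hab : Adm a b) (w w' : List (Fin 3)) (k l : Fin 5) :
    mf a b w k ≤ mf a b w' l ↔
      k ≤ l ∧ ∃ u, mf a b u k = mf a b w k ∧ mf a b u l = mf a b w' l := by
  have h0 : ∀ i, ¬ m5 i ≤ 0 := by decide
  have h4 : ∀ i, ¬ 4 ≤ m5 i := by decide
  have hm : ∀ i j, m5 i ≤ m5 j ↔ i ≤ j := by decide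
  rcases fin5_cases k with rfl | rfl | ⟨i, rfl⟩
  · exact ⟨fun _ => ⟨Fin.zero_le _, w', rfl, rfl⟩, fun _ => bot_le (a := mf a b w' l)⟩
  · rcases fin5_cases l with rfl | rfl | ⟨j, rfl⟩
    · exact ⟨fun h => absurd h not_mtop_le_bot, fun h => absurd h.1 (by decide)⟩
    · exact ⟨fun _ => ⟨le_rfl, w, rfl, rfl⟩, fun _ => mtop_le_mtop⟩
    · rw [mf_m5]
      exact ⟨fun h => absurd h (not_mtop_le_up _), fun h => absurd h.1 (h4 _)⟩
  · rcases fin5_cases l with rfl | rfl | ⟨j, rfl⟩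
    · rw [mf_m5]
      exact ⟨fun h => absurd h (not_up_le_bot _), fun h => absurd h.1 (h0 _)⟩
    · refine ⟨fun _ => ⟨Fin.le_last _, w, rfl, rfl⟩, fun _ => ?_⟩
      rw [mf_m5]
      exact up_le_mtop _
    · simp only [mf_m5, up_le, up_inj.eq_iff, tf_le_iff hab, hm]

/-! ### the coset poset -/

def Sx (i : Fin 6) : Finset (Fin 4) := Finset.univ.filter fun j => mid j ≠ i
def Slo (i : Fin 6) : Finset (Fin 4) := Finset.univ.filter fun j => mid j < i
def Shi (i : Fin 6) : Finset (Fin 4) := Finset.univ.filter fun j => i < mid j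

theorem Sx_mid (i : Fin 4) : Sx (mid i) = {i}ᶜ := by revert i; decide

section
variable {Γ : Type} [Group Γ] {s t u v : ℕ}

structure Ctx (s t u v : ℕ) (f : Fin 4 → Γ) : Prop where
  hs : Adm s t
  hu : Adm u v
  good : Good s t u v f
  gen : ∀ g, In f Finset.univ g

variable {f : Fin 4 → Γ}

def csetoid (h : Ctx s t u v f) : Setoid (Fin 6 × Γ) where
  r p q := p.1 = q.1 ∧ In f (Sx p.1) (p.2⁻¹ * q.2)
  iseqv := by
    refine ⟨fun p => ⟨rfl, by simpa using In.one _ _⟩, ?_, ?_⟩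
    · rintro ⟨i, g⟩ ⟨j, g'⟩ ⟨rfl, h2⟩
      exact ⟨rfl, by simpa using h2.inv h.good.rel.inv⟩
    · rintro ⟨i, g⟩ ⟨j, g'⟩ ⟨k, g''⟩ ⟨rfl, h2⟩ ⟨rfl, h3⟩
      exact ⟨rfl, by simpa [mul_assoc] using h2.mul h3⟩

def CP (h : Ctx s t u v f) : Type := Quotient (csetoid h)

variable (h : Ctx s t u v f)

def ch (g : Γ) (i : Fin 6) : CP h := Quotient.mk _ (i, g)

theorem ch_eq_iff {g g' : Γ} {i j : Fin 6} :
    ch h g i = ch h g' j ↔ i = j ∧ In f (Sx i) (g⁻¹ * g') := Quotient.eq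

theorem ch_surj (x : CP h) : ∃ g i, x = ch h g i := by
  induction x using Quotient.ind with
  | _ p => exact ⟨p.2, p.1, rfl⟩

theorem ch_mul {g p : Γ} {i : Fin 6} (hp : In f (Sx i) p) : ch h (g * p) i = ch h g i :=
  ((ch_eq_iff h).mpr ⟨rfl, by simpa using hp⟩).symm

theorem ch_split {g g' : Γ} {j : Fin 6} (e : ch h g j = ch h g' j) :
    ∃ p q, In f (Slo j) p ∧ In f (Shi j) q ∧ g' = g * p * q ∧ p * q = q * p := by
  have hc : ∀ a ∈ Slo j, ∀ b ∈ Shi j, Commute (f a) (f b) := fun a ha b hb =>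
    h.good.rel.comm ((show ∀ j, ∀ a ∈ Slo j, ∀ b ∈ Shi j, (a : ℕ) + 2 ≤ b by decide) j a ha b hb)
  obtain ⟨p, q, hp, hq, e2⟩ := In.factor hc
    (((ch_eq_iff h).mp e).2.mono ((show ∀ j, Sx j ⊆ Slo j ∪ Shi j by decide) j))
  exact ⟨p, q, hp, hq, by rw [mul_assoc, ← e2]; simp, (In.commute hc hp hq).eq⟩

theorem Slo_sub {j k : Fin 6} (hjk : j ≤ k) : Slo j ⊆ Sx k := by revert j k; decide
theorem Shi_sub {i j : Fin 6} (hij : i ≤ j) : Shi j ⊆ Sx i := by revert i j; decide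

instance : PartialOrder (CP h) where
  le x y := ∃ g i j, i ≤ j ∧ x = ch h g i ∧ y = ch h g j
  le_refl x := by
    obtain ⟨g, i, rfl⟩ := ch_surj h x
    exact ⟨g, i, i, le_rfl, rfl, rfl⟩
  le_trans := by
    rintro _ _ _ ⟨g, i, j, hij, rfl, rfl⟩ ⟨g', j', k, hjk, e, rfl⟩
    obtain rfl := ((ch_eq_iff h).mp e).1
    obtain ⟨p, q, hp, hq, rfl, hpq⟩ := ch_split h e
    refine ⟨g * q, i, k, hij.trans hjk, (ch_mul h (hq.mono (Shi_sub hij))).symm, ?_⟩
    rw [mul_assoc, hpq, ← mul_assoc, ch_mul h (hp.mono (Slo_sub hjk))]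
  le_antisymm := by
    rintro _ _ ⟨g, i, j, hij, rfl, rfl⟩ ⟨g', j', i', hji, e, e'⟩
    obtain rfl := ((ch_eq_iff h).mp e).1
    obtain rfl := ((ch_eq_iff h).mp e').1
    rw [le_antisymm hij hji]

theorem ch_le_iff {g g' : Γ} {i j : Fin 6} : ch h g i ≤ ch h g' j ↔
    i ≤ j ∧ ∃ g'', ch h g'' i = ch h g i ∧ ch h g'' j = ch h g' j := by
  constructor
  · rintro ⟨g'', i', j', hij, e, e'⟩
    obtain rfl := ((ch_eq_iff h).mp e).1
    obtain rfl := ((ch_eq_iff h).mp e').1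
    exact ⟨hij, g'', e.symm, e'.symm⟩
  · rintro ⟨hij, g'', e, e'⟩
    exact ⟨g'', i, j, hij, e.symm, e'.symm⟩

theorem ch_mono (g : Γ) : StrictMono (ch h g) := fun i j hij =>
  lt_of_le_of_ne ⟨g, i, j, hij.le, rfl, rfl⟩ (fun e => hij.ne ((ch_eq_iff h).mp e).1)

theorem ch_zero (g g' : Γ) : ch h g 0 = ch h g' 0 :=
  (ch_eq_iff h).mpr ⟨rfl, (h.gen _).mono (by decide)⟩

theorem ch_five (g g' : Γ) : ch h g 5 = ch h g' 5 :=
  (ch_eq_iff h).mpr ⟨rfl, (h.gen _).mono (by decide)⟩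

instance : BoundedOrder (CP h) where
  top := ch h 1 5
  le_top x := by
    obtain ⟨g, i, rfl⟩ := ch_surj h x
    exact ⟨g, i, 5, Fin.le_last _, rfl, ch_five h _ _⟩
  bot := ch h 1 0
  bot_le x := by
    obtain ⟨g, i, rfl⟩ := ch_surj h x
    exact ⟨g, 0, i, Fin.zero_le _, ch_zero h _ _, rfl⟩

theorem ch_lt_rank {g g' : Γ} {i j : Fin 6} (e : ch h g i < ch h g' j) : i < j := by
  obtain ⟨hij, g'', e1, e2⟩ := (ch_le_iff h).mp e.le
  refine lt_of_le_of_ne hij ?_
  rintro rfl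
  exact e.ne (e1.symm.trans e2)

theorem chain_sub (C : Set (CP h)) (hC : IsChain (· ≤ ·) C) : ∃ g, C ⊆ Set.range (ch h g) := by
  have key : ∀ n : ℕ, ∃ g, ∀ g' (i : Fin 6), ch h g' i ∈ C → 6 - n ≤ i → ch h g' i = ch h g i := by
    intro n
    induction n with
    | zero => exact ⟨1, fun g' i _ hi => by omega⟩
    | succ n ih =>
      obtain ⟨g, hg⟩ := ih
      by_cases hx : ∃ g' : Γ, ∃ i : Fin 6, ch h g' i ∈ C ∧ 6 - (n + 1) ≤ i ∧ ¬ 6 - n ≤ i
      swap
      · refine ⟨g, fun g' i h1 h2 => hg g' i h1 ?_⟩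
        by_contra h3
        exact hx ⟨g', i, h1, h2, h3⟩
      obtain ⟨g1, i, hx, hi1, hi2⟩ := hx
      have huniq : ∀ g', ch h g' i ∈ C → ch h g' i = ch h g1 i := by
        intro g' h1
        by_contra hne
        rcases hC h1 hx hne with h2 | h2
        · exact (ch_lt_rank h (lt_of_le_of_ne h2 hne)).false
        · exact (ch_lt_rank h (lt_of_le_of_ne h2 (Ne.symm hne))).false
      by_cases hy : ∃ j : Fin 6, 6 - n ≤ (j : ℕ) ∧ ch h g j ∈ C
      swap
      · refine ⟨g1, fun g' k h1 h2 => ?_⟩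
        by_cases h3 : 6 - n ≤ (k : ℕ)
        · exact absurd ⟨k, h3, hg g' k h1 h3 ▸ h1⟩ hy
        · obtain rfl : k = i := by omega
          exact huniq g' h1
      obtain ⟨j, ⟨hj1, hj2⟩, hmin⟩ := exists_minimal_of_wellFoundedLT _ hy
      have hij : i < j := by omega
      have hle : ch h g1 i ≤ ch h g j := by
        rcases hC.total hx hj2 with h2 | h2
        · exact h2
        · exact absurd ((ch_le_iff h).mp h2).1 (not_le.mpr hij)
      obtain ⟨-, g2, e1, e2⟩ := (ch_le_iff h).mp hle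
      obtain ⟨p, q, hp, hq, rfl, -⟩ := ch_split h e2.symm
      refine ⟨g * p, fun g' k h1 h2 => ?_⟩
      by_cases h3 : 6 - n ≤ (k : ℕ)
      · have h4 := hg g' k h1 h3
        have hjk : j ≤ k := by
          by_contra h5
          exact h5 (hmin ⟨h3, h4 ▸ h1⟩ (not_le.mp h5).le)
        rw [h4, ch_mul h (hp.mono (Slo_sub hjk))]
      · obtain rfl : k = i := by omega
        rw [huniq g' h1, ← e1, ch_mul h (hq.mono (Shi_sub hij.le))]
  obtain ⟨g, hg⟩ := key 6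
  refine ⟨g, fun x hx => ?_⟩
  obtain ⟨g', i, rfl⟩ := ch_surj h x
  exact ⟨i, (hg g' i hx (by omega)).symm⟩

theorem flag_eq (X : Flag (CP h)) : ∃ g, (X : Set (CP h)) = Set.range (ch h g) := by
  obtain ⟨g, hg⟩ := chain_sub h X X.chain_le
  exact ⟨g, X.maxChain.2 (ch_mono h g).monotone.isChain_range hg⟩

theorem cp_flag_card (X : Flag (CP h)) : (X : Set (CP h)).ncard = 6 := by
  obtain ⟨g, hg⟩ := flag_eq h X
  rw [hg, Set.ncard_range_of_injective (ch_mono h g).injective]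
  simp

theorem three_chain {a b c : CP h} (hab : a ≤ b) (hbc : b ≤ c) :
    ∃ g i j k, a = ch h g i ∧ b = ch h g j ∧ c = ch h g k := by
  obtain ⟨g, hg⟩ := chain_sub h {a, b, c} (by
    intro x hx y hy _
    simp only [Set.mem_insert_iff, Set.mem_singleton_iff] at hx hy
    rcases hx with rfl | rfl | rfl <;> rcases hy with rfl | rfl | rfl <;>
      simp [hab, hbc, hab.trans hbc])
  obtain ⟨i, hi⟩ := hg (show a ∈ _ by simp)
  obtain ⟨j, hj⟩ := hg (show b ∈ _ by simp)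
  obtain ⟨k, hk⟩ := hg (show c ∈ _ by simp)
  exact ⟨g, i, j, k, hi.symm, hj.symm, hk.symm⟩

theorem ch_covBy {g : Γ} {i j : Fin 6} (e : ch h g i ⋖ ch h g j) : (j : ℕ) = i + 1 := by
  have h1 := ch_lt_rank h e.lt
  by_contra h2
  exact e.2 (ch_mono h g (show i < ⟨i + 1, by omega⟩ from by simp [Fin.lt_def]))
    (ch_mono h g (by rw [Fin.lt_def]; simp only; omega))

theorem ch_gen_ne (g : Γ) (m : Fin 4) : ch h (g * f m) (mid m) ≠ ch h g (mid m) := by
  intro e
  have := ((ch_eq_iff h).mp e.symm).2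
  rw [Sx_mid, inv_mul_cancel_left] at this
  exact h.good.gen_not_in h.hs h.hu m this

theorem ch_gen_eq (g : Γ) (m : Fin 4) {j : Fin 6} (hj : j ≠ mid m) : ch h (g * f m) j = ch h g j :=
  ch_mul h (In.gen f (by simp [Sx, hj.symm]))

theorem ip' (J : Finset (Fin 4)) {g g' : Γ} (hJ : ∀ m ∈ J, ch h g (mid m) = ch h g' (mid m)) :
    In f Jᶜ (g⁻¹ * g') :=
  h.good.IP h.hs h.hu J _ (h.gen _) fun m hm => Sx_mid m ▸ ((ch_eq_iff h).mp (hJ m hm)).2

theorem cp_diamond (a b c : CP h) (hab : a ⋖ b) (hbc : b ⋖ c) : (Set.Ioo a c).ncard = 2 := by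
  obtain ⟨g, i, j, k, rfl, rfl, rfl⟩ := three_chain h hab.le hbc.le
  have h1 := ch_covBy h hab
  have h2 := ch_covBy h hbc
  obtain ⟨m, rfl⟩ : ∃ m, j = mid m := ⟨⟨i, by omega⟩, Fin.ext h1⟩
  have hi : i ≠ mid m := fun e => by rw [e] at h1; omega
  have hk : k ≠ mid m := fun e => by rw [e] at h2; omega
  rw [Set.ncard_eq_two]
  refine ⟨_, _, ch_gen_ne h g m, ?_⟩
  ext x
  constructor
  · rintro ⟨h3, h4⟩
    obtain ⟨g', i', j', k', e1, rfl, e3⟩ := three_chain h h3.le h4.le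
    obtain rfl := ((ch_eq_iff h).mp e1).1
    obtain rfl := ((ch_eq_iff h).mp e3).1
    have h5 := ch_lt_rank h h3
    have h6 := ch_lt_rank h h4
    obtain rfl : j' = mid m := by omega
    have h7 := ip' h (Finset.univ.filter fun l => mid l = i ∨ mid l = k) (g := g) (g' := g')
      (fun l hl => by
        rcases (Finset.mem_filter.mp hl).2 with rfl | rfl
        exacts [e1, e3])
    obtain ⟨p, q, hp, hq, e⟩ := In.factor (S := {m})
      (S' := Finset.univ.filter fun l : Fin 4 => (l : ℕ) + 2 ≤ m ∨ (m : ℕ) + 2 ≤ l)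
      (fun a ha b hb => by
        obtain rfl := Finset.mem_singleton.mp ha
        rcases (Finset.mem_filter.mp hb).2 with hb | hb
        exacts [(h.good.rel.comm hb).symm, h.good.rel.comm hb])
      (h7.mono (by
        intro l hl
        simp only [Finset.mem_compl, Finset.mem_filter, Finset.mem_univ, true_and, not_or,
          Finset.mem_union, Finset.mem_singleton, Fin.ext_iff, mid] at hl h1 h2 ⊢
        omega))
    have e' : g' = g * p * q := by rw [mul_assoc, ← e]; simp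
    rw [e', ch_mul h (hq.mono (by
      intro l hl
      simp only [Sx, Finset.mem_filter, Finset.mem_univ, true_and, ne_eq, Fin.ext_iff, mid] at hl ⊢
      omega))]
    rcases hp.single h.good.rel.inv with rfl | rfl <;> simp
  · rintro (rfl | rfl)
    · exact ⟨ch_gen_eq h g m hi ▸ ch_mono h _ (by omega), ch_gen_eq h g m hk ▸ ch_mono h _ (by omega)⟩
    · exact ⟨hab.lt, hbc.lt⟩

def cch (g : Γ) : Chain (CP h) := ⟨ch h g, ch_mono h g⟩

theorem cch_adj (g : Γ) (m : Fin 4) : AdjAt m (cch h g) (cch h (g * f m)) :=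
  ⟨ch_gen_ne h g m, fun _ hj => ch_gen_eq h g m hj⟩

theorem cp_connected (X Y : Flag (CP h)) : Relation.ReflTransGen
    (fun A B : Flag (CP h) => Adjacent A B ∧ (X : Set (CP h)) ∩ Y ⊆ B) X Y := by
  classical
  obtain ⟨g, hg⟩ := flag_eq h X
  obtain ⟨g', hg'⟩ := flag_eq h Y
  obtain ⟨y, hy, e⟩ := ip' h (Finset.univ.filter fun m => ch h g (mid m) = ch h g' (mid m))
    (g := g) (g' := g') (fun m hm => (Finset.mem_filter.mp hm).2)
  have key : ∀ y : List (Fin 4), (∀ i ∈ y, ch h g (mid i) ≠ ch h g' (mid i)) →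
      ∀ Z : Flag (CP h), (Z : Set (CP h)) = Set.range (ch h (g * ev f y)) →
      Relation.ReflTransGen
        (fun A B : Flag (CP h) => Adjacent A B ∧ (X : Set (CP h)) ∩ Y ⊆ B) X Z := by
    intro y hy
    induction y using List.reverseRecOn with
    | nil =>
      intro Z hZ
      have : X = Z := SetLike.coe_injective (by simpa [hg] using hZ.symm)
      rw [this]
    | append_singleton y m ih =>
      intro Z hZ
      obtain ⟨W, hW⟩ := (cch h (g * ev f y)).exists_flag (cp_flag_card h)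
      refine (ih (fun i hi => hy i (by simp [hi])) W hW).tail ⟨?_, ?_⟩
      · rw [adjacent_iff (cp_flag_card h) hW (ψ := cch h (g * ev f (y ++ [m]))) hZ]
        refine ⟨m, ?_⟩
        rw [ev_append, ← mul_assoc]
        simpa using cch_adj h _ m
      · rw [hg, hg', hZ]
        rintro _ ⟨⟨i, rfl⟩, j, hj⟩
        obtain rfl := ((ch_eq_iff h).mp hj).1
        refine ⟨j, ch_mul h ⟨_, fun m hm => ?_, rfl⟩⟩
        simp only [Sx, Finset.mem_filter, Finset.mem_univ, true_and]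
        rintro rfl
        exact hy m hm hj.symm
  exact key y (fun i hi => by simpa using hy i hi) Y (by rw [hg', e]; simp)

def lmul (a : Γ) (x : CP h) : CP h :=
  Quotient.map (fun p => (p.1, a * p.2)) (by
    rintro p q ⟨e, e'⟩
    exact ⟨e, by simpa [mul_assoc] using e'⟩) x

theorem lmul_ch (a g : Γ) (i : Fin 6) : lmul h a (ch h g i) = ch h (a * g) i := rfl

def lmulIso (a : Γ) : CP h ≃o CP h where
  toFun := lmul h a
  invFun := lmul h a⁻¹
  left_inv x := by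
    obtain ⟨g, i, rfl⟩ := ch_surj h x
    simp [lmul_ch]
  right_inv x := by
    obtain ⟨g, i, rfl⟩ := ch_surj h x
    simp [lmul_ch]
  map_rel_iff' := by
    have key : ∀ (a : Γ) (x y : CP h), x ≤ y → lmul h a x ≤ lmul h a y := by
      rintro a _ _ ⟨g, i, j, hij, rfl, rfl⟩
      exact ⟨a * g, i, j, hij, rfl, rfl⟩
    intro x y
    refine ⟨fun e => ?_, key a x y⟩
    have := key a⁻¹ _ _ e
    obtain ⟨g, i, rfl⟩ := ch_surj h x
    obtain ⟨g', j, rfl⟩ := ch_surj h y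
    simpa [lmul_ch] using this

theorem cp_regular (X Y : Flag (CP h)) : ∃ e : CP h ≃o CP h, Flag.map e X = Y := by
  obtain ⟨g, hg⟩ := flag_eq h X
  obtain ⟨g', hg'⟩ := flag_eq h Y
  refine ⟨lmulIso h (g' * g⁻¹), SetLike.coe_injective ?_⟩
  simp only [Flag.coe_map]
  rw [hg, hg', ← Set.range_comp]
  congr 1
  funext i
  change ch h (g' * g⁻¹ * g) i = _
  simp

theorem section_map {a b : ℕ} (hab : Adm a b) (pos : Fin 3 → Fin 4) (o : Fin 4)
    (ι : Fin 5 → Fin 6) (hι : Function.Injective ι) (hm : ∀ i, ι (m5 i) = mid (pos i))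
    (h4 : ι 4 = mid o) (ho : ∀ j, j ≠ o ↔ ∃ i, pos i = j)
    (hr : RelT a b fun i => f (pos i)) (hf : FA a b fun i => f (pos i)) (g : Γ) :
    ∃ Φ : Map36 a b → CP h, Function.Injective Φ ∧
      (∀ g' k, ch h g' (ι 4) = ch h g (ι 4) → ∃ x, Φ x = ch h g' (ι k)) ∧
      ∀ x y, ∃ k l g1 g2, Φ x = ch h g1 (ι k) ∧ Φ y = ch h g2 (ι l) ∧
        ch h g1 (ι 4) = ch h g (ι 4) ∧
        (x ≤ y ↔ k ≤ l ∧ ∃ g', ch h g' (ι k) = ch h g1 (ι k) ∧ ch h g' (ι l) = ch h g2 (ι l)) := by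
  set F : List (Fin 3) → Γ := ev fun i => f (pos i) with hF
  have hin : ∀ w, In f {o}ᶜ (F w) := fun w => ⟨w.map pos, fun i hi => by
    obtain ⟨j, -, rfl⟩ := List.mem_map.mp hi
    simpa using (ho _).mpr ⟨j, rfl⟩, ev_map _ _ _⟩
  have hout : ∀ (k : Fin 5) (x : Γ), In f {o}ᶜ x → In f (Sx (ι k)) x →
      ∃ w, (∀ i ∈ w, m5 i ≠ k) ∧ F w = x := by
    intro k x h1 h2
    have h3 : In f (insert o (Finset.univ.filter fun m => mid m = ι k ∧ m ≠ o))ᶜ x := by
      apply h.good.IP h.hs h.hu _ _ (h.gen _)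
      intro m hm
      rcases Finset.mem_insert.mp hm with rfl | hm
      · exact h1
      · rw [← Sx_mid, (Finset.mem_filter.mp hm).2.1]
        exact h2
    obtain ⟨y, hy, rfl⟩ := h3
    obtain ⟨w, rfl⟩ := exists_map_pos pos y (fun i hi => (ho i).mp (by
      rintro rfl
      simpa using hy _ hi))
    refine ⟨w, fun i hi e => ?_, (ev_map _ _ _).symm⟩
    have := hy _ (List.mem_map_of_mem hi)
    simp only [Finset.mem_compl, Finset.mem_insert, Finset.mem_filter, Finset.mem_univ, true_and,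
      not_or, not_and, not_not] at this
    exact this.1 (this.2 (by rw [← hm, e]))
  have hE : ∀ w k w' l, ch h (g * F w) (ι k) = ch h (g * F w') (ι l) ↔
      mf a b w k = mf a b w' l := by
    intro w k w' l
    rw [mf_eq_iff hab, ch_eq_iff, hι.eq_iff]
    refine and_congr_right fun e => ?_
    subst e
    constructor
    · intro e
      obtain ⟨x, hx, e2⟩ := hout k _ (by
        simpa [mul_assoc] using ((hin w).inv h.good.rel.inv).mul (hin w')) e
      refine ⟨x, hx, hf _ ?_⟩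
      rw [ev_append, ev_append, ev_reverse hr.inv]
      change (F w')⁻¹ * (F w * F x) = 1
      rw [e2]
      simp [mul_assoc]
    · rintro ⟨x, hx, e⟩
      have e2 := hr.ev_eq_one hab e
      rw [ev_append, ev_append, ev_reverse hr.inv] at e2
      refine ⟨x.map pos, fun i hi => ?_, ?_⟩
      · obtain ⟨j, hj, rfl⟩ := List.mem_map.mp hi
        simp only [Sx, Finset.mem_filter, Finset.mem_univ, true_and]
        rw [← hm, hι.ne_iff]
        exact hx j hj
      · rw [ev_map, mul_inv_rev, mul_assoc, inv_mul_cancel_left, eq_inv_mul_iff_mul_eq]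
        exact (inv_mul_eq_one.mp e2).symm
  have h4' : ∀ w, ch h (g * F w) (ι 4) = ch h g (ι 4) := fun w =>
    ch_mul h (by rw [h4, Sx_mid]; exact hin w)
  have hw : ∀ g', ch h g' (ι 4) = ch h g (ι 4) → ∃ w, g' = g * F w := by
    intro g' e
    have e2 := ((ch_eq_iff h).mp e.symm).2
    obtain ⟨w, -, e3⟩ := hout 4 _ (by rwa [h4, Sx_mid] at e2) e2
    exact ⟨w, by rw [e3]; simp⟩
  choose W Kk hW using mf_surj (a := a) (b := b)
  refine ⟨fun x => ch h (g * F (W x)) (ι (Kk x)), fun x y e => ?_, ?_, fun x y => ?_⟩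
  · rw [hW x, hW y]
    exact (hE _ _ _ _).mp e
  · intro g' k e
    obtain ⟨w, rfl⟩ := hw g' e
    exact ⟨mf a b w k, (hE _ _ _ _).mpr (hW _).symm⟩
  · refine ⟨_, _, _, _, rfl, rfl, h4' _, ?_⟩
    conv_lhs => rw [hW x, hW y]
    rw [mf_le_iff hab]
    refine and_congr_right fun hkl => ?_
    constructor
    · rintro ⟨u, e1, e2⟩
      exact ⟨g * F u, (hE _ _ _ _).mpr e1, (hE _ _ _ _).mpr e2⟩
    · rintro ⟨g', e1, e2⟩
      obtain ⟨g'', hg⟩ := chain_sub h
        {ch h g' (ι (Kk x)), ch h g' (ι (Kk y)), ch h g (ι 4)} (by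
        have c1 : ch h g' (ι (Kk x)) ≤ ch h g' (ι (Kk y)) ∨
            ch h g' (ι (Kk y)) ≤ ch h g' (ι (Kk x)) :=
          (le_total _ _).imp (fun e => (ch_mono h g').monotone e) (fun e => (ch_mono h g').monotone e)
        have c2 : ch h g' (ι (Kk x)) ≤ ch h g (ι 4) ∨ ch h g (ι 4) ≤ ch h g' (ι (Kk x)) := by
          rw [e1, ← h4' (W x)]
          exact (le_total _ _).imp (fun e => (ch_mono h _).monotone e)
            (fun e => (ch_mono h _).monotone e)
        have c3 : ch h g' (ι (Kk y)) ≤ ch h g (ι 4) ∨ ch h g (ι 4) ≤ ch h g' (ι (Kk y)) := by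
          rw [e2, ← h4' (W y)]
          exact (le_total _ _).imp (fun e => (ch_mono h _).monotone e)
            (fun e => (ch_mono h _).monotone e)
        intro p hp q hq _
        simp only [Set.mem_insert_iff, Set.mem_singleton_iff] at hp hq
        rcases hp with rfl | rfl | rfl <;> rcases hq with rfl | rfl | rfl <;>
          simp only [le_refl, or_self, c1, c2, c3, c1.symm, c2.symm, c3.symm])
      obtain ⟨i1, d1⟩ := hg (show ch h g' (ι (Kk x)) ∈ _ by simp)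
      obtain ⟨i2, d2⟩ := hg (show ch h g' (ι (Kk y)) ∈ _ by simp)
      obtain ⟨i3, d3⟩ := hg (show ch h g (ι 4) ∈ _ by simp)
      obtain rfl := ((ch_eq_iff h).mp d1).1
      obtain rfl := ((ch_eq_iff h).mp d3).1
      have := ((ch_eq_iff h).mp d2).1
      subst this
      obtain ⟨w, rfl⟩ := hw g'' d3
      exact ⟨w, (hE _ _ _ _).mp (d1.trans e1), (hE _ _ _ _).mp (d2.trans e2)⟩

theorem cp_facet (F : CP h) (hF : IsCoatom F) : Nonempty (Set.Iic F ≃o Map36 s t) := by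
  obtain ⟨g, i, rfl⟩ := ch_surj h F
  have h1 : ch h g i ⋖ ch h g 5 := by
    rw [ch_five h g 1]
    exact covBy_top_iff.mpr hF
  obtain rfl : i = 4 := by
    have := ch_covBy h h1
    omega
  obtain ⟨Φ, hinj, hsurj, hle⟩ := section_map h h.hs posA 3 Fin.castSucc (Fin.castSucc_injective _)
    (by decide) rfl (by decide) h.good.rel.A h.good.A g
  have hmem : ∀ x, Φ x ∈ Set.Iic (ch h g 4) := fun x => by
    obtain ⟨k, l, g1, g2, e1, -, e3, -⟩ := hle x x
    rw [Set.mem_Iic, e1]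
    exact ((ch_mono h g1).monotone (Fin.castSucc_le_castSucc_iff.mpr (Fin.le_last k))).trans e3.le
  refine ⟨OrderIso.symm (RelIso.ofSurjective
    ⟨⟨fun x => ⟨Φ x, hmem x⟩, fun x y e => hinj (congrArg Subtype.val e)⟩, ?_⟩ ?_)⟩
  · intro x y
    obtain ⟨k, l, g1, g2, e1, e2, -, e4⟩ := hle x y
    change Φ x ≤ Φ y ↔ _
    rw [e4, e1, e2, ch_le_iff, Fin.castSucc_le_castSucc_iff]
  · rintro ⟨_, g', i, j, hij, rfl, e⟩
    obtain rfl := ((ch_eq_iff h).mp e).1
    obtain ⟨x, hx⟩ := hsurj g' ⟨i, by omega⟩ e.symm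
    exact ⟨x, Subtype.ext hx⟩

theorem cp_vfig (x : CP h) (hx : IsAtom x) : Nonempty (Set.Ici x ≃o (Map36 u v)ᵒᵈ) := by
  obtain ⟨g, i, rfl⟩ := ch_surj h x
  have h1 : ch h g 0 ⋖ ch h g i := by
    rw [ch_zero h g 1]
    exact bot_covBy_iff.mpr hx
  obtain rfl : i = 1 := by
    have := ch_covBy h h1
    omega
  let ι : Fin 5 → Fin 6 := fun k => ⟨5 - k, by omega⟩
  have hι : ∀ k l, ι l ≤ ι k ↔ k ≤ l := by decide
  obtain ⟨Φ, hinj, hsurj, hle⟩ := section_map h h.hu posB 0 ι (by decide)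
    (by decide) rfl (by decide) h.good.rel.B h.good.B g
  have hmem : ∀ x, Φ x ∈ Set.Ici (ch h g 1) := fun x => by
    obtain ⟨k, l, g1, g2, e1, -, e3, -⟩ := hle x x
    rw [Set.mem_Ici, e1]
    exact e3.ge.trans ((ch_mono h g1).monotone ((hι _ _).mpr (Fin.le_last k)))
  refine ⟨OrderIso.symm (RelIso.ofSurjective
    ⟨⟨fun x => ⟨Φ (OrderDual.ofDual x), hmem _⟩,
      fun x y e => hinj (congrArg Subtype.val e)⟩, ?_⟩ ?_)⟩
  · intro x y
    obtain ⟨k, l, g1, g2, e1, e2, -, e4⟩ := hle (OrderDual.ofDual y) (OrderDual.ofDual x)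
    change Φ (OrderDual.ofDual x) ≤ Φ (OrderDual.ofDual y) ↔
      OrderDual.ofDual y ≤ OrderDual.ofDual x
    rw [e4, e1, e2, ch_le_iff, hι]
    simp only [and_comm]
  · rintro ⟨_, g', i, j, hij, e, rfl⟩
    obtain rfl := ((ch_eq_iff h).mp e).1
    obtain ⟨x, hx⟩ := hsurj g' ⟨5 - j, by omega⟩ e.symm
    refine ⟨OrderDual.toDual x, Subtype.ext (hx.trans ?_)⟩
    congr 1
    apply Fin.ext
    simp only [ι]
    omega

def Ctx.poly : Poly s t u v where
  P := CP h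
  flag_card := cp_flag_card h
  diamond := cp_diamond h
  connected := cp_connected h
  regular := cp_regular h
  facet := cp_facet h
  vertexFigure := cp_vfig h

theorem Ctx.poly_r (g : Γ) (m : Fin 4) : h.poly.r m (cch h g) = cch h (g * f m) :=
  h.poly.r_eq (cch_adj h g m)

theorem Ctx.poly_run (g : Γ) (w : List (Fin 4)) :
    run h.poly.r w (cch h g) = cch h (g * ev f w) := by
  induction w generalizing g with
  | nil => simp
  | cons m w ih => rw [run_cons, h.poly_r, ih, ev_cons, mul_assoc]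

theorem cch_inj {g g' : Γ} (e : cch h g = cch h g') : g = g' := by
  have := ip' h Finset.univ (g := g) (g' := g') fun m _ => congrFun (congrArg Subtype.val e) _
  exact inv_mul_eq_one.mp (In.empty (by simpa using this))

theorem cch_surj (φ : Chain (CP h)) : ∃ g, φ = cch h g := by
  obtain ⟨X, hX⟩ := φ.exists_flag (cp_flag_card h)
  obtain ⟨g, hg⟩ := flag_eq h X
  exact ⟨g, Chain.ext_range (cp_flag_card h) (hX.symm.trans hg)⟩

end

variable {s t u v : ℕ}

theorem Poly.run_fix' (Q : Poly s t u v) {i : Fin 6} {w : List (Fin 4)} (hw : ∀ m ∈ w, m ∈ Sx i)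
    (φ : Chain Q.P) : (run Q.r w φ).1 i = φ.1 i :=
  run_invariant (fun ψ : Chain Q.P => ψ.1 i = φ.1 i) w
    (fun j hj ψ hψ => by
      rw [(Q.r_adj j ψ).2 i (Finset.mem_filter.mp (hw j hj)).2.symm, hψ]) φ rfl

theorem Ctx.covers (h : Ctx s t u v (rho s t u v)) (Q : Poly s t u v) : Covers h.poly Q := by
  obtain ⟨φ0⟩ := Q.nonempty_chain
  choose W hW using exists_word (s := s) (t := t) (u := u) (v := v)
  have hrun : ∀ w, run Q.r (W (ev (rho s t u v) w)) φ0 = run Q.r w φ0 := fun w =>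
    Q.run_eq_of_ev_eq h.hs h.hu (hW _) φ0
  let F : CP h → Q.P := Quotient.lift (fun p => (run Q.r (W p.2) φ0).1 p.1) (by
    rintro ⟨i, g⟩ ⟨j, g'⟩ ⟨rfl, y, hy, e⟩
    have e2 : g' = ev (rho s t u v) (W g ++ y) := by rw [ev_append, hW, e]; simp
    simp only
    rw [e2, hrun, run_append, Q.run_fix' hy])
  have hF : ∀ g i, F (ch h g i) = (run Q.r (W g) φ0).1 i := fun _ _ => rfl
  have hG : ∀ X : Flag (CP h), ∃ Y : Flag Q.P, (Y : Set Q.P) = F '' X := by
    intro X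
    obtain ⟨g, hg⟩ := flag_eq h X
    obtain ⟨Y, hY⟩ := (run Q.r (W g) φ0).exists_flag Q.flag_card
    exact ⟨Y, by rw [hY, hg, ← Set.range_comp]; rfl⟩
  choose Gf hGf using hG
  refine ⟨F, Gf, ?_, ?_, hGf, ?_⟩
  · intro x
    obtain ⟨ψ, j, rfl⟩ := exists_chain_mem Q.flag_card x
    obtain ⟨w, rfl⟩ := Q.conn φ0 ψ
    exact ⟨ch h (ev _ w) j, by rw [hF, hrun]⟩
  · rintro _ _ ⟨g, i, j, hij, rfl, rfl⟩
    exact (run Q.r (W g) φ0).2.monotone hij
  · intro X Y hXY
    obtain ⟨g, hg⟩ := flag_eq h X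
    obtain ⟨g', hg'⟩ := flag_eq h Y
    obtain ⟨m, hm⟩ := (adjacent_iff (cp_flag_card h) (φ := cch h g) (ψ := cch h g') hg hg').mp hXY
    have e : g' = ev (rho s t u v) (W g ++ [m]) := by
      apply cch_inj h
      rw [← h.poly.r_eq hm, h.poly_r, ev_append, hW]
      simp
    rw [adjacent_iff Q.flag_card (φ := run Q.r (W g) φ0) (ψ := run Q.r (W g') φ0)
      (by rw [hGf, hg, ← Set.range_comp]; rfl) (by rw [hGf, hg', ← Set.range_comp]; rfl)]
    refine ⟨m, ?_⟩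
    rw [e, hrun, run_append]
    exact Q.r_adj m _

theorem Covers.semiconj {U Q : Poly s t u v} (h : Covers U Q) :
    ∃ F : Chain U.P → Chain Q.P, ∀ i φ, F (U.r i φ) = Q.r i (F φ) := by
  obtain ⟨f, g, -, hm, hg, hadj⟩ := h
  have h1 : ∀ φ : Chain U.P, StrictMono (f ∘ φ.1) := by
    intro φ
    obtain ⟨X, hX⟩ := φ.exists_flag U.flag_card
    apply (hm.comp φ.2.monotone).strictMono_of_injective
    have h2 := Q.flag_card (g X)
    rw [hg, hX, ← Set.range_comp, ← Set.image_univ] at h2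
    rw [← Set.injOn_univ]
    refine Set.injOn_of_ncard_image_eq ?_ Set.finite_univ
    rw [h2]
    simp
  refine ⟨fun φ => ⟨_, h1 φ⟩, fun i φ => (Q.r_eq ?_).symm⟩
  obtain ⟨X, hX⟩ := φ.exists_flag U.flag_card
  obtain ⟨Y, hY⟩ := (U.r i φ).exists_flag U.flag_card
  have h2 := hadj X Y ((adjacent_iff U.flag_card hX hY).mpr ⟨i, U.r_adj i φ⟩)
  obtain ⟨j, hj⟩ := (adjacent_iff Q.flag_card (φ := ⟨_, h1 φ⟩) (ψ := ⟨_, h1 (U.r i φ)⟩)
    (by rw [hg, hX, ← Set.range_comp]) (by rw [hg, hY, ← Set.range_comp])).mp h2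
  by_cases hji : mid j = mid i
  · rwa [mid_inj hji] at hj
  · exact absurd (congrArg f ((U.r_adj i φ).2 _ hji)) hj.1

theorem Ctx.aut (h : Ctx s t u v (rho s t u v)) (U : Poly s t u v) (hU : Covers U h.poly) :
    Nonempty ((U.P ≃o U.P) ≃* G s t u v) ∧ (Finite U.P ↔ Finite (G s t u v)) := by
  obtain ⟨φ0⟩ := U.nonempty_chain
  choose W hW using exists_word (s := s) (t := t) (u := u) (v := v)
  have hrun : ∀ w φ, run U.r (W (ev (rho s t u v) w)) φ = run U.r w φ := fun w φ =>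
    U.run_eq_of_ev_eq h.hs h.hu (hW _) φ
  choose θ hθ using fun g => U.act_trans φ0 (run U.r (W g) φ0)
  let Θ : G s t u v →* (U.P ≃o U.P) := MonoidHom.mk' θ (fun a b => by
    apply U.act_inj (φ := φ0)
    rw [U.act_mul, hθ, hθ, U.act_run, hθ, ← run_append, ← hrun (W a ++ W b), ev_append, hW, hW])
  have hinj : Function.Injective Θ := by
    rw [injective_iff_map_eq_one]
    intro a ha
    obtain ⟨F, hF⟩ := hU.semiconj
    have h1 : run U.r (W a) φ0 = φ0 := by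
      rw [← hθ]
      change U.act (Θ a) φ0 = φ0
      rw [ha]
      rfl
    have h2 := run_semiconj F hF (W a) φ0
    obtain ⟨g, hg⟩ := cch_surj h (F φ0)
    rw [h1, hg, h.poly_run, hW] at h2
    simpa using cch_inj h h2
  have hsurj : Function.Surjective Θ := by
    intro e
    obtain ⟨w, hw⟩ := U.conn φ0 (U.act e φ0)
    refine ⟨ev (rho s t u v) w, U.act_inj (φ := φ0) ?_⟩
    change U.act (θ _) φ0 = _
    rw [hθ, hrun, hw]
  refine ⟨⟨(MulEquiv.ofBijective Θ ⟨hinj, hsurj⟩).symm⟩, fun _ => ?_, fun _ => ?_⟩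
  · have : Finite (U.P ≃o U.P) := Finite.of_injective _ RelIso.toEquiv_injective
    exact Finite.of_injective _ hinj
  · apply Finite.of_surjective (fun p : G s t u v × Fin 6 => (run U.r (W p.1) φ0).1 p.2)
    intro x
    obtain ⟨ψ, j, rfl⟩ := exists_chain_mem U.flag_card x
    obtain ⟨w, rfl⟩ := U.conn φ0 ψ
    exact ⟨(ev (rho s t u v) w, j), by simp only [hrun]⟩

end Pool.Agent.MP_6b3afb_co
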