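import Mathlib

namespace Pool.Agent.MP_6b3afb_co

/-- The six unit edge vectors of the tessellation `{3,6}`, in the basis of two unit vectors at 60 degrees. -/
def unitVecs : Finset (ℤ × ℤ) := {(1, 0), (0, 1), (-1, 1), (-1, 0), (0, -1), (1, -1)}

/-- Vertices, edges and triangles of `{3,6}`, as their vertex sets. -/
def PlaneFace : Type :=
  {F : Finset (ℤ × ℤ) // F.Nonempty ∧ ∀ x ∈ F, ∀ y ∈ F, x ≠ y → x - y ∈ unitVecs}

/-- The lattice generated by `(s,t)` and its images under the rotation by 60 degrees. -/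
def lattice (s t : ℕ) : AddSubgroup (ℤ × ℤ) :=
  AddSubgroup.closure
    (Set.range fun k : ℕ => (fun p : ℤ × ℤ => (-p.2, p.1 + p.2))^[k] ((s : ℤ), (t : ℤ)))

/-- Proper faces of the toroidal map `{3,6}_(s,t)`: faces of `{3,6}` modulo lattice translations. -/
def TorusFace (s t : ℕ) : Type :=
  Quot fun F G : PlaneFace => ∃ l ∈ lattice s t, G.1 = F.1.image (· + l)

instance (s t : ℕ) : LE (TorusFace s t) :=
  ⟨fun a b => ∃ F G : PlaneFace, Quot.mk _ F = a ∧ Quot.mk _ G = b ∧ F.1 ⊆ G.1⟩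

/-- The face poset of `{3,6}_(s,t)`; its order dual is the face poset of `{6,3}_(s,t)`. -/
abbrev Map36 (s t : ℕ) : Type := WithBot (WithTop (TorusFace s t))

/-- Two flags are adjacent if they differ in exactly one face. -/
def Adjacent {P : Type} [LE P] (X Y : Flag P) : Prop := ((X : Set P) \ Y).ncard = 1

/-- A regular abstract 4-polytope with facets `{3,6}_(s,t)` and vertex-figures `{6,3}_(u,v)`. -/
structure Poly (s t u v : ℕ) where
  P : Type
  [ord : PartialOrder P]
  [bdd : BoundedOrder P]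
  flag_card : ∀ X : Flag P, (X : Set P).ncard = 6
  diamond : ∀ a b c : P, a ⋖ b → b ⋖ c → (Set.Ioo a c).ncard = 2
  connected : ∀ X Y : Flag P,
    Relation.ReflTransGen (fun A B : Flag P => Adjacent A B ∧ (X : Set P) ∩ Y ⊆ B) X Y
  regular : ∀ X Y : Flag P, ∃ f : P ≃o P, Flag.map f X = Y
  facet : ∀ F : P, IsCoatom F → Nonempty (Set.Iic F ≃o Map36 s t)
  vertexFigure : ∀ x : P, IsAtom x → Nonempty (Set.Ici x ≃o (Map36 u v)ᵒᵈ)

attribute [instance] Poly.ord Poly.bdd

/-- `U` covers `Q`: a surjective incidence-preserving map sending flags to flags and adjacent flags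
to adjacent flags. -/
def Covers {s t u v : ℕ} (U Q : Poly s t u v) : Prop :=
  ∃ (f : U.P → Q.P) (g : Flag U.P → Flag Q.P), Function.Surjective f ∧ Monotone f ∧
    (∀ X, (g X : Set Q.P) = f '' X) ∧ ∀ X Y, Adjacent X Y → Adjacent (g X) (g Y)

/-- Relators: those of the Coxeter group `[3,6,3]` and the two toroidal relators. -/
def rels (s t u v : ℕ) : Set (FreeGroup (Fin 4)) :=
  let a := FreeGroup.of (0 : Fin 4)
  let b := FreeGroup.of (1 : Fin 4)
  let c := FreeGroup.of (2 : Fin 4)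
  let d := FreeGroup.of (3 : Fin 4)
  {a ^ 2, b ^ 2, c ^ 2, d ^ 2, (a * b) ^ 3, (b * c) ^ 6, (c * d) ^ 3,
    (a * c) ^ 2, (a * d) ^ 2, (b * d) ^ 2,
    if t = 0 then (a * b * c) ^ (2 * s) else (a * (b * c) ^ 2) ^ (2 * s),
    if v = 0 then (d * c * b) ^ (2 * u) else (d * (c * b) ^ 2) ^ (2 * u)}

/-- Group orders of the finite universal polytopes; `0` for all other parameters. -/
def finiteOrder (p q : ℕ × ℕ) : ℕ :=
  if s(p, q) = s((1, 1), (1, 1)) then 108
  else if s(p, q) = s((1, 1), (3, 0)) then 324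
  else if s(p, q) = s((2, 0), (2, 0)) then 240
  else if s(p, q) = s((2, 0), (2, 2)) then 720
  else if s(p, q) = s((3, 0), (3, 0)) then 2916
  else if s(p, q) = s((3, 0), (2, 2)) then 41472
  else if s(p, q) = s((3, 0), (4, 0)) then 241920
  else if s(p, q) = s((2, 2), (2, 2)) then 13271040
  else 0

end Pool.Agent.MP_6b3afb_co
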