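import Pool.Agent.MP_6b3afb_co.Upper

set_option synthInstance.maxSize 4000

namespace Pool.Agent.MP_6b3afb_co

/-! ### coset enumeration certificates with coincidences -/

noncomputable def qx (e : ℕ) : ℕ := Nat.mod e 2048
noncomputable def qa (e : ℕ) : ℕ := Nat.mod (Nat.shiftRight e 11) 8
noncomputable def qy (e : ℕ) : ℕ := Nat.mod (Nat.shiftRight e 14) 2048

noncomputable def walk (tb : ℕ → ℕ) (i x0 m : ℕ) : ℕ → ℕ → List ℕ → Bool :=
  Nat.rec (fun _ z w => and (Nat.beq z x0) w.isEmpty)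
    (fun _ ih p z w => and (Nat.blt (Nat.mod p 4096) i) <|
      and (or (Nat.beq z (qx (tb (Nat.mod p 4096)))) (Nat.beq z (qy (tb (Nat.mod p 4096))))) <|
      cond (Nat.beq (qa (tb (Nat.mod p 4096))) 5)
        (ih (Nat.div p 4096) (cond (Nat.beq z (qx (tb (Nat.mod p 4096))))
          (qy (tb (Nat.mod p 4096))) (qx (tb (Nat.mod p 4096)))) w)
        (List.rec false (fun g w' _ => and (Nat.beq g (qa (tb (Nat.mod p 4096))))
          (ih (Nat.div p 4096) (cond (Nat.beq z (qx (tb (Nat.mod p 4096))))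
            (qy (tb (Nat.mod p 4096))) (qx (tb (Nat.mod p 4096)))) w')) w)) m

noncomputable def fchk (tb df : ℕ → ℕ) (n : ℕ) (al : List (List ℕ)) (i : ℕ) : Bool :=
  or (Nat.ble n i) <|
  Nat.rec (and (Nat.beq (df (qy (tb i))) i) (Nat.blt (qx (tb i)) (qy (tb i))))
    (fun j _ => Nat.rec
      (and (Nat.beq (qx (tb i)) 0) <| and (Nat.beq (qy (tb i)) 0) (not (Nat.beq (qa (tb i)) 1)))
      (fun k _ => cond (Nat.beq (qa (tb i)) 5)
        (walk tb i (qx (tb i)) (Nat.mod (Nat.shiftRight (tb i) 31) 32) (Nat.shiftRight (tb i) 36)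
          (qy (tb i)) (getW al k))
        (List.rec false (fun g w _ => and (Nat.beq g (qa (tb i)))
          (walk tb i (qx (tb i)) (Nat.mod (Nat.shiftRight (tb i) 31) 32) (Nat.shiftRight (tb i) 36)
            (qy (tb i)) w)) (getW al k))) j)
    (Nat.mod (Nat.shiftRight (tb i) 25) 64)

noncomputable def cf {X : Type} (tb df : ℕ → ℕ) (r : ℕ → X → X) (x0 : X) (y : ℕ) : X :=
  if _h : qx (tb (df y)) < y then r (qa (tb (df y))) (cf tb df r x0 (qx (tb (df y)))) else x0

theorem f_sound {X : Type} {tb df : ℕ → ℕ} {n : ℕ} {al : List (List ℕ)}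
    (r : ℕ → X → X) (hr : ∀ i, Function.Involutive (r i)) (h5 : ∀ z, r 5 z = z) (x0 : X)
    (hal : ∀ w ∈ al, ∀ z, run r w z = z) (hsub : ∀ g, g ≠ 1 → r g x0 = x0)
    (h : ∀ i < n, fchk tb df n al i = true) (i : ℕ) (hi : i < n) :
    r (qa (tb i)) (cf tb df r x0 (qx (tb i))) = cf tb df r x0 (qy (tb i)) := by
  induction i using Nat.strong_induction_on with
  | _ i ih =>
  have tr : ∀ x m p z w, walk tb i x m p z w = true →
      run r w (cf tb df r x0 z) = cf tb df r x0 x := by
    intro x m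
    induction m with
    | zero =>
      intro p z w e
      simp only [walk, Nat.rec_zero, Bool.and_eq_true, Nat.beq_eq, List.isEmpty_iff] at e
      rw [e.1, e.2]
      rfl
    | succ m ihm =>
      intro p z w e
      unfold walk at e ihm
      simp only [Bool.and_eq_true, Bool.or_eq_true, Nat.beq_eq, Nat.blt_eq] at e
      obtain ⟨e1, e2, e3⟩ := e
      have h1 := ih _ e1 (e1.trans hi)
      generalize tb (Nat.mod p 4096) = e at *
      have h2 : r (qa e) (cf tb df r x0 z) =
          cf tb df r x0 (cond (Nat.beq z (qx e)) (qy e) (qx e)) := by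
        cases e4 : Nat.beq z (qx e)
        · have e5 : z = qy e := e2.resolve_left (Nat.ne_of_beq_eq_false e4)
          rw [e5, ← h1, hr]
          rfl
        · rw [Nat.eq_of_beq_eq_true e4]
          exact h1
      cases e4 : Nat.beq (qa e) 5
      · rw [e4] at e3
        cases w with
        | nil => exact absurd e3 (by simp)
        | cons g w =>
          simp only [cond_false, Bool.and_eq_true, Nat.beq_eq] at e3
          rw [run_cons, e3.1, h2]
          exact ihm _ _ _ e3.2
      · rw [e4] at e3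
        rw [Nat.eq_of_beq_eq_true e4, h5] at h2
        rw [h2]
        exact ihm _ _ _ e3
  have H1 := h i hi
  simp only [fchk, Bool.or_eq_true, Nat.ble_eq] at H1
  replace H1 := H1.resolve_left (by omega)
  generalize Nat.mod (Nat.shiftRight (tb i) 25) 64 = j at H1
  have hw : ∀ k z, run r (getW al k) z = z := fun k z =>
    (getW_mem al k).elim (fun e => by rw [e]; rfl) (fun e => hal _ e z)
  rcases j with _ | _ | k
  · simp only [Nat.rec_zero, Bool.and_eq_true, Nat.beq_eq, Nat.blt_eq] at H1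
    conv_rhs => rw [cf, H1.1, dif_pos H1.2]
  · simp only [Nat.rec_zero, Bool.and_eq_true, Nat.beq_eq, Bool.not_eq_true'] at H1
    rw [H1.1, H1.2.1, cf, dif_neg (Nat.not_lt_zero _)]
    exact hsub _ (Nat.ne_of_beq_eq_false H1.2.2)
  · simp only at H1
    have h2 := hw k
    cases e4 : Nat.beq (qa (tb i)) 5
    · rw [e4] at H1
      cases e5 : getW al k with
      | nil =>
        rw [e5] at H1
        exact absurd H1 (by simp)
      | cons g w =>
        rw [e5] at H1 h2
        simp only [cond_false, Bool.and_eq_true, Nat.beq_eq] at H1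
        have := h2 (r g (cf tb df r x0 (qy (tb i))))
        rw [run_cons, hr, tr _ _ _ _ _ H1.2] at this
        rw [this, ← H1.1, hr]
    · rw [e4] at H1
      rw [Nat.eq_of_beq_eq_true e4, h5, ← tr _ _ _ _ _ H1, h2]

def xw : List (Fin 4) := [1,0,2,1,2,1,2,0,1]

def bw35 : List (List ℕ) :=
  (4 :: xw.map Fin.val) ::
    List.map (List.map Fin.val) (([[0,0],[1,1],[2,2],[3,3]] : List (List (Fin 4))) ++ bwAB 3 0 5 0)

theorem collapse35 {tb df : ℕ → ℕ} {n : ℕ} {al : List (List ℕ)}
    (hal : ∀ w ∈ al, w = [] ∨ w ∈ rots bw35) (h : ∀ i < n, fchk tb df n al i = true)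
    (i j u : ℕ) (hi : i < n) (hj : j < n) (e1 : qx (tb i) = 0 ∧ qa (tb i) = 1 ∧ qy (tb i) = u)
    (e2 : qx (tb j) = u ∧ qa (tb j) = 2 ∧ qy (tb j) = u) : ¬ FA 3 0 (fA (rho 3 0 5 0)) := by
  intro hF
  have hr := rel363_rho (s := 3) (t := 0) (u := 5) (v := 0)
  let f : ℕ → G 3 0 5 0 := fun n =>
    if h : n < 4 then rho 3 0 5 0 ⟨n, h⟩ else if n = 4 then ev (rho 3 0 5 0) xw else 1
  have hx : ev (rho 3 0 5 0) xw * ev (rho 3 0 5 0) xw = 1 := by
    rw [← ev_append, ← ev_red hr.inv]
    rfl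
  have hf : ∀ i, f i * f i = 1 := by
    intro i
    simp only [f]
    split_ifs
    exacts [hr.inv _, hx, mul_one _]
  have hv : ∀ w : List (Fin 4), ev f (w.map Fin.val) = ev (rho 3 0 5 0) w := by
    intro w
    rw [ev_map]
    simp [f]
  have hb : ∀ w ∈ bw35, ev f w = 1 := by
    intro w hw
    rcases List.mem_cons.mp hw with rfl | hw
    · rw [ev_cons, hv]
      exact hx
    · obtain ⟨w, hw', rfl⟩ := List.mem_map.mp hw
      rw [hv]
      clear hw
      rcases List.mem_append.mp hw' with hw | hw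
      · simp only [List.mem_cons, List.not_mem_nil, or_false] at hw
        rcases hw with rfl | rfl | rfl | rfl <;> simp [hr.inv]
      · exact ev_bwAB w hw
  let C := Subgroup.centralizer {rho 3 0 5 0 0}
  have hC : ∀ g, g • (((1 : G 3 0 5 0) : G 3 0 5 0 ⧸ C)) = ((1 : G 3 0 5 0) : G 3 0 5 0 ⧸ C) ↔
      Commute (rho 3 0 5 0 0) g := by
    intro g
    change ((g * 1 : G 3 0 5 0) : G 3 0 5 0 ⧸ C) = _ ↔ _
    rw [QuotientGroup.eq, mul_one, mul_one, inv_mem_iff, Subgroup.mem_centralizer_iff]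
    simp [Commute, SemiconjBy]
  have S := f_sound (fun g (z : G 3 0 5 0 ⧸ C) => f g • z) (smul_invol hf)
    (fun z => by simp [f]) ((1 : G 3 0 5 0) : _)
    (fun w hw z => by
      rcases hal w hw with rfl | hw
      · rfl
      · rw [run_smul hf, ev_rots hf hb w hw]; simp)
    (fun g hg => by
      rw [hC]
      simp only [f]
      split_ifs with h1 h2
      · interval_cases g
        · exact Commute.refl _
        · exact absurd rfl hg
        · exact hr.comm (i := 0) (j := 2) (by decide)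
        · exact hr.comm (i := 0) (j := 3) (by decide)
      · refine comm_of_sq (hr.inv 0) hx ?_
        have := hr.A.ev_eq_one (by simp [Adm]) (w := [0,1,0,2,1,2,1,2,0,1,0,1,0,2,1,2,1,2,0,1])
          ⟨0, by decide, by decide⟩
        rw [ev_fA] at this
        rw [← this, pow_two, ← ev_cons, ← ev_append]
        rfl
      · exact Commute.one_right _) h
  have s1 := S i hi
  have s2 := S j hj
  rw [e1.1, e1.2.1, e1.2.2, cf, dif_neg (Nat.not_lt_zero _)] at s1
  rw [e2.1, e2.2.1, e2.2.2, ← s1] at s2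
  have s3 : Commute (rho 3 0 5 0 0) (f 1 * f 2 * f 1) := by
    rw [← hC, mul_smul, mul_smul, s2, ← mul_smul, hf, one_smul]
  have s4 : ev (fA (rho 3 0 5 0)) [0,1,2,1,0,1,2,1] = 1 := by
    have e : ev (fA (rho 3 0 5 0)) [0,1,2,1,0,1,2,1] =
        rho 3 0 5 0 0 * (f 1 * f 2 * f 1) * (rho 3 0 5 0 0 * (f 1 * f 2 * f 1)) := by
      simp only [ev_cons, ev_nil, mul_one, mul_assoc]
      rfl
    have e' : f 1 * f 2 * f 1 * (f 1 * f 2 * f 1) = 1 := by
      simp only [mul_assoc]
      rw [← mul_assoc (f 1) (f 1), hf, one_mul, ← mul_assoc (f 2) (f 2), hf, one_mul, hf]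
    rw [e, s3.symm.mul_mul_mul_comm, hr.inv, e', one_mul]
  obtain ⟨l, -, e⟩ := hF _ s4
  have e3 : l = (fr [0,1,2,1,0,1,2,1]).1 := by rw [e]; simp [shift, base]
  rw [e3] at e
  exact absurd e (by decide)

end Pool.Agent.MP_6b3afb_co
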