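import Pool.Agent.MP_6b3afb_co.Chain

set_option synthInstance.maxSize 4000

namespace Pool.Agent.MP_6b3afb_co

section
variable {Γ : Type} [Group Γ]

def fA (f : Fin 4 → Γ) : Fin 3 → Γ := fun i => f (posA i)
def fB (f : Fin 4 → Γ) : Fin 3 → Γ := fun i => f (posB i)

theorem ev_fA (f : Fin 4 → Γ) (w : List (Fin 3)) : ev (fA f) w = ev f (w.map posA) :=
  (ev_map f posA w).symm
theorem ev_fB (f : Fin 4 → Γ) (w : List (Fin 3)) : ev (fB f) w = ev f (w.map posB) :=
  (ev_map f posB w).symm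

structure Rel363 (s t u v : ℕ) (f : Fin 4 → Γ) : Prop where
  A : RelT s t (fA f)
  B : RelT u v (fB f)
  ad : (f 0 * f 3) ^ 2 = 1

variable {s t u v : ℕ} {f : Fin 4 → Γ}

theorem Rel363.inv (h : Rel363 s t u v f) (i : Fin 4) : f i * f i = 1 := by
  fin_cases i
  · exact h.A.inv 0
  · exact h.A.inv 1
  · exact h.A.inv 2
  · exact h.B.inv 0

theorem relT_of_K {a b : ℕ} {g : Fin 3 → Γ} (h : ∀ w, K a b w → ev g w = 1) : RelT a b g := by
  have h0 : ∀ w, fr w = base → ev g w = 1 := fun w hw => h w ⟨0, Lat.zero a b, by simpa using hw⟩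
  refine ⟨⟨fun i => ?_, ?_, ?_, ?_⟩, ?_⟩
  · simpa using h0 [i, i] (by revert i; decide)
  · simpa [pow_succ, mul_assoc] using h0 [0,1,0,1,0,1] (by decide)
  · simpa [pow_succ, mul_assoc] using h0 [1,2,1,2,1,2,1,2,1,2,1,2] (by decide)
  · simpa [pow_succ, mul_assoc] using h0 [0,2,0,2] (by decide)
  · rw [← ev_torWord]
    exact h _ (K_torWord a b)

theorem comm_of_sq {x y : Γ} (hx : x * x = 1) (hy : y * y = 1) (h : (x * y) ^ 2 = 1) :
    Commute x y := by
  have : x * y = (x * y)⁻¹ := by rw [eq_inv_iff_mul_eq_one, ← pow_two, h]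
  rw [mul_inv_rev, inv_eq_of_mul_eq_one_right hx, inv_eq_of_mul_eq_one_right hy] at this
  exact this

theorem Rel363.comm (h : Rel363 s t u v f) {i j : Fin 4} (hij : (i : ℕ) + 2 ≤ j) :
    Commute (f i) (f j) := by
  have key : ∀ i j : Fin 4, (i : ℕ) + 2 ≤ j →
      (i = 0 ∧ j = 2) ∨ (i = 0 ∧ j = 3) ∨ (i = 1 ∧ j = 3) := by decide
  rcases key i j hij with ⟨rfl, rfl⟩ | ⟨rfl, rfl⟩ | ⟨rfl, rfl⟩
  · exact comm_of_sq (h.inv 0) (h.inv 2) h.A.ac
  · exact comm_of_sq (h.inv 0) (h.inv 3) h.ad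
  · exact (comm_of_sq (h.inv 3) (h.inv 1) h.B.ac).symm

def In (f : Fin 4 → Γ) (S : Finset (Fin 4)) (g : Γ) : Prop :=
  ∃ y : List (Fin 4), (∀ i ∈ y, i ∈ S) ∧ ev f y = g

theorem In.one (f : Fin 4 → Γ) (S : Finset (Fin 4)) : In f S 1 := ⟨[], by simp, rfl⟩

theorem In.gen (f : Fin 4 → Γ) {S : Finset (Fin 4)} {i : Fin 4} (h : i ∈ S) : In f S (f i) :=
  ⟨[i], by simpa, by simp⟩

theorem In.mul {S : Finset (Fin 4)} {g g' : Γ} (h : In f S g) (h' : In f S g') :
    In f S (g * g') := by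
  obtain ⟨y, hy, rfl⟩ := h
  obtain ⟨y', hy', rfl⟩ := h'
  refine ⟨y ++ y', ?_, ev_append _ _ _⟩
  intro i hi
  rcases List.mem_append.mp hi with hi | hi
  exacts [hy i hi, hy' i hi]

theorem In.inv (hr : ∀ i, f i * f i = 1) {S : Finset (Fin 4)} {g : Γ} (h : In f S g) :
    In f S g⁻¹ := by
  obtain ⟨y, hy, rfl⟩ := h
  exact ⟨y.reverse, by simpa using hy, ev_reverse hr y⟩

theorem In.mono {S S' : Finset (Fin 4)} {g : Γ} (h : In f S g) (hS : S ⊆ S') : In f S' g := by
  obtain ⟨y, hy, rfl⟩ := h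
  exact ⟨y, fun i hi => hS (hy i hi), rfl⟩

theorem In.single (hr : ∀ i, f i * f i = 1) {i : Fin 4} {g : Γ} (h : In f {i} g) :
    g = 1 ∨ g = f i := by
  obtain ⟨y, hy, rfl⟩ := h
  induction y with
  | nil => exact Or.inl rfl
  | cons j y ih =>
    obtain rfl : j = i := by simpa using hy j (by simp)
    rcases ih (fun k hk => hy k (by simp [hk])) with h | h
    · right; simp [h]
    · left; simp [h, hr]

theorem In.empty {g : Γ} (h : In f ∅ g) : g = 1 := by
  obtain ⟨y, hy, rfl⟩ := h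
  cases y with
  | nil => rfl
  | cons j y => simpa using hy j (by simp)

theorem In.commute {S S' : Finset (Fin 4)} (hc : ∀ i ∈ S, ∀ j ∈ S', Commute (f i) (f j))
    {g g' : Γ} (h : In f S g) (h' : In f S' g') : Commute g g' := by
  obtain ⟨y, hy, rfl⟩ := h
  obtain ⟨y', hy', rfl⟩ := h'
  apply Commute.list_prod_left
  intro x hx
  obtain ⟨i, hi, rfl⟩ := List.mem_map.mp hx
  apply Commute.list_prod_right
  intro x hx
  obtain ⟨j, hj, rfl⟩ := List.mem_map.mp hx
  exact hc i (hy i hi) j (hy' j hj)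

theorem In.factor {S S' : Finset (Fin 4)} (hc : ∀ i ∈ S, ∀ j ∈ S', Commute (f i) (f j))
    {g : Γ} (h : In f (S ∪ S') g) : ∃ p q, In f S p ∧ In f S' q ∧ g = p * q := by
  obtain ⟨y, hy, rfl⟩ := h
  induction y with
  | nil => exact ⟨1, 1, In.one _ _, In.one _ _, by simp⟩
  | cons j y ih =>
    obtain ⟨p, q, hp, hq, e⟩ := ih (fun k hk => hy k (by simp [hk]))
    rcases Finset.mem_union.mp (hy j (by simp)) with hj | hj
    · exact ⟨f j * p, q, (In.gen f hj).mul hp, hq, by rw [ev_cons, e, mul_assoc]⟩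
    · refine ⟨p, f j * q, hp, (In.gen f hj).mul hq, ?_⟩
      rw [ev_cons, e, ← mul_assoc, ← (In.commute hc hp (In.gen f hj)).eq, mul_assoc]

theorem exists_map_pos (pos : Fin 3 → Fin 4) (y : List (Fin 4)) (hy : ∀ i ∈ y, ∃ j, pos j = i) :
    ∃ y' : List (Fin 3), y = y'.map pos := by
  induction y with
  | nil => exact ⟨[], rfl⟩
  | cons i y ih =>
    obtain ⟨y', rfl⟩ := ih (fun k hk => hy k (by simp [hk]))
    obtain ⟨j, rfl⟩ := hy i (by simp)
    exact ⟨j :: y', rfl⟩

theorem inter_pos {a b : ℕ} (hab : Adm a b) (pos : Fin 3 → Fin 4) (hpos : Function.Injective pos)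
    (hr : Rel36 fun i => f (pos i)) (hf : FA a b fun i => f (pos i)) {i j k : Fin 3} (hij : i ≠ j)
    (hik : i ≠ k) (hjk : j ≠ k) {g : Γ} (h1 : In f {pos j, pos k} g) (h2 : In f {pos i, pos k} g) :
    In f {pos k} g := by
  obtain ⟨y, hy, rfl⟩ := h1
  obtain ⟨z, hz, e⟩ := h2
  obtain ⟨y, rfl⟩ := exists_map_pos pos y (fun x hx => by
    rcases Finset.mem_insert.mp (hy x hx) with h | h
    · exact ⟨j, h.symm⟩
    · exact ⟨k, (Finset.mem_singleton.mp h).symm⟩)
  obtain ⟨z, rfl⟩ := exists_map_pos pos z (fun x hx => by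
    rcases Finset.mem_insert.mp (hz x hx) with h | h
    · exact ⟨i, h.symm⟩
    · exact ⟨k, (Finset.mem_singleton.mp h).symm⟩)
  rw [ev_map, ev_map] at e
  obtain ⟨x, hx1, hx2, hx⟩ := hf.inter hab hr hij (u := y) (w := z)
    (fun h => by simpa [hpos.eq_iff, hij, hik] using hy _ (List.mem_map_of_mem h))
    (fun h => by simpa [hpos.eq_iff, hij.symm, hjk] using hz _ (List.mem_map_of_mem h)) e.symm
  refine ⟨x.map pos, ?_, by rw [ev_map, ev_map, hx]⟩
  intro m hm
  obtain ⟨m, hm', rfl⟩ := List.mem_map.mp hm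
  have h3 : m ≠ i := fun h => hx1 (h ▸ hm')
  have h4 : m ≠ j := fun h => hx2 (h ▸ hm')
  have : m = k := by omega
  simp [this]

theorem ne_pos {a b : ℕ} (hab : Adm a b) (pos : Fin 3 → Fin 4) (hpos : Function.Injective pos)
    (hr : Rel36 fun i => f (pos i)) (hf : FA a b fun i => f (pos i)) {i j k : Fin 3} (hij : i ≠ j)
    (hik : i ≠ k) : ¬ In f {pos j, pos k} (f (pos i)) := by
  rintro ⟨y, hy, e⟩
  obtain ⟨y, rfl⟩ := exists_map_pos pos y (fun x hx => by
    rcases Finset.mem_insert.mp (hy x hx) with h | h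
    · exact ⟨j, h.symm⟩
    · exact ⟨k, (Finset.mem_singleton.mp h).symm⟩)
  rw [ev_map] at e
  exact hf.ne_avoid hab hr i
    (fun h => by simpa [hpos.eq_iff, hij, hik] using hy _ (List.mem_map_of_mem h)) e.symm

structure Good (s t u v : ℕ) (f : Fin 4 → Γ) : Prop where
  rel : Rel363 s t u v f
  A : FA s t (fA f)
  B : FA u v (fB f)
  ip : ∀ g, In f {0, 1, 2} g → In f {1, 2, 3} g → In f {1, 2} g

theorem posA_inj : Function.Injective posA := by decide
theorem posB_inj : Function.Injective posB := by decide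

theorem Good.IP (hs : Adm s t) (hu : Adm u v) (h : Good s t u v f) (J : Finset (Fin 4)) (g : Γ)
    (hgen : In f Finset.univ g) (hJ : ∀ m ∈ J, In f {m}ᶜ g) : In f Jᶜ g := by
  have hi := h.rel.inv
  have a1 : ∀ {g}, In f {1, 2} g → In f {0, 2} g → In f {2} g :=
    inter_pos hs posA posA_inj h.rel.A.toRel36 h.A (i := 0) (j := 1) (k := 2)
      (by decide) (by decide) (by decide)
  have a2 : ∀ {g}, In f {2, 1} g → In f {0, 1} g → In f {1} g :=
    inter_pos hs posA posA_inj h.rel.A.toRel36 h.A (i := 0) (j := 2) (k := 1)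
      (by decide) (by decide) (by decide)
  have a3 : ∀ {g}, In f {2, 0} g → In f {1, 0} g → In f {0} g :=
    inter_pos hs posA posA_inj h.rel.A.toRel36 h.A (i := 1) (j := 2) (k := 0)
      (by decide) (by decide) (by decide)
  have b1 : ∀ {g}, In f {2, 1} g → In f {3, 1} g → In f {1} g :=
    inter_pos hu posB posB_inj h.rel.B.toRel36 h.B (i := 0) (j := 1) (k := 2)
      (by decide) (by decide) (by decide)
  have b2 : ∀ {g}, In f {1, 2} g → In f {3, 2} g → In f {2} g :=
    inter_pos hu posB posB_inj h.rel.B.toRel36 h.B (i := 0) (j := 2) (k := 1)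
      (by decide) (by decide) (by decide)
  have b3 : ∀ {g}, In f {1, 3} g → In f {2, 3} g → In f {3} g :=
    inter_pos hu posB posB_inj h.rel.B.toRel36 h.B (i := 1) (j := 2) (k := 0)
      (by decide) (by decide) (by decide)
  have n0 : ¬ In f {1, 2} (f 0) :=
    ne_pos hs posA posA_inj h.rel.A.toRel36 h.A (i := 0) (j := 1) (k := 2) (by decide) (by decide)
  have n3 : ¬ In f {2, 1} (f 3) :=
    ne_pos hu posB posB_inj h.rel.B.toRel36 h.B (i := 0) (j := 1) (k := 2) (by decide) (by decide)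
  have n21 : ¬ In f {0, 1} (f 2) :=
    ne_pos hs posA posA_inj h.rel.A.toRel36 h.A (i := 2) (j := 0) (k := 1) (by decide) (by decide)
  have fac1 : ∀ {g}, In f {0, 2, 3} g → ∃ p q, In f {0} p ∧ In f {2, 3} q ∧ g = p * q :=
    fun hg => In.factor (fun i hi j hj => h.rel.comm (by revert i j; decide)) hg
  have fac2 : ∀ {g}, In f {0, 1, 3} g → ∃ p q, In f {0, 1} p ∧ In f {3} q ∧ g = p * q :=
    fun hg => In.factor (fun i hi j hj => h.rel.comm (by revert i j; decide)) hg
  have P01 : ∀ {g}, In f {1, 2, 3} g → In f {0, 2, 3} g → In f {2, 3} g := by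
    intro g h0 h1
    obtain ⟨p, q, hp, hq, rfl⟩ := fac1 h1
    rcases hp.single hi with rfl | rfl
    · simpa using hq
    · exfalso
      apply n0
      apply h.ip _ (In.gen f (by decide))
      simpa using h0.mul ((hq.inv hi).mono (by decide))
  have P23 : ∀ {g}, In f {0, 1, 3} g → In f {0, 1, 2} g → In f {0, 1} g := by
    intro g h2 h3
    obtain ⟨p, q, hp, hq, rfl⟩ := fac2 h2
    rcases hq.single hi with rfl | rfl
    · simpa using hp
    · exfalso
      apply n3
      refine (h.ip _ ?_ (In.gen f (by decide))).mono (by decide)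
      simpa using ((hp.inv hi).mono (by decide)).mul h3
  have P02 : ∀ {g}, In f {1, 2, 3} g → In f {0, 1, 3} g → In f {1, 3} g := by
    intro g h0 h2
    obtain ⟨p, q, hp, hq, rfl⟩ := fac2 h2
    have h3 : In f {1, 2} p := h.ip _ (hp.mono (by decide))
      (by simpa using h0.mul ((hq.inv hi).mono (by decide)))
    exact ((a2 (h3.mono (by decide)) hp).mono (by decide)).mul (hq.mono (by decide))
  have P13 : ∀ {g}, In f {0, 2, 3} g → In f {0, 1, 2} g → In f {0, 2} g := by
    intro g h1 h3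
    obtain ⟨p, q, hp, hq, rfl⟩ := fac1 h1
    have h4 : In f {1, 2} q := h.ip _ (by simpa using ((hp.inv hi).mono (by decide)).mul h3)
      (hq.mono (by decide))
    exact (hp.mono (by decide)).mul ((b2 h4 (hq.mono (by decide))).mono (by decide))
  have P12 : ∀ {g}, In f {0, 2, 3} g → In f {0, 1, 3} g → In f {0, 3} g := by
    intro g h1 h2
    obtain ⟨p, q, hp, hq, rfl⟩ := fac1 h1
    obtain ⟨p', q', hp', hq', e⟩ := fac2 h2
    have e2 : p⁻¹ * p' = q * q'⁻¹ := by
      rw [inv_mul_eq_iff_eq_mul, ← mul_assoc, e, mul_inv_cancel_right]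
    have h3 : In f {0, 1} (p⁻¹ * p') := ((hp.inv hi).mono (by decide)).mul hp'
    have h4 : In f {2, 3} (p⁻¹ * p') := e2 ▸ hq.mul ((hq'.inv hi).mono (by decide))
    have h5 : In f {1, 2} (p⁻¹ * p') := h.ip _ (h3.mono (by decide)) (h4.mono (by decide))
    have h6 := b2 h5 (h4.mono (by decide))
    have h7 : p⁻¹ * p' = 1 := by
      rcases h6.single hi with h7 | h7
      · exact h7
      · exact absurd (h7 ▸ h3) n21
    rw [e, ← inv_mul_eq_one.mp h7]
    exact (hp.mono (by decide)).mul (hq'.mono (by decide))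
  have c0 : ∀ {g}, In f {0}ᶜ g → In f {1, 2, 3} g := fun hg => hg.mono (by decide)
  have c1 : ∀ {g}, In f {1}ᶜ g → In f {0, 2, 3} g := fun hg => hg.mono (by decide)
  have c2 : ∀ {g}, In f {2}ᶜ g → In f {0, 1, 3} g := fun hg => hg.mono (by decide)
  have c3 : ∀ {g}, In f {3}ᶜ g → In f {0, 1, 2} g := fun hg => hg.mono (by decide)
  have T012 : In f {0}ᶜ g → In f {1}ᶜ g → In f {2}ᶜ g → In f {3} g := fun g0 g1 g2 =>
    b3 (P02 (c0 g0) (c2 g2)) (P01 (c0 g0) (c1 g1))
  have T123 : In f {1}ᶜ g → In f {2}ᶜ g → In f {3}ᶜ g → In f {0} g := fun g1 g2 g3 =>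
    a3 ((P13 (c1 g1) (c3 g3)).mono (by decide)) ((P23 (c2 g2) (c3 g3)).mono (by decide))
  have hJ' : J = ∅ ∨ J = {0} ∨ J = {1} ∨ J = {2} ∨ J = {3} ∨ J = {0, 1} ∨ J = {0, 2} ∨
      J = {0, 3} ∨ J = {1, 2} ∨ J = {1, 3} ∨ J = {2, 3} ∨ J = {0, 1, 2} ∨ J = {0, 1, 3} ∨
      J = {0, 2, 3} ∨ J = {1, 2, 3} ∨ J = {0, 1, 2, 3} := by
    clear hJ; revert J; decide
  rcases hJ' with rfl | rfl | rfl | rfl | rfl | rfl | rfl | rfl | rfl | rfl | rfl | rfl | rfl |
    rfl | rfl | rfl
  · simpa using hgen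
  · exact hJ _ (by decide)
  · exact hJ _ (by decide)
  · exact hJ _ (by decide)
  · exact hJ _ (by decide)
  · exact (P01 (c0 (hJ _ (by decide))) (c1 (hJ _ (by decide)))).mono (by decide)
  · exact (P02 (c0 (hJ _ (by decide))) (c2 (hJ _ (by decide)))).mono (by decide)
  · exact (h.ip _ (c3 (hJ _ (by decide))) (c0 (hJ _ (by decide)))).mono (by decide)
  · exact (P12 (c1 (hJ _ (by decide))) (c2 (hJ _ (by decide)))).mono (by decide)
  · exact (P13 (c1 (hJ _ (by decide))) (c3 (hJ _ (by decide)))).mono (by decide)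
  · exact (P23 (c2 (hJ _ (by decide))) (c3 (hJ _ (by decide)))).mono (by decide)
  · exact (T012 (hJ _ (by decide)) (hJ _ (by decide)) (hJ _ (by decide))).mono (by decide)
  · exact (b2 (h.ip _ (c3 (hJ _ (by decide))) (c0 (hJ _ (by decide))))
      ((P01 (c0 (hJ _ (by decide))) (c1 (hJ _ (by decide)))).mono (by decide))).mono (by decide)
  · exact (a2 ((h.ip _ (c3 (hJ _ (by decide))) (c0 (hJ _ (by decide)))).mono (by decide))
      (P23 (c2 (hJ _ (by decide))) (c3 (hJ _ (by decide))))).mono (by decide)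
  · exact (T123 (hJ _ (by decide)) (hJ _ (by decide)) (hJ _ (by decide))).mono (by decide)
  · have h3 := T012 (hJ _ (by decide)) (hJ _ (by decide)) (hJ _ (by decide))
    have h0 := T123 (hJ _ (by decide)) (hJ _ (by decide)) (hJ _ (by decide))
    rcases h0.single hi with rfl | rfl
    · exact In.one _ _
    · exact absurd (h.ip _ (In.gen f (by decide)) (h3.mono (by decide))) n0

theorem Good.gen_not_in (hs : Adm s t) (hu : Adm u v) (h : Good s t u v f) (i : Fin 4) :
    ¬ In f {i}ᶜ (f i) := by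
  intro hi
  have h1 := h.IP hs hu Finset.univ (f i) (In.gen f (by simp)) (fun m _ => by
    by_cases hm : m = i
    · exact hm ▸ hi
    · exact In.gen f (by simpa using Ne.symm hm))
  have h2 : f i = 1 := In.empty (by simpa using h1)
  fin_cases i
  · exact h.A.ne_avoid hs h.rel.A.toRel36 0 (w := []) (by simp) h2
  · exact h.A.ne_avoid hs h.rel.A.toRel36 1 (w := []) (by simp) h2
  · exact h.A.ne_avoid hs h.rel.A.toRel36 2 (w := []) (by simp) h2
  · exact h.B.ne_avoid hu h.rel.B.toRel36 0 (w := []) (by simp) h2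

theorem fA_rev (f : Fin 4 → Γ) : fA (fun i => f i.rev) = fB f := by
  funext i; fin_cases i <;> rfl
theorem fB_rev (f : Fin 4 → Γ) : fB (fun i => f i.rev) = fA f := by
  funext i; fin_cases i <;> rfl

theorem Rel363.dual (h : Rel363 s t u v f) : Rel363 u v s t (fun i => f i.rev) where
  A := fA_rev f ▸ h.B
  B := fB_rev f ▸ h.A
  ad := by
    have := (h.comm (i := 0) (j := 3) (by decide)).eq
    change (f 3 * f 0) ^ 2 = 1
    rw [← this, h.ad]

theorem In.rev {S : Finset (Fin 4)} {g : Γ} (h : In f S g) :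
    In (fun i => f i.rev) (S.image Fin.rev) g := by
  obtain ⟨y, hy, rfl⟩ := h
  refine ⟨y.map Fin.rev, ?_, by simp [ev_map]⟩
  intro i hi
  obtain ⟨j, hj, rfl⟩ := List.mem_map.mp hi
  exact Finset.mem_image_of_mem _ (hy j hj)

theorem Good.dual (h : Good s t u v f) : Good u v s t (fun i => f i.rev) where
  rel := h.rel.dual
  A := fA_rev f ▸ h.B
  B := fB_rev f ▸ h.A
  ip := by
    intro g h1 h2
    have h1' := h1.rev
    have h2' := h2.rev
    simp only [Fin.rev_rev] at h1' h2'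
    exact (h.ip g (h2'.mono (by decide)) (h1'.mono (by decide))).rev.mono (by decide)

end

abbrev G (s t u v : ℕ) := PresentedGroup (rels s t u v)

def rho (s t u v : ℕ) (i : Fin 4) : G s t u v := PresentedGroup.of i

variable {s t u v : ℕ}

theorem rel363_iff {Γ : Type} [Group Γ] (f : Fin 4 → Γ) :
    Rel363 s t u v f ↔ ∀ r ∈ rels s t u v, FreeGroup.lift f r = 1 := by
  simp only [rels, Set.mem_insert_iff, Set.mem_singleton_iff, forall_eq_or_imp, forall_eq,
    map_pow, map_mul, FreeGroup.lift_apply_of, apply_ite (FreeGroup.lift f)]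
  constructor
  · intro h
    have hi := h.inv
    refine ⟨by rw [pow_two, hi], by rw [pow_two, hi], by rw [pow_two, hi], by rw [pow_two, hi],
      h.A.ab, h.A.bc, ?_, h.A.ac, h.ad, ?_, h.A.tor, h.B.tor⟩
    · have := h.B.toRel36.al [1,0,1,0,1,0] (by decide)
      rw [ev_fB] at this
      have h2 : ev f [2,3,2,3,2,3] = 1 := this
      simpa [pow_succ, mul_assoc] using h2
    · have := h.B.toRel36.al [2,0,2,0] (by decide)
      rw [ev_fB] at this
      have h2 : ev f [1,3,1,3] = 1 := this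
      simpa [pow_succ, mul_assoc] using h2
  · rintro ⟨h0, h1, h2, h3, h01, h12, h23, h02, h03, h13, hA, hB⟩
    rw [pow_two] at h0 h1 h2 h3
    refine ⟨⟨⟨fun i => by fin_cases i <;> assumption, h01, h12, h02⟩, hA⟩,
      ⟨⟨fun i => by fin_cases i <;> assumption, ?_, ?_, ?_⟩, hB⟩, h03⟩
    · have := ev_rotate_eq_one (f := f) (w := [2,3,2,3,2,3])
        (by simpa [pow_succ, mul_assoc] using h23) 1
      change (f 3 * f 2) ^ 3 = 1
      simpa [pow_succ, mul_assoc] using this
    · have := ev_rotate_eq_one (f := f) (w := [1,2,1,2,1,2,1,2,1,2,1,2])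
        (by simpa [pow_succ, mul_assoc] using h12) 1
      change (f 2 * f 1) ^ 6 = 1
      simpa [pow_succ, mul_assoc] using this
    · have := ev_rotate_eq_one (f := f) (w := [1,3,1,3])
        (by simpa [pow_succ, mul_assoc] using h13) 1
      change (f 3 * f 1) ^ 2 = 1
      simpa [pow_succ, mul_assoc] using this

theorem rel363_rho : Rel363 s t u v (rho s t u v) := by
  rw [rel363_iff]
  intro r hr
  have : FreeGroup.lift (rho s t u v) = PresentedGroup.mk (rels s t u v) := by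
    ext i
    simp [rho, PresentedGroup.of]
  rw [this]
  exact PresentedGroup.one_of_mem hr

def Rel363.hom {Γ : Type} [Group Γ] {f : Fin 4 → Γ} (h : Rel363 s t u v f) : G s t u v →* Γ :=
  PresentedGroup.toGroup ((rel363_iff f).mp h)

theorem Rel363.hom_rho {Γ : Type} [Group Γ] {f : Fin 4 → Γ} (h : Rel363 s t u v f) (i : Fin 4) :
    h.hom (rho s t u v i) = f i := PresentedGroup.toGroup.of _

theorem Rel363.hom_ev {Γ : Type} [Group Γ] {f : Fin 4 → Γ} (h : Rel363 s t u v f)
    (w : List (Fin 4)) : h.hom (ev (rho s t u v) w) = ev f w := by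
  rw [map_ev]
  simp only [h.hom_rho]

theorem exists_word (g : G s t u v) : ∃ w, ev (rho s t u v) w = g := by
  have : g ∈ Subgroup.closure (Set.range (rho s t u v)) := by
    have := PresentedGroup.closure_range_of (rels s t u v)
    unfold rho
    rw [this]
    trivial
  induction this using Subgroup.closure_induction with
  | mem x hx =>
    obtain ⟨i, rfl⟩ := hx
    exact ⟨[i], by simp⟩
  | one => exact ⟨[], rfl⟩
  | mul x y _ _ hx hy =>
    obtain ⟨w, rfl⟩ := hx
    obtain ⟨w', rfl⟩ := hy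
    exact ⟨w ++ w', ev_append _ _ _⟩
  | inv x _ hx =>
    obtain ⟨w, rfl⟩ := hx
    exact ⟨w.reverse, ev_reverse rel363_rho.inv w⟩

theorem in_univ (g : G s t u v) : In (rho s t u v) Finset.univ g := by
  obtain ⟨w, rfl⟩ := exists_word g
  exact ⟨w, by simp, rfl⟩

def dualEquiv (s t u v : ℕ) : G s t u v ≃* G u v s t :=
  MonoidHom.toMulEquiv (rel363_rho (s := u) (t := v) (u := s) (v := t)).dual.hom
    (rel363_rho (s := s) (t := t) (u := u) (v := v)).dual.hom
    (by
      apply PresentedGroup.ext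
      intro i
      change _ = rho s t u v i
      rw [MonoidHom.comp_apply]
      erw [Rel363.hom_rho]
      rw [Fin.rev_rev])
    (by
      apply PresentedGroup.ext
      intro i
      change _ = rho u v s t i
      rw [MonoidHom.comp_apply]
      erw [Rel363.hom_rho]
      rw [Fin.rev_rev])

theorem dualEquiv_rho (i : Fin 4) : dualEquiv s t u v (rho s t u v i) = rho u v s t i.rev :=
  (rel363_rho (s := u) (t := v) (u := s) (v := t)).dual.hom_rho i

theorem Good.of_hom {Γ Δ : Type} [Group Γ] [Group Δ] {f : Fin 4 → Γ} (hf : Rel363 s t u v f)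
    (φ : Γ →* Δ) (hφ : Function.Injective φ) (h : Good s t u v fun i => φ (f i)) :
    Good s t u v f where
  rel := hf
  A := fun w hw => h.A w (by
    have := congrArg φ hw
    rw [map_ev, map_one] at this
    exact this)
  B := fun w hw => h.B w (by
    have := congrArg φ hw
    rw [map_ev, map_one] at this
    exact this)
  ip := by
    rintro g ⟨y, hy, rfl⟩ ⟨z, hz, e⟩
    obtain ⟨x, hx, e2⟩ := h.ip (φ (ev f y)) ⟨y, hy, by rw [map_ev]⟩ ⟨z, hz, by rw [← e, map_ev]⟩
    exact ⟨x, hx, hφ (by rw [map_ev, e2])⟩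

theorem good_dual (h : Good u v s t (rho u v s t)) : Good s t u v (rho s t u v) := by
  apply Good.of_hom rel363_rho (dualEquiv s t u v).toMonoidHom (dualEquiv s t u v).injective
  have : (fun i => (dualEquiv s t u v).toMonoidHom (rho s t u v i)) =
      fun i => rho u v s t i.rev := funext dualEquiv_rho
  rw [this]
  exact h.dual

/-! ### the monodromy action on chains -/

variable (Q : Poly s t u v)

noncomputable def Poly.rp (i : Fin 4) : Equiv.Perm (Chain Q.P) := (Q.r_invol i).toPerm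

theorem Poly.ev_rp_eq_one {w : List (Fin 4)} (h : ∀ φ, run Q.r w φ = φ) : ev Q.rp w = 1 := by
  rw [← inv_eq_one]
  ext1 φ
  exact (ev_perm_inv_apply Q.r_invol w φ).trans (h φ)

theorem Poly.rel363 (hs : Adm s t) (hu : Adm u v) : Rel363 s t u v Q.rp where
  A := relT_of_K fun w hw => by
    rw [ev_fA]
    exact Q.ev_rp_eq_one fun φ => (Q.facet_run hs φ w).mpr hw
  B := relT_of_K fun w hw => by
    rw [ev_fB]
    exact Q.ev_rp_eq_one fun φ => (Q.vfig_run hu φ w).mpr hw
  ad := by simpa [pow_succ, mul_assoc] using Q.ev_rp_eq_one Q.r_comm03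

theorem Poly.run_eq_of_ev_eq (hs : Adm s t) (hu : Adm u v) {w w' : List (Fin 4)}
    (h : ev (rho s t u v) w = ev (rho s t u v) w') (φ : Chain Q.P) :
    run Q.r w φ = run Q.r w' φ := by
  have := congrArg (Q.rel363 hs hu).hom h
  rw [Rel363.hom_ev, Rel363.hom_ev] at this
  rw [← ev_perm_inv_apply Q.r_invol, ← ev_perm_inv_apply Q.r_invol]
  exact congrArg (fun g : Equiv.Perm _ => g⁻¹ φ) this

theorem Poly.fa (Q : Poly s t u v) (hs : Adm s t) (hu : Adm u v) :
    FA s t (fA (rho s t u v)) ∧ FA u v (fB (rho s t u v)) := by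
  obtain ⟨φ⟩ := Q.nonempty_chain
  constructor
  · intro w hw
    rw [ev_fA] at hw
    exact (Q.facet_run hs φ w).mp (Q.run_eq_of_ev_eq hs hu (w' := []) hw φ)
  · intro w hw
    rw [ev_fB] at hw
    exact (Q.vfig_run hu φ w).mp (Q.run_eq_of_ev_eq hs hu (w' := []) hw φ)

end Pool.Agent.MP_6b3afb_co
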