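import Pool.Agent.MP_6b3afb_co.Upper

set_option maxRecDepth 100000

namespace Pool.Agent.MP_6b3afb_co.I4040

noncomputable def c0 : ℕ := nat_lit 0x4c00000013010000048000000100000000480000000d00010004c0000000e000000034000000110000000440000000c0000000400000001000000002c0000001300000003c0000000a0100000380000000b0000000380000000900010003c0000001200000004400000012000000034000000090000000240000000c0000000200000001100000002c000000070000000400000000f0000000180000000f000000028000000070000000300000000e0000000140000000d000000014000000040000000300000000800000000c0000000b0000000100000000a000000028000000060000000180000000300000002000000002000000024000000050000000040000000800000001c0000000400000001c000000030000000040000000600000000000000005000000008000000020000000100000000000000000c000000010000000080000000100000000000000000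
noncomputable def tr : Tr := (.leaf c0)
noncomputable def tb : ℕ → ℕ := look tr 34 17179869184
noncomputable def ra : ℕ → Bool := rchk tb 20 (fxA tb) [0,1,2,1,2,1,0,1,2,1,2,1,0,1,2,1,2,1,0,1,2,1,2,1] [0,1,2,0,1,2,0,1,2,0,1,2,0,1,2,0,1,2,0,1,2,0,1,2] [0,1,2,1,2,1,0,1,2,1,2,1,0,1,2,1,2,1,0,1,2,1,2,1] [0,1,2,0,1,2,0,1,2,0,1,2,0,1,2,0,1,2,0,1,2,0,1,2]
theorem a0 : allB ra 5 0 = true := by decide +kernel
theorem ha : ∀ x < 20, ra x = true :=
  allB_cover (d := 5) (k := 1) (fun b hb => by
    interval_cases b
    exacts [a0]) (by norm_num)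
theorem hw : mvA tb [3,2,1,2,1,2,3,0,1,2] = true := by decide +kernel
noncomputable def e0 : ℕ := nat_lit 0x98004c0026001200090004800200013000700044001e0011000800038002400100006000340022000d0008800400018000e00058003c001a000f000780028001c000b00068001c0016000c00038003000100007000300024000c00080002800200014000900050002c000a000a0004800100012000500040000c000e00060002000180008000300018001400040004000100004000600020000000080002000100008000000000000
noncomputable def tr2 : Tr := (.leaf e0)
noncomputable def tb2 : ℕ → ℕ := look tr2 17 131072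
noncomputable def rc : ℕ → Bool := rchk tb2 20 (fxP tb2) [0,1,2,1,2,1,0,1,2,1,2,1,0,1,2,1,2,1,0,1,2,1,2,1] [0,1,2,0,1,2,0,1,2,0,1,2,0,1,2,0,1,2,0,1,2,0,1,2] [0,1,2,1,2,1,0,1,2,1,2,1,0,1,2,1,2,1,0,1,2,1,2,1] [0,1,2,0,1,2,0,1,2,0,1,2,0,1,2,0,1,2,0,1,2,0,1,2]
theorem r0 : allB rc 5 0 = true := by decide +kernel
theorem hr : ∀ x < 20, rc x = true :=
  allB_cover (d := 5) (k := 1) (fun b hb => by
    interval_cases b
    exacts [r0]) (by norm_num)
noncomputable def blk (x : ℕ) : ℕ := Nat.mod (Nat.shiftRight (nat_lit 0x8000041100) (Nat.mul 2 x)) 4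
theorem b0 : allB (bchk tb2 20 blk) 5 0 = true := by decide +kernel
theorem hb : ∀ x < 20, bchk tb2 20 blk x = true :=
  allB_cover (d := 5) (k := 1) (fun b hb => by
    interval_cases b
    exacts [b0]) (by norm_num)
theorem e1 : echk tb2 [18,7,9,19] 4 0 posA = true := by decide +kernel
theorem e2 : echk tb2 [18,7,9,19] 4 0 posB = true := by decide +kernel
theorem e3 : e3chk tb2 [18,7,9,19] blk 4 0 = true := by decide +kernel
theorem main : Good 4 0 4 0 (rho 4 0 4 0) ∧ Infinite (G 4 0 4 0) := by
  have hs : Adm 4 0 := by simp [Adm]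
  have hu' : Adm 4 0 := by simp [Adm]
  obtain ⟨T⟩ := exists_tabAct hs hu' ⟨by decide, by decide⟩ ⟨by decide, by decide⟩ hr
  have hbs : ∀ b ∈ [18,7,9,19], b < 20 := by decide
  exact ⟨T.good hs hu' hbs _ (bchk_spec hb) e1 e2 e3,
    infinite_of_tab hs hu' (by norm_num) ⟨by decide, by decide⟩ ⟨by decide, by decide⟩ ha _ hw⟩

end Pool.Agent.MP_6b3afb_co.I4040
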