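import Pool.Agent.MP_6b3afb_co.Upper

set_option maxRecDepth 100000

namespace Pool.Agent.MP_6b3afb_co.I5050

noncomputable def c0 : ℕ := nat_lit 0x6400000019000000064000000180000000600000001800000005c0000001900000005c00000016000000060000000170100000540000001700000005000000016000100058000000150000000440000001501000004400000010000000058040000120000000380400001200010003c0000001000000003000040013000000048000400140001000500000000b0000000540000000c000000024000000140000000280000001301000002c0000000901000004c0400000d00000004c0400000d00000002c0000000900000001c0004000e0000000200004000f000000048000000070000000300000001100010003c00000011000000038000000070000000180000000a000000040000000080000000400000000f0000000180000000e000000014000000080000000340000000a0000000340000000c0000000140000000b00000002800000004000000024000000050000000200000000300000001c00000006000000010000000060000000100000000300000000c00000005000000008000000040000000080000000100000000c0000000200000000000000002000000004000000010000000040000000000000000000000000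
noncomputable def tr : Tr := (.leaf c0)
noncomputable def tb : ℕ → ℕ := look tr 34 17179869184
noncomputable def ra : ℕ → Bool := rchk tb 26 (fxA tb) [0,1,2,1,2,1,0,1,2,1,2,1,0,1,2,1,2,1,0,1,2,1,2,1,0,1,2,1,2,1] [0,1,2,0,1,2,0,1,2,0,1,2,0,1,2,0,1,2,0,1,2,0,1,2,0,1,2,0,1,2] [0,1,2,1,2,1,0,1,2,1,2,1,0,1,2,1,2,1,0,1,2,1,2,1,0,1,2,1,2,1] [0,1,2,0,1,2,0,1,2,0,1,2,0,1,2,0,1,2,0,1,2,0,1,2,0,1,2,0,1,2]
theorem a0 : allB ra 5 0 = true := by decide +kernel
theorem ha : ∀ x < 26, ra x = true :=
  allB_cover (d := 5) (k := 1) (fun b hb => by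
    interval_cases b
    exacts [a0]) (by norm_num)
theorem hw : mvA tb [3,2,1,2,1,0,3,2,1,2,0,1,2,3] = true := by decide +kernel
noncomputable def rc : ℕ → Bool := rchk tb 26 (fxP tb) [0,1,2,1,2,1,0,1,2,1,2,1,0,1,2,1,2,1,0,1,2,1,2,1,0,1,2,1,2,1] [0,1,2,0,1,2,0,1,2,0,1,2,0,1,2,0,1,2,0,1,2,0,1,2,0,1,2,0,1,2] [0,1,2,1,2,1,0,1,2,1,2,1,0,1,2,1,2,1,0,1,2,1,2,1,0,1,2,1,2,1] [0,1,2,0,1,2,0,1,2,0,1,2,0,1,2,0,1,2,0,1,2,0,1,2,0,1,2,0,1,2]
theorem r0 : allB rc 5 0 = true := by decide +kernel
theorem hr : ∀ x < 26, rc x = true :=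
  allB_cover (d := 5) (k := 1) (fun b hb => by
    interval_cases b
    exacts [r0]) (by norm_num)
noncomputable def blk (x : ℕ) : ℕ := Nat.mod (Nat.shiftRight (nat_lit 0x2000000) (Nat.mul 1 x)) 2
theorem b0 : allB (bchk tb 26 blk) 5 0 = true := by decide +kernel
theorem hb : ∀ x < 26, bchk tb 26 blk x = true :=
  allB_cover (d := 5) (k := 1) (fun b hb => by
    interval_cases b
    exacts [b0]) (by norm_num)
theorem e1 : echk tb [4,20,23,25] 5 0 posA = true := by decide +kernel
theorem e2 : echk tb [4,20,23,25] 5 0 posB = true := by decide +kernel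
theorem e3 : e3chk tb [4,20,23,25] blk 5 0 = true := by decide +kernel
theorem main : Good 5 0 5 0 (rho 5 0 5 0) ∧ Infinite (G 5 0 5 0) := by
  have hs : Adm 5 0 := by simp [Adm]
  have hu' : Adm 5 0 := by simp [Adm]
  obtain ⟨T⟩ := exists_tabAct hs hu' ⟨by decide, by decide⟩ ⟨by decide, by decide⟩ hr
  have hbs : ∀ b ∈ [4,20,23,25], b < 26 := by decide
  exact ⟨T.good hs hu' hbs _ (bchk_spec hb) e1 e2 e3,
    infinite_of_tab hs hu' (by norm_num) ⟨by decide, by decide⟩ ⟨by decide, by decide⟩ ha _ hw⟩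

end Pool.Agent.MP_6b3afb_co.I5050
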