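import Pool.Agent.MP_6b3afb_co.Tri

set_option synthInstance.maxSize 4000

namespace Pool.Agent.MP_6b3afb_co

def Adm (s t : ℕ) : Prop := (2 ≤ s ∧ t = 0) ∨ (1 ≤ s ∧ t = s)

def Lat (s t : ℕ) (l : Z2) : Prop :=
  (s : ℤ) ∣ l.1 ∧ (s : ℤ) ∣ l.2 ∧ (t = 0 ∨ (3 * s : ℤ) ∣ l.1 - l.2)

instance (s t : ℕ) : DecidablePred (Lat s t) := fun l => by unfold Lat; infer_instance

def rot (p : Z2) : Z2 := (-p.2, p.1 + p.2)

theorem Lat.rot {s t : ℕ} {l : Z2} (h : Lat s t l) : Lat s t (rot l) := by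
  obtain ⟨h1, h2, h3⟩ := h
  refine ⟨h2.neg_right, h1.add h2, h3.imp id fun h3 => ?_⟩
  obtain ⟨a, ha⟩ := h3
  obtain ⟨b, hb⟩ := h2
  refine ⟨-a - b, ?_⟩
  simp only [MP_6b3afb_co.rot]
  linear_combination -ha - 3 * hb

theorem Lat.swap {s t : ℕ} {l : Z2} (h : Lat s t l) : Lat s t (l.2, l.1) := by
  obtain ⟨h1, h2, h3⟩ := h
  refine ⟨h2, h1, h3.imp id fun h3 => ?_⟩
  simpa using h3.neg_right

theorem Lat.zero (s t : ℕ) : Lat s t 0 := by simp [Lat]

theorem Lat.add {s t : ℕ} {l m : Z2} (h : Lat s t l) (h' : Lat s t m) : Lat s t (l + m) := by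
  obtain ⟨h1, h2, h3⟩ := h
  obtain ⟨h1', h2', h3'⟩ := h'
  refine ⟨h1.add h1', h2.add h2', ?_⟩
  rcases h3 with h3 | h3
  · exact Or.inl h3
  rcases h3' with h3' | h3'
  · exact Or.inl h3'
  right
  have : (l + m).1 - (l + m).2 = (l.1 - l.2) + (m.1 - m.2) := by
    simp only [Prod.fst_add, Prod.snd_add]
    ring
  rw [this]
  exact h3.add h3'

theorem Lat.neg {s t : ℕ} {l : Z2} (h : Lat s t l) : Lat s t (-l) := by
  obtain ⟨h1, h2, h3⟩ := h
  refine ⟨h1.neg_right, h2.neg_right, h3.imp id fun h3 => ?_⟩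
  have : (-l).1 - (-l).2 = -(l.1 - l.2) := by
    simp only [Prod.fst_neg, Prod.snd_neg]
    ring
  rw [this]
  exact h3.neg_right

theorem Lat.sub {s t : ℕ} {l m : Z2} (h : Lat s t l) (h' : Lat s t m) : Lat s t (l - m) := by
  rw [sub_eq_add_neg]; exact h.add h'.neg

theorem Lat.decomp {s t : ℕ} (hs : Adm s t) {l : Z2} (h : Lat s t l) :
    ∃ a b : ℤ, l = a • ((s : ℤ), (t : ℤ)) + b • MP_6b3afb_co.rot ((s : ℤ), (t : ℤ)) := by
  obtain ⟨⟨a, ha⟩, ⟨b, hb⟩, h3⟩ := h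
  rcases hs with ⟨-, rfl⟩ | ⟨hs, rfl⟩
  · refine ⟨a, b, ?_⟩
    ext <;> simp [MP_6b3afb_co.rot, ha, hb, mul_comm]
  · rcases h3 with h3 | ⟨c, hc⟩
    · omega
    · refine ⟨b + 2 * c, -c, ?_⟩
      ext <;> simp [MP_6b3afb_co.rot]
      · linear_combination hc + hb
      · linear_combination hb

theorem mem_lattice {s t : ℕ} (hs : Adm s t) (l : Z2) : l ∈ lattice s t ↔ Lat s t l := by
  constructor
  · intro h
    induction h using AddSubgroup.closure_induction with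
    | mem x hx =>
      obtain ⟨k, rfl⟩ := hx
      induction k with
      | zero =>
        rcases hs with ⟨-, rfl⟩ | ⟨-, rfl⟩ <;> simp [Lat]
      | succ k ih =>
        simp only [Function.iterate_succ_apply']
        exact Lat.rot ih
    | zero => exact Lat.zero s t
    | add x y _ _ hx hy => exact hx.add hy
    | neg x _ hx => exact hx.neg
  · intro h
    obtain ⟨a, b, rfl⟩ := h.decomp hs
    refine AddSubgroup.add_mem _ (AddSubgroup.zsmul_mem _ ?_ _) (AddSubgroup.zsmul_mem _ ?_ _)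
    · exact AddSubgroup.subset_closure ⟨0, rfl⟩
    · exact AddSubgroup.subset_closure ⟨1, rfl⟩

theorem lin_sf_one (x : Fr) (l : Z2) : lin (sf 1 x) l = lin x (l.2, l.1) := by
  simp [lin, sf, add_comm]

theorem lin_sf_two (x : Fr) (l : Z2) : lin (sf 2 x) l = lin x (l.1 + l.2, -l.2) := by
  ext <;> simp [lin, sf] <;> ring

theorem lin_sf_zero (x : Fr) (l : Z2) : lin (sf 0 x) l = lin x (-l.1 - l.2, l.2) := by
  ext <;> simp [lin, sf] <;> ring

theorem Lat.refl2 {s t : ℕ} {l : Z2} (h : Lat s t l) : Lat s t (l.1 + l.2, -l.2) := by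
  simpa [MP_6b3afb_co.rot] using h.rot.swap

theorem lat_lin_sf {s t : ℕ} (i : Fin 3) (x : Fr)
    (hx : ∀ l, Lat s t (lin x l) ↔ Lat s t l) (l : Z2) :
    Lat s t (lin (sf i x) l) ↔ Lat s t l := by
  fin_cases i
  · erw [lin_sf_zero, hx]
    constructor
    · intro h
      have := h.refl2.neg
      simpa using this
    · intro h
      have := h.refl2.neg
      convert this using 1
      ext <;> simp
      ring
  · erw [lin_sf_one, hx]
    exact ⟨fun h => by simpa using h.swap, fun h => h.swap⟩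
  · erw [lin_sf_two, hx]
    exact ⟨fun h => by simpa using h.refl2, fun h => h.refl2⟩

theorem lat_lin_fr {s t : ℕ} (w : List (Fin 3)) (l : Z2) :
    Lat s t (lin (fr w) l) ↔ Lat s t l := by
  revert l
  apply run_invariant (fun x => ∀ l, Lat s t (lin x l) ↔ Lat s t l) w
  · intro i _ x hx l
    exact lat_lin_sf i x hx l
  · intro l
    rw [lin_base]

theorem Valid.lat_lin {s t : ℕ} {x : Fr} (hx : Valid x) (l : Z2) :
    Lat s t (lin x l) ↔ Lat s t l := by
  obtain ⟨w, rfl⟩ := hx.exists_word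
  exact lat_lin_fr w l

theorem Lat.not_unit {s t : ℕ} (hs : Adm s t) {l : Z2} (h : Lat s t l) : l ∉ unitVecs := by
  intro hl
  obtain ⟨h1, h2, h3⟩ := h
  have hd : ∀ n : ℕ, 2 ≤ n → ¬ (n : ℤ) ∣ 1 := fun n hn hh => by
    have := Int.le_of_dvd one_pos hh
    omega
  rcases hs with ⟨hs, rfl⟩ | ⟨hs, rfl⟩
  · simp only [unitVecs, Finset.mem_insert, Finset.mem_singleton] at hl
    rcases hl with rfl | rfl | rfl | rfl | rfl | rfl <;> simp_all
  · rcases h3 with h3 | h3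
    · omega
    have h4 : (3 : ℤ) ∣ l.1 - l.2 := (Dvd.intro _ rfl).trans h3
    have key : ∀ e ∈ unitVecs, ¬ (3 : ℤ) ∣ e.1 - e.2 := by decide
    exact key l hl h4

def K (s t : ℕ) (w : List (Fin 3)) : Prop := ∃ l, Lat s t l ∧ fr w = shift base l

theorem K_of_fr {s t : ℕ} {u w : List (Fin 3)} {l : Z2} (hl : Lat s t l)
    (h : fr u = shift (fr w) l) : K s t (w.reverse ++ u) := by
  refine ⟨lin (fr w.reverse) l, (lat_lin_fr _ _).mpr hl, ?_⟩
  rw [fr_append, run_sf, h, affX_shift, ← run_sf, fr, run_run_reverse sf_invol]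

theorem fr_of_K {s t : ℕ} {u w : List (Fin 3)} (h : K s t (w.reverse ++ u)) :
    ∃ l, Lat s t l ∧ fr u = shift (fr w) l := by
  obtain ⟨l, hl, h⟩ := h
  refine ⟨lin (fr w) l, (lat_lin_fr _ _).mpr hl, ?_⟩
  have := run_of_fr_shift h (fr w)
  rw [run_append, fr, run_reverse_run sf_invol] at this
  exact this

section group
variable {Γ : Type} [Group Γ]

structure RelT (s t : ℕ) (f : Fin 3 → Γ) : Prop extends Rel36 f where
  tor : (if t = 0 then (f 0 * f 1 * f 2) ^ (2 * s) else (f 0 * (f 1 * f 2) ^ 2) ^ (2 * s)) = 1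

def torWord (s t : ℕ) : List (Fin 3) :=
  if t = 0 then wpow [0, 1, 2] (2 * s) else wpow [0, 1, 2, 1, 2] (2 * s)

theorem ev_torWord (s t : ℕ) (f : Fin 3 → Γ) : ev f (torWord s t) =
    (if t = 0 then (f 0 * f 1 * f 2) ^ (2 * s) else (f 0 * (f 1 * f 2) ^ 2) ^ (2 * s)) := by
  unfold torWord
  split_ifs
  · simp [ev_wpow, mul_assoc]
  · simp [ev_wpow, mul_assoc, pow_two]

theorem fr_wpow {w : List (Fin 3)} {l : Z2} (h : fr (w ++ w) = shift base l) (n : ℕ) :
    fr (wpow w (2 * n)) = shift base ((n : ℤ) • l) := by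
  induction n with
  | zero => simp [wpow, fr]
  | succ n ih =>
    rw [show 2 * (n + 1) = 2 * n + 1 + 1 by ring, wpow, wpow, ← List.append_assoc, fr_append,
      run_of_fr_shift ih, h, lin_shift, lin_base, shift_shift]
    congr 1
    push_cast
    rw [add_smul, one_smul, add_comm]

theorem fr_torWord (s t : ℕ) :
    fr (torWord s t) = shift base (if t = 0 then ((0 : ℤ), (s : ℤ)) else ((s : ℤ), (s : ℤ))) := by
  unfold torWord
  split_ifs
  · rw [fr_wpow (l := (0, 1)) (by decide)]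
    simp
  · rw [fr_wpow (l := (1, 1)) (by decide)]
    simp

theorem K_torWord (s t : ℕ) : K s t (torWord s t) := by
  refine ⟨_, ?_, fr_torWord s t⟩
  split_ifs with h <;> simp [Lat, h]

theorem Rel36.tau_zsmul {f : Fin 3 → Γ} (h : Rel36 f) (n : ℤ) (l : Z2) :
    tau f (n • l) = tau f l ^ n := by
  induction n using Int.induction_on with
  | zero => simp
  | succ n ih => rw [add_smul, one_smul, h.tau_add, ih, zpow_add_one]
  | pred n ih => rw [sub_smul, one_smul, sub_eq_add_neg, h.tau_add, ih, h.tau_neg, zpow_sub_one]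

theorem Rel36.tau_swap_eq_one {f : Fin 3 → Γ} (h : Rel36 f) {l : Z2} (hl : tau f l = 1) :
    tau f (l.2, l.1) = 1 := by
  have := h.b_tau l
  rw [hl] at this
  simpa using this

theorem Rel36.tau_rot_eq_one {f : Fin 3 → Γ} (h : Rel36 f) {l : Z2} (hl : tau f l = 1) :
    tau f (rot l) = 1 := by
  have := h.c_tau l
  rw [hl] at this
  have h2 : tau f (l.1 + l.2, -l.2) = 1 := by simpa using this
  exact h.tau_swap_eq_one h2

theorem RelT.tau_eq_one {s t : ℕ} (hs : Adm s t) {f : Fin 3 → Γ} (h : RelT s t f) {l : Z2}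
    (hl : Lat s t l) : tau f l = 1 := by
  have h1 := h.toRel36.key (fr_torWord s t)
  rw [ev_torWord, h.tor] at h1
  have h2 : tau f ((s : ℤ), (t : ℤ)) = 1 := by
    rcases hs with ⟨-, rfl⟩ | ⟨hs, rfl⟩
    · simpa using h.toRel36.tau_swap_eq_one h1.symm
    · rw [if_neg (by omega)] at h1
      exact h1.symm
  obtain ⟨a, b, rfl⟩ := hl.decomp hs
  rw [h.toRel36.tau_add, h.toRel36.tau_zsmul, h.toRel36.tau_zsmul, h.toRel36.tau_rot_eq_one h2, h2]
  simp

theorem RelT.ev_eq_one {s t : ℕ} (hs : Adm s t) {f : Fin 3 → Γ} (h : RelT s t f)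
    {w : List (Fin 3)} (hw : K s t w) : ev f w = 1 := by
  obtain ⟨l, hl, hw⟩ := hw
  rw [h.toRel36.key hw, h.tau_eq_one hs hl]

/-- faithfulness: the only words that vanish are the lattice translations -/
def FA (s t : ℕ) (f : Fin 3 → Γ) : Prop := ∀ w, ev f w = 1 → K s t w

theorem FA.fr_of_ev_eq {s t : ℕ} {f : Fin 3 → Γ} (hr : Rel36 f) (h : FA s t f)
    {u w : List (Fin 3)} (huw : ev f u = ev f w) : ∃ l, Lat s t l ∧ fr u = shift (fr w) l := by
  apply fr_of_K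
  apply h
  rw [ev_append, ev_reverse hr.inv, huw, inv_mul_cancel]

theorem RelT.ev_eq_of_fr {s t : ℕ} (hs : Adm s t) {f : Fin 3 → Γ} (h : RelT s t f)
    {u w : List (Fin 3)} {l : Z2} (hl : Lat s t l) (huw : fr u = shift (fr w) l) :
    ev f u = ev f w := by
  have := h.ev_eq_one hs (K_of_fr hl huw)
  rw [ev_append, ev_reverse h.inv] at this
  exact (inv_mul_eq_one.mp this).symm

end group

/-! ### frames reached by words avoiding a letter -/

def E4 : List (List (Fin 3)) := [[], [0], [2], [0, 2]]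
def S6 : List (List (Fin 3)) := [[], [0], [1], [0, 1], [1, 0], [0, 1, 0]]
def Stab : Fin 3 → List (List (Fin 3))
  | 0 => D12
  | 1 => E4
  | 2 => S6

theorem stab_avoid : ∀ i : Fin 3, ∀ k ∈ Stab i, i ∉ k := by decide

theorem fr_avoid (i : Fin 3) (h : List (Fin 3)) (hi : i ∉ h) : ∃ k ∈ Stab i, fr h = fr k := by
  induction h using List.reverseRecOn with
  | nil => exact ⟨[], by revert i; decide, rfl⟩
  | append_singleton h j ih =>
    obtain ⟨k, hk, hhk⟩ := ih (fun hh => hi (by simp [hh]))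
    have hj : j ≠ i := fun hh => hi (by simp [hh])
    have key : ∀ i : Fin 3, ∀ k ∈ Stab i, ∀ j, j ≠ i → ∃ k' ∈ Stab i, sf j (fr k) = fr k' := by
      decide
    obtain ⟨k', hk', h2⟩ := key i k hk j hj
    exact ⟨k', hk', by rw [fr_append, hhk, ← h2]; rfl⟩

/-- rank three intersection property -/
theorem FA.inter {Γ : Type} [Group Γ] {s t : ℕ} (hs : Adm s t) {f : Fin 3 → Γ} (hr : Rel36 f)
    (hf : FA s t f) {i j : Fin 3} (hij : i ≠ j) {u w : List (Fin 3)} (hu : i ∉ u) (hw : j ∉ w)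
    (huw : ev f u = ev f w) : ∃ x, i ∉ x ∧ j ∉ x ∧ ev f u = ev f x := by
  obtain ⟨l, hl, h⟩ := hf.fr_of_ev_eq hr huw
  obtain ⟨k, hk, hk2⟩ := fr_avoid i u hu
  obtain ⟨k', hk', hk2'⟩ := fr_avoid j w hw
  have hl2 : l = (fr k).1 - (fr k').1 := by
    rw [← hk2, ← hk2', h]
    simp [shift]
  have key : ∀ i j : Fin 3, i ≠ j → ∀ k ∈ Stab i, ∀ k' ∈ Stab j,
      fr k = shift (fr k') ((fr k).1 - (fr k').1) → (fr k).1 - (fr k').1 ∉ unitVecs →
      ∃ x ∈ ([[], [0], [1], [2]] : List (List (Fin 3))), i ∉ x ∧ j ∉ x ∧ fr k = fr x := by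
    decide
  obtain ⟨x, -, hx1, hx2, hx3⟩ := key i j hij k hk k' hk'
    (by rw [← hl2, ← hk2, ← hk2', h]) (hl2 ▸ hl.not_unit hs)
  exact ⟨x, hx1, hx2, hr.eq_of_fr_eq (hk2.trans hx3)⟩

theorem FA.ne_avoid {Γ : Type} [Group Γ] {s t : ℕ} (hs : Adm s t) {f : Fin 3 → Γ} (hr : Rel36 f)
    (hf : FA s t f) (i : Fin 3) {w : List (Fin 3)} (hw : i ∉ w) : f i ≠ ev f w := by
  intro h
  have h' : ev f [i] = ev f w := by simpa using h
  obtain ⟨l, hl, h⟩ := hf.fr_of_ev_eq hr h'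
  obtain ⟨k, hk, hk2⟩ := fr_avoid i w hw
  have hl2 : l = (fr [i]).1 - (fr k).1 := by
    rw [← hk2, h]
    simp [shift]
  have key : ∀ i : Fin 3, ∀ k ∈ Stab i,
      fr [i] = shift (fr k) ((fr [i]).1 - (fr k).1) → (fr [i]).1 - (fr k).1 ∈ unitVecs := by
    decide
  exact hl.not_unit hs (hl2 ▸ key i k hk (by rw [← hl2, ← hk2, ← h]))

end Pool.Agent.MP_6b3afb_co
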