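import Pool.Agent.MP_6b3afb_co.TorMod
import Pool.Agent.MP_6b3afb_co.Act

set_option synthInstance.maxSize 4000

namespace Pool.Agent.MP_6b3afb_co

/-! ### typed frames -/

def sB : Fin 3 → Fr → Fr
  | 0, y => (y.2.1 + y.2.2 - y.1, y.2.1, y.2.2)
  | 1, y => sf 2 y
  | 2, y => sf 1 y

def Phi (y : Fr) : Fr := (y.1, y.2.1 + y.2.2 - y.1, y.2.1 + y.2.1 - y.2.2)

theorem Phi_sB (i : Fin 3) (y : Fr) : Phi (sB i y) = sf i (Phi y) := by
  fin_cases i <;> simp only [Phi, sB, sf] <;> ext <;> simp <;> ring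

theorem Phi_inj {x y : Fr} (h : Phi x = Phi y) : x = y := by
  obtain ⟨⟨a, b⟩, ⟨c, d⟩, e, f⟩ := x
  obtain ⟨⟨a', b'⟩, ⟨c', d'⟩, e', f'⟩ := y
  simp only [Phi, Prod.mk.injEq, Prod.mk_add_mk, Prod.mk_sub_mk] at h ⊢
  omega

theorem Phi_shift (y : Fr) (l : Z2) : Phi (shift y l) = shift (Phi y) l := by
  simp only [Phi, shift, Prod.mk.injEq]
  refine ⟨trivial, ?_, ?_⟩ <;> abel

def sig (l : Z2) : Z2 := (l.1 + 2 * l.2, l.1 - l.2)

theorem lin_Phi (y : Fr) (l : Z2) : lin (Phi y) l = lin y (sig l) := by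
  ext <;> simp [lin, Phi, sig] <;> ring

theorem Valid.sB {y : Fr} (h : Valid y) (i : Fin 3) : Valid (sB i y) := by
  fin_cases i
  · have := (((h.sf 0).sf 1).sf 2)
    have h2 := (this.sf 1).sf 0
    simpa [MP_6b3afb_co.sf, MP_6b3afb_co.sB] using h2
  · exact h.sf 2
  · exact h.sf 1

theorem run_sB (w : List (Fin 3)) (y : Fr) : Phi (run sB w y) = run sf w (Phi y) :=
  run_semiconj Phi Phi_sB w y

theorem run_sB_shift {w : List (Fin 3)} {l : Z2} (h : fr w = shift base l) (y : Fr) :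
    run sB w y = shift y (lin y (sig l)) := by
  apply Phi_inj
  rw [run_sB, run_of_fr_shift h, Phi_shift, lin_Phi]

theorem Valid.lin_eq_zero {y : Fr} (h : Valid y) {m : Z2} (e : lin y m = 0) : m = 0 := by
  have := (h.lat_lin (s := 0) (t := 0) m).mp (e ▸ Lat.zero 0 0)
  ext
  · simpa using this.1
  · simpa using this.2.1

theorem valid_trans {x y : Fr} (hx : Valid x) (hy : Valid y) : ∃ w, run sf w x = y := by
  obtain ⟨w, rfl⟩ := hx.exists_word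
  obtain ⟨w', rfl⟩ := hy.exists_word
  exact ⟨w.reverse ++ w', by rw [run_append, fr, run_reverse_run sf_invol, fr]⟩

theorem lin_sub (x : Fr) (z z' : Z2) : lin x (z - z') = lin x z - lin x z' := by
  ext <;> simp [lin] <;> ring

theorem fr_of_sB {y : Fr} (hy : Valid y) {w : List (Fin 3)} {l : Z2}
    (h : run sB w y = shift y l) : fr w = shift base (fr w).1 ∧ l = lin y (sig (fr w).1) := by
  have h1 := run_sB w y
  rw [h, Phi_shift, run_sf] at h1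
  have hz : ∀ m m', lin (Phi y) m = lin (Phi y) m' → m = m' := by
    intro m m' e
    have := hy.lin_eq_zero (m := sig (m - m')) (by rw [← lin_Phi, lin_sub, e, sub_self])
    simp only [sig, Prod.ext_iff, Prod.fst_sub, Prod.snd_sub, Prod.fst_zero, Prod.snd_zero]
      at this ⊢
    omega
  generalize fr w = z at *
  obtain ⟨z1, z2, z3⟩ := z
  simp only [shift, affX, aff, Prod.mk.injEq, add_right_inj] at h1
  obtain ⟨e1, e2, e3⟩ := h1
  refine ⟨?_, by rw [e1, lin_Phi]⟩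
  simp only [shift, base, Prod.mk.injEq]
  refine ⟨by simp, hz _ _ ?_, hz _ _ ?_⟩
  · rw [lin_add, ← e1]
    have : lin (Phi y) (1, 0) = (Phi y).2.1 - (Phi y).1 := by simp [lin]
    linear_combination -e2 - this
  · rw [lin_add, ← e1]
    have : lin (Phi y) (0, 1) = (Phi y).2.2 - (Phi y).1 := by simp [lin]
    linear_combination -e3 - this

/-! ### ordered tetrahedra -/

structure Gr (p : Par) where
  U : Type
  A : U → U → Prop
  ty : U → Bool
  φ : U → U → p.T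
  symm : ∀ {x y}, A x y → A y x
  full : ∀ {x y}, A x y → Full p.mod A ty x (φ x)

namespace Gr
variable {p : Par} (g : Gr p)

@[ext] structure Tet where
  a : g.U
  b : g.U
  c : g.U
  d : g.U
  ab : g.A a b
  ac : g.A a c
  ad : g.A a d
  bc : g.A b c
  bd : g.A b d
  cd : g.A c d
  ty : g.ty d = true

variable {g}

theorem two {a b c x y z : g.U} (ab : g.A a b) (ac : g.A a c) (bc : g.A b c)
    (ax : g.A a x) (bx : g.A b x) (cx : g.A c x) (ay : g.A a y) (by' : g.A b y) (cy : g.A c y)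
    (az : g.A a z) (bz : g.A b z) (cz : g.A c z) : x = y ∨ x = z ∨ y = z := by
  have h := g.full ab
  rcases p.mod.two ((h.adj ab ac).mp bc) ((h.adj ab ax).mp bx) ((h.adj ab ay).mp by')
    ((h.adj ab az).mp bz) ((h.adj ac ax).mp cx) ((h.adj ac ay).mp cy) ((h.adj ac az).mp cz)
    with e | e | e
  · exact Or.inl (h.inj ax ay e)
  · exact Or.inr (Or.inl (h.inj ax az e))
  · exact Or.inr (Or.inr (h.inj ay az e))

theorem other {a b c x : g.U} (ab : g.A a b) (ac : g.A a c) (bc : g.A b c)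
    (ax : g.A a x) (bx : g.A b x) (cx : g.A c x) :
    ∃ y, g.A a y ∧ g.A b y ∧ g.A c y ∧ y ≠ x := by
  have h := g.full ab
  obtain ⟨y, h1, h2, h3⟩ := p.mod.other ((h.adj ab ac).mp bc) ((h.adj ab ax).mp bx)
    ((h.adj ac ax).mp cx)
  obtain ⟨y, ay, by', rfl⟩ := h.nb ab h1
  exact ⟨y, ay, by', (h.adj ac ay).mpr h2, fun e => h3 (by rw [e])⟩

theorem one {a b c d : g.U} (ab : g.A a b) (ac : g.A a c) (ad : g.A a d) (bc : g.A b c)
    (bd : g.A b d) (cd : g.A c d) : One4 (g.ty a) (g.ty b) (g.ty c) (g.ty d) := by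
  have h := g.full ab
  have := p.mod.one ((h.adj ab ac).mp bc) ((h.adj ac ad).mp cd) ((h.adj ab ad).mp bd)
  rwa [h.kap ab, h.tau ab, h.tau ac, h.tau ad] at this

theorem Tet.types (q : g.Tet) : g.ty q.a = false ∧ g.ty q.b = false ∧ g.ty q.c = false := by
  have := one q.ab q.ac q.ad q.bc q.bd q.cd
  rw [q.ty] at this
  revert this
  generalize g.ty q.a = x, g.ty q.b = y, g.ty q.c = z
  revert x y z
  decide

theorem ex2 (q : g.Tet) : ∃ q' : g.Tet, q'.a = q.a ∧ q'.b = q.b ∧ q'.d = q.d ∧ q'.c ≠ q.c := by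
  obtain ⟨y, h1, h2, h3, h4⟩ := other q.ab q.ad q.bd q.ac q.bc (g.symm q.cd)
  exact ⟨⟨q.a, q.b, y, q.d, q.ab, h1, q.ad, h2, q.bd, g.symm h3, q.ty⟩, rfl, rfl, rfl, h4⟩

theorem ex3 (q : g.Tet) : ∃ q' : g.Tet, q'.a = q.a ∧ q'.b = q.b ∧ q'.c = q.c ∧ q'.d ≠ q.d := by
  obtain ⟨y, h1, h2, h3, h4⟩ := other q.ab q.ac q.bc q.ad q.bd q.cd
  refine ⟨⟨q.a, q.b, q.c, y, q.ab, q.ac, h1, q.bc, h2, h3, ?_⟩, rfl, rfl, rfl, h4⟩
  have := one q.ab q.ac h1 q.bc h2 h3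
  rw [q.types.1, q.types.2.1, q.types.2.2] at this
  revert this
  generalize g.ty y = x
  revert x
  decide

noncomputable def r : Fin 4 → g.Tet → g.Tet
  | 0, q => ⟨q.b, q.a, q.c, q.d, g.symm q.ab, q.bc, q.bd, q.ac, q.ad, q.cd, q.ty⟩
  | 1, q => ⟨q.a, q.c, q.b, q.d, q.ac, q.ab, q.ad, g.symm q.bc, q.cd, q.bd, q.ty⟩
  | 2, q => (ex2 q).choose
  | 3, q => (ex3 q).choose

theorem r2_spec (q : g.Tet) : (r 2 q).a = q.a ∧ (r 2 q).b = q.b ∧ (r 2 q).d = q.d ∧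
  (r 2 q).c ≠ q.c := (ex2 q).choose_spec

theorem r3_spec (q : g.Tet) : (r 3 q).a = q.a ∧ (r 3 q).b = q.b ∧ (r 3 q).c = q.c ∧
  (r 3 q).d ≠ q.d := (ex3 q).choose_spec

theorem r2_c {q : g.Tet} {y : g.U} (h1 : g.A q.a y) (h2 : g.A q.b y) (h3 : g.A q.d y)
    (h4 : y ≠ q.c) : (r 2 q).c = y := by
  obtain ⟨e1, e2, e3, e4⟩ := r2_spec q
  rcases two q.ab q.ad q.bd (e1 ▸ (r 2 q).ac) (e2 ▸ (r 2 q).bc) (e3 ▸ g.symm (r 2 q).cd) h1 h2 h3
    q.ac q.bc (g.symm q.cd) with e | e | e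
  exacts [e, absurd e e4, absurd e h4]

theorem r3_d {q : g.Tet} {y : g.U} (h1 : g.A q.a y) (h2 : g.A q.b y) (h3 : g.A q.c y)
    (h4 : y ≠ q.d) : (r 3 q).d = y := by
  obtain ⟨e1, e2, e3, e4⟩ := r3_spec q
  rcases two q.ab q.ac q.bc (e1 ▸ (r 3 q).ad) (e2 ▸ (r 3 q).bd) (e3 ▸ (r 3 q).cd) h1 h2 h3
    q.ad q.bd q.cd with e | e | e
  exacts [e, absurd e e4, absurd e h4]

theorem r_invol (i : Fin 4) : Function.Involutive (r (g := g) i) := by
  intro q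
  fin_cases i
  · rfl
  · rfl
  · obtain ⟨e1, e2, e3, e4⟩ := r2_spec q
    obtain ⟨f1, f2, f3, -⟩ := r2_spec (r 2 q)
    exact Tet.ext (f1.trans e1) (f2.trans e2)
      (r2_c (e1 ▸ q.ac) (e2 ▸ q.bc) (e3 ▸ g.symm q.cd) e4.symm) (f3.trans e3)
  · obtain ⟨e1, e2, e3, e4⟩ := r3_spec q
    obtain ⟨f1, f2, f3, -⟩ := r3_spec (r 3 q)
    exact Tet.ext (f1.trans e1) (f2.trans e2) (f3.trans e3)
      (r3_d (e1 ▸ q.ad) (e2 ▸ q.bd) (e3 ▸ q.cd) e4.symm)

theorem r03 (q : g.Tet) : run r [0, 3, 0, 3] q = q := by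
  have key : r 3 (r 0 q) = r 0 (r 3 q) := by
    obtain ⟨e1, e2, e3, e4⟩ := r3_spec q
    obtain ⟨f1, f2, f3, -⟩ := r3_spec (r 0 q)
    exact Tet.ext (f1.trans e2.symm) (f2.trans e1.symm) (f3.trans e3.symm)
      (r3_d (q := r 0 q) (show g.A q.b (r 3 q).d from e2 ▸ (r 3 q).bd)
        (show g.A q.a (r 3 q).d from e1 ▸ (r 3 q).ad)
        (show g.A q.c (r 3 q).d from e3 ▸ (r 3 q).cd) e4)
  simp only [run_cons, run_nil]
  rw [key, r_invol, r_invol]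

theorem flip {v a b c : g.U} (va : g.A v a) (vb : g.A v b) {k : Bool} {x y z : Z2}
    (h : Valid (x, y, z)) (e1 : g.φ v a = p.pt k x) (e2 : g.φ v b = p.pt k y)
    (e3 : g.φ v c = p.pt k z) :
    ∃ c', g.A v c' ∧ g.A a c' ∧ g.A b c' ∧ c' ≠ c ∧ g.φ v c' = p.pt k (x + y - z) := by
  have hf := g.full va
  have h2 := h.sf 2
  obtain ⟨c', h3, h4, h5⟩ := hf.nb va (x := p.pt k (x + y - z)) (e1 ▸ p.L_of h2.2.1)
  refine ⟨c', h3, h4, (hf.adj vb h3).mpr (by rw [e2, h5]; exact p.L_of h2.2.2), ?_, h5⟩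
  rintro rfl
  exact p.flip_ne h (h5.symm.trans e3)

structure RD (q : g.Tet) (x : Fr) : Prop where
  v : Valid x
  a : g.φ q.d q.a = p.pt true x.1
  b : g.φ q.d q.b = p.pt true x.2.1
  c : g.φ q.d q.c = p.pt true x.2.2

structure RA (q : g.Tet) (x : Fr) : Prop where
  v : Valid x
  d : g.φ q.a q.d = p.pt false x.1
  b : g.φ q.a q.b = p.pt false x.2.1
  c : g.φ q.a q.c = p.pt false x.2.2

theorem exists_RD (q : g.Tet) : ∃ x, RD q x := by
  have da := g.symm q.ad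
  have db := g.symm q.bd
  have dc := g.symm q.cd
  have h := g.full da
  obtain ⟨k, x, hx, e1, e2, e3⟩ := p.tri_frame ((h.adj da db).mp q.ab) ((h.adj da dc).mp q.ac)
    ((h.adj db dc).mp q.bc)
  obtain rfl : k = true := by
    have := h.kap da
    rw [e1, q.ty] at this
    exact this
  exact ⟨x, hx, e1, e2, e3⟩

theorem exists_RA (q : g.Tet) : ∃ x, RA q x := by
  have h := g.full q.ab
  obtain ⟨k, x, hx, e1, e2, e3⟩ := p.tri_frame ((h.adj q.ad q.ab).mp (g.symm q.bd))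
    ((h.adj q.ad q.ac).mp (g.symm q.cd)) ((h.adj q.ab q.ac).mp q.bc)
  obtain rfl : k = false := by
    have := h.kap q.ad
    rw [e1, q.types.1] at this
    exact this
  exact ⟨x, hx, e1, e2, e3⟩

theorem RD.step {q : g.Tet} {x : Fr} (h : RD q x) (i : Fin 3) :
    (r (posA i) q).d = q.d ∧ RD (r (posA i) q) (sf i x) := by
  fin_cases i
  · exact ⟨rfl, h.v.sf 0, h.b, h.a, h.c⟩
  · exact ⟨rfl, h.v.sf 1, h.a, h.c, h.b⟩
  · obtain ⟨e1, e2, e3, -⟩ := r2_spec q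
    obtain ⟨c', h1, h2, h3, h4, h5⟩ := flip (g.symm q.ad) (g.symm q.bd) h.v h.a h.b h.c
    have e4 := r2_c h2 h3 h1 h4
    refine ⟨e3, h.v.sf 2, ?_, ?_, ?_⟩
    · exact (congrArg₂ g.φ e3 e1).trans h.a
    · exact (congrArg₂ g.φ e3 e2).trans h.b
    · exact (congrArg₂ g.φ e3 e4).trans h5

theorem RA.step {q : g.Tet} {x : Fr} (h : RA q x) (i : Fin 3) :
    (r (posB i) q).a = q.a ∧ RA (r (posB i) q) (sB i x) := by
  fin_cases i
  · obtain ⟨e1, e2, e3, -⟩ := r3_spec q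
    obtain ⟨c', h1, h2, h3, h4, h5⟩ := flip q.ab q.ac ((h.v.sf 0).sf 1) h.b h.c h.d
    have e4 := r3_d h1 h2 h3 h4
    refine ⟨e1, h.v.sB 0, ?_, ?_, ?_⟩
    · exact (congrArg₂ g.φ e1 e4).trans h5
    · exact (congrArg₂ g.φ e1 e2).trans h.b
    · exact (congrArg₂ g.φ e1 e3).trans h.c
  · obtain ⟨e1, e2, e3, -⟩ := r2_spec q
    obtain ⟨c', h1, h2, h3, h4, h5⟩ := flip q.ad q.ab h.v h.d h.b h.c
    have e4 := r2_c h1 h3 h2 h4
    refine ⟨e1, h.v.sB 1, ?_, ?_, ?_⟩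
    · exact (congrArg₂ g.φ e1 e3).trans h.d
    · exact (congrArg₂ g.φ e1 e2).trans h.b
    · exact (congrArg₂ g.φ e1 e4).trans h5
  · exact ⟨rfl, h.v.sB 2, h.d, h.c, h.b⟩

theorem RD.run {q : g.Tet} {x : Fr} (h : RD q x) (w : List (Fin 3)) :
    (run r (w.map posA) q).d = q.d ∧ RD (run r (w.map posA) q) (run sf w x) := by
  induction w generalizing q x with
  | nil => exact ⟨rfl, h⟩
  | cons i w ih =>
    obtain ⟨e1, e2⟩ := h.step i
    obtain ⟨e3, e4⟩ := ih e2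
    exact ⟨e3.trans e1, e4⟩

theorem RA.run {q : g.Tet} {x : Fr} (h : RA q x) (w : List (Fin 3)) :
    (run r (w.map posB) q).a = q.a ∧ RA (run r (w.map posB) q) (run sB w x) := by
  induction w generalizing q x with
  | nil => exact ⟨rfl, h⟩
  | cons i w ih =>
    obtain ⟨e1, e2⟩ := h.step i
    obtain ⟨e3, e4⟩ := ih e2
    exact ⟨e3.trans e1, e4⟩

theorem RD.eq_iff {q q' : g.Tet} {x x' : Fr} (h : RD q x) (h' : RD q' x') (e : q'.d = q.d) :
    q' = q ↔ ∃ l, p.Lam true l ∧ x' = shift x l := by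
  constructor
  · rintro rfl
    exact p.frame_eq h'.v h.v (h'.a.symm.trans h.a) (h'.b.symm.trans h.b) (h'.c.symm.trans h.c)
  · rintro ⟨l, hl, rfl⟩
    have hf := g.full (g.symm q.ad)
    refine Tet.ext (hf.inj (e ▸ g.symm q'.ad) (g.symm q.ad) ?_)
      (hf.inj (e ▸ g.symm q'.bd) (g.symm q.bd) ?_) (hf.inj (e ▸ g.symm q'.cd) (g.symm q.cd) ?_) e
    · rw [h.a, ← p.pt_shift hl, ← e]; exact h'.a
    · rw [h.b, ← p.pt_shift hl, ← e]; exact h'.b
    · rw [h.c, ← p.pt_shift hl, ← e]; exact h'.c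

theorem RA.eq_iff {q q' : g.Tet} {x x' : Fr} (h : RA q x) (h' : RA q' x') (e : q'.a = q.a) :
    q' = q ↔ ∃ l, p.Lam false l ∧ x' = shift x l := by
  constructor
  · rintro rfl
    exact p.frame_eq h'.v h.v (h'.d.symm.trans h.d) (h'.b.symm.trans h.b) (h'.c.symm.trans h.c)
  · rintro ⟨l, hl, rfl⟩
    have hf := g.full q.ad
    refine Tet.ext e (hf.inj (e ▸ q'.ab) q.ab ?_) (hf.inj (e ▸ q'.ac) q.ac ?_)
      (hf.inj (e ▸ q'.ad) q.ad ?_)
    · rw [h.b, ← p.pt_shift hl, ← e]; exact h'.b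
    · rw [h.c, ← p.pt_shift hl, ← e]; exact h'.c
    · rw [h.d, ← p.pt_shift hl, ← e]; exact h'.d

variable {s t u v : ℕ}

theorem runA_iff (hp : p.a true = (s, t)) (q : g.Tet) (w : List (Fin 3)) :
    run r (w.map posA) q = q ↔ K s t w := by
  obtain ⟨x, hx⟩ := exists_RD q
  obtain ⟨e1, e2⟩ := hx.run w
  rw [hx.eq_iff e2 e1]
  simp only [Par.Lam, hp]
  constructor
  · rintro ⟨l, hl, e⟩
    obtain ⟨w0, rfl⟩ := hx.v.exists_word
    rw [← K_cancel w0]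
    exact K_of_fr hl (by rw [fr_append, e])
  · rintro ⟨l, hl, e⟩
    exact ⟨_, (hx.v.lat_lin l).mpr hl, run_of_fr_shift e x⟩

theorem runB_iff (hp : ∀ l, p.Lam false (sig l) ↔ Lat u v l) (q : g.Tet) (w : List (Fin 3)) :
    run r (w.map posB) q = q ↔ K u v w := by
  obtain ⟨x, hx⟩ := exists_RA q
  obtain ⟨e1, e2⟩ := hx.run w
  rw [hx.eq_iff e2 e1]
  constructor
  · rintro ⟨l, hl, e⟩
    obtain ⟨h1, h2⟩ := fr_of_sB hx.v e
    exact ⟨_, (hp _).mp ((hx.v.lat_lin _).mp (h2 ▸ hl)), h1⟩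
  · rintro ⟨l, hl, e⟩
    exact ⟨_, (hx.v.lat_lin _).mpr ((hp l).mpr hl), run_sB_shift e x⟩

theorem run_a (q : g.Tet) {y : List (Fin 4)} (hy : (0 : Fin 4) ∉ y) : (run r y q).a = q.a := by
  obtain ⟨w, rfl⟩ := exists_map_pos posB y (fun i hi =>
    (show ∀ i : Fin 4, i ≠ 0 → ∃ j, posB j = i by decide) i (fun e => hy (e ▸ hi)))
  obtain ⟨x, hx⟩ := exists_RA q
  exact (hx.run w).1

theorem lat_of_a (hp : p.a true = (s, t)) (q : g.Tet) (w : List (Fin 3))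
    (h : (run r (w.map posA) q).a = q.a) : Lat s t (fr w).1 := by
  obtain ⟨x, hx⟩ := exists_RD q
  obtain ⟨e1, e2⟩ := hx.run w
  have := e2.a
  rw [e1, h, hx.a, p.pt_eq, run_sf] at this
  have h2 := Lat.neg this.2
  simp only [hp, affX, aff, neg_sub, add_sub_cancel_left] at h2
  exact (hx.v.lat_lin _).mp h2

def Tet.vx (q : g.Tet) : Fin 4 → g.U := ![q.a, q.b, q.c, q.d]

theorem reach_d (q : g.Tet) {y : g.U} (h : g.A q.d y) : ∃ w, (run r w q).a = y := by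
  obtain ⟨x, hx⟩ := exists_RD q
  have hf := g.full h
  obtain ⟨k, Y, e⟩ := p.pt_surj (g.φ q.d y)
  obtain rfl : k = true := by
    have := hf.kap h
    rw [e, q.ty] at this
    exact this
  obtain ⟨c, hc⟩ := exists_third (a := Y) (b := Y + (1, 0)) (by simp [unitVecs])
  obtain ⟨w, hw⟩ := valid_trans hx.v hc
  obtain ⟨e1, e2⟩ := hx.run w
  refine ⟨w.map posA, hf.inj (e1 ▸ g.symm (run r (w.map posA) q).ad) h ?_⟩
  have := e2.a
  rw [e1, hw] at this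
  rw [this, e]

theorem reach_a (q : g.Tet) {y : g.U} (h : g.A q.a y) : ∃ w i, (run r w q).vx i = y := by
  obtain ⟨x, hx⟩ := exists_RA q
  have hf := g.full h
  obtain ⟨k, Y, e⟩ := p.pt_surj (g.φ q.a y)
  obtain rfl : k = false := by
    have := hf.kap h
    rw [e, q.types.1] at this
    exact this
  obtain ⟨c, hc⟩ := exists_third (a := Y) (b := Y + (1, 0)) (by simp [unitVecs])
  obtain ⟨w0, hw0⟩ := valid_trans hx.v hc
  have hY : Y = x.1 + lin x (fr w0).1 := by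
    have := congrArg Prod.fst hw0
    rw [run_sf] at this
    exact this.symm
  generalize (fr w0).1 = m at hY
  obtain ⟨l, hl⟩ : ∃ l, m = sig l ∨ m = (1, 0) + sig l ∨ m = (0, 1) + sig l := by
    obtain ⟨m1, m2⟩ := m
    simp only [sig, Prod.mk_add_mk, Prod.mk.injEq, Prod.exists]
    have : (m1 - m2) % 3 = 0 ∨ (m1 - m2) % 3 = 1 ∨ (m1 - m2) % 3 = 2 := by omega
    rcases this with h | h | h
    · exact ⟨(m1 + 2 * m2) / 3, (m1 - m2) / 3, Or.inl (by omega)⟩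
    · exact ⟨(m1 - 1 + 2 * m2) / 3, (m1 - 1 - m2) / 3, Or.inr (Or.inl (by omega))⟩
    · exact ⟨(m1 + 2 * m2 - 2) / 3, (m1 - m2 + 1) / 3, Or.inr (Or.inr (by omega))⟩
  obtain ⟨w, hw⟩ := exists_transl l
  obtain ⟨e1, e2⟩ := hx.run w
  rw [run_sB_shift hw] at e2
  set q' := run r (w.map posB) q
  rcases hl with rfl | rfl | rfl
  · refine ⟨_, 3, hf.inj (e1 ▸ q'.ad) h ?_⟩
    have := e2.d
    rw [e1] at this
    rw [e, hY]
    exact this
  · refine ⟨_, 1, hf.inj (e1 ▸ q'.ab) h ?_⟩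
    have := e2.b
    rw [e1] at this
    rw [e, hY, lin_add]
    refine this.trans ?_
    congr 1
    simp [shift, lin]
    abel
  · refine ⟨_, 2, hf.inj (e1 ▸ q'.ac) h ?_⟩
    have := e2.c
    rw [e1] at this
    rw [e, hY, lin_add]
    refine this.trans ?_
    congr 1
    simp [shift, lin]
    abel

theorem reach (q : g.Tet) (i : Fin 4) {y : g.U} (h : g.A (q.vx i) y) :
    ∃ w j, (run r w q).vx j = y := by
  fin_cases i
  · exact reach_a q h
  · obtain ⟨w, j, e⟩ := reach_a (r 0 q) h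
    exact ⟨0 :: w, j, e⟩
  · obtain ⟨w, j, e⟩ := reach_a (r 0 (r 1 q)) h
    exact ⟨1 :: 0 :: w, j, e⟩
  · obtain ⟨w, e⟩ := reach_d q h
    exact ⟨w, 0, e⟩

end Gr

theorem Par.good (p : Par) {s t u v : ℕ} (hs : Adm s t) (hp : p.a true = (s, t))
    (hq : ∀ l, p.Lam false (sig l) ↔ Lat u v l) :
    Good s t u v (rho s t u v) ∧ Infinite (G s t u v) := by
  obtain ⟨U, V, A, ty, o, h1, h2, h3, h4, h5, h6, h7⟩ := p.mod.exists_graph
  have : ∀ v, ∃ φ, v ∈ V → Full p.mod A ty v φ := by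
    intro v
    by_cases hv : v ∈ V
    · obtain ⟨φ, hφ⟩ := h3 v hv
      exact ⟨φ, fun _ => hφ⟩
    · exact ⟨fun _ => p.pt true 0, fun h => absurd h hv⟩
  choose φ hφ using this
  let g : Gr p := ⟨U, A, ty, φ, fun h => h1 _ _ h, fun h => hφ _ (h2 _ _ h)⟩
  let a : Act s t u v g.Tet := Act.ofK Gr.r Gr.r_invol
    (fun w hw q => (Gr.runA_iff hp q w).mpr hw) (fun w hw q => (Gr.runB_iff hq q w).mpr hw) Gr.r03
  obtain ⟨q0, hq0⟩ : ∃ q : g.Tet, q.d = o := by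
    have hf := hφ o h4
    obtain ⟨x, y, z, l1, l2, l3, k, -⟩ := p.mod.real true false false false (by decide)
    obtain ⟨x, ox, rfl⟩ := hf.surj x (k.trans h5.symm)
    obtain ⟨y, oy, xy, rfl⟩ := hf.nb ox l1
    obtain ⟨z, oz, xz, rfl⟩ := hf.nb ox l3
    exact ⟨⟨x, y, z, o, xy, xz, h1 _ _ ox, (hf.adj oy oz).mpr l2, h1 _ _ oy, h1 _ _ oz, h5⟩, rfl⟩
  refine ⟨a.good hs (fun w h => (Gr.runA_iff hp q0 w).mp (h q0))
    (fun w h => (Gr.runB_iff hq q0 w).mp (h q0))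
    (fun w y hy h => Gr.lat_of_a hp q0 w ((congrArg Gr.Tet.a (h q0)).trans (Gr.run_a q0 hy))), ?_⟩
  by_contra hfin
  rw [not_infinite_iff_finite] at hfin
  apply h7
  apply (Set.finite_range fun x : G s t u v × Fin 4 => ((a.rel.hom x.1)⁻¹ q0).vx x.2).subset
  intro y hy
  suffices H : ∃ w j, (run Gr.r w q0).vx j = y by
    obtain ⟨w, j, e⟩ := H
    exact ⟨(ev _ w, j), by rw [← e]; exact congrArg (·.vx j) (a.run_eq_hom w q0).symm⟩
  have := h6 y hy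
  clear hy
  induction this with
  | refl => exact ⟨[], 3, hq0⟩
  | tail _ e ih =>
    obtain ⟨w, j, rfl⟩ := ih
    obtain ⟨w', j', e'⟩ := Gr.reach (g := g) _ j e
    exact ⟨w ++ w', j', by rw [run_append, e']⟩

def Big (s t : ℕ) : Prop := (6 ≤ s ∧ t = 0) ∨ (3 ≤ s ∧ t = s)

theorem Big.short {s t : ℕ} (h : Big s t) (l : Z2) (hl : Lat s t l) (hs : Small l) : l = 0 := by
  obtain ⟨⟨a, ha⟩, ⟨b, hb⟩, h3⟩ := hl
  obtain ⟨s1, s2, s3⟩ := hs
  obtain ⟨l1, l2⟩ := l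
  simp only at *
  subst ha hb
  rw [← mul_add] at s3
  rw [abs_mul, Nat.abs_cast] at s1 s2 s3
  rcases h with ⟨h, rfl⟩ | ⟨h, rfl⟩
  · have h' : (6 : ℤ) ≤ s := by exact_mod_cast h
    have k : ∀ a : ℤ, (s : ℤ) * |a| ≤ 5 → a = 0 := fun a ha => by
      by_contra hne
      have := Int.one_le_abs hne
      nlinarith
    rw [k a s1, k b s2]
    simp
  · have h' : (3 : ℤ) ≤ t := by exact_mod_cast h
    have k : ∀ a : ℤ, (t : ℤ) * |a| ≤ 5 → |a| ≤ 1 := fun a ha => by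
      by_contra hne
      nlinarith
    obtain ⟨c, hc⟩ := h3.resolve_left (by omega)
    have h4 : a - b = 3 * c := by
      apply mul_left_cancel₀ (a := (t : ℤ)) (by omega)
      linear_combination hc
    have k1 := abs_le.mp (k a s1)
    have k2 := abs_le.mp (k b s2)
    have k3 := abs_le.mp (k _ s3)
    obtain rfl : a = 0 := by omega
    obtain rfl : b = 0 := by omega
    simp

theorem systolic {s t u v : ℕ} (hs : Big s t) (hu : (3 ≤ u ∧ v = 0) ∨ (2 ≤ u ∧ v = u)) :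
    Good s t u v (rho s t u v) ∧ Infinite (G s t u v) := by
  have hs' : Adm s t := hs.imp (fun h => ⟨by omega, h.2⟩) (fun h => ⟨by omega, h.2⟩)
  rcases hu with ⟨hu, rfl⟩ | ⟨hu, rfl⟩
  · refine Par.good ⟨fun b => if b then (s, t) else (u, u), ?_, ?_⟩ hs' rfl ?_
    · rintro (_ | _)
      · exact Big.short (Or.inr ⟨hu, rfl⟩)
      · exact hs.short
    · rintro l ⟨-, -, h⟩
      exact (Dvd.intro _ rfl).trans (h.resolve_left (by simp; omega))
    · intro l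
      change Lat u u _ ↔ _
      simp only [Lat, sig, true_or, and_true]
      constructor
      · rintro ⟨⟨a, ha⟩, ⟨b, hb⟩, h⟩
        obtain ⟨c, hc⟩ := h.resolve_left (by omega)
        have h2 : l.2 = u * c := by linarith
        exact ⟨⟨b + c, by linarith⟩, c, h2⟩
      · rintro ⟨⟨a, ha⟩, ⟨b, hb⟩⟩
        exact ⟨⟨a + 2 * b, by linarith⟩, ⟨a - b, by linarith⟩, Or.inr ⟨b, by linarith⟩⟩
  · refine Par.good ⟨fun b => if b then (s, t) else (3 * v, 0), ?_, ?_⟩ hs' rfl ?_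
    · rintro (_ | _)
      · exact Big.short (Or.inl ⟨by simp; omega, rfl⟩)
      · exact hs.short
    · rintro l ⟨h1, h2, -⟩
      have : (3 : ℤ) ∣ ((3 * v : ℕ) : ℤ) := by simp
      exact (this.trans h1).sub (this.trans h2)
    · intro l
      change Lat (3 * v) 0 _ ↔ _
      simp only [Lat, sig, true_or, and_true, Nat.cast_mul, Nat.cast_ofNat]
      constructor
      · rintro ⟨⟨a, ha⟩, ⟨b, hb⟩⟩
        exact ⟨⟨a + 2 * b, by linarith⟩, ⟨a - b, by linarith⟩, Or.inr ⟨b, hb⟩⟩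
      · rintro ⟨⟨a, ha⟩, ⟨b, hb⟩, h⟩
        obtain ⟨c, hc⟩ := h.resolve_left (by omega)
        exact ⟨⟨c + b, by linarith⟩, c, hc⟩

end Pool.Agent.MP_6b3afb_co
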