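import Pool.Agent.MP_6b3afb_co.Upper

set_option maxRecDepth 100000

namespace Pool.Agent.MP_6b3afb_co.T27

noncomputable def c0 : ℕ := nat_lit 0x60006a001a0400068001a0a0006c001a00000000018060005a0019040005800190a0005c001900000000017080005400180e000560018000000000164200002001a080005000170e00052001700000000014420000200190c0004e001600000000012020000200188300066001608000480012190004c001500000000011490006200150c0004600140000000001002000020017830004400140c00040000f0000000000e100005e0013830003c0011020004a0015020000200160000000000d490006400120c00038000d0000000000c02000020015820003e00130000000000b020000200140700034000cc5000320010020004200130000000000a0700060000f830002e000d0000000000902000020013070002c000ec500028000c020003a001100000000008020000200128200030000f000000000070200002001102000360010c20002a000e020000200100e00026000b000000000074900024000b000000000060200002000f0700022000ac50001e00080200002000e00000000006130001c000983000180007000000000040200002000d07000140005c200020000a0200002000c000000000040200002000b820001a00090200002000a020000200090a00012000600000000004000000000030b00010000502000160008c50000e000502000020008020000200070000000000342000020006020000200050000000000202000020004830000c0003080000800020200002000300000000001490000a00020600006000104000040001020000200020000000000001000000000010000000000100000000002000020001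
noncomputable def tr : Tr := (.leaf c0)
noncomputable def tb : ℕ → ℕ := look tr 44 17592186044416
def al : List (List (Fin 4)) := [[0,2,0,2], [2,0,2,0], [0,3,0,3], [3,0,3,0], [1,3,1,3], [3,1,3,1], [0,1,0,1,0,1], [1,0,1,0,1,0], [2,3,2,3,2,3], [3,2,3,2,3,2], [1,2,1,2,1,2,1,2,1,2,1,2], [2,1,2,1,2,1,2,1,2,1,2,1], [0,1,2,0,1,2,0,1,2,0,1,2,0,1,2,0,1,2], [1,2,0,1,2,0,1,2,0,1,2,0,1,2,0,1,2,0], [2,0,1,2,0,1,2,0,1,2,0,1,2,0,1,2,0,1], [2,1,0,2,1,0,2,1,0,2,1,0,2,1,0,2,1,0], [1,0,2,1,0,2,1,0,2,1,0,2,1,0,2,1,0,2], [0,2,1,0,2,1,0,2,1,0,2,1,0,2,1,0,2,1], [3,2,1,3,2,1,3,2,1,3,2,1,3,2,1,3,2,1], [2,1,3,2,1,3,2,1,3,2,1,3,2,1,3,2,1,3], [1,3,2,1,3,2,1,3,2,1,3,2,1,3,2,1,3,2], [1,2,3,1,2,3,1,2,3,1,2,3,1,2,3,1,2,3], [2,3,1,2,3,1,2,3,1,2,3,1,2,3,1,2,3,1], [3,1,2,3,1,2,3,1,2,3,1,2,3,1,2,3,1,2]]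
noncomputable def rc : ℕ → Bool := rchk tb 27 (fxP tb) [0,1,2,1,2,1,0,1,2,1,2,1,0,1,2,1,2,1] [0,1,2,0,1,2,0,1,2,0,1,2,0,1,2,0,1,2] [0,1,2,1,2,1,0,1,2,1,2,1,0,1,2,1,2,1] [0,1,2,0,1,2,0,1,2,0,1,2,0,1,2,0,1,2]
noncomputable def uc : ℕ → Bool := uchk tb 27 true al
theorem r0 : allB rc 5 0 = true := by decide +kernel
theorem u0 : allB uc 5 0 = true := by decide +kernel
theorem hr : ∀ x < 27, rc x = true :=
  allB_cover (d := 5) (k := 1) (fun b hb => by
    interval_cases b
    exacts [r0]) (by norm_num)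
theorem hu : ∀ x < 27, uc x = true :=
  allB_cover (d := 5) (k := 1) (fun b hb => by
    interval_cases b
    exacts [u0]) (by norm_num)
theorem hal : ∀ w ∈ al, w ∈ rots (bwAB 3 0 3 0) := by decide +kernel
theorem e1 : echk tb [4,6,0] 3 0 posA = true := by decide +kernel
theorem e2 : echk tb [4,6,0] 3 0 posB = true := by decide +kernel
theorem e3 : e3chk tb [4,6,0] (fun y => Nat.min y 1) 3 0 = true := by decide +kernel
theorem h0 : ∀ g, g ≠ 0 → im tb 0 g = 0 := by decide +kernel
theorem main : Good 3 0 3 0 (rho 3 0 3 0) ∧ Nat.card (G 3 0 3 0) = 2916 := by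
  have hs : Adm 3 0 := by simp [Adm]
  have hu' : Adm 3 0 := by simp [Adm]
  obtain ⟨T⟩ := exists_tabAct hs hu' ⟨by decide, by decide⟩ ⟨by decide, by decide⟩ hr
  have hbs : ∀ b ∈ [4,6,0], b < 27 := by decide
  refine ⟨T.good hs hu' hbs _ (T.blk0 h0) e1 e2 e3, ?_⟩
  rw [T.index (by norm_num) (ev_of_AB hal) (fun _ => h0) hu, T.card_HS hu' hbs e2]
  decide +kernel

end Pool.Agent.MP_6b3afb_co.T27
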