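import Pool.Agent.MP_6b3afb_co.T92160D

set_option maxRecDepth 100000

namespace Pool.Agent.MP_6b3afb_co.T92160

theorem r6 : allB rc 10 6 = true := by decide +kernel
theorem u6 : allB uc 10 6 = true := by decide +kernel
theorem r7 : allB rc 10 7 = true := by decide +kernel
theorem u7 : allB uc 10 7 = true := by decide +kernel
theorem r8 : allB rc 10 8 = true := by decide +kernel
theorem u8 : allB uc 10 8 = true := by decide +kernel
theorem r9 : allB rc 10 9 = true := by decide +kernel
theorem u9 : allB uc 10 9 = true := by decide +kernel
theorem r10 : allB rc 10 10 = true := by decide +kernel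
theorem u10 : allB uc 10 10 = true := by decide +kernel
theorem r11 : allB rc 10 11 = true := by decide +kernel
theorem u11 : allB uc 10 11 = true := by decide +kernel

end Pool.Agent.MP_6b3afb_co.T92160
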