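import Pool.Agent.MP_6b3afb_co.T92160D

set_option maxRecDepth 100000

namespace Pool.Agent.MP_6b3afb_co.T92160

theorem r60 : allB rc 10 60 = true := by decide +kernel
theorem u60 : allB uc 10 60 = true := by decide +kernel
theorem r61 : allB rc 10 61 = true := by decide +kernel
theorem u61 : allB uc 10 61 = true := by decide +kernel
theorem r62 : allB rc 10 62 = true := by decide +kernel
theorem u62 : allB uc 10 62 = true := by decide +kernel
theorem r63 : allB rc 10 63 = true := by decide +kernel
theorem u63 : allB uc 10 63 = true := by decide +kernel
theorem r64 : allB rc 10 64 = true := by decide +kernel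
theorem u64 : allB uc 10 64 = true := by decide +kernel
theorem r65 : allB rc 10 65 = true := by decide +kernel
theorem u65 : allB uc 10 65 = true := by decide +kernel

end Pool.Agent.MP_6b3afb_co.T92160
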