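import Pool.Agent.MP_6b3afb_co.T92160D

set_option maxRecDepth 100000

namespace Pool.Agent.MP_6b3afb_co.T92160

theorem r66 : allB rc 10 66 = true := by decide +kernel
theorem u66 : allB uc 10 66 = true := by decide +kernel
theorem r67 : allB rc 10 67 = true := by decide +kernel
theorem u67 : allB uc 10 67 = true := by decide +kernel
theorem r68 : allB rc 10 68 = true := by decide +kernel
theorem u68 : allB uc 10 68 = true := by decide +kernel
theorem r69 : allB rc 10 69 = true := by decide +kernel
theorem u69 : allB uc 10 69 = true := by decide +kernel
theorem r70 : allB rc 10 70 = true := by decide +kernel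
theorem u70 : allB uc 10 70 = true := by decide +kernel
theorem r71 : allB rc 10 71 = true := by decide +kernel
theorem u71 : allB uc 10 71 = true := by decide +kernel

end Pool.Agent.MP_6b3afb_co.T92160
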