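import Pool.Agent.MP_6b3afb_co.T92160D

set_option maxRecDepth 100000

namespace Pool.Agent.MP_6b3afb_co.T92160

theorem r84 : allB rc 10 84 = true := by decide +kernel
theorem u84 : allB uc 10 84 = true := by decide +kernel
theorem r85 : allB rc 10 85 = true := by decide +kernel
theorem u85 : allB uc 10 85 = true := by decide +kernel
theorem r86 : allB rc 10 86 = true := by decide +kernel
theorem u86 : allB uc 10 86 = true := by decide +kernel
theorem r87 : allB rc 10 87 = true := by decide +kernel
theorem u87 : allB uc 10 87 = true := by decide +kernel
theorem r88 : allB rc 10 88 = true := by decide +kernel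
theorem u88 : allB uc 10 88 = true := by decide +kernel
theorem r89 : allB rc 10 89 = true := by decide +kernel
theorem u89 : allB uc 10 89 = true := by decide +kernel

end Pool.Agent.MP_6b3afb_co.T92160
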