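import Pool.Agent.MP_6b3afb_co.T92160D

set_option maxRecDepth 100000

namespace Pool.Agent.MP_6b3afb_co.T92160

theorem r12 : allB rc 10 12 = true := by decide +kernel
theorem u12 : allB uc 10 12 = true := by decide +kernel
theorem r13 : allB rc 10 13 = true := by decide +kernel
theorem u13 : allB uc 10 13 = true := by decide +kernel
theorem r14 : allB rc 10 14 = true := by decide +kernel
theorem u14 : allB uc 10 14 = true := by decide +kernel
theorem r15 : allB rc 10 15 = true := by decide +kernel
theorem u15 : allB uc 10 15 = true := by decide +kernel
theorem r16 : allB rc 10 16 = true := by decide +kernel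
theorem u16 : allB uc 10 16 = true := by decide +kernel
theorem r17 : allB rc 10 17 = true := by decide +kernel
theorem u17 : allB uc 10 17 = true := by decide +kernel

end Pool.Agent.MP_6b3afb_co.T92160
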