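import Pool.Agent.MP_6b3afb_co.T92160D

set_option maxRecDepth 100000

namespace Pool.Agent.MP_6b3afb_co.T92160

theorem r18 : allB rc 10 18 = true := by decide +kernel
theorem u18 : allB uc 10 18 = true := by decide +kernel
theorem r19 : allB rc 10 19 = true := by decide +kernel
theorem u19 : allB uc 10 19 = true := by decide +kernel
theorem r20 : allB rc 10 20 = true := by decide +kernel
theorem u20 : allB uc 10 20 = true := by decide +kernel
theorem r21 : allB rc 10 21 = true := by decide +kernel
theorem u21 : allB uc 10 21 = true := by decide +kernel
theorem r22 : allB rc 10 22 = true := by decide +kernel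
theorem u22 : allB uc 10 22 = true := by decide +kernel
theorem r23 : allB rc 10 23 = true := by decide +kernel
theorem u23 : allB uc 10 23 = true := by decide +kernel

end Pool.Agent.MP_6b3afb_co.T92160
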