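import Pool.Agent.MP_6b3afb_co.T92160D

set_option maxRecDepth 100000

namespace Pool.Agent.MP_6b3afb_co.T92160

theorem r30 : allB rc 10 30 = true := by decide +kernel
theorem u30 : allB uc 10 30 = true := by decide +kernel
theorem r31 : allB rc 10 31 = true := by decide +kernel
theorem u31 : allB uc 10 31 = true := by decide +kernel
theorem r32 : allB rc 10 32 = true := by decide +kernel
theorem u32 : allB uc 10 32 = true := by decide +kernel
theorem r33 : allB rc 10 33 = true := by decide +kernel
theorem u33 : allB uc 10 33 = true := by decide +kernel
theorem r34 : allB rc 10 34 = true := by decide +kernel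
theorem u34 : allB uc 10 34 = true := by decide +kernel
theorem r35 : allB rc 10 35 = true := by decide +kernel
theorem u35 : allB uc 10 35 = true := by decide +kernel

end Pool.Agent.MP_6b3afb_co.T92160
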