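import Pool.Agent.MP_6b3afb_co.T92160D

set_option maxRecDepth 100000

namespace Pool.Agent.MP_6b3afb_co.T92160

theorem r36 : allB rc 10 36 = true := by decide +kernel
theorem u36 : allB uc 10 36 = true := by decide +kernel
theorem r37 : allB rc 10 37 = true := by decide +kernel
theorem u37 : allB uc 10 37 = true := by decide +kernel
theorem r38 : allB rc 10 38 = true := by decide +kernel
theorem u38 : allB uc 10 38 = true := by decide +kernel
theorem r39 : allB rc 10 39 = true := by decide +kernel
theorem u39 : allB uc 10 39 = true := by decide +kernel
theorem r40 : allB rc 10 40 = true := by decide +kernel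
theorem u40 : allB uc 10 40 = true := by decide +kernel
theorem r41 : allB rc 10 41 = true := by decide +kernel
theorem u41 : allB uc 10 41 = true := by decide +kernel

end Pool.Agent.MP_6b3afb_co.T92160
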