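import Pool.Agent.MP_6b3afb_co.T92160D

set_option maxRecDepth 100000

namespace Pool.Agent.MP_6b3afb_co.T92160

theorem r48 : allB rc 10 48 = true := by decide +kernel
theorem u48 : allB uc 10 48 = true := by decide +kernel
theorem r49 : allB rc 10 49 = true := by decide +kernel
theorem u49 : allB uc 10 49 = true := by decide +kernel
theorem r50 : allB rc 10 50 = true := by decide +kernel
theorem u50 : allB uc 10 50 = true := by decide +kernel
theorem r51 : allB rc 10 51 = true := by decide +kernel
theorem u51 : allB uc 10 51 = true := by decide +kernel
theorem r52 : allB rc 10 52 = true := by decide +kernel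
theorem u52 : allB uc 10 52 = true := by decide +kernel
theorem r53 : allB rc 10 53 = true := by decide +kernel
theorem u53 : allB uc 10 53 = true := by decide +kernel

end Pool.Agent.MP_6b3afb_co.T92160
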