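import Pool.Agent.MP_6b3afb_co.T92160D

set_option maxRecDepth 100000

namespace Pool.Agent.MP_6b3afb_co.T92160

theorem r54 : allB rc 10 54 = true := by decide +kernel
theorem u54 : allB uc 10 54 = true := by decide +kernel
theorem r55 : allB rc 10 55 = true := by decide +kernel
theorem u55 : allB uc 10 55 = true := by decide +kernel
theorem r56 : allB rc 10 56 = true := by decide +kernel
theorem u56 : allB uc 10 56 = true := by decide +kernel
theorem r57 : allB rc 10 57 = true := by decide +kernel
theorem u57 : allB uc 10 57 = true := by decide +kernel
theorem r58 : allB rc 10 58 = true := by decide +kernel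
theorem u58 : allB uc 10 58 = true := by decide +kernel
theorem r59 : allB rc 10 59 = true := by decide +kernel
theorem u59 : allB uc 10 59 = true := by decide +kernel

end Pool.Agent.MP_6b3afb_co.T92160
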