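import Pool.Agent.MP_6b3afb_co.T92160K0
import Pool.Agent.MP_6b3afb_co.T92160K1
import Pool.Agent.MP_6b3afb_co.T92160K2
import Pool.Agent.MP_6b3afb_co.T92160K3
import Pool.Agent.MP_6b3afb_co.T92160K4
import Pool.Agent.MP_6b3afb_co.T92160K5
import Pool.Agent.MP_6b3afb_co.T92160K6
import Pool.Agent.MP_6b3afb_co.T92160K7
import Pool.Agent.MP_6b3afb_co.T92160K8
import Pool.Agent.MP_6b3afb_co.T92160K9
import Pool.Agent.MP_6b3afb_co.T92160K10
import Pool.Agent.MP_6b3afb_co.T92160K11
import Pool.Agent.MP_6b3afb_co.T92160K12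
import Pool.Agent.MP_6b3afb_co.T92160K13
import Pool.Agent.MP_6b3afb_co.T92160K14

set_option maxRecDepth 100000

namespace Pool.Agent.MP_6b3afb_co.T92160

theorem hr : ∀ x < 92160, rc x = true :=
  allB_cover (d := 10) (k := 90) (fun b hb => by
    interval_cases b
    exacts [r0, r1, r2, r3, r4, r5, r6, r7, r8, r9, r10, r11, r12, r13, r14, r15, r16, r17, r18, r19, r20, r21, r22, r23, r24, r25, r26, r27, r28, r29, r30, r31, r32, r33, r34, r35, r36, r37, r38, r39, r40, r41, r42, r43, r44, r45, r46, r47, r48, r49, r50, r51, r52, r53, r54, r55, r56, r57, r58, r59, r60, r61, r62, r63, r64, r65, r66, r67, r68, r69, r70, r71, r72, r73, r74, r75, r76, r77, r78, r79, r80, r81, r82, r83, r84, r85, r86, r87, r88, r89]) (by norm_num)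
theorem hu : ∀ x < 92160, uc x = true :=
  allB_cover (d := 10) (k := 90) (fun b hb => by
    interval_cases b
    exacts [u0, u1, u2, u3, u4, u5, u6, u7, u8, u9, u10, u11, u12, u13, u14, u15, u16, u17, u18, u19, u20, u21, u22, u23, u24, u25, u26, u27, u28, u29, u30, u31, u32, u33, u34, u35, u36, u37, u38, u39, u40, u41, u42, u43, u44, u45, u46, u47, u48, u49, u50, u51, u52, u53, u54, u55, u56, u57, u58, u59, u60, u61, u62, u63, u64, u65, u66, u67, u68, u69, u70, u71, u72, u73, u74, u75, u76, u77, u78, u79, u80, u81, u82, u83, u84, u85, u86, u87, u88, u89]) (by norm_num)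
theorem hal : ∀ w ∈ al, w ∈ rots (bwAB 2 2 2 2) := by decide +kernel
theorem e1 : echk tb [74606,0] 2 2 posA = true := by decide +kernel
theorem e2 : echk tb [74606,0] 2 2 posB = true := by decide +kernel
theorem e3 : e3chk tb [74606,0] (fun y => Nat.min y 1) 2 2 = true := by decide +kernel
theorem h0 : ∀ g, g ≠ 0 → im tb 0 g = 0 := by decide +kernel
theorem main : Good 2 2 2 2 (rho 2 2 2 2) ∧ Nat.card (G 2 2 2 2) = 13271040 := by
  have hs : Adm 2 2 := by simp [Adm]
  have hu' : Adm 2 2 := by simp [Adm]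
  obtain ⟨T⟩ := exists_tabAct hs hu' ⟨by decide, by decide⟩ ⟨by decide, by decide⟩ hr
  have hbs : ∀ b ∈ [74606,0], b < 92160 := by decide
  refine ⟨T.good hs hu' hbs _ (T.blk0 h0) e1 e2 e3, ?_⟩
  rw [T.index (by norm_num) (ev_of_AB hal) (fun _ => h0) hu, T.card_HS hu' hbs e2]
  decide +kernel

end Pool.Agent.MP_6b3afb_co.T92160
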