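import Pool.Agent.MP_6b3afb_co.Coset
import Pool.Agent.MP_6b3afb_co.Omega
import Pool.Agent.MP_6b3afb_co.T108
import Pool.Agent.MP_6b3afb_co.T324
import Pool.Agent.MP_6b3afb_co.T240
import Pool.Agent.MP_6b3afb_co.T720
import Pool.Agent.MP_6b3afb_co.T27
import Pool.Agent.MP_6b3afb_co.T288
import Pool.Agent.MP_6b3afb_co.T1260
import Pool.Agent.MP_6b3afb_co.T92160
import Pool.Agent.MP_6b3afb_co.I4040
import Pool.Agent.MP_6b3afb_co.I5050
import Pool.Agent.MP_6b3afb_co.I2240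
import Pool.Agent.MP_6b3afb_co.I2250
import Pool.Agent.MP_6b3afb_co.I4050
import Pool.Agent.MP_6b3afb_co.C3050

set_option synthInstance.maxSize 4000

namespace Pool.Agent.MP_6b3afb_co

variable {s t u v : ℕ}

def Ex (s t u v : ℕ) : Prop :=
  finiteOrder (s, t) (u, v) ≠ 0 ∨ ((s, t) ≠ (1, 1) ∧ (s, t) ≠ (2, 0) ∧ (u, v) ≠ (1, 1) ∧
    (u, v) ≠ (2, 0) ∧ s((s, t), (u, v)) ≠ s((3, 0), (5, 0)))

instance : Decidable (Ex s t u v) := by unfold Ex; infer_instance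

theorem finiteOrder_comm (p q : ℕ × ℕ) : finiteOrder p q = finiteOrder q p := by
  unfold finiteOrder
  rw [Sym2.eq_swap]

theorem Ex.symm (h : Ex s t u v) : Ex u v s t := by
  unfold Ex at *
  rw [finiteOrder_comm, Sym2.eq_swap]
  tauto

def Res (s t u v : ℕ) : Prop :=
  Good s t u v (rho s t u v) ∧ Nat.card (G s t u v) = finiteOrder (s, t) (u, v)

theorem Res.symm (h : Res u v s t) : Res s t u v :=
  ⟨good_dual h.1, by rw [Nat.card_congr (dualEquiv s t u v).toEquiv, h.2, finiteOrder_comm]⟩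

theorem res_of_inf (h : Good s t u v (rho s t u v) ∧ Infinite (G s t u v))
    (h0 : finiteOrder (s, t) (u, v) = 0) : Res s t u v := by
  obtain ⟨h1, h2⟩ := h
  exact ⟨h1, by rw [h0, Nat.card_eq_zero_of_infinite]⟩

theorem adm_cases (h : Adm s t) : (s = 1 ∧ t = 1) ∨ (s = 2 ∧ t = 0) ∨ (s = 3 ∧ t = 0) ∨
    (s = 2 ∧ t = 2) ∨ (s = 4 ∧ t = 0) ∨ (s = 5 ∧ t = 0) ∨ Big s t := by
  unfold Adm at h
  unfold Big
  omega

theorem Big.order (h : Big s t) : finiteOrder (s, t) (u, v) = 0 := by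
  have key : ∀ a b c d : ℕ, ¬ Big a b → ¬ Big c d → ¬ s((s, t), (u, v)) = s((a, b), (c, d)) := by
    intro a b c d h1 h2 e
    rcases Sym2.eq_iff.mp e with ⟨e1, -⟩ | ⟨e1, -⟩
    · obtain ⟨rfl, rfl⟩ := Prod.ext_iff.mp e1
      exact h1 h
    · obtain ⟨rfl, rfl⟩ := Prod.ext_iff.mp e1
      exact h2 h
  unfold finiteOrder
  repeat rw [if_neg (key _ _ _ _ (by simp [Big]) (by simp [Big]))]

theorem res_big (h : Big s t) (hu : Adm u v) (e : Ex s t u v) : Res s t u v := by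
  refine res_of_inf (systolic h ?_) h.order
  obtain ⟨-, -, h1, h2, -⟩ := e.resolve_left (by simp [h.order])
  simp only [ne_eq, Prod.mk.injEq] at h1 h2
  unfold Adm at hu
  omega

theorem res_of_ex (hs : Adm s t) (hu : Adm u v) (e : Ex s t u v) : Res s t u v := by
  have r1 : Res 1 1 1 1 := T108.main
  have r2 : Res 1 1 3 0 := T324.main
  have r3 : Res 2 0 2 0 := T240.main
  have r4 : Res 2 0 2 2 := T720.main
  have r5 : Res 3 0 3 0 := T27.main
  have r6 : Res 3 0 2 2 := T288.main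
  have r7 : Res 3 0 4 0 := T1260.main
  have r8 : Res 2 2 2 2 := T92160.main
  have i1 : Res 4 0 4 0 := res_of_inf I4040.main (by decide)
  have i2 : Res 5 0 5 0 := res_of_inf I5050.main (by decide)
  have i3 : Res 2 2 4 0 := res_of_inf I2240.main (by decide)
  have i4 : Res 2 2 5 0 := res_of_inf I2250.main (by decide)
  have i5 : Res 4 0 5 0 := res_of_inf I4050.main (by decide)
  by_cases h1 : Big s t
  · exact res_big h1 hu e
  by_cases h2 : Big u v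
  · exact (res_big h2 hs e.symm).symm
  rcases adm_cases hs with ⟨rfl, rfl⟩ | ⟨rfl, rfl⟩ | ⟨rfl, rfl⟩ | ⟨rfl, rfl⟩ | ⟨rfl, rfl⟩ |
    ⟨rfl, rfl⟩ | h <;>
  rcases adm_cases hu with ⟨rfl, rfl⟩ | ⟨rfl, rfl⟩ | ⟨rfl, rfl⟩ | ⟨rfl, rfl⟩ | ⟨rfl, rfl⟩ |
    ⟨rfl, rfl⟩ | h' <;>
  first
    | contradiction
    | assumption
    | (apply Res.symm; assumption)
    | exact absurd e (by decide)

theorem fa_dual (h : FA s t (fA (rho s t u v))) : FA s t (fB (rho u v s t)) := by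
  intro w hw
  apply h
  have := congrArg (dualEquiv u v s t).toMonoidHom hw
  rw [map_ev, map_one] at this
  rw [← this]
  congr 1
  funext i
  exact ((dualEquiv_rho (posB i)).trans (by fin_cases i <;> rfl)).symm

theorem fa_dual' (h : FA u v (fB (rho s t u v))) : FA u v (fA (rho u v s t)) := by
  intro w hw
  apply h
  have := congrArg (dualEquiv u v s t).toMonoidHom hw
  rw [map_ev, map_one] at this
  rw [← this]
  congr 1
  funext i
  exact ((dualEquiv_rho (posA i)).trans (by fin_cases i <;> rfl)).symm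

theorem lat_of_K {a b : ℕ} {w : List (Fin 3)} (h : K a b w) : Lat a b (fr w).1 := by
  obtain ⟨l, hl, e⟩ := h
  simpa [e, shift, base, Prod.mk_zero_zero] using hl

theorem not11 (hu : Adm u v) (h : FA u v (fB (rho 1 1 u v))) : (u = 1 ∧ v = 1) ∨ (u = 3 ∧ v = 0) := by
  have h1 := ev_eq_one_of_tab (s := 1) (t := 1) (u := u) (v := v) (by norm_num)
    (ev_of_A T324.hal u v) (fun x hx => rchk_lt (T324.hr x hx) hx) T324.hu
    (w := (wpow [0, 1, 2] 6).map posB) (by decide +kernel)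
  rw [← ev_fB] at h1
  have h2 := lat_of_K (h _ h1)
  rw [show (fr (wpow [0, 1, 2] 6)).1 = (0, 3) by decide] at h2
  obtain ⟨-, h3, h4⟩ := h2
  have h5 := Int.le_of_dvd (by norm_num) h3
  unfold Adm at hu
  have h6 : u ≤ 3 := by omega
  interval_cases u <;> simp at h3 h4 ⊢ <;> omega

theorem not20 (hu : Adm u v) (h : FA u v (fB (rho 2 0 u v))) :
    (u = 1 ∧ v = 1) ∨ (u = 2 ∧ v = 0) ∨ (u = 2 ∧ v = 2) := by
  have h1 := ev_eq_one_of_tab (s := 2) (t := 0) (u := u) (v := v) (by norm_num)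
    (ev_of_A T720.hal u v) (fun x hx => rchk_lt (T720.hr x hx) hx) T720.hu
    (w := (wpow [0, 1, 2, 1, 2] 4).map posB) (by decide +kernel)
  rw [← ev_fB] at h1
  have h2 := lat_of_K (h _ h1)
  rw [show (fr (wpow [0, 1, 2, 1, 2] 4)).1 = (2, 2) by decide] at h2
  obtain ⟨-, h3, -⟩ := h2
  have h5 := Int.le_of_dvd (by norm_num) h3
  unfold Adm at hu
  omega

theorem ex_of_fa (hs : Adm s t) (hu : Adm u v) (hA : FA s t (fA (rho s t u v)))
    (hB : FA u v (fB (rho s t u v))) : Ex s t u v := by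
  have key : ∀ {s t u v}, Adm s t → Adm u v → FA s t (fA (rho s t u v)) →
      FA u v (fB (rho s t u v)) → (s, t) = (1, 1) ∨ (s, t) = (2, 0) ∨
        ((s, t) = (3, 0) ∧ (u, v) = (5, 0)) → Ex s t u v := by
    intro s t u v hs hu hA hB h
    simp only [Prod.mk.injEq] at h
    rcases h with ⟨rfl, rfl⟩ | ⟨rfl, rfl⟩ | ⟨⟨rfl, rfl⟩, rfl, rfl⟩
    · rcases not11 hu hB with ⟨rfl, rfl⟩ | ⟨rfl, rfl⟩ <;> decide
    · rcases not20 hu hB with ⟨rfl, rfl⟩ | ⟨rfl, rfl⟩ | ⟨rfl, rfl⟩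
      · have := not11 hs (fa_dual hA)
        omega
      · decide
      · decide
    · exact absurd hA C3050.main
  by_cases h1 : (s, t) = (1, 1) ∨ (s, t) = (2, 0) ∨ ((s, t) = (3, 0) ∧ (u, v) = (5, 0))
  · exact key hs hu hA hB h1
  by_cases h2 : (u, v) = (1, 1) ∨ (u, v) = (2, 0) ∨ ((u, v) = (3, 0) ∧ (s, t) = (5, 0))
  · exact (key hu hs (fa_dual' hB) (fa_dual hA) h2).symm
  right
  rw [ne_eq s(_, _), Sym2.eq_iff]
  tauto

theorem classification (hs : Adm s t) (hu : Adm u v) :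
    (Nonempty (Poly s t u v) ↔ Ex s t u v) ∧
    (Nonempty (Poly s t u v) → ∃ U : Poly s t u v, ∀ Q, Covers U Q) ∧
    ∀ U : Poly s t u v, (∀ Q, Covers U Q) →
      Nonempty ((U.P ≃o U.P) ≃* PresentedGroup (rels s t u v)) ∧
      Nat.card (U.P ≃o U.P) = finiteOrder (s, t) (u, v) ∧
      (Finite U.P ↔ finiteOrder (s, t) (u, v) ≠ 0) := by
  have h1 : Nonempty (Poly s t u v) → Ex s t u v := fun ⟨Q⟩ =>
    ex_of_fa hs hu (Q.fa hs hu).1 (Q.fa hs hu).2
  have h2 : Ex s t u v → Ctx s t u v (rho s t u v) := fun e =>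
    ⟨hs, hu, (res_of_ex hs hu e).1, in_univ⟩
  refine ⟨⟨h1, fun e => ⟨(h2 e).poly⟩⟩, fun h => ⟨_, (h2 (h1 h)).covers⟩, fun U hU => ?_⟩
  have e := h1 ⟨U⟩
  obtain ⟨⟨φ⟩, h3⟩ := (h2 e).aut U (hU _)
  have h4 := (res_of_ex hs hu e).2
  refine ⟨⟨φ⟩, (Nat.card_congr φ.toEquiv).trans h4, ?_⟩
  rw [h3, ← h4, Nat.card_ne_zero]
  exact ⟨fun h => ⟨inferInstance, h⟩, fun h => h.2⟩

end Pool.Agent.MP_6b3afb_co
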