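import Mathlib

namespace Pool.Agent.MP_6b3afb_co

def One4 (a b c d : Bool) : Prop := a.toNat + b.toNat + c.toNat + d.toNat = 1

instance (a b c d : Bool) : Decidable (One4 a b c d) := by unfold One4; infer_instance

def hadj (k l : Fin 6) : Prop := l = k + 1 ∨ k = l + 1

instance (k l : Fin 6) : Decidable (hadj k l) := by unfold hadj; infer_instance

structure IsHex {T : Type} (L : T → T → Prop) (c : T) (h : Fin 6 → T) : Prop where
  inj : Function.Injective h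
  mem : ∀ x, L c x ↔ ∃ k, h k = x
  adj : ∀ k l, L (h k) (h l) ↔ hadj k l

structure Mod where
  T : Type
  L : T → T → Prop
  κ : T → Bool
  τ : T → Bool
  symm : ∀ {x y}, L x y → L y x
  irrefl : ∀ x, ¬ L x x
  kap : ∀ {x y}, L x y → κ x = κ y
  hex : ∀ c, ∃ h, IsHex L c h
  c4 : ∀ {a b c d}, L a b → L b c → L c d → L d a → a ≠ c → b ≠ d → L a c ∨ L b d
  c5 : ∀ {a b c d e}, L a b → L b c → L c d → L d e → L e a →
    L a c ∨ L a d ∨ L b d ∨ L b e ∨ L c e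
  one : ∀ {a b c}, L a b → L b c → L a c → One4 (κ a) (τ a) (τ b) (τ c)
  real : ∀ k a b c, One4 k a b c →
    ∃ x y z, L x y ∧ L y z ∧ L x z ∧ κ x = k ∧ τ x = a ∧ τ y = b ∧ τ z = c
  far : ∀ c, ∃ x, κ x = κ c ∧ x ≠ c ∧ ¬ L c x ∧ ∀ y, L c y → ¬ L y x

namespace Mod
variable (M : Mod)

theorem hex_start {c a b : M.T} (ha : M.L c a) (hb : M.L c b) (hab : M.L a b) :
    ∃ h, IsHex M.L c h ∧ h 0 = a ∧ h 1 = b := by
  obtain ⟨h, hh⟩ := M.hex c
  obtain ⟨i, rfl⟩ := (hh.mem a).mp ha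
  obtain ⟨j, rfl⟩ := (hh.mem b).mp hb
  have key : ∀ i j : Fin 6, hadj i j → ∃ e : Bool, (i + if e then 1 else -1) = j ∧
      (∀ k l : Fin 6, (i + if e then k else -k) = (i + if e then l else -l) → k = l) ∧
      (∀ m, ∃ k : Fin 6, (i + if e then k else -k) = m) ∧
      ∀ k l : Fin 6, hadj (i + if e then k else -k) (i + if e then l else -l) ↔ hadj k l := by
    decide
  obtain ⟨e, h1, h2, h3, h4⟩ := key i j ((hh.adj i j).mp hab)
  refine ⟨fun k => h (i + if e then k else -k), ⟨fun k l hkl => h2 k l (hh.inj hkl), ?_, ?_⟩,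
    by simp, by simp only [h1]⟩
  · intro x
    rw [hh.mem]
    constructor
    · rintro ⟨m, rfl⟩
      obtain ⟨k, rfl⟩ := h3 m
      exact ⟨k, rfl⟩
    · rintro ⟨k, rfl⟩
      exact ⟨_, rfl⟩
  · intro k l
    rw [hh.adj, h4]

theorem two {a b x y z : M.T} (hab : M.L a b) (hx : M.L a x) (hy : M.L a y) (hz : M.L a z)
    (hx' : M.L b x) (hy' : M.L b y) (hz' : M.L b z) : x = y ∨ x = z ∨ y = z := by
  obtain ⟨h, hh⟩ := M.hex a
  obtain ⟨i, rfl⟩ := (hh.mem _).mp hab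
  obtain ⟨j, rfl⟩ := (hh.mem _).mp hx
  obtain ⟨k, rfl⟩ := (hh.mem _).mp hy
  obtain ⟨l, rfl⟩ := (hh.mem _).mp hz
  rw [hh.adj] at hx' hy' hz'
  simp only [hh.inj.eq_iff]
  clear hab hx hy hz
  revert i j k l
  decide

theorem other {a b c : M.T} (hab : M.L a b) (hac : M.L a c) (hbc : M.L b c) :
    ∃ d, M.L a d ∧ M.L b d ∧ d ≠ c := by
  obtain ⟨h, hh, rfl, rfl⟩ := M.hex_start hab hac hbc
  exact ⟨h 5, (hh.mem _).mpr ⟨_, rfl⟩, (hh.adj _ _).mpr (by decide), hh.inj.ne (by decide)⟩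

theorem conv {y a b p q : M.T} (h1 : M.L y a) (h2 : M.L y b) (h3 : M.L a p) (h4 : M.L b q)
    (h5 : p = q ∨ M.L p q) (h6 : ¬ M.L y p) (h7 : ¬ M.L y q) (h8 : y ≠ p) (h9 : y ≠ q)
    (hab : a ≠ b) : M.L a b := by
  have k4 : ∀ {p}, M.L a p → M.L b p → ¬ M.L y p → y ≠ p → M.L a b := fun h3 h4 h6 h8 =>
    (M.c4 h1 h3 (M.symm h4) (M.symm h2) h8 hab).resolve_left h6
  rcases h5 with rfl | h5
  · exact k4 h3 h4 h6 h8
  · rcases M.c5 h1 h3 h5 (M.symm h4) (M.symm h2) with h | h | h | h | h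
    · exact absurd h h6
    · exact absurd h h7
    · exact k4 h h4 h7 h9
    · exact h
    · exact k4 h3 (M.symm h) h6 h8

theorem hex_type {c c' : M.T} {h h' : Fin 6 → M.T} (hh : IsHex M.L c h) (hh' : IsHex M.L c' h')
    (e : (M.κ c || M.τ c) = (M.κ c' || M.τ c')) (e0 : M.τ (h 0) = M.τ (h' 0)) (k : Fin 6) :
    M.τ (h k) = M.τ (h' k) := by
  have step : ∀ k, M.τ (h k) = M.τ (h' k) → M.τ (h (k + 1)) = M.τ (h' (k + 1)) := by
    intro k e1
    have h1 := M.one ((hh.mem _).mpr ⟨k, rfl⟩) ((hh.adj k (k + 1)).mpr (Or.inl rfl))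
      ((hh.mem _).mpr ⟨k + 1, rfl⟩)
    have h2 := M.one ((hh'.mem _).mpr ⟨k, rfl⟩) ((hh'.adj k (k + 1)).mpr (Or.inl rfl))
      ((hh'.mem _).mpr ⟨k + 1, rfl⟩)
    rw [e1] at h1
    revert h1 h2 e
    generalize M.κ c = a1, M.τ c = a2, M.κ c' = a3, M.τ c' = a4, M.τ (h' k) = a5,
      M.τ (h (k + 1)) = a6, M.τ (h' (k + 1)) = a7
    revert a1 a2 a3 a4 a5 a6 a7
    decide
  have e1 := step 0 e0
  have e2 := step 1 e1
  have e3 := step 2 e2
  have e4 := step 3 e3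
  have e5 := step 4 e4
  fin_cases k
  exacts [e0, e1, e2, e3, e4, e5]

theorem clique_sub (c : M.T) (S : M.T → Prop) (h1 : ∀ x, S x → M.L c x)
    (h2 : ∀ x y, S x → S y → x ≠ y → M.L x y) :
    ∃ a b, M.L c a ∧ M.L c b ∧ M.L a b ∧ ∀ x, S x → x = a ∨ x = b := by
  classical
  obtain ⟨h, hh⟩ := M.hex c
  have key : ∀ P : Fin 6 → Bool, (∀ k l, P k → P l → k ≠ l → hadj k l) →
      ∃ k, ∀ l, P l → l = k ∨ l = k + 1 := by decide
  obtain ⟨k, hk⟩ := key (fun k => decide (S (h k))) (fun k l hk hl hkl =>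
    (hh.adj k l).mp (h2 _ _ (by simpa using hk) (by simpa using hl) (hh.inj.ne hkl)))
  refine ⟨h k, h (k + 1), (hh.mem _).mpr ⟨_, rfl⟩, (hh.mem _).mpr ⟨_, rfl⟩,
    (hh.adj _ _).mpr (Or.inl rfl), fun x hx => ?_⟩
  obtain ⟨l, rfl⟩ := (hh.mem x).mp (h1 x hx)
  rcases hk l (by simpa using hx) with rfl | rfl <;> simp

end Mod

/-! ### charts -/

section
variable (M : Mod) {U : Type} (A : U → U → Prop) (ty : U → Bool)

structure Chart (v : U) (φ : U → M.T) : Prop where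
  kap : ∀ {w}, A v w → M.κ (φ w) = ty v
  tau : ∀ {w}, A v w → M.τ (φ w) = ty w
  adj : ∀ {w w'}, A v w → A v w' → (A w w' ↔ M.L (φ w) (φ w'))
  inj : ∀ {w w'}, A v w → A v w' → φ w = φ w' → w = w'

structure Full (v : U) (φ : U → M.T) : Prop extends Chart M A ty v φ where
  surj : ∀ x, M.κ x = ty v → ∃ w, A v w ∧ φ w = x

variable {M A ty}

theorem Full.nb {v w : U} {φ : U → M.T} (h : Full M A ty v φ) (hw : A v w) {x : M.T}
    (hx : M.L (φ w) x) : ∃ y, A v y ∧ A w y ∧ φ y = x := by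
  obtain ⟨y, hy, rfl⟩ := h.surj x ((M.kap hx).symm.trans (h.kap hw))
  exact ⟨y, hy, (h.adj hw hy).mpr hx, rfl⟩

theorem wheel (hs : ∀ {x y}, A x y → A y x) (hi : ∀ x, ¬ A x x) {z a b c : U} {ψ : U → M.T}
    (hψ : Full M A ty a ψ) (za : A z a) (zb : A z b) (zc : A z c) (ab : A a b) (ac : A a c)
    (bc : A b c) {a' b' c' : M.T} (ab' : M.L a' b') (ac' : M.L a' c') (bc' : M.L b' c')
    (k1 : M.κ a' = ty z) (t1 : M.τ a' = ty a) (t2 : M.τ b' = ty b) :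
    ∃ f : U → M.T, f a = a' ∧ f b = b' ∧ f c = c' ∧
      (∀ y, A z y → (y = a ∨ A a y) → M.κ (f y) = ty z ∧ M.τ (f y) = ty y) ∧
      (∀ y y', A z y → (y = a ∨ A a y) → A z y' → (y' = a ∨ A a y') →
        (A y y' ↔ M.L (f y) (f y')) ∧ (f y = f y' → y = y')) ∧
      ∀ x, M.L a' x → ∃ y, A z y ∧ A a y ∧ f y = x := by
  classical
  have az := hs za
  obtain ⟨h, hh, h0, h1⟩ := M.hex_start ((hψ.adj az ab).mp zb) ((hψ.adj az ac).mp zc)
    ((hψ.adj ab ac).mp bc)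
  obtain ⟨h', hh', h0', h1'⟩ := M.hex_start ab' ac' bc'
  let f : U → M.T := fun y => if y = a then a' else h' (Function.invFun h (ψ y))
  have fa : f a = a' := if_pos rfl
  have hf : ∀ y k, A a y → ψ y = h k → f y = h' k := by
    intro y k hy e
    have : y ≠ a := by rintro rfl; exact hi _ hy
    simp only [f, if_neg this, e, Function.leftInverse_invFun hh.inj k]
  have hk : ∀ y, A z y → A a y → ∃ k, ψ y = h k ∧ f y = h' k := by
    intro y h1 h2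
    obtain ⟨k, e⟩ := (hh.mem _).mp ((hψ.adj az h2).mp h1)
    exact ⟨k, e.symm, hf y k h2 e.symm⟩
  have hL : ∀ k, M.L a' (h' k) := fun k => (hh'.mem _).mpr ⟨k, rfl⟩
  have hne : ∀ k, a' ≠ h' k := fun k e => M.irrefl a' (by simpa [← e] using hL k)
  refine ⟨f, fa, (hf b 0 ab h0.symm).trans h0', (hf c 1 ac h1.symm).trans h1', ?_, ?_, ?_⟩
  · rintro y h2 (rfl | h3)
    · rw [fa]
      exact ⟨k1, t1⟩
    · obtain ⟨k, e1, e2⟩ := hk y h2 h3
      rw [e2, ← M.kap (hL k), ← hψ.tau h3, e1]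
      refine ⟨k1, (M.hex_type hh hh' ?_ ?_ k).symm⟩
      · rw [hψ.kap az, hψ.tau az, k1, t1, Bool.or_comm]
      · rw [h0, h0', t2, hψ.tau ab]
  · rintro y y' h2 (rfl | h3) h2' (rfl | h3')
    · exact ⟨iff_of_false (hi _) (M.irrefl _), fun _ => rfl⟩
    · obtain ⟨k, e1, e2⟩ := hk y' h2' h3'
      rw [fa, e2]
      exact ⟨iff_of_true h3' (hL k), fun e => absurd e (hne k)⟩
    · obtain ⟨k, e1, e2⟩ := hk y h2 h3
      rw [fa, e2]
      exact ⟨iff_of_true (hs h3) (M.symm (hL k)), fun e => absurd e.symm (hne k)⟩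
    · obtain ⟨k, e1, e2⟩ := hk y h2 h3
      obtain ⟨k', e1', e2'⟩ := hk y' h2' h3'
      rw [e2, e2', hψ.adj h3 h3', e1, e1', hh.adj, hh'.adj]
      refine ⟨Iff.rfl, fun e => hψ.inj h3 h3' ?_⟩
      rw [e1, e1', hh'.inj e]
  · intro x hx
    obtain ⟨k, rfl⟩ := (hh'.mem x).mp hx
    obtain ⟨y, h2, h3, e⟩ := hψ.nb az ((hh.mem _).mpr ⟨k, rfl⟩)
    exact ⟨y, h3, h2, hf y k h2 e⟩

theorem new_chart (hs : ∀ {x y}, A x y → A y x) (hi : ∀ x, ¬ A x x) {z : U} (C : U → Prop)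
    (hC : ∀ v, C v → A z v) (hne : ∃ v, C v) (hcl : ∀ v w, C v → C w → v ≠ w → A v w)
    (hfull : ∀ v, C v → ∃ ψ, Full M A ty v ψ)
    (hnb : ∀ y, A z y → ∃ v, C v ∧ (y = v ∨ A v y))
    (htri : ∀ y y', A z y → A z y' → A y y' → ∃ v, C v ∧ (y = v ∨ A v y) ∧ (y' = v ∨ A v y')) :
    ∃ φ, Chart M A ty z φ ∧ ∀ p x, C p → M.L (φ p) x → ∃ w, A z w ∧ φ w = x := by
  classical
  obtain ⟨v0, hv0⟩ := hne
  obtain ⟨ψ0, hψ0⟩ := hfull v0 hv0
  have v0z := hs (hC v0 hv0)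
  obtain ⟨x1, x2, l1, l2, l12, hsub⟩ := M.clique_sub (ψ0 z) (fun x => ∃ v, C v ∧ v ≠ v0 ∧ ψ0 v = x)
    (by
      rintro _ ⟨v, hv, hn, rfl⟩
      exact (hψ0.adj v0z (hcl _ _ hv0 hv hn.symm)).mp (hC v hv))
    (by
      rintro _ _ ⟨v, hv, hn, rfl⟩ ⟨w, hw, hn', rfl⟩ hvw
      exact (hψ0.adj (hcl _ _ hv0 hv hn.symm) (hcl _ _ hv0 hw hn'.symm)).mp
        (hcl _ _ hv hw (fun e => hvw (by rw [e]))))
  obtain ⟨a1, h01, z1, rfl⟩ := hψ0.nb v0z l1
  obtain ⟨a2, h02, z2, rfl⟩ := hψ0.nb v0z l2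
  have h12 : A a1 a2 := (hψ0.adj h01 h02).mpr l12
  have hone : One4 (ty z) (ty v0) (ty a1) (ty a2) := by
    have := M.one l1 l12 l2
    rw [hψ0.kap v0z, hψ0.tau v0z, hψ0.tau h01, hψ0.tau h02] at this
    unfold One4 at this ⊢
    omega
  obtain ⟨c0, c1, c2, m01, m12, m02, k0, t0, t1, t2⟩ := M.real _ _ _ _ hone
  let a : Fin 3 → U := ![v0, a1, a2]
  let c : Fin 3 → M.T := ![c0, c1, c2]
  have ha : ∀ i j, i ≠ j → A (a i) (a j) := by
    intro i j hij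
    fin_cases i <;> fin_cases j <;>
      first | exact absurd rfl hij | assumption | (apply hs; assumption)
  have hc : ∀ i j, i ≠ j → M.L (c i) (c j) := by
    intro i j hij
    fin_cases i <;> fin_cases j <;>
      first | exact absurd rfl hij | assumption | (apply M.symm; assumption)
  have hza : ∀ i, A z (a i) := by
    intro i
    fin_cases i
    exacts [hs v0z, z1, z2]
  have hkc : ∀ i, M.κ (c i) = ty z := by
    intro i
    fin_cases i
    exacts [k0, (M.kap m01).symm.trans k0, (M.kap m02).symm.trans k0]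
  have htc : ∀ i, M.τ (c i) = ty (a i) := by
    intro i
    fin_cases i
    exacts [t0, t1, t2]
  have hCa : ∀ v, C v → ∃ i, v = a i := by
    intro v hv
    by_cases e : v = v0
    · exact ⟨0, e⟩
    · have h0v := hcl _ _ hv0 hv (Ne.symm e)
      rcases hsub _ ⟨v, hv, e, rfl⟩ with e2 | e2
      · exact ⟨1, hψ0.inj h0v h01 e2⟩
      · exact ⟨2, hψ0.inj h0v h02 e2⟩
  have hW : ∀ i, C (a i) → ∃ f : U → M.T, (∀ j, f (a j) = c j) ∧
      (∀ y, A z y → (y = a i ∨ A (a i) y) → M.κ (f y) = ty z ∧ M.τ (f y) = ty y) ∧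
      (∀ y y', A z y → (y = a i ∨ A (a i) y) → A z y' → (y' = a i ∨ A (a i) y') →
        (A y y' ↔ M.L (f y) (f y')) ∧ (f y = f y' → y = y')) ∧
      ∀ x, M.L (c i) x → ∃ y, A z y ∧ A (a i) y ∧ f y = x := by
    intro i hi'
    obtain ⟨ψ, hψ⟩ := hfull _ hi'
    have n1 : ∀ i : Fin 3, i ≠ i + 1 ∧ i ≠ i + 2 ∧ i + 1 ≠ i + 2 ∧
      ∀ j, j = i ∨ j = i + 1 ∨ j = i + 2 := by decide
    obtain ⟨n1, n2, n3, n4⟩ := n1 i
    obtain ⟨f, e0, e1, e2, hf⟩ := wheel (ty := ty) (A := A) hs hi hψ (hza i) (hza (i + 1)) (hza (i + 2)) (ha _ _ n1)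
      (ha _ _ n2) (ha _ _ n3) (hc _ _ n1) (hc _ _ n2) (hc _ _ n3) (hkc i) (htc i) (htc (i + 1))
    refine ⟨f, fun j => ?_, hf⟩
    rcases n4 j with rfl | rfl | rfl
    exacts [e0, e1, e2]
  choose f hf1 hf2 hf3 hf4 using hW
  have hain : ∀ i j, a j = a i ∨ A (a i) (a j) := fun i j => by
    by_cases e : i = j
    · exact Or.inl (by rw [e])
    · exact Or.inr (ha _ _ e)
  have compat : ∀ i j (hi' : C (a i)) (hj : C (a j)) y, A z y → (y = a i ∨ A (a i) y) →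
      (y = a j ∨ A (a j) y) → f i hi' y = f j hj y := by
    intro i j hi' hj y hy h1 h2
    by_cases hij : i = j
    · subst hij; rfl
    by_cases hm : ∃ m, y = a m
    · obtain ⟨m, rfl⟩ := hm
      rw [hf1, hf1]
    have h1' := h1.resolve_left (fun e => hm ⟨i, e⟩)
    have h2' := h2.resolve_left (fun e => hm ⟨j, e⟩)
    obtain ⟨m, hmi, hmj⟩ : ∃ m : Fin 3, i ≠ m ∧ j ≠ m := by
      clear hi' hj h1 h2 h1' h2'
      revert i j; decide
    have p1 := ((hf3 i hi' _ _ (hza i) (hain i i) hy h1).1.mp h1')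
    have p2 := ((hf3 i hi' _ _ (hza j) (hain i j) hy h1).1.mp h2')
    have p3 := ((hf3 j hj _ _ (hza i) (hain j i) hy h2).1.mp h1')
    have p4 := ((hf3 j hj _ _ (hza j) (hain j j) hy h2).1.mp h2')
    rw [hf1] at p1 p2 p3 p4
    rcases M.two (hc _ _ hij) p1 p3 (hc _ _ hmi) p2 p4 (hc _ _ hmj) with e | e | e
    · exact e
    · exact absurd ⟨m, (hf3 i hi' _ _ hy h1 (hza m) (hain i m)).2 (by rw [hf1, e])⟩ hm
    · exact absurd ⟨m, (hf3 j hj _ _ hy h2 (hza m) (hain j m)).2 (by rw [hf1, e])⟩ hm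
  have hex : ∀ y, A z y → ∃ i, ∃ _ : C (a i), y = a i ∨ A (a i) y := by
    intro y hy
    obtain ⟨v, hv, h1⟩ := hnb y hy
    obtain ⟨i, rfl⟩ := hCa v hv
    exact ⟨i, hv, h1⟩
  let φ : U → M.T := fun y =>
    if h : ∃ i, ∃ _ : C (a i), y = a i ∨ A (a i) y then f h.choose h.choose_spec.choose y else c0
  have hφ : ∀ i (hi' : C (a i)) y, A z y → (y = a i ∨ A (a i) y) → φ y = f i hi' y := by
    intro i hi' y hy h1
    have h : ∃ i, ∃ _ : C (a i), y = a i ∨ A (a i) y := ⟨i, hi', h1⟩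
    simp only [φ, dif_pos h]
    exact compat _ _ _ _ y hy h.choose_spec.choose_spec h1
  have back : ∀ i (_ : C (a i)) y, A z y → (φ y = c i ∨ M.L (c i) (φ y)) →
      (y = a i ∨ A (a i) y) := by
    intro i hi' y hy h1
    obtain ⟨j, hj, h2⟩ := hex y hy
    rw [hφ j hj y hy h2, ← hf1 j hj i] at h1
    rcases h1 with h1 | h1
    · exact Or.inl ((hf3 j hj _ _ hy h2 (hza i) (hain j i)).2 h1)
    · exact Or.inr ((hf3 j hj _ _ (hza i) (hain j i) hy h2).1.mpr h1)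
  have forth : ∀ i (_ : C (a i)) y, A z y → (y = a i ∨ A (a i) y) →
      (φ y = c i ∨ M.L (c i) (φ y)) := by
    intro i hi' y hy h1
    rw [hφ i hi' y hy h1, ← hf1 i hi' i]
    rcases h1 with rfl | h1
    · exact Or.inl rfl
    · exact Or.inr ((hf3 i hi' _ _ (hza i) (hain i i) hy (Or.inr h1)).1.mp h1)
  refine ⟨φ, ⟨fun {w} hw => ?_, fun {w} hw => ?_, fun {w w'} hw hw' => ?_,
    fun {w w'} hw hw' e => ?_⟩, ?_⟩
  · obtain ⟨i, hi', h1⟩ := hex w hw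
    rw [hφ i hi' w hw h1]
    exact (hf2 i hi' w hw h1).1
  · obtain ⟨i, hi', h1⟩ := hex w hw
    rw [hφ i hi' w hw h1]
    exact (hf2 i hi' w hw h1).2
  · have fin : ∀ i (_ : C (a i)), (w = a i ∨ A (a i) w) → (w' = a i ∨ A (a i) w') →
        (A w w' ↔ M.L (φ w) (φ w')) := by
      intro i hi' h1 h2
      rw [hφ i hi' w hw h1, hφ i hi' w' hw' h2]
      exact (hf3 i hi' _ _ hw h1 hw' h2).1
    constructor
    · intro e
      obtain ⟨v, hv, h1, h2⟩ := htri w w' hw hw' e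
      obtain ⟨i, rfl⟩ := hCa v hv
      exact (fin i hv h1 h2).mp e
    · intro e
      obtain ⟨i, hi', h1⟩ := hex w hw
      obtain ⟨j, hj, h2⟩ := hex w' hw'
      by_cases hij : i = j
      · subst hij
        exact (fin i hi' h1 h2).mpr e
      rcases forth i hi' w hw h1 with h3 | h3
      · exact (fin i hi' h1 (back i hi' w' hw' (Or.inr (h3 ▸ e)))).mpr e
      rcases forth j hj w' hw' h2 with h4 | h4
      · exact (fin j hj (back j hj w hw (Or.inr (h4 ▸ M.symm e))) h2).mpr e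
      by_cases h5 : c i = φ w'
      · exact (fin i hi' h1 (back i hi' w' hw' (Or.inl h5.symm))).mpr e
      by_cases h6 : c j = φ w
      · exact (fin j hj (back j hj w hw (Or.inl h6.symm)) h2).mpr e
      rcases M.c4 (hc _ _ hij) h4 (M.symm e) (M.symm h3) h5 h6 with h7 | h7
      · exact (fin i hi' h1 (back i hi' w' hw' (Or.inr h7))).mpr e
      · exact (fin j hj (back j hj w hw (Or.inr h7)) h2).mpr e
  · obtain ⟨i, hi', h1⟩ := hex w hw
    have h2 := back i hi' w' hw' (e ▸ forth i hi' w hw h1)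
    rw [hφ i hi' w hw h1, hφ i hi' w' hw' h2] at e
    exact (hf3 i hi' _ _ hw h1 hw' h2).2 e
  · intro p x hp hx
    obtain ⟨i, rfl⟩ := hCa p hp
    rw [hφ i hp _ (hza i) (Or.inl rfl), hf1] at hx
    obtain ⟨y, h1, h2, h3⟩ := hf4 i hp x hx
    exact ⟨y, h1, (hφ i hp y h1 (Or.inr h2)).trans h3⟩

end

end Pool.Agent.MP_6b3afb_co
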