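import Pool.Agent.MP_6b3afb_co.Upper
import Pool.Agent.MP_6b3afb_co.T92160C0
import Pool.Agent.MP_6b3afb_co.T92160C1
import Pool.Agent.MP_6b3afb_co.T92160C2
import Pool.Agent.MP_6b3afb_co.T92160C3
import Pool.Agent.MP_6b3afb_co.T92160C4
import Pool.Agent.MP_6b3afb_co.T92160C5
import Pool.Agent.MP_6b3afb_co.T92160C6
import Pool.Agent.MP_6b3afb_co.T92160C7
import Pool.Agent.MP_6b3afb_co.T92160C8
import Pool.Agent.MP_6b3afb_co.T92160C9
import Pool.Agent.MP_6b3afb_co.T92160C10
import Pool.Agent.MP_6b3afb_co.T92160C11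

set_option maxRecDepth 100000

namespace Pool.Agent.MP_6b3afb_co.T92160

noncomputable def tr : Tr := (.node (.node (.node (.node (.node (.node (.node (.node (.node (.node (.node (.leaf c0) (.leaf c1024)) (.leaf c512)) (.node (.node (.leaf c256) (.leaf c1280)) (.leaf c768))) (.node (.node (.node (.leaf c128) (.leaf c1152)) (.leaf c640)) (.node (.node (.leaf c384) (.leaf c1408)) (.leaf c896)))) (.node (.node (.node (.node (.leaf c64) (.leaf c1088)) (.leaf c576)) (.node (.node (.leaf c320) (.leaf c1344)) (.leaf c832))) (.node (.node (.node (.leaf c192) (.leaf c1216)) (.leaf c704)) (.node (.leaf c448) (.leaf c960))))) (.node (.node (.node (.node (.node (.leaf c32) (.leaf c1056)) (.leaf c544)) (.node (.node (.leaf c288) (.leaf c1312)) (.leaf c800))) (.node (.node (.node (.leaf c160) (.leaf c1184)) (.leaf c672)) (.node (.leaf c416) (.leaf c928)))) (.node (.node (.node (.node (.leaf c96) (.leaf c1120)) (.leaf c608)) (.node (.node (.leaf c352) (.leaf c1376)) (.leaf c864))) (.node (.node (.node (.leaf c224) (.leaf c1248))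 (.leaf c736)) (.node (.leaf c480) (.leaf c992)))))) (.node (.node (.node (.node (.node (.node (.leaf c16) (.leaf c1040)) (.leaf c528)) (.node (.node (.leaf c272) (.leaf c1296)) (.leaf c784))) (.node (.node (.node (.leaf c144) (.leaf c1168)) (.leaf c656)) (.node (.node (.leaf c400) (.leaf c1424)) (.leaf c912)))) (.node (.node (.node (.node (.leaf c80) (.leaf c1104)) (.leaf c592)) (.node (.node (.leaf c336) (.leaf c1360)) (.leaf c848))) (.node (.node (.node (.leaf c208) (.leaf c1232)) (.leaf c720)) (.node (.leaf c464) (.leaf c976))))) (.node (.node (.node (.node (.node (.leaf c48) (.leaf c1072)) (.leaf c560)) (.node (.node (.leaf c304) (.leaf c1328)) (.leaf c816))) (.node (.node (.node (.leaf c176) (.leaf c1200)) (.leaf c688)) (.node (.leaf c432) (.leaf c944)))) (.node (.node (.node (.node (.leaf c112) (.leaf c1136)) (.leaf c624)) (.node (.node (.leaf c368) (.leaf c1392)) (.leaf c880))) (.node (.node (.node (.leaf c240) (.leaf c1264)) (.leaf c752)) (.node (.leaf c496) (.leaf c1008))))))) (.node (.node (.node (.node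 (.node (.node (.node (.leaf c8) (.leaf c1032)) (.leaf c520)) (.node (.node (.leaf c264) (.leaf c1288)) (.leaf c776))) (.node (.node (.node (.leaf c136) (.leaf c1160)) (.leaf c648)) (.node (.node (.leaf c392) (.leaf c1416)) (.leaf c904)))) (.node (.node (.node (.node (.leaf c72) (.leaf c1096)) (.leaf c584)) (.node (.node (.leaf c328) (.leaf c1352)) (.leaf c840))) (.node (.node (.node (.leaf c200) (.leaf c1224)) (.leaf c712)) (.node (.leaf c456) (.leaf c968))))) (.node (.node (.node (.node (.node (.leaf c40) (.leaf c1064)) (.leaf c552)) (.node (.node (.leaf c296) (.leaf c1320)) (.leaf c808))) (.node (.node (.node (.leaf c168) (.leaf c1192)) (.leaf c680)) (.node (.leaf c424) (.leaf c936)))) (.node (.node (.node (.node (.leaf c104) (.leaf c1128)) (.leaf c616)) (.node (.node (.leaf c360) (.leaf c1384)) (.leaf c872))) (.node (.node (.node (.leaf c232) (.leaf c1256)) (.leaf c744)) (.node (.leaf c488) (.leaf c1000)))))) (.node (.node (.node (.node (.node (.node (.leaf c24) (.leaf c1048)) (.leaf c536)) (.node (.node (.leaf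 c280) (.leaf c1304)) (.leaf c792))) (.node (.node (.node (.leaf c152) (.leaf c1176)) (.leaf c664)) (.node (.node (.leaf c408) (.leaf c1432)) (.leaf c920)))) (.node (.node (.node (.node (.leaf c88) (.leaf c1112)) (.leaf c600)) (.node (.node (.leaf c344) (.leaf c1368)) (.leaf c856))) (.node (.node (.node (.leaf c216) (.leaf c1240)) (.leaf c728)) (.node (.leaf c472) (.leaf c984))))) (.node (.node (.node (.node (.node (.leaf c56) (.leaf c1080)) (.leaf c568)) (.node (.node (.leaf c312) (.leaf c1336)) (.leaf c824))) (.node (.node (.node (.leaf c184) (.leaf c1208)) (.leaf c696)) (.node (.leaf c440) (.leaf c952)))) (.node (.node (.node (.node (.leaf c120) (.leaf c1144)) (.leaf c632)) (.node (.node (.leaf c376) (.leaf c1400)) (.leaf c888))) (.node (.node (.node (.leaf c248) (.leaf c1272)) (.leaf c760)) (.node (.leaf c504) (.leaf c1016)))))))) (.node (.node (.node (.node (.node (.node (.node (.node (.leaf c4) (.leaf c1028)) (.leaf c516)) (.node (.node (.leaf c260) (.leaf c1284)) (.leaf c772))) (.node (.node (.node (.leaf c132)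 (.leaf c1156)) (.leaf c644)) (.node (.node (.leaf c388) (.leaf c1412)) (.leaf c900)))) (.node (.node (.node (.node (.leaf c68) (.leaf c1092)) (.leaf c580)) (.node (.node (.leaf c324) (.leaf c1348)) (.leaf c836))) (.node (.node (.node (.leaf c196) (.leaf c1220)) (.leaf c708)) (.node (.leaf c452) (.leaf c964))))) (.node (.node (.node (.node (.node (.leaf c36) (.leaf c1060)) (.leaf c548)) (.node (.node (.leaf c292) (.leaf c1316)) (.leaf c804))) (.node (.node (.node (.leaf c164) (.leaf c1188)) (.leaf c676)) (.node (.leaf c420) (.leaf c932)))) (.node (.node (.node (.node (.leaf c100) (.leaf c1124)) (.leaf c612)) (.node (.node (.leaf c356) (.leaf c1380)) (.leaf c868))) (.node (.node (.node (.leaf c228) (.leaf c1252)) (.leaf c740)) (.node (.leaf c484) (.leaf c996)))))) (.node (.node (.node (.node (.node (.node (.leaf c20) (.leaf c1044)) (.leaf c532)) (.node (.node (.leaf c276) (.leaf c1300)) (.leaf c788))) (.node (.node (.node (.leaf c148) (.leaf c1172)) (.leaf c660)) (.node (.node (.leaf c404) (.leaf c1428)) (.leaf c916))))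 (.node (.node (.node (.node (.leaf c84) (.leaf c1108)) (.leaf c596)) (.node (.node (.leaf c340) (.leaf c1364)) (.leaf c852))) (.node (.node (.node (.leaf c212) (.leaf c1236)) (.leaf c724)) (.node (.leaf c468) (.leaf c980))))) (.node (.node (.node (.node (.node (.leaf c52) (.leaf c1076)) (.leaf c564)) (.node (.node (.leaf c308) (.leaf c1332)) (.leaf c820))) (.node (.node (.node (.leaf c180) (.leaf c1204)) (.leaf c692)) (.node (.leaf c436) (.leaf c948)))) (.node (.node (.node (.node (.leaf c116) (.leaf c1140)) (.leaf c628)) (.node (.node (.leaf c372) (.leaf c1396)) (.leaf c884))) (.node (.node (.node (.leaf c244) (.leaf c1268)) (.leaf c756)) (.node (.leaf c500) (.leaf c1012))))))) (.node (.node (.node (.node (.node (.node (.node (.leaf c12) (.leaf c1036)) (.leaf c524)) (.node (.node (.leaf c268) (.leaf c1292)) (.leaf c780))) (.node (.node (.node (.leaf c140) (.leaf c1164)) (.leaf c652)) (.node (.node (.leaf c396) (.leaf c1420)) (.leaf c908)))) (.node (.node (.node (.node (.leaf c76) (.leaf c1100)) (.leaf c588)) (.node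 (.node (.leaf c332) (.leaf c1356)) (.leaf c844))) (.node (.node (.node (.leaf c204) (.leaf c1228)) (.leaf c716)) (.node (.leaf c460) (.leaf c972))))) (.node (.node (.node (.node (.node (.leaf c44) (.leaf c1068)) (.leaf c556)) (.node (.node (.leaf c300) (.leaf c1324)) (.leaf c812))) (.node (.node (.node (.leaf c172) (.leaf c1196)) (.leaf c684)) (.node (.leaf c428) (.leaf c940)))) (.node (.node (.node (.node (.leaf c108) (.leaf c1132)) (.leaf c620)) (.node (.node (.leaf c364) (.leaf c1388)) (.leaf c876))) (.node (.node (.node (.leaf c236) (.leaf c1260)) (.leaf c748)) (.node (.leaf c492) (.leaf c1004)))))) (.node (.node (.node (.node (.node (.node (.leaf c28) (.leaf c1052)) (.leaf c540)) (.node (.node (.leaf c284) (.leaf c1308)) (.leaf c796))) (.node (.node (.node (.leaf c156) (.leaf c1180)) (.leaf c668)) (.node (.node (.leaf c412) (.leaf c1436)) (.leaf c924)))) (.node (.node (.node (.node (.leaf c92) (.leaf c1116)) (.leaf c604)) (.node (.node (.leaf c348) (.leaf c1372)) (.leaf c860))) (.node (.node (.node (.leaf c220)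 (.leaf c1244)) (.leaf c732)) (.node (.leaf c476) (.leaf c988))))) (.node (.node (.node (.node (.node (.leaf c60) (.leaf c1084)) (.leaf c572)) (.node (.node (.leaf c316) (.leaf c1340)) (.leaf c828))) (.node (.node (.node (.leaf c188) (.leaf c1212)) (.leaf c700)) (.node (.leaf c444) (.leaf c956)))) (.node (.node (.node (.node (.leaf c124) (.leaf c1148)) (.leaf c636)) (.node (.node (.leaf c380) (.leaf c1404)) (.leaf c892))) (.node (.node (.node (.leaf c252) (.leaf c1276)) (.leaf c764)) (.node (.leaf c508) (.leaf c1020))))))))) (.node (.node (.node (.node (.node (.node (.node (.node (.node (.leaf c2) (.leaf c1026)) (.leaf c514)) (.node (.node (.leaf c258) (.leaf c1282)) (.leaf c770))) (.node (.node (.node (.leaf c130) (.leaf c1154)) (.leaf c642)) (.node (.node (.leaf c386) (.leaf c1410)) (.leaf c898)))) (.node (.node (.node (.node (.leaf c66) (.leaf c1090)) (.leaf c578)) (.node (.node (.leaf c322) (.leaf c1346)) (.leaf c834))) (.node (.node (.node (.leaf c194) (.leaf c1218)) (.leaf c706)) (.node (.leaf c450) (.leaf c962)))))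 (.node (.node (.node (.node (.node (.leaf c34) (.leaf c1058)) (.leaf c546)) (.node (.node (.leaf c290) (.leaf c1314)) (.leaf c802))) (.node (.node (.node (.leaf c162) (.leaf c1186)) (.leaf c674)) (.node (.leaf c418) (.leaf c930)))) (.node (.node (.node (.node (.leaf c98) (.leaf c1122)) (.leaf c610)) (.node (.node (.leaf c354) (.leaf c1378)) (.leaf c866))) (.node (.node (.node (.leaf c226) (.leaf c1250)) (.leaf c738)) (.node (.leaf c482) (.leaf c994)))))) (.node (.node (.node (.node (.node (.node (.leaf c18) (.leaf c1042)) (.leaf c530)) (.node (.node (.leaf c274) (.leaf c1298)) (.leaf c786))) (.node (.node (.node (.leaf c146) (.leaf c1170)) (.leaf c658)) (.node (.node (.leaf c402) (.leaf c1426)) (.leaf c914)))) (.node (.node (.node (.node (.leaf c82) (.leaf c1106)) (.leaf c594)) (.node (.node (.leaf c338) (.leaf c1362)) (.leaf c850))) (.node (.node (.node (.leaf c210) (.leaf c1234)) (.leaf c722)) (.node (.leaf c466) (.leaf c978))))) (.node (.node (.node (.node (.node (.leaf c50) (.leaf c1074)) (.leaf c562)) (.node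 (.node (.leaf c306) (.leaf c1330)) (.leaf c818))) (.node (.node (.node (.leaf c178) (.leaf c1202)) (.leaf c690)) (.node (.leaf c434) (.leaf c946)))) (.node (.node (.node (.node (.leaf c114) (.leaf c1138)) (.leaf c626)) (.node (.node (.leaf c370) (.leaf c1394)) (.leaf c882))) (.node (.node (.node (.leaf c242) (.leaf c1266)) (.leaf c754)) (.node (.leaf c498) (.leaf c1010))))))) (.node (.node (.node (.node (.node (.node (.node (.leaf c10) (.leaf c1034)) (.leaf c522)) (.node (.node (.leaf c266) (.leaf c1290)) (.leaf c778))) (.node (.node (.node (.leaf c138) (.leaf c1162)) (.leaf c650)) (.node (.node (.leaf c394) (.leaf c1418)) (.leaf c906)))) (.node (.node (.node (.node (.leaf c74) (.leaf c1098)) (.leaf c586)) (.node (.node (.leaf c330) (.leaf c1354)) (.leaf c842))) (.node (.node (.node (.leaf c202) (.leaf c1226)) (.leaf c714)) (.node (.leaf c458) (.leaf c970))))) (.node (.node (.node (.node (.node (.leaf c42) (.leaf c1066)) (.leaf c554)) (.node (.node (.leaf c298) (.leaf c1322)) (.leaf c810))) (.node (.node (.node (.leaf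 c170) (.leaf c1194)) (.leaf c682)) (.node (.leaf c426) (.leaf c938)))) (.node (.node (.node (.node (.leaf c106) (.leaf c1130)) (.leaf c618)) (.node (.node (.leaf c362) (.leaf c1386)) (.leaf c874))) (.node (.node (.node (.leaf c234) (.leaf c1258)) (.leaf c746)) (.node (.leaf c490) (.leaf c1002)))))) (.node (.node (.node (.node (.node (.node (.leaf c26) (.leaf c1050)) (.leaf c538)) (.node (.node (.leaf c282) (.leaf c1306)) (.leaf c794))) (.node (.node (.node (.leaf c154) (.leaf c1178)) (.leaf c666)) (.node (.node (.leaf c410) (.leaf c1434)) (.leaf c922)))) (.node (.node (.node (.node (.leaf c90) (.leaf c1114)) (.leaf c602)) (.node (.node (.leaf c346) (.leaf c1370)) (.leaf c858))) (.node (.node (.node (.leaf c218) (.leaf c1242)) (.leaf c730)) (.node (.leaf c474) (.leaf c986))))) (.node (.node (.node (.node (.node (.leaf c58) (.leaf c1082)) (.leaf c570)) (.node (.node (.leaf c314) (.leaf c1338)) (.leaf c826))) (.node (.node (.node (.leaf c186) (.leaf c1210)) (.leaf c698)) (.node (.leaf c442) (.leaf c954)))) (.node (.node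 (.node (.node (.leaf c122) (.leaf c1146)) (.leaf c634)) (.node (.node (.leaf c378) (.leaf c1402)) (.leaf c890))) (.node (.node (.node (.leaf c250) (.leaf c1274)) (.leaf c762)) (.node (.leaf c506) (.leaf c1018)))))))) (.node (.node (.node (.node (.node (.node (.node (.node (.leaf c6) (.leaf c1030)) (.leaf c518)) (.node (.node (.leaf c262) (.leaf c1286)) (.leaf c774))) (.node (.node (.node (.leaf c134) (.leaf c1158)) (.leaf c646)) (.node (.node (.leaf c390) (.leaf c1414)) (.leaf c902)))) (.node (.node (.node (.node (.leaf c70) (.leaf c1094)) (.leaf c582)) (.node (.node (.leaf c326) (.leaf c1350)) (.leaf c838))) (.node (.node (.node (.leaf c198) (.leaf c1222)) (.leaf c710)) (.node (.leaf c454) (.leaf c966))))) (.node (.node (.node (.node (.node (.leaf c38) (.leaf c1062)) (.leaf c550)) (.node (.node (.leaf c294) (.leaf c1318)) (.leaf c806))) (.node (.node (.node (.leaf c166) (.leaf c1190)) (.leaf c678)) (.node (.leaf c422) (.leaf c934)))) (.node (.node (.node (.node (.leaf c102) (.leaf c1126)) (.leaf c614)) (.node (.node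 (.leaf c358) (.leaf c1382)) (.leaf c870))) (.node (.node (.node (.leaf c230) (.leaf c1254)) (.leaf c742)) (.node (.leaf c486) (.leaf c998)))))) (.node (.node (.node (.node (.node (.node (.leaf c22) (.leaf c1046)) (.leaf c534)) (.node (.node (.leaf c278) (.leaf c1302)) (.leaf c790))) (.node (.node (.node (.leaf c150) (.leaf c1174)) (.leaf c662)) (.node (.node (.leaf c406) (.leaf c1430)) (.leaf c918)))) (.node (.node (.node (.node (.leaf c86) (.leaf c1110)) (.leaf c598)) (.node (.node (.leaf c342) (.leaf c1366)) (.leaf c854))) (.node (.node (.node (.leaf c214) (.leaf c1238)) (.leaf c726)) (.node (.leaf c470) (.leaf c982))))) (.node (.node (.node (.node (.node (.leaf c54) (.leaf c1078)) (.leaf c566)) (.node (.node (.leaf c310) (.leaf c1334)) (.leaf c822))) (.node (.node (.node (.leaf c182) (.leaf c1206)) (.leaf c694)) (.node (.leaf c438) (.leaf c950)))) (.node (.node (.node (.node (.leaf c118) (.leaf c1142)) (.leaf c630)) (.node (.node (.leaf c374) (.leaf c1398)) (.leaf c886))) (.node (.node (.node (.leaf c246) (.leaf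 c1270)) (.leaf c758)) (.node (.leaf c502) (.leaf c1014))))))) (.node (.node (.node (.node (.node (.node (.node (.leaf c14) (.leaf c1038)) (.leaf c526)) (.node (.node (.leaf c270) (.leaf c1294)) (.leaf c782))) (.node (.node (.node (.leaf c142) (.leaf c1166)) (.leaf c654)) (.node (.node (.leaf c398) (.leaf c1422)) (.leaf c910)))) (.node (.node (.node (.node (.leaf c78) (.leaf c1102)) (.leaf c590)) (.node (.node (.leaf c334) (.leaf c1358)) (.leaf c846))) (.node (.node (.node (.leaf c206) (.leaf c1230)) (.leaf c718)) (.node (.leaf c462) (.leaf c974))))) (.node (.node (.node (.node (.node (.leaf c46) (.leaf c1070)) (.leaf c558)) (.node (.node (.leaf c302) (.leaf c1326)) (.leaf c814))) (.node (.node (.node (.leaf c174) (.leaf c1198)) (.leaf c686)) (.node (.leaf c430) (.leaf c942)))) (.node (.node (.node (.node (.leaf c110) (.leaf c1134)) (.leaf c622)) (.node (.node (.leaf c366) (.leaf c1390)) (.leaf c878))) (.node (.node (.node (.leaf c238) (.leaf c1262)) (.leaf c750)) (.node (.leaf c494) (.leaf c1006)))))) (.node (.node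 (.node (.node (.node (.node (.leaf c30) (.leaf c1054)) (.leaf c542)) (.node (.node (.leaf c286) (.leaf c1310)) (.leaf c798))) (.node (.node (.node (.leaf c158) (.leaf c1182)) (.leaf c670)) (.node (.node (.leaf c414) (.leaf c1438)) (.leaf c926)))) (.node (.node (.node (.node (.leaf c94) (.leaf c1118)) (.leaf c606)) (.node (.node (.leaf c350) (.leaf c1374)) (.leaf c862))) (.node (.node (.node (.leaf c222) (.leaf c1246)) (.leaf c734)) (.node (.leaf c478) (.leaf c990))))) (.node (.node (.node (.node (.node (.leaf c62) (.leaf c1086)) (.leaf c574)) (.node (.node (.leaf c318) (.leaf c1342)) (.leaf c830))) (.node (.node (.node (.leaf c190) (.leaf c1214)) (.leaf c702)) (.node (.leaf c446) (.leaf c958)))) (.node (.node (.node (.node (.leaf c126) (.leaf c1150)) (.leaf c638)) (.node (.node (.leaf c382) (.leaf c1406)) (.leaf c894))) (.node (.node (.node (.leaf c254) (.leaf c1278)) (.leaf c766)) (.node (.leaf c510) (.leaf c1022)))))))))) (.node (.node (.node (.node (.node (.node (.node (.node (.node (.node (.leaf c1) (.leaf c1025))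 (.leaf c513)) (.node (.node (.leaf c257) (.leaf c1281)) (.leaf c769))) (.node (.node (.node (.leaf c129) (.leaf c1153)) (.leaf c641)) (.node (.node (.leaf c385) (.leaf c1409)) (.leaf c897)))) (.node (.node (.node (.node (.leaf c65) (.leaf c1089)) (.leaf c577)) (.node (.node (.leaf c321) (.leaf c1345)) (.leaf c833))) (.node (.node (.node (.leaf c193) (.leaf c1217)) (.leaf c705)) (.node (.leaf c449) (.leaf c961))))) (.node (.node (.node (.node (.node (.leaf c33) (.leaf c1057)) (.leaf c545)) (.node (.node (.leaf c289) (.leaf c1313)) (.leaf c801))) (.node (.node (.node (.leaf c161) (.leaf c1185)) (.leaf c673)) (.node (.leaf c417) (.leaf c929)))) (.node (.node (.node (.node (.leaf c97) (.leaf c1121)) (.leaf c609)) (.node (.node (.leaf c353) (.leaf c1377)) (.leaf c865))) (.node (.node (.node (.leaf c225) (.leaf c1249)) (.leaf c737)) (.node (.leaf c481) (.leaf c993)))))) (.node (.node (.node (.node (.node (.node (.leaf c17) (.leaf c1041)) (.leaf c529)) (.node (.node (.leaf c273) (.leaf c1297)) (.leaf c785))) (.node (.node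 (.node (.leaf c145) (.leaf c1169)) (.leaf c657)) (.node (.node (.leaf c401) (.leaf c1425)) (.leaf c913)))) (.node (.node (.node (.node (.leaf c81) (.leaf c1105)) (.leaf c593)) (.node (.node (.leaf c337) (.leaf c1361)) (.leaf c849))) (.node (.node (.node (.leaf c209) (.leaf c1233)) (.leaf c721)) (.node (.leaf c465) (.leaf c977))))) (.node (.node (.node (.node (.node (.leaf c49) (.leaf c1073)) (.leaf c561)) (.node (.node (.leaf c305) (.leaf c1329)) (.leaf c817))) (.node (.node (.node (.leaf c177) (.leaf c1201)) (.leaf c689)) (.node (.leaf c433) (.leaf c945)))) (.node (.node (.node (.node (.leaf c113) (.leaf c1137)) (.leaf c625)) (.node (.node (.leaf c369) (.leaf c1393)) (.leaf c881))) (.node (.node (.node (.leaf c241) (.leaf c1265)) (.leaf c753)) (.node (.leaf c497) (.leaf c1009))))))) (.node (.node (.node (.node (.node (.node (.node (.leaf c9) (.leaf c1033)) (.leaf c521)) (.node (.node (.leaf c265) (.leaf c1289)) (.leaf c777))) (.node (.node (.node (.leaf c137) (.leaf c1161)) (.leaf c649)) (.node (.node (.leaf c393)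 (.leaf c1417)) (.leaf c905)))) (.node (.node (.node (.node (.leaf c73) (.leaf c1097)) (.leaf c585)) (.node (.node (.leaf c329) (.leaf c1353)) (.leaf c841))) (.node (.node (.node (.leaf c201) (.leaf c1225)) (.leaf c713)) (.node (.leaf c457) (.leaf c969))))) (.node (.node (.node (.node (.node (.leaf c41) (.leaf c1065)) (.leaf c553)) (.node (.node (.leaf c297) (.leaf c1321)) (.leaf c809))) (.node (.node (.node (.leaf c169) (.leaf c1193)) (.leaf c681)) (.node (.leaf c425) (.leaf c937)))) (.node (.node (.node (.node (.leaf c105) (.leaf c1129)) (.leaf c617)) (.node (.node (.leaf c361) (.leaf c1385)) (.leaf c873))) (.node (.node (.node (.leaf c233) (.leaf c1257)) (.leaf c745)) (.node (.leaf c489) (.leaf c1001)))))) (.node (.node (.node (.node (.node (.node (.leaf c25) (.leaf c1049)) (.leaf c537)) (.node (.node (.leaf c281) (.leaf c1305)) (.leaf c793))) (.node (.node (.node (.leaf c153) (.leaf c1177)) (.leaf c665)) (.node (.node (.leaf c409) (.leaf c1433)) (.leaf c921)))) (.node (.node (.node (.node (.leaf c89) (.leaf c1113))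 (.leaf c601)) (.node (.node (.leaf c345) (.leaf c1369)) (.leaf c857))) (.node (.node (.node (.leaf c217) (.leaf c1241)) (.leaf c729)) (.node (.leaf c473) (.leaf c985))))) (.node (.node (.node (.node (.node (.leaf c57) (.leaf c1081)) (.leaf c569)) (.node (.node (.leaf c313) (.leaf c1337)) (.leaf c825))) (.node (.node (.node (.leaf c185) (.leaf c1209)) (.leaf c697)) (.node (.leaf c441) (.leaf c953)))) (.node (.node (.node (.node (.leaf c121) (.leaf c1145)) (.leaf c633)) (.node (.node (.leaf c377) (.leaf c1401)) (.leaf c889))) (.node (.node (.node (.leaf c249) (.leaf c1273)) (.leaf c761)) (.node (.leaf c505) (.leaf c1017)))))))) (.node (.node (.node (.node (.node (.node (.node (.node (.leaf c5) (.leaf c1029)) (.leaf c517)) (.node (.node (.leaf c261) (.leaf c1285)) (.leaf c773))) (.node (.node (.node (.leaf c133) (.leaf c1157)) (.leaf c645)) (.node (.node (.leaf c389) (.leaf c1413)) (.leaf c901)))) (.node (.node (.node (.node (.leaf c69) (.leaf c1093)) (.leaf c581)) (.node (.node (.leaf c325) (.leaf c1349)) (.leaf c837)))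 (.node (.node (.node (.leaf c197) (.leaf c1221)) (.leaf c709)) (.node (.leaf c453) (.leaf c965))))) (.node (.node (.node (.node (.node (.leaf c37) (.leaf c1061)) (.leaf c549)) (.node (.node (.leaf c293) (.leaf c1317)) (.leaf c805))) (.node (.node (.node (.leaf c165) (.leaf c1189)) (.leaf c677)) (.node (.leaf c421) (.leaf c933)))) (.node (.node (.node (.node (.leaf c101) (.leaf c1125)) (.leaf c613)) (.node (.node (.leaf c357) (.leaf c1381)) (.leaf c869))) (.node (.node (.node (.leaf c229) (.leaf c1253)) (.leaf c741)) (.node (.leaf c485) (.leaf c997)))))) (.node (.node (.node (.node (.node (.node (.leaf c21) (.leaf c1045)) (.leaf c533)) (.node (.node (.leaf c277) (.leaf c1301)) (.leaf c789))) (.node (.node (.node (.leaf c149) (.leaf c1173)) (.leaf c661)) (.node (.node (.leaf c405) (.leaf c1429)) (.leaf c917)))) (.node (.node (.node (.node (.leaf c85) (.leaf c1109)) (.leaf c597)) (.node (.node (.leaf c341) (.leaf c1365)) (.leaf c853))) (.node (.node (.node (.leaf c213) (.leaf c1237)) (.leaf c725)) (.node (.leaf c469)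 (.leaf c981))))) (.node (.node (.node (.node (.node (.leaf c53) (.leaf c1077)) (.leaf c565)) (.node (.node (.leaf c309) (.leaf c1333)) (.leaf c821))) (.node (.node (.node (.leaf c181) (.leaf c1205)) (.leaf c693)) (.node (.leaf c437) (.leaf c949)))) (.node (.node (.node (.node (.leaf c117) (.leaf c1141)) (.leaf c629)) (.node (.node (.leaf c373) (.leaf c1397)) (.leaf c885))) (.node (.node (.node (.leaf c245) (.leaf c1269)) (.leaf c757)) (.node (.leaf c501) (.leaf c1013))))))) (.node (.node (.node (.node (.node (.node (.node (.leaf c13) (.leaf c1037)) (.leaf c525)) (.node (.node (.leaf c269) (.leaf c1293)) (.leaf c781))) (.node (.node (.node (.leaf c141) (.leaf c1165)) (.leaf c653)) (.node (.node (.leaf c397) (.leaf c1421)) (.leaf c909)))) (.node (.node (.node (.node (.leaf c77) (.leaf c1101)) (.leaf c589)) (.node (.node (.leaf c333) (.leaf c1357)) (.leaf c845))) (.node (.node (.node (.leaf c205) (.leaf c1229)) (.leaf c717)) (.node (.leaf c461) (.leaf c973))))) (.node (.node (.node (.node (.node (.leaf c45) (.leaf c1069))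 (.leaf c557)) (.node (.node (.leaf c301) (.leaf c1325)) (.leaf c813))) (.node (.node (.node (.leaf c173) (.leaf c1197)) (.leaf c685)) (.node (.leaf c429) (.leaf c941)))) (.node (.node (.node (.node (.leaf c109) (.leaf c1133)) (.leaf c621)) (.node (.node (.leaf c365) (.leaf c1389)) (.leaf c877))) (.node (.node (.node (.leaf c237) (.leaf c1261)) (.leaf c749)) (.node (.leaf c493) (.leaf c1005)))))) (.node (.node (.node (.node (.node (.node (.leaf c29) (.leaf c1053)) (.leaf c541)) (.node (.node (.leaf c285) (.leaf c1309)) (.leaf c797))) (.node (.node (.node (.leaf c157) (.leaf c1181)) (.leaf c669)) (.node (.node (.leaf c413) (.leaf c1437)) (.leaf c925)))) (.node (.node (.node (.node (.leaf c93) (.leaf c1117)) (.leaf c605)) (.node (.node (.leaf c349) (.leaf c1373)) (.leaf c861))) (.node (.node (.node (.leaf c221) (.leaf c1245)) (.leaf c733)) (.node (.leaf c477) (.leaf c989))))) (.node (.node (.node (.node (.node (.leaf c61) (.leaf c1085)) (.leaf c573)) (.node (.node (.leaf c317) (.leaf c1341)) (.leaf c829))) (.node (.node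 (.node (.leaf c189) (.leaf c1213)) (.leaf c701)) (.node (.leaf c445) (.leaf c957)))) (.node (.node (.node (.node (.leaf c125) (.leaf c1149)) (.leaf c637)) (.node (.node (.leaf c381) (.leaf c1405)) (.leaf c893))) (.node (.node (.node (.leaf c253) (.leaf c1277)) (.leaf c765)) (.node (.leaf c509) (.leaf c1021))))))))) (.node (.node (.node (.node (.node (.node (.node (.node (.node (.leaf c3) (.leaf c1027)) (.leaf c515)) (.node (.node (.leaf c259) (.leaf c1283)) (.leaf c771))) (.node (.node (.node (.leaf c131) (.leaf c1155)) (.leaf c643)) (.node (.node (.leaf c387) (.leaf c1411)) (.leaf c899)))) (.node (.node (.node (.node (.leaf c67) (.leaf c1091)) (.leaf c579)) (.node (.node (.leaf c323) (.leaf c1347)) (.leaf c835))) (.node (.node (.node (.leaf c195) (.leaf c1219)) (.leaf c707)) (.node (.leaf c451) (.leaf c963))))) (.node (.node (.node (.node (.node (.leaf c35) (.leaf c1059)) (.leaf c547)) (.node (.node (.leaf c291) (.leaf c1315)) (.leaf c803))) (.node (.node (.node (.leaf c163) (.leaf c1187)) (.leaf c675)) (.node (.leaf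 c419) (.leaf c931)))) (.node (.node (.node (.node (.leaf c99) (.leaf c1123)) (.leaf c611)) (.node (.node (.leaf c355) (.leaf c1379)) (.leaf c867))) (.node (.node (.node (.leaf c227) (.leaf c1251)) (.leaf c739)) (.node (.leaf c483) (.leaf c995)))))) (.node (.node (.node (.node (.node (.node (.leaf c19) (.leaf c1043)) (.leaf c531)) (.node (.node (.leaf c275) (.leaf c1299)) (.leaf c787))) (.node (.node (.node (.leaf c147) (.leaf c1171)) (.leaf c659)) (.node (.node (.leaf c403) (.leaf c1427)) (.leaf c915)))) (.node (.node (.node (.node (.leaf c83) (.leaf c1107)) (.leaf c595)) (.node (.node (.leaf c339) (.leaf c1363)) (.leaf c851))) (.node (.node (.node (.leaf c211) (.leaf c1235)) (.leaf c723)) (.node (.leaf c467) (.leaf c979))))) (.node (.node (.node (.node (.node (.leaf c51) (.leaf c1075)) (.leaf c563)) (.node (.node (.leaf c307) (.leaf c1331)) (.leaf c819))) (.node (.node (.node (.leaf c179) (.leaf c1203)) (.leaf c691)) (.node (.leaf c435) (.leaf c947)))) (.node (.node (.node (.node (.leaf c115) (.leaf c1139)) (.leaf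 c627)) (.node (.node (.leaf c371) (.leaf c1395)) (.leaf c883))) (.node (.node (.node (.leaf c243) (.leaf c1267)) (.leaf c755)) (.node (.leaf c499) (.leaf c1011))))))) (.node (.node (.node (.node (.node (.node (.node (.leaf c11) (.leaf c1035)) (.leaf c523)) (.node (.node (.leaf c267) (.leaf c1291)) (.leaf c779))) (.node (.node (.node (.leaf c139) (.leaf c1163)) (.leaf c651)) (.node (.node (.leaf c395) (.leaf c1419)) (.leaf c907)))) (.node (.node (.node (.node (.leaf c75) (.leaf c1099)) (.leaf c587)) (.node (.node (.leaf c331) (.leaf c1355)) (.leaf c843))) (.node (.node (.node (.leaf c203) (.leaf c1227)) (.leaf c715)) (.node (.leaf c459) (.leaf c971))))) (.node (.node (.node (.node (.node (.leaf c43) (.leaf c1067)) (.leaf c555)) (.node (.node (.leaf c299) (.leaf c1323)) (.leaf c811))) (.node (.node (.node (.leaf c171) (.leaf c1195)) (.leaf c683)) (.node (.leaf c427) (.leaf c939)))) (.node (.node (.node (.node (.leaf c107) (.leaf c1131)) (.leaf c619)) (.node (.node (.leaf c363) (.leaf c1387)) (.leaf c875))) (.node (.node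 (.node (.leaf c235) (.leaf c1259)) (.leaf c747)) (.node (.leaf c491) (.leaf c1003)))))) (.node (.node (.node (.node (.node (.node (.leaf c27) (.leaf c1051)) (.leaf c539)) (.node (.node (.leaf c283) (.leaf c1307)) (.leaf c795))) (.node (.node (.node (.leaf c155) (.leaf c1179)) (.leaf c667)) (.node (.node (.leaf c411) (.leaf c1435)) (.leaf c923)))) (.node (.node (.node (.node (.leaf c91) (.leaf c1115)) (.leaf c603)) (.node (.node (.leaf c347) (.leaf c1371)) (.leaf c859))) (.node (.node (.node (.leaf c219) (.leaf c1243)) (.leaf c731)) (.node (.leaf c475) (.leaf c987))))) (.node (.node (.node (.node (.node (.leaf c59) (.leaf c1083)) (.leaf c571)) (.node (.node (.leaf c315) (.leaf c1339)) (.leaf c827))) (.node (.node (.node (.leaf c187) (.leaf c1211)) (.leaf c699)) (.node (.leaf c443) (.leaf c955)))) (.node (.node (.node (.node (.leaf c123) (.leaf c1147)) (.leaf c635)) (.node (.node (.leaf c379) (.leaf c1403)) (.leaf c891))) (.node (.node (.node (.leaf c251) (.leaf c1275)) (.leaf c763)) (.node (.leaf c507) (.leaf c1019))))))))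 (.node (.node (.node (.node (.node (.node (.node (.node (.leaf c7) (.leaf c1031)) (.leaf c519)) (.node (.node (.leaf c263) (.leaf c1287)) (.leaf c775))) (.node (.node (.node (.leaf c135) (.leaf c1159)) (.leaf c647)) (.node (.node (.leaf c391) (.leaf c1415)) (.leaf c903)))) (.node (.node (.node (.node (.leaf c71) (.leaf c1095)) (.leaf c583)) (.node (.node (.leaf c327) (.leaf c1351)) (.leaf c839))) (.node (.node (.node (.leaf c199) (.leaf c1223)) (.leaf c711)) (.node (.leaf c455) (.leaf c967))))) (.node (.node (.node (.node (.node (.leaf c39) (.leaf c1063)) (.leaf c551)) (.node (.node (.leaf c295) (.leaf c1319)) (.leaf c807))) (.node (.node (.node (.leaf c167) (.leaf c1191)) (.leaf c679)) (.node (.leaf c423) (.leaf c935)))) (.node (.node (.node (.node (.leaf c103) (.leaf c1127)) (.leaf c615)) (.node (.node (.leaf c359) (.leaf c1383)) (.leaf c871))) (.node (.node (.node (.leaf c231) (.leaf c1255)) (.leaf c743)) (.node (.leaf c487) (.leaf c999)))))) (.node (.node (.node (.node (.node (.node (.leaf c23) (.leaf c1047))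 (.leaf c535)) (.node (.node (.leaf c279) (.leaf c1303)) (.leaf c791))) (.node (.node (.node (.leaf c151) (.leaf c1175)) (.leaf c663)) (.node (.node (.leaf c407) (.leaf c1431)) (.leaf c919)))) (.node (.node (.node (.node (.leaf c87) (.leaf c1111)) (.leaf c599)) (.node (.node (.leaf c343) (.leaf c1367)) (.leaf c855))) (.node (.node (.node (.leaf c215) (.leaf c1239)) (.leaf c727)) (.node (.leaf c471) (.leaf c983))))) (.node (.node (.node (.node (.node (.leaf c55) (.leaf c1079)) (.leaf c567)) (.node (.node (.leaf c311) (.leaf c1335)) (.leaf c823))) (.node (.node (.node (.leaf c183) (.leaf c1207)) (.leaf c695)) (.node (.leaf c439) (.leaf c951)))) (.node (.node (.node (.node (.leaf c119) (.leaf c1143)) (.leaf c631)) (.node (.node (.leaf c375) (.leaf c1399)) (.leaf c887))) (.node (.node (.node (.leaf c247) (.leaf c1271)) (.leaf c759)) (.node (.leaf c503) (.leaf c1015))))))) (.node (.node (.node (.node (.node (.node (.node (.leaf c15) (.leaf c1039)) (.leaf c527)) (.node (.node (.leaf c271) (.leaf c1295)) (.leaf c783))) (.node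 (.node (.node (.leaf c143) (.leaf c1167)) (.leaf c655)) (.node (.node (.leaf c399) (.leaf c1423)) (.leaf c911)))) (.node (.node (.node (.node (.leaf c79) (.leaf c1103)) (.leaf c591)) (.node (.node (.leaf c335) (.leaf c1359)) (.leaf c847))) (.node (.node (.node (.leaf c207) (.leaf c1231)) (.leaf c719)) (.node (.leaf c463) (.leaf c975))))) (.node (.node (.node (.node (.node (.leaf c47) (.leaf c1071)) (.leaf c559)) (.node (.node (.leaf c303) (.leaf c1327)) (.leaf c815))) (.node (.node (.node (.leaf c175) (.leaf c1199)) (.leaf c687)) (.node (.leaf c431) (.leaf c943)))) (.node (.node (.node (.node (.leaf c111) (.leaf c1135)) (.leaf c623)) (.node (.node (.leaf c367) (.leaf c1391)) (.leaf c879))) (.node (.node (.node (.leaf c239) (.leaf c1263)) (.leaf c751)) (.node (.leaf c495) (.leaf c1007)))))) (.node (.node (.node (.node (.node (.node (.leaf c31) (.leaf c1055)) (.leaf c543)) (.node (.node (.leaf c287) (.leaf c1311)) (.leaf c799))) (.node (.node (.node (.leaf c159) (.leaf c1183)) (.leaf c671)) (.node (.node (.leaf c415)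 (.leaf c1439)) (.leaf c927)))) (.node (.node (.node (.node (.leaf c95) (.leaf c1119)) (.leaf c607)) (.node (.node (.leaf c351) (.leaf c1375)) (.leaf c863))) (.node (.node (.node (.leaf c223) (.leaf c1247)) (.leaf c735)) (.node (.leaf c479) (.leaf c991))))) (.node (.node (.node (.node (.node (.leaf c63) (.leaf c1087)) (.leaf c575)) (.node (.node (.leaf c319) (.leaf c1343)) (.leaf c831))) (.node (.node (.node (.leaf c191) (.leaf c1215)) (.leaf c703)) (.node (.leaf c447) (.leaf c959)))) (.node (.node (.node (.node (.leaf c127) (.leaf c1151)) (.leaf c639)) (.node (.node (.leaf c383) (.leaf c1407)) (.leaf c895))) (.node (.node (.node (.leaf c255) (.leaf c1279)) (.leaf c767)) (.node (.leaf c511) (.leaf c1023)))))))))))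
noncomputable def tb : ℕ → ℕ := look tr 44 17592186044416
def al : List (List (Fin 4)) := [[0,2,0,2], [2,0,2,0], [0,3,0,3], [3,0,3,0], [1,3,1,3], [3,1,3,1], [0,1,0,1,0,1], [1,0,1,0,1,0], [2,3,2,3,2,3], [3,2,3,2,3,2], [1,2,1,2,1,2,1,2,1,2,1,2], [2,1,2,1,2,1,2,1,2,1,2,1], [0,1,2,1,2,0,1,2,1,2,0,1,2,1,2,0,1,2,1,2], [1,2,1,2,0,1,2,1,2,0,1,2,1,2,0,1,2,1,2,0], [2,1,2,0,1,2,1,2,0,1,2,1,2,0,1,2,1,2,0,1], [1,2,0,1,2,1,2,0,1,2,1,2,0,1,2,1,2,0,1,2], [2,0,1,2,1,2,0,1,2,1,2,0,1,2,1,2,0,1,2,1], [2,1,2,1,0,2,1,2,1,0,2,1,2,1,0,2,1,2,1,0], [1,2,1,0,2,1,2,1,0,2,1,2,1,0,2,1,2,1,0,2], [2,1,0,2,1,2,1,0,2,1,2,1,0,2,1,2,1,0,2,1], [1,0,2,1,2,1,0,2,1,2,1,0,2,1,2,1,0,2,1,2], [0,2,1,2,1,0,2,1,2,1,0,2,1,2,1,0,2,1,2,1], [3,2,1,2,1,3,2,1,2,1,3,2,1,2,1,3,2,1,2,1], [2,1,2,1,3,2,1,2,1,3,2,1,2,1,3,2,1,2,1,3], [1,2,1,3,2,1,2,1,3,2,1,2,1,3,2,1,2,1,3,2], [2,1,3,2,1,2,1,3,2,1,2,1,3,2,1,2,1,3,2,1], [1,3,2,1,2,1,3,2,1,2,1,3,2,1,2,1,3,2,1,2], [1,2,1,2,3,1,2,1,2,3,1,2,1,2,3,1,2,1,2,3], [2,1,2,3,1,2,1,2,3,1,2,1,2,3,1,2,1,2,3,1], [1,2,3,1,2,1,2,3,1,2,1,2,3,1,2,1,2,3,1,2],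 [2,3,1,2,1,2,3,1,2,1,2,3,1,2,1,2,3,1,2,1], [3,1,2,1,2,3,1,2,1,2,3,1,2,1,2,3,1,2,1,2]]
noncomputable def rc : ℕ → Bool := rchk tb 92160 (fxP tb) [0,1,2,1,2,0,1,2,1,2,0,1,2,1,2,0,1,2,1,2] [1,2,0,1,2,1,2,0,1,2,1,2,0,1,2,1,2,0,1,2] [0,1,2,1,2,0,1,2,1,2,0,1,2,1,2,0,1,2,1,2] [1,2,0,1,2,1,2,0,1,2,1,2,0,1,2,1,2,0,1,2]
noncomputable def uc : ℕ → Bool := uchk tb 92160 true al

end Pool.Agent.MP_6b3afb_co.T92160
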