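import Pool.Agent.MP_6b3afb_co.Act

set_option synthInstance.maxSize 4000

namespace Pool.Agent.MP_6b3afb_co

/-! ### packed tables and loops -/

inductive Tr
  | leaf (n : ℕ)
  | node (l r : Tr)

noncomputable def Tr.get (t : Tr) : ℕ → ℕ :=
  Tr.rec (motive := fun _ => ℕ → ℕ) (fun n _ => n)
    (fun _ _ l r i => Nat.rec (l (Nat.div i 2)) (fun _ _ => r (Nat.div i 2)) (Nat.mod i 2)) t

noncomputable def look (t : Tr) (W M i : ℕ) : ℕ :=
  Nat.rec (motive := fun _ => ℕ) 0
    (fun k _ => Nat.mod (Nat.shiftRight (t.get k) (Nat.mul W (Nat.mod i 256))) M)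
    (Nat.succ (Nat.div i 256))

noncomputable def allB (f : ℕ → Bool) (d : ℕ) : ℕ → Bool :=
  Nat.rec (fun b => f b)
    (fun _ ih b => Nat.rec false (fun c _ => and (ih c) (ih (Nat.succ c))) (Nat.succ (Nat.mul 2 b))) d

theorem allB_spec {f : ℕ → Bool} {d b : ℕ} (h : allB f d b = true) (x : ℕ) (hx : x / 2 ^ d = b) :
    f x = true := by
  induction d generalizing b with
  | zero =>
    obtain rfl : x = b := by simpa using hx
    exact h
  | succ d ih =>
    have h' : (allB f d (2 * b) && allB f d (2 * b + 1)) = true := h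
    rw [Bool.and_eq_true] at h'
    rw [pow_succ, ← Nat.div_div_eq_div_mul] at hx
    have : x / 2 ^ d = 2 * b ∨ x / 2 ^ d = 2 * b + 1 := by omega
    rcases this with e | e
    exacts [ih h'.1 e, ih h'.2 e]

theorem allB_cover {f : ℕ → Bool} {d k n : ℕ} (h : ∀ b < k, allB f d b = true) (hn : n ≤ k * 2 ^ d)
    (x : ℕ) (hx : x < n) : f x = true :=
  allB_spec (h _ (Nat.div_lt_of_lt_mul (by rw [mul_comm]; omega))) x rfl

noncomputable def im (tb : ℕ → ℕ) (x : ℕ) (g : Fin 4) : ℕ :=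
  Nat.mod (tb (Nat.add (Nat.mul 4 x) g.val)) 131072

noncomputable def trc (tb : ℕ → ℕ) (w : List (Fin 4)) : ℕ → ℕ :=
  List.rec (fun x => x) (fun g _ ih x => ih (im tb x g)) w

theorem trc_eq (tb : ℕ → ℕ) (w : List (Fin 4)) (x : ℕ) :
    trc tb w x = run (fun g y => im tb y g) w x := by
  induction w generalizing x with
  | nil => rfl
  | cons g w ih => exact ih _

/-! ### relators checked at local minima -/

theorem all_of_min {X : Type} (r : Fin 4 → X → X) (π : X → ℕ) (P : X → Prop) (S : List (Fin 4))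
    (hP : ∀ g ∈ S, ∀ z, P (r g z) → P z) (h : ∀ z, (∃ g ∈ S, π (r g z) < π z) ∨ P z) (z : X) :
    P z := by
  induction hn : π z using Nat.strong_induction_on generalizing z with
  | _ n ih =>
    rcases h z with ⟨g, hg, e⟩ | e
    · exact hP g hg z (ih _ (hn ▸ e) _ rfl)
    · exact e

theorem run_red {ι X : Type} [DecidableEq ι] {r : ι → X → X} (hr : ∀ i, Function.Involutive (r i))
    (w : List ι) (x : X) : run r (red w) x = run r w x := by
  rw [← ev_perm_inv_apply hr, ← ev_perm_inv_apply hr, ev_red]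
  intro i
  ext1 y
  exact hr i y

theorem dih_of_min {X : Type} {r : Fin 4 → X → X} (hr : ∀ i, Function.Involutive (r i))
    (π : X → ℕ) (a b : Fin 4) (w : List (Fin 4)) (ha : red (a :: (w ++ [a])) = w.reverse)
    (hb : red (b :: (w ++ [b])) = w.reverse)
    (h : ∀ z, π (r a z) < π z ∨ π (r b z) < π z ∨ run r w z = z) (z : X) : run r w z = z := by
  have key : ∀ g, red (g :: (w ++ [g])) = w.reverse → ∀ z, run r w (r g z) = r g z →
      run r w z = z := by
    intro g hg z e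
    have h1 : run r w.reverse z = z := by
      rw [← hg, run_red hr, run_cons, run_append, e]
      exact hr g z
    conv_lhs => rw [← h1]
    exact run_run_reverse hr w z
  refine all_of_min r π (fun z => run r w z = z) [a, b] ?_ (fun z => ?_) z
  · intro g hg
    simp only [List.mem_cons, List.not_mem_nil, or_false] at hg
    rcases hg with rfl | rfl
    exacts [key _ ha, key _ hb]
  · rcases h z with e | e | e
    exacts [Or.inl ⟨a, by simp, e⟩, Or.inl ⟨b, by simp, e⟩, Or.inr e]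

theorem tor_of_min {X : Type} {r : Fin 4 → X → X} (hr : ∀ i, Function.Involutive (r i))
    (π : X → ℕ) {a b : ℕ} (hab : Adm a b) (pos : Fin 3 → Fin 4)
    (h36 : Rel36 fun i => (hr (pos i)).toPerm) (w1 w2 : List (Fin 3))
    (e1 : fr w1 = shift base ((a : ℤ), (b : ℤ))) (e2 : fr w2 = shift base (rot ((a : ℤ), (b : ℤ))))
    (h : ∀ z, π (r (pos 0) z) < π z ∨ π (r (pos 1) z) < π z ∨ π (r (pos 2) z) < π z ∨
      (run r (w1.map pos) z = z ∧ run r (w2.map pos) z = z)) (w : List (Fin 3)) (hw : K a b w)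
    (z : X) : run r (w.map pos) z = z := by
  revert w
  refine all_of_min r π (fun z => ∀ w, K a b w → run r (w.map pos) z = z) [pos 0, pos 1, pos 2]
    ?_ (fun z => ?_) z
  · have key : ∀ i z, (∀ w, K a b w → run r (w.map pos) (r (pos i) z) = r (pos i) z) →
        ∀ w, K a b w → run r (w.map pos) z = z := by
      rintro i z hz w ⟨l, hl, e⟩
      have := hz _ (K_of_fr (u := w ++ [i]) (w := [i]) hl (by
        rw [fr_append, e, run_shift]; rfl))
      simp only [List.reverse_cons, List.reverse_nil, List.nil_append, List.map_cons,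
        List.map_append, List.map_nil, List.cons_append, run_cons, run_append, run_nil] at this
      rw [hr] at this
      exact (hr _).injective this
    intro g hg
    simp only [List.mem_cons, List.not_mem_nil, or_false] at hg
    rcases hg with rfl | rfl | rfl <;> exact key _
  · rcases h z with e | e | e | e
    · exact Or.inl ⟨_, by simp, e⟩
    · exact Or.inl ⟨_, by simp, e⟩
    · exact Or.inl ⟨_, by simp, e⟩
    right
    have key : ∀ w : List (Fin 3), run r (w.map pos) z = z ↔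
        ev (fun i => (hr (pos i)).toPerm) w ∈ MulAction.stabilizer (Equiv.Perm X) z := by
      intro w
      rw [run_map, ← ev_perm_inv_apply (fun i => hr (pos i)), ← inv_mem_iff]
      rfl
    rintro w ⟨l, hl, e3⟩
    obtain ⟨m, n, rfl⟩ := hl.decomp hab
    rw [key, h36.key e3, h36.tau_add, h36.tau_zsmul, h36.tau_zsmul, ← h36.key e1, ← h36.key e2]
    exact mul_mem (zpow_mem ((key _).mp e.1) _) (zpow_mem ((key _).mp e.2) _)

noncomputable def rchk2 (fx : List (Fin 4) → Bool) (a1 a2 b1 b2 : List (Fin 4))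
    (l0 l1 l2 l3 : Bool) : Bool :=
  and (or l0 (or l2 (fx [0,2,0,2]))) <| and (or l0 (or l3 (fx [0,3,0,3]))) <|
  and (or l1 (or l3 (fx [3,1,3,1]))) <| and (or l0 (or l1 (fx [0,1,0,1,0,1]))) <|
  and (or l2 (or l3 (fx [3,2,3,2,3,2]))) <|
  and (or l1 (or l2 (fx [1,2,1,2,1,2,1,2,1,2,1,2]))) <|
  and (or l0 (or l1 (or l2 (and (fx a1) (fx a2))))) (or l3 (or l2 (or l1 (and (fx b1) (fx b2)))))

noncomputable def rchk (tb : ℕ → ℕ) (n : ℕ) (fx : ℕ → List (Fin 4) → Bool)
    (a1 a2 b1 b2 : List (Fin 3)) (x : ℕ) : Bool :=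
  or (Nat.ble n x) <|
  and (Nat.blt (im tb x 0) n) <| and (Nat.blt (im tb x 1) n) <|
  and (Nat.blt (im tb x 2) n) <| and (Nat.blt (im tb x 3) n) <|
  and (fx x [0,0]) <| and (fx x [1,1]) <| and (fx x [2,2]) <| and (fx x [3,3]) <|
  rchk2 (fx x) (a1.map posA) (a2.map posA) (b1.map posB) (b2.map posB)
    (Nat.blt (im tb x 0) x) (Nat.blt (im tb x 1) x) (Nat.blt (im tb x 2) x) (Nat.blt (im tb x 3) x)

theorem rchk_lt {tb n fx a1 a2 b1 b2 x} (h : rchk tb n fx a1 a2 b1 b2 x = true) (hx : x < n)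
    (g : Fin 4) : im tb x g < n := by
  simp only [rchk, Bool.or_eq_true, Bool.and_eq_true, Nat.ble_eq, Nat.blt_eq] at h
  obtain ⟨h0, h1, h2, h3, -⟩ := h.resolve_left (by omega)
  fin_cases g <;> assumption

structure TW (s t : ℕ) (a1 a2 : List (Fin 3)) : Prop where
  e1 : fr a1 = shift base ((s : ℤ), (t : ℤ))
  e2 : fr a2 = shift base (rot ((s : ℤ), (t : ℤ)))

theorem exists_act {s t u v : ℕ} (hs : Adm s t) (hu : Adm u v) {tb n fx a1 a2 b1 b2}
    (ha : TW s t a1 a2) (hb : TW u v b1 b2)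
    (h : ∀ x < n, rchk tb n fx a1 a2 b1 b2 x = true) {X : Type} (r : Fin 4 → X → X) (π : X → ℕ)
    (hπ : ∀ z, π z < n) (hr : ∀ g z, π (r g z) = im tb (π z) g)
    (hfx : ∀ w z, fx (π z) w = true → run r w z = z) : ∃ a : Act s t u v X, a.r = r := by
  have H := fun z => h (π z) (hπ z)
  simp only [rchk, rchk2, Bool.or_eq_true, Bool.and_eq_true, Nat.ble_eq, Nat.blt_eq, ← hr] at H
  have H2 := fun z => ((H z).resolve_left (by have := hπ z; omega)).2.2.2.2
  have inv : ∀ i, Function.Involutive (r i) := by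
    intro i z
    fin_cases i
    · exact hfx _ z (H2 z).1
    · exact hfx _ z (H2 z).2.1
    · exact hfx _ z (H2 z).2.2.1
    · exact hfx _ z (H2 z).2.2.2.1
  have H3 := fun z => (H2 z).2.2.2.2
  have d02 := dih_of_min inv π 0 2 _ (by decide) (by decide)
    (fun z => (H3 z).1.imp id (Or.imp id (hfx _ z)))
  have d03 := dih_of_min inv π 0 3 _ (by decide) (by decide)
    (fun z => (H3 z).2.1.imp id (Or.imp id (hfx _ z)))
  have d13 := dih_of_min inv π 1 3 _ (by decide) (by decide)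
    (fun z => (H3 z).2.2.1.imp id (Or.imp id (hfx _ z)))
  have d01 := dih_of_min inv π 0 1 _ (by decide) (by decide)
    (fun z => (H3 z).2.2.2.1.imp id (Or.imp id (hfx _ z)))
  have d23 := dih_of_min inv π 2 3 _ (by decide) (by decide)
    (fun z => (H3 z).2.2.2.2.1.imp id (Or.imp id (hfx _ z)))
  have d12 := dih_of_min inv π 1 2 _ (by decide) (by decide)
    (fun z => (H3 z).2.2.2.2.2.1.imp id (Or.imp id (hfx _ z)))
  have d21 : ∀ z, run r [2,1,2,1,2,1,2,1,2,1,2,1] z = z := fun z => by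
    conv_lhs => rw [← d12 z]
    exact run_reverse_run inv [1,2,1,2,1,2,1,2,1,2,1,2] z
  have hi : ∀ i, (inv i).toPerm * (inv i).toPerm = 1 := fun i => Equiv.ext (inv i)
  have mk36 : ∀ pos : Fin 3 → Fin 4, (∀ z, run r (List.map pos [0,1,0,1,0,1]) z = z) →
      (∀ z, run r (List.map pos [1,2,1,2,1,2,1,2,1,2,1,2]) z = z) →
      (∀ z, run r (List.map pos [0,2,0,2]) z = z) → Rel36 fun i => (inv (pos i)).toPerm :=
    fun pos h1 h2 h3 => ⟨fun i => hi _,
    by simpa [pow_succ, mul_assoc] using ev_toPerm_eq_one inv h1,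
    by simpa [pow_succ, mul_assoc] using ev_toPerm_eq_one inv h2,
    by simpa [pow_succ, mul_assoc] using ev_toPerm_eq_one inv h3⟩
  have A36 := mk36 posA d01 d12 d02
  have B36 := mk36 posB d23 d21 d13
  exact ⟨Act.ofK r inv
    (tor_of_min inv π hs posA A36 a1 a2 ha.e1 ha.e2 fun z => (H3 z).2.2.2.2.2.2.1.imp id
      (Or.imp id (Or.imp id (And.imp (hfx _ z) (hfx _ z)))))
    (tor_of_min inv π hu posB B36 b1 b2 hb.e1 hb.e2 fun z => (H3 z).2.2.2.2.2.2.2.imp id
      (Or.imp id (Or.imp id (And.imp (hfx _ z) (hfx _ z))))) d03, rfl⟩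

noncomputable def fxP (tb : ℕ → ℕ) (x : ℕ) (w : List (Fin 4)) : Bool := Nat.beq (trc tb w x) x

structure TabAct (s t u v : ℕ) (tb : ℕ → ℕ) (n : ℕ) where
  a : Act s t u v (Fin n)
  val : ∀ g z, (a.r g z : ℕ) = im tb z g

theorem TabAct.run_val {s t u v tb n} (T : TabAct s t u v tb n) (w : List (Fin 4)) (z : Fin n) :
    (run T.a.r w z).val = trc tb w z := by
  rw [trc_eq]
  exact run_semiconj (r' := fun g y => im tb y g) Fin.val T.val w z

theorem exists_tabAct {s t u v : ℕ} (hs : Adm s t) (hu : Adm u v) {tb n a1 a2 b1 b2}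
    (ha : TW s t a1 a2) (hb : TW u v b1 b2)
    (h : ∀ x < n, rchk tb n (fxP tb) a1 a2 b1 b2 x = true) : Nonempty (TabAct s t u v tb n) := by
  obtain ⟨a, e⟩ := exists_act hs hu ha hb h (X := Fin n)
    (fun g z => ⟨im tb z g, rchk_lt (h z z.2) z.2 g⟩) Fin.val (fun z => z.2) (fun _ _ => rfl)
    (fun w z e => by
      apply Fin.ext
      rw [run_semiconj (r' := fun g y => im tb y g) Fin.val (fun _ _ => rfl), ← trc_eq]
      exact Nat.eq_of_beq_eq_true e)
  exact ⟨⟨a, fun g z => by rw [e]⟩⟩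

/-! ### normal forms and the existence check -/

def reps (s t : ℕ) : List (ℕ × ℕ) :=
  (List.range (if t = 0 then s else 3 * s)).flatMap fun i => (List.range s).map fun j => (i, j)

theorem exists_rep {s t : ℕ} (hs : Adm s t) (l : Z2) :
    ∃ p ∈ reps s t, Lat s t (l - ((p.1 : ℤ), (p.2 : ℤ))) := by
  have hm : ∀ (a : ℤ) (n : ℕ), 0 < n → ∃ i : ℕ, i < n ∧ (n : ℤ) ∣ a - i := by
    intro a n hn
    have h1 := Int.emod_nonneg a (show (n : ℤ) ≠ 0 by omega)
    have h2 := Int.emod_lt_of_pos a (show (0 : ℤ) < n by omega)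
    refine ⟨(a % n).toNat, by omega, ?_⟩
    rw [Int.toNat_of_nonneg h1]
    exact Int.dvd_self_sub_of_emod_eq rfl
  simp only [reps, List.mem_flatMap, List.mem_range, List.mem_map]
  rcases hs with ⟨hs, rfl⟩ | ⟨hs, rfl⟩
  · obtain ⟨i, hi, h1⟩ := hm l.1 s (by omega)
    obtain ⟨j, hj, h2⟩ := hm l.2 s (by omega)
    exact ⟨_, ⟨i, by simpa, j, hj, rfl⟩, h1, h2, Or.inl rfl⟩
  · obtain ⟨j, hj, b, h2⟩ := hm l.2 t (by omega)
    obtain ⟨i, hi, c, h1⟩ := hm (l.1 - t * b) (3 * t) (by omega)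
    push_cast at h1
    refine ⟨_, ⟨i, by rw [if_neg (by omega)]; exact hi, j, hj, rfl⟩, ⟨3 * c + b, ?_⟩, ⟨b, h2⟩,
      Or.inr ⟨c, ?_⟩⟩
    · simp only [Prod.fst_sub]
      linear_combination h1
    · simp only [Prod.fst_sub, Prod.snd_sub]
      linear_combination h1 - h2

def tw (p : ℕ × ℕ) : List (Fin 3) := wpow T0 p.1 ++ wpow T1 p.2

theorem fr_wpow' {w : List (Fin 3)} {l : Z2} (h : fr w = shift base l) (n : ℕ) :
    fr (wpow w n) = shift base ((n : ℤ) • l) := by
  induction n with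
  | zero => simp [wpow, fr]
  | succ n ih =>
    rw [wpow, fr_append, run_of_fr_shift ih, h, lin_shift, lin_base, shift_shift]
    congr 1
    push_cast
    rw [add_smul, one_smul, add_comm]

theorem fr_tw (p : ℕ × ℕ) : fr (tw p) = shift base ((p.1 : ℤ), (p.2 : ℤ)) := by
  rw [tw, fr_append, run_of_fr_shift (fr_wpow' fr_T1 _), fr_wpow' fr_T0, lin_shift, lin_base,
    shift_shift]
  simp

def NF (s t : ℕ) : List (List (Fin 3)) := (reps s t).flatMap fun p => D12.map fun k => tw p ++ k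

theorem exists_nf {s t : ℕ} (hs : Adm s t) (w : List (Fin 3)) : ∃ p ∈ reps s t, ∃ k ∈ D12,
    Lat s t ((fr w).1 - ((p.1 : ℤ), (p.2 : ℤ))) ∧
      fr w = shift (fr (tw p ++ k)) ((fr w).1 - ((p.1 : ℤ), (p.2 : ℤ))) := by
  obtain ⟨k, hk, e⟩ := (valid_fr w).exists_D12
  obtain ⟨p, hp, hl⟩ := exists_rep hs (fr w).1
  refine ⟨p, hp, k, hk, hl, ?_⟩
  rw [fr_append, fr_tw, run_shift, shift_shift, add_sub_cancel]
  exact e

theorem mem_NF {s t : ℕ} {p k} (hp : p ∈ reps s t) (hk : k ∈ D12) : tw p ++ k ∈ NF s t :=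
  List.mem_flatMap.mpr ⟨p, hp, List.mem_map.mpr ⟨k, hk, rfl⟩⟩

theorem nil_mem_NF {s t : ℕ} (hs : Adm s t) : [] ∈ NF s t := by
  refine mem_NF (p := (0, 0)) (k := []) ?_ (by decide)
  simp only [reps, List.mem_flatMap, List.mem_range, List.mem_map]
  rcases hs with ⟨hs, rfl⟩ | ⟨hs, rfl⟩
  · exact ⟨0, by simp; omega, 0, by omega, rfl⟩
  · exact ⟨0, by split_ifs <;> omega, 0, by omega, rfl⟩

noncomputable def nodupB (l : List ℕ) : Bool :=
  List.rec true (fun a l ih =>
    and (List.rec true (fun b _ ih' => and (not (Nat.beq a b)) ih') l) ih) l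

theorem nodupB_spec {l : List ℕ} (h : nodupB l = true) : l.Nodup := by
  induction l with
  | nil => exact List.nodup_nil
  | cons a l ih =>
    have h' : (List.rec true (fun b _ ih' => and (not (Nat.beq a b)) ih') l && nodupB l) = true := h
    rw [Bool.and_eq_true] at h'
    refine List.nodup_cons.mpr ⟨?_, ih h'.2⟩
    have h1 := h'.1
    clear ih h h'
    induction l with
    | nil => simp
    | cons b l ih =>
      simp only [Bool.and_eq_true, Bool.not_eq_true'] at h1
      rw [List.mem_cons, not_or]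
      exact ⟨fun e => by simp [e] at h1, ih h1.2⟩

noncomputable def code (tb : ℕ → ℕ) (bs : List ℕ) (w : List (Fin 4)) : ℕ :=
  List.rec 0 (fun b _ ih => Nat.add (Nat.mul ih 131072) (trc tb w b)) bs

theorem TabAct.code_congr {s t u v tb n} (T : TabAct s t u v tb n) {bs : List ℕ}
    (hb : ∀ b ∈ bs, b < n) {w w' : List (Fin 4)} (h : ∀ z, run T.a.r w z = run T.a.r w' z) :
    code tb bs w = code tb bs w' := by
  induction bs with
  | nil => rfl
  | cons b bs ih =>
    have h1 := ih (fun c hc => hb c (by simp [hc]))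
    have h2 := congrArg Fin.val (h ⟨b, hb b (by simp)⟩)
    rw [T.run_val, T.run_val] at h2
    change code tb bs w * 131072 + trc tb w b = code tb bs w' * 131072 + trc tb w' b
    rw [h1]
    exact congrArg _ h2

noncomputable def echk (tb : ℕ → ℕ) (bs : List ℕ) (a b : ℕ) (pos : Fin 3 → Fin 4) : Bool :=
  nodupB ((NF a b).map fun w => code tb bs (w.map pos))

theorem TabAct.faithful {s t u v tb n} (T : TabAct s t u v tb n) {bs : List ℕ}
    (hb : ∀ b ∈ bs, b < n) {a b : ℕ} (hab : Adm a b) {pos : Fin 3 → Fin 4}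
    (hr : RelT a b fun i => rho s t u v (pos i)) (h : echk tb bs a b pos = true)
    (w : List (Fin 3)) (hw : ∀ z, run T.a.r (w.map pos) z = z) : K a b w := by
  obtain ⟨p, hp, k, hk, hl, e⟩ := exists_nf hab w
  have h1 := hr.ev_eq_of_fr hab hl e
  rw [← ev_map (rho s t u v) pos, ← ev_map (rho s t u v) pos] at h1
  have h2 : tw p ++ k = [] := List.inj_on_of_nodup_map (nodupB_spec h) (mem_NF hp hk)
    (nil_mem_NF hab) (T.code_congr hb fun z => by rw [← T.a.run_congr h1, hw]; rfl)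
  rw [h2] at e
  exact ⟨_, hl, e⟩

noncomputable def e3chk (tb : ℕ → ℕ) (bs : List ℕ) (blk : ℕ → ℕ) (s t : ℕ) : Bool :=
  (reps s t).all fun p => or (and (Nat.beq p.1 0) (Nat.beq p.2 0))
    (bs.any fun b => not (Nat.beq (blk (trc tb ((tw p).map posA) b)) (blk b)))

theorem TabAct.good {s t u v tb n} (T : TabAct s t u v tb n) (hs : Adm s t) (hu : Adm u v)
    {bs : List ℕ} (hb : ∀ b ∈ bs, b < n) (blk : ℕ → ℕ)
    (hblk : ∀ x < n, ∀ g, g ≠ 0 → blk (im tb x g) = blk x)
    (h1 : echk tb bs s t posA = true) (h2 : echk tb bs u v posB = true)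
    (h3 : e3chk tb bs blk s t = true) : Good s t u v (rho s t u v) := by
  have hr := rel363_rho (s := s) (t := t) (u := u) (v := v)
  refine T.a.good hs (T.faithful hb hs hr.A h1) (T.faithful hb hu hr.B h2) ?_
  intro w y hy h
  have inv : ∀ y : List (Fin 4), (0 : Fin 4) ∉ y → ∀ z : Fin n,
      blk (run T.a.r y z : Fin n) = blk z := fun y hy z =>
    run_invariant (fun z' : Fin n => blk z' = blk z) y (fun g hg x hx => by
      rw [T.val, hblk x x.2 g (fun e => hy (e ▸ hg)), hx]) z rfl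
  obtain ⟨p, hp, k, hk, hl, e⟩ := exists_nf hs w
  have h4 := hr.A.ev_eq_of_fr hs hl e
  rw [ev_fA, ev_fA] at h4
  have h5 := List.all_eq_true.mp h3 p hp
  simp only [Bool.or_eq_true, Bool.and_eq_true, Nat.beq_eq, List.any_eq_true, Bool.not_eq_true',
    ] at h5
  rcases h5 with ⟨e1, e2⟩ | ⟨b, hb', e1⟩
  · simpa [e1, e2, Prod.mk_zero_zero] using hl
  · exfalso
    have h6 := inv y hy ⟨b, hb b hb'⟩
    rw [← h, T.a.run_congr h4, List.map_append, run_append, inv, T.run_val] at h6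
    · simp [h6] at e1
    · intro h7
      obtain ⟨j, hj, e7⟩ := List.mem_map.mp h7
      obtain rfl : j = 0 := (show ∀ j, posA j = 0 → j = 0 by decide) j e7
      exact stab_avoid 0 k hk hj

noncomputable def bchk (tb : ℕ → ℕ) (n : ℕ) (blk : ℕ → ℕ) (x : ℕ) : Bool :=
  or (Nat.ble n x) <| and (Nat.beq (blk (im tb x 1)) (blk x)) <|
    and (Nat.beq (blk (im tb x 2)) (blk x)) (Nat.beq (blk (im tb x 3)) (blk x))

theorem bchk_spec {tb n blk} (h : ∀ x < n, bchk tb n blk x = true) :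
    ∀ x < n, ∀ g, g ≠ 0 → blk (im tb x g) = blk x := by
  intro x hx g hg
  have := h x hx
  simp only [bchk, Bool.or_eq_true, Bool.and_eq_true, Nat.ble_eq, Nat.beq_eq] at this
  obtain ⟨h1, h2, h3⟩ := this.resolve_left (by omega)
  fin_cases g
  exacts [absurd rfl hg, h1, h2, h3]

theorem TabAct.blk0 {s t u v tb n} (T : TabAct s t u v tb n) (h : ∀ g, g ≠ 0 → im tb 0 g = 0) :
    ∀ x < n, ∀ g, g ≠ 0 → (fun y => Nat.min y 1) (im tb x g) = (fun y => Nat.min y 1) x := by
  intro x hx g hg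
  have h1 := congrArg Fin.val (T.a.invol g ⟨x, hx⟩)
  rw [T.val, T.val] at h1
  have h2 := h g hg
  simp only at h1 ⊢
  by_cases e : x = 0
  · rw [e, h2]
  · have : im tb x g ≠ 0 := fun e2 => e (by rw [← h1, e2, h2])
    simp only [Nat.min_eq_min]
    omega

end Pool.Agent.MP_6b3afb_co
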