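import Pool.Agent.MP_6b3afb_co.Ball
import Pool.Agent.MP_6b3afb_co.Grp

set_option synthInstance.maxSize 4000

namespace Pool.Agent.MP_6b3afb_co

def Small (l : Z2) : Prop := |l.1| ≤ 5 ∧ |l.2| ≤ 5 ∧ |l.1 + l.2| ≤ 5

instance : DecidablePred Small := fun l => by unfold Small; infer_instance

structure Par where
  a : Bool → ℕ × ℕ
  short : ∀ b l, Lat (a b).1 (a b).2 l → Small l → l = 0
  three : ∀ l, Lat (a false).1 (a false).2 l → (3 : ℤ) ∣ l.1 - l.2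

namespace Par
variable (p : Par)

abbrev Lam (b : Bool) (l : Z2) : Prop := Lat (p.a b).1 (p.a b).2 l

def sd : Setoid (Bool × Z2) where
  r x y := x.1 = y.1 ∧ p.Lam x.1 (x.2 - y.2)
  iseqv := by
    refine ⟨fun x => ⟨rfl, by simpa using Lat.zero _ _⟩, ?_, ?_⟩
    · rintro ⟨b, x⟩ ⟨b', y⟩ ⟨rfl, h⟩
      exact ⟨rfl, by simpa using Lat.neg h⟩
    · rintro ⟨b, x⟩ ⟨b', y⟩ ⟨b'', z⟩ ⟨rfl, h⟩ ⟨rfl, h'⟩
      exact ⟨rfl, by simpa using Lat.add h h'⟩

def T : Type := Quotient p.sd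

def pt (b : Bool) (x : Z2) : p.T := Quotient.mk _ (b, x)

theorem pt_eq {b b' : Bool} {x y : Z2} : p.pt b x = p.pt b' y ↔ b = b' ∧ p.Lam b (x - y) :=
  Quotient.eq

theorem pt_surj (X : p.T) : ∃ b x, X = p.pt b x := by
  induction X using Quotient.ind with
  | _ q => exact ⟨q.1, q.2, rfl⟩

theorem pt_small {b : Bool} {x d d' : Z2} (h : Small (d - d')) :
    p.pt b (x + d) = p.pt b (x + d') ↔ d = d' := by
  refine ⟨fun e => ?_, fun e => by rw [e]⟩
  have := p.short b _ (by simpa using (p.pt_eq.mp e).2) h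
  exact sub_eq_zero.mp this

def L (X Y : p.T) : Prop := ∃ b x, ∃ e ∈ unitVecs, X = p.pt b x ∧ Y = p.pt b (x + e)

theorem L_pt {b : Bool} {x : Z2} {Y : p.T} :
    p.L (p.pt b x) Y ↔ ∃ e ∈ unitVecs, Y = p.pt b (x + e) := by
  refine ⟨?_, fun ⟨e, he, h⟩ => ⟨b, x, e, he, rfl, h⟩⟩
  rintro ⟨b', x', e, he, h, rfl⟩
  obtain ⟨rfl, h2⟩ := p.pt_eq.mp h
  exact ⟨e, he, p.pt_eq.mpr ⟨rfl, by simpa using Lat.neg h2⟩⟩

theorem L_of {b : Bool} {x y : Z2} (h : y - x ∈ unitVecs) : p.L (p.pt b x) (p.pt b y) :=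
  p.L_pt.mpr ⟨_, h, by simp⟩

theorem L_small {b : Bool} {x d d' : Z2} (h : ∀ e ∈ unitVecs, Small (d' - (d + e))) :
    p.L (p.pt b (x + d)) (p.pt b (x + d')) ↔ d' - d ∈ unitVecs := by
  refine ⟨fun e => ?_, fun e => p.L_of (by simpa using e)⟩
  obtain ⟨e, he, h2⟩ := p.L_pt.mp e
  rw [add_assoc, p.pt_small (h e he)] at h2
  simpa [h2] using he

def κ : p.T → Bool := Quotient.lift (fun x => x.1) (fun _ _ h => h.1)

def τ : p.T → Bool := Quotient.lift (fun x => !x.1 && decide ((3 : ℤ) ∣ x.2.1 - x.2.2)) (by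
  rintro ⟨b, x⟩ ⟨b', y⟩ ⟨rfl, h⟩
  cases b
  · have := p.three _ h
    simp only [Bool.not_false, Bool.true_and, decide_eq_decide, Prod.fst_sub, Prod.snd_sub]
      at this ⊢
    omega
  · rfl)

def uv : Fin 6 → Z2 := ![(1, 0), (0, 1), (-1, 1), (-1, 0), (0, -1), (1, -1)]

theorem tri_frame {X Y Z : p.T} (h1 : p.L X Y) (h2 : p.L X Z) (h3 : p.L Y Z) :
    ∃ b x, Valid x ∧ X = p.pt b x.1 ∧ Y = p.pt b x.2.1 ∧ Z = p.pt b x.2.2 := by
  obtain ⟨b, x, rfl⟩ := p.pt_surj X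
  obtain ⟨e, he, rfl⟩ := p.L_pt.mp h1
  obtain ⟨e', he', rfl⟩ := p.L_pt.mp h2
  rw [p.L_small ((show ∀ e ∈ unitVecs, ∀ e' ∈ unitVecs, ∀ f ∈ unitVecs, Small (e' - (e + f))
    by decide) e he e' he')] at h3
  exact ⟨b, (x, x + e, x + e'), ⟨by simpa using he, by simpa using he', by simpa using h3⟩,
    rfl, rfl, rfl⟩

def mod : Mod where
  T := p.T
  L := p.L
  κ := p.κ
  τ := p.τ
  symm := by
    rintro _ _ ⟨b, x, e, he, rfl, rfl⟩
    exact p.L_of (by simpa using neg_mem_unit e he)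
  irrefl X h := by
    obtain ⟨b, x, rfl⟩ := p.pt_surj X
    rw [← add_zero x, p.L_small (by decide)] at h
    exact absurd h (by decide)
  kap := by
    rintro _ _ ⟨b, x, e, he, rfl, rfl⟩
    rfl
  hex X := by
    obtain ⟨b, x, rfl⟩ := p.pt_surj X
    refine ⟨fun k => p.pt b (x + uv k), fun k l h => ?_, fun Y => ?_, fun k l => ?_⟩
    · rw [p.pt_small ((show ∀ k l, Small (uv k - uv l) by decide) k l)] at h
      exact (show ∀ k l, uv k = uv l → k = l by decide) k l h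
    · rw [p.L_pt]
      constructor
      · rintro ⟨e, he, rfl⟩
        obtain ⟨k, rfl⟩ := (show ∀ e ∈ unitVecs, ∃ k, uv k = e by decide) e he
        exact ⟨k, rfl⟩
      · rintro ⟨k, rfl⟩
        exact ⟨_, (show ∀ k, uv k ∈ unitVecs by decide) k, rfl⟩
    · rw [p.L_small ((show ∀ k l, ∀ e ∈ unitVecs, Small (uv l - (uv k + e)) by decide) k l)]
      revert k l
      decide
  c4 := by
    intro a b c d h1 h2 h3 h4 n1 n2
    obtain ⟨k, x, rfl⟩ := p.pt_surj a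
    obtain ⟨e1, m1, rfl⟩ := p.L_pt.mp h1
    obtain ⟨e2, m2, rfl⟩ := p.L_pt.mp h2
    obtain ⟨e3, m3, rfl⟩ := p.L_pt.mp h3
    have key : ∀ e1 ∈ unitVecs, ∀ e2 ∈ unitVecs, ∀ e3 ∈ unitVecs,
        (∀ e ∈ unitVecs, Small (0 - (e1 + e2 + e3 + e))) ∧ (0 - (e1 + e2 + e3) ∈ unitVecs →
        e1 + e2 = 0 ∨ e2 + e3 = 0 ∨ e1 + e2 ∈ unitVecs ∨ e2 + e3 ∈ unitVecs) := by
      decide +kernel
    obtain ⟨k1, k2⟩ := key e1 m1 e2 m2 e3 m3
    have h5 : p.L (p.pt k (x + (e1 + e2 + e3))) (p.pt k (x + 0)) := by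
      simpa [add_assoc] using h4
    rcases k2 ((p.L_small k1).mp h5) with h | h | h | h
    · exact absurd (by rw [add_assoc, h, add_zero]) n1
    · exact absurd (by rw [add_assoc (x + e1), h, add_zero]) n2
    · exact Or.inl (p.L_of (by simpa [add_assoc] using h))
    · exact Or.inr (p.L_of (by simpa [add_assoc] using h))
  c5 := by
    intro a b c d e h1 h2 h3 h4 h5
    obtain ⟨k, x, rfl⟩ := p.pt_surj a
    obtain ⟨e1, m1, rfl⟩ := p.L_pt.mp h1
    obtain ⟨e2, m2, rfl⟩ := p.L_pt.mp h2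
    obtain ⟨e3, m3, rfl⟩ := p.L_pt.mp h3
    obtain ⟨e4, m4, rfl⟩ := p.L_pt.mp h4
    have key : ∀ e1 ∈ unitVecs, ∀ e2 ∈ unitVecs, ∀ e3 ∈ unitVecs, ∀ e4 ∈ unitVecs,
        (∀ e ∈ unitVecs, Small (0 - (e1 + e2 + e3 + e4 + e))) ∧
        (0 - (e1 + e2 + e3 + e4) ∈ unitVecs →
        e1 + e2 ∈ unitVecs ∨ e1 + e2 + e3 ∈ unitVecs ∨ e2 + e3 ∈ unitVecs ∨
        e2 + e3 + e4 ∈ unitVecs ∨ e3 + e4 ∈ unitVecs) := by
      decide +kernel
    obtain ⟨k1, k2⟩ := key e1 m1 e2 m2 e3 m3 e4 m4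
    have h6 : p.L (p.pt k (x + (e1 + e2 + e3 + e4))) (p.pt k (x + 0)) := by
      simpa [add_assoc] using h5
    rcases k2 ((p.L_small k1).mp h6) with h | h | h | h | h
    · exact Or.inl (p.L_of (by simpa [add_assoc] using h))
    · exact Or.inr (Or.inl (p.L_of (by simpa [add_assoc] using h)))
    · exact Or.inr (Or.inr (Or.inl (p.L_of (by simpa [add_assoc] using h))))
    · exact Or.inr (Or.inr (Or.inr (Or.inl (p.L_of (by simpa [add_assoc] using h)))))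
    · exact Or.inr (Or.inr (Or.inr (Or.inr (p.L_of (by simpa [add_assoc] using h)))))
  one := by
    intro a b c h1 h2 h3
    obtain ⟨k, ⟨x, y, z⟩, ⟨m1, m2, m3⟩, rfl, rfl, rfl⟩ := p.tri_frame h1 h3 h2
    cases k
    · have key : ∀ e ∈ unitVecs, ∀ e' ∈ unitVecs, e' - e ∈ unitVecs →
          ((e.1 - e.2) % 3 = 1 ∧ (e'.1 - e'.2) % 3 = 2) ∨
          ((e.1 - e.2) % 3 = 2 ∧ (e'.1 - e'.2) % 3 = 1) := by decide
      have := key _ m1 _ m2 (by simpa using m3)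
      simp only [Prod.fst_sub, Prod.snd_sub] at this
      change One4 false (decide ((3 : ℤ) ∣ x.1 - x.2)) (decide ((3 : ℤ) ∣ y.1 - y.2))
        (decide ((3 : ℤ) ∣ z.1 - z.2))
      by_cases a1 : (3 : ℤ) ∣ x.1 - x.2 <;> by_cases a2 : (3 : ℤ) ∣ y.1 - y.2 <;>
        by_cases a3 : (3 : ℤ) ∣ z.1 - z.2 <;> simp only [a1, a2, a3] <;>
        first | decide | omega
    · change One4 true false false false
      decide
  real := by
    intro k a b c h
    have H : ∀ (k : Bool) (x y z : Z2), Valid (x, y, z) → ∃ X Y Z, p.L X Y ∧ p.L Y Z ∧ p.L X Z ∧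
        p.κ X = k ∧ p.τ X = (!k && decide ((3 : ℤ) ∣ x.1 - x.2)) ∧
        p.τ Y = (!k && decide ((3 : ℤ) ∣ y.1 - y.2)) ∧
        p.τ Z = (!k && decide ((3 : ℤ) ∣ z.1 - z.2)) := fun k x y z h =>
      ⟨p.pt k x, p.pt k y, p.pt k z, p.L_of h.1, p.L_of h.2.2, p.L_of h.2.1, rfl, rfl, rfl, rfl⟩
    cases k <;> cases a <;> cases b <;> cases c <;> first
      | exact absurd h (by decide)
      | exact H true (0, 0) (1, 0) (0, 1) (by decide)
      | exact H false (0, 0) (1, 0) (0, 1) (by decide)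
      | exact H false (1, 0) (0, 0) (0, 1) (by decide)
      | exact H false (1, 0) (0, 1) (0, 0) (by decide)
  far X := by
    obtain ⟨b, x, rfl⟩ := p.pt_surj X
    refine ⟨p.pt b (x + (3, 0)), rfl, ?_, ?_, fun Y h => ?_⟩
    · intro h
      rw [← add_zero x, add_assoc, p.pt_small (by decide)] at h
      exact absurd h (by decide)
    · intro h
      rw [← add_zero x, add_assoc, p.L_small (by decide)] at h
      exact absurd h (by decide)
    · obtain ⟨e, he, rfl⟩ := p.L_pt.mp h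
      rw [p.L_small ((show ∀ e ∈ unitVecs, ∀ f ∈ unitVecs, Small ((3, 0) - (e + f)) by decide)
        e he)]
      exact (show ∀ e ∈ unitVecs, (3, 0) - e ∉ unitVecs by decide) e he

theorem frame_eq {b : Bool} {x y : Fr} (hx : Valid x) (hy : Valid y)
    (h1 : p.pt b x.1 = p.pt b y.1) (h2 : p.pt b x.2.1 = p.pt b y.2.1)
    (h3 : p.pt b x.2.2 = p.pt b y.2.2) : ∃ l, p.Lam b l ∧ x = shift y l := by
  have k1 := (p.pt_eq.mp h1).2
  have k2 := (p.pt_eq.mp h2).2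
  have k3 := (p.pt_eq.mp h3).2
  have key : ∀ e ∈ unitVecs, ∀ e' ∈ unitVecs, Small (e - e') := by decide
  have k4 := p.short b _ (Lat.sub k2 k1) (by
    convert key _ hx.1 _ hy.1 using 1
    abel)
  have k5 := p.short b _ (Lat.sub k3 k1) (by
    convert key _ hx.2.1 _ hy.2.1 using 1
    abel)
  refine ⟨_, k1, ?_⟩
  obtain ⟨x1, x2, x3⟩ := x
  simp only [shift, Prod.mk.injEq]
  refine ⟨by abel, ?_, ?_⟩
  · linear_combination k4
  · linear_combination k5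

theorem pt_shift {b : Bool} {x l : Z2} (h : p.Lam b l) : p.pt b (x + l) = p.pt b x :=
  p.pt_eq.mpr ⟨rfl, by simpa using h⟩

theorem flip_ne {b : Bool} {x y z : Z2} (h : Valid (x, y, z)) :
    p.pt b (x + y - z) ≠ p.pt b z := by
  intro e
  have key : ∀ e ∈ unitVecs, ∀ e' ∈ unitVecs, e' - e ∈ unitVecs →
      Small (e - e' - e') ∧ e - e' ≠ e' := by decide
  obtain ⟨k1, k2⟩ := key _ h.1 _ h.2.1 (by simpa using h.2.2)
  apply k2
  rw [← p.pt_small (b := b) (x := x) k1]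
  convert e using 2 <;> simp only <;> abel

end Par

end Pool.Agent.MP_6b3afb_co
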