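import Pool.Agent.MP_6b3afb_co.Lat

set_option synthInstance.maxSize 4000

namespace Pool.Agent.MP_6b3afb_co

def faceSet (x : Fr) : Fin 3 → Finset Z2
  | 0 => {x.1}
  | 1 => {x.1, x.2.1}
  | 2 => {x.1, x.2.1, x.2.2}

theorem zero_not_unit : (0 : Z2) ∉ unitVecs := by decide

theorem ne_of_sub_unit {a b : Z2} (h : a - b ∈ unitVecs) : a ≠ b := by
  rintro rfl
  exact zero_not_unit (by simpa using h)

theorem Valid.faceSet_ok {x : Fr} (h : Valid x) (i : Fin 3) :
    (faceSet x i).Nonempty ∧ ∀ a ∈ faceSet x i, ∀ b ∈ faceSet x i, a ≠ b → a - b ∈ unitVecs := by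
  obtain ⟨h1, h2, h3⟩ := h
  have h1' := sub_mem_unit_comm h1
  have h2' := sub_mem_unit_comm h2
  have h3' := sub_mem_unit_comm h3
  fin_cases i <;> simp [faceSet, *]

def pf (x : Fr) (h : Valid x) (i : Fin 3) : PlaneFace := ⟨faceSet x i, h.faceSet_ok i⟩

theorem faceSet_shift (x : Fr) (l : Z2) (i : Fin 3) :
    faceSet (shift x l) i = (faceSet x i).image (· + l) := by
  fin_cases i <;> simp [faceSet, shift, Finset.image_insert]

theorem Valid.card_faceSet {x : Fr} (h : Valid x) (i : Fin 3) : (faceSet x i).card = i + 1 := by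
  have h1 := ne_of_sub_unit h.1
  have h2 := ne_of_sub_unit h.2.1
  have h3 := ne_of_sub_unit h.2.2
  fin_cases i
  · simp [faceSet]
  · simp [faceSet, Finset.card_pair h1.symm]
  · simp only [faceSet]
    rw [Finset.card_eq_three]
    exact ⟨_, _, _, h1.symm, h2.symm, h3.symm, rfl⟩

theorem faceSet_mono (x : Fr) {i j : Fin 3} (h : i ≤ j) : faceSet x i ⊆ faceSet x j := by
  fin_cases i <;> fin_cases j <;> simp_all [faceSet]

theorem faceSet_sf (x : Fr) {i j : Fin 3} (h : j ≠ i) : faceSet (sf j x) i = faceSet x i := by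
  fin_cases i <;> fin_cases j <;> simp_all [faceSet, sf]
  · exact Finset.pair_comm _ _
  · exact Finset.insert_comm _ _ _
  · rw [Finset.pair_comm]

theorem faceSet_run (x : Fr) {i : Fin 3} {h : List (Fin 3)} (hi : i ∉ h) :
    faceSet (run sf h x) i = faceSet x i :=
  run_invariant (fun y => faceSet y i = faceSet x i) h
    (fun j hj y hy => by rw [faceSet_sf y (j := j) (i := i) (fun hh => hi (hh ▸ hj)), hy]) x rfl

theorem no_K4 {a b c d : Z2} (h1 : b - a ∈ unitVecs) (h2 : c - a ∈ unitVecs)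
    (h3 : d - a ∈ unitVecs) (h4 : c - b ∈ unitVecs) (h5 : d - b ∈ unitVecs)
    (h6 : d - c ∈ unitVecs) : False := by
  have key : ∀ e ∈ unitVecs, ∀ e' ∈ unitVecs, ∀ e'' ∈ unitVecs, e' - e ∈ unitVecs →
      e'' - e ∈ unitVecs → e'' - e' ∈ unitVecs → False := by decide
  exact key _ h1 _ h2 _ h3 (by simpa using h4) (by simpa using h5) (by simpa using h6)

theorem exists_third {a b : Z2} (h : b - a ∈ unitVecs) : ∃ c, Valid (a, b, c) := by
  have key : ∀ e ∈ unitVecs, rot e ∈ unitVecs ∧ rot e - e ∈ unitVecs := by decide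
  refine ⟨a + rot (b - a), h, by simpa using (key _ h).1, ?_⟩
  have := (key _ h).2
  convert this using 1
  simp only
  abel

theorem third_eq {p q r r' : Z2} (h : Valid (p, q, r)) (h' : Valid (p, q, r')) :
    r' = r ∨ r' = p + q - r := by
  have key : ∀ e ∈ unitVecs, ∀ e' ∈ unitVecs, ∀ e'' ∈ unitVecs, e' - e ∈ unitVecs →
      e'' - e ∈ unitVecs → e'' = e' ∨ e'' = e - e' := by decide
  rcases key _ h.1 _ h.2.1 _ h'.2.1 (by simpa using h.2.2) (by simpa using h'.2.2) with h1 | h1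
  · left
    simpa using h1
  · right
    simp only at h1
    linear_combination h1

theorem face_struct (G : PlaneFace) : ∃ x, ∃ h : Valid x, ∃ j, G = pf x h j := by
  obtain ⟨G, ⟨p, hp⟩, hG⟩ := G
  by_cases h1 : ∀ q ∈ G, q = p
  · obtain ⟨c, hc⟩ := exists_third (a := p) (b := p + (1, 0)) (by simp [unitVecs])
    refine ⟨_, hc, 0, Subtype.ext ?_⟩
    ext q
    simp only [pf, faceSet, Finset.mem_singleton]
    exact ⟨h1 q, fun h => h ▸ hp⟩
  push Not at h1
  obtain ⟨q, hq, hqp⟩ := h1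
  by_cases h2 : ∀ r ∈ G, r = p ∨ r = q
  · obtain ⟨c, hc⟩ := exists_third (hG q hq p hp hqp)
    refine ⟨_, hc, 1, Subtype.ext ?_⟩
    ext r
    simp only [pf, faceSet, Finset.mem_insert, Finset.mem_singleton]
    exact ⟨h2 r, fun h => h.elim (fun h => h ▸ hp) (fun h => h ▸ hq)⟩
  push Not at h2
  obtain ⟨r, hr, hrp, hrq⟩ := h2
  refine ⟨(p, q, r), ⟨hG q hq p hp hqp, hG r hr p hp hrp, hG r hr q hq hrq⟩, 2, Subtype.ext ?_⟩
  ext z
  simp only [pf, faceSet, Finset.mem_insert, Finset.mem_singleton]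
  constructor
  · intro hz
    by_contra hne
    push Not at hne
    exact no_K4 (hG q hq p hp hqp) (hG r hr p hp hrp) (hG z hz p hp hne.1) (hG r hr q hq hrq)
      (hG z hz q hq hne.2.1) (hG z hz r hr hne.2.2)
  · rintro (rfl | rfl | rfl) <;> assumption

theorem pair_eq {a b c d : Z2} (h : ({a, b} : Finset Z2) = {c, d}) :
    (a = c ∧ b = d) ∨ (a = d ∧ b = c) := by
  have : ({a, b} : Set Z2) = {c, d} := by
    have := congrArg (fun s : Finset Z2 => (s : Set Z2)) h
    simpa using this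
  exact Set.pair_eq_pair_iff.mp this

theorem face_stab {x y : Fr} (hx : Valid x) (hy : Valid y) {i : Fin 3}
    (h : faceSet y i = faceSet x i) : ∃ k, i ∉ k ∧ y = run sf k x := by
  obtain ⟨p, q, r⟩ := x
  obtain ⟨p', q', r'⟩ := y
  fin_cases i
  · have hp : p' = p := by simpa [faceSet] using h
    subst hp
    obtain ⟨k, hk, hxk⟩ := hx.exists_D12
    obtain ⟨k', hk', hyk⟩ := hy.exists_D12
    refine ⟨k.reverse ++ k', ?_, ?_⟩
    · simpa using ⟨stab_avoid 0 k hk, stab_avoid 0 k' hk'⟩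
    · rw [run_append, hxk, run_shift, run_shift, fr, run_reverse_run sf_invol]
      exact hyk
  · rcases pair_eq (show ({p', q'} : Finset Z2) = {p, q} from h) with ⟨rfl, rfl⟩ | ⟨rfl, rfl⟩
    · rcases third_eq hx hy with rfl | rfl
      · exact ⟨[], by simp, rfl⟩
      · exact ⟨[2], by decide, rfl⟩
    · rcases third_eq (hx.sf 0) hy with rfl | rfl
      · exact ⟨[0], by decide, rfl⟩
      · exact ⟨[0, 2], by decide, rfl⟩
  · have h' : ({p', q', r'} : Finset Z2) = {p, q, r} := h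
    have h1 := ne_of_sub_unit hy.1
    have h2 := ne_of_sub_unit hy.2.1
    have h3 := ne_of_sub_unit hy.2.2
    simp only at h1 h2 h3
    have hp : p' ∈ ({p, q, r} : Finset Z2) := h' ▸ (by simp)
    have hq : q' ∈ ({p, q, r} : Finset Z2) := h' ▸ (by simp)
    have hr : r' ∈ ({p, q, r} : Finset Z2) := h' ▸ (by simp)
    simp only [Finset.mem_insert, Finset.mem_singleton] at hp hq hr
    rcases hp with rfl | rfl | rfl <;> rcases hq with rfl | rfl | rfl <;>
      rcases hr with rfl | rfl | rfl <;>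
      first
        | exact absurd rfl h1
        | exact absurd rfl h2
        | exact absurd rfl h3
        | exact ⟨[], by decide, rfl⟩
        | exact ⟨[0], by decide, rfl⟩
        | exact ⟨[1], by decide, rfl⟩
        | exact ⟨[0, 1], by decide, rfl⟩
        | exact ⟨[1, 0], by decide, rfl⟩
        | exact ⟨[0, 1, 0], by decide, rfl⟩

theorem face_sub {x y : Fr} (hx : Valid x) (hy : Valid y) {i j : Fin 3}
    (h : faceSet x i ⊆ faceSet y j) :
    i ≤ j ∧ ∃ z, Valid z ∧ faceSet z i = faceSet x i ∧ faceSet z j = faceSet y j := by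
  have hc := Finset.card_le_card h
  rw [hx.card_faceSet, hy.card_faceSet] at hc
  have hij : i ≤ j := by omega
  refine ⟨hij, ?_⟩
  rcases eq_or_lt_of_le hij with rfl | hlt
  · have := Finset.eq_of_subset_of_card_le h (by rw [hx.card_faceSet, hy.card_faceSet])
    exact ⟨y, hy, this.symm, rfl⟩
  suffices H : ∃ k, j ∉ k ∧ faceSet (run sf k y) i = faceSet x i by
    obtain ⟨k, hk, hk'⟩ := H
    exact ⟨_, hy.run k, hk', faceSet_run y hk⟩
  obtain ⟨p, q, r⟩ := x
  obtain ⟨p', q', r'⟩ := y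
  have h1 : q ≠ p := ne_of_sub_unit hx.1
  fin_cases i <;> fin_cases j <;> simp at hlt
  · have hp : p = p' ∨ p = q' := by simpa [faceSet] using h
    rcases hp with rfl | rfl
    · exact ⟨[], by decide, rfl⟩
    · exact ⟨[0], by decide, rfl⟩
  · have hp : p = p' ∨ p = q' ∨ p = r' := by simpa [faceSet] using h
    rcases hp with rfl | rfl | rfl
    · exact ⟨[], by decide, rfl⟩
    · exact ⟨[0], by decide, rfl⟩
    · exact ⟨[1, 0], by decide, rfl⟩
  · have hp : (p = p' ∨ p = q' ∨ p = r') ∧ (q = p' ∨ q = q' ∨ q = r') := by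
      simpa [faceSet, Finset.insert_subset_iff] using h
    obtain ⟨hp, hq⟩ := hp
    rcases hp with rfl | rfl | rfl <;> rcases hq with rfl | rfl | rfl <;>
      first
        | exact absurd rfl h1
        | exact ⟨[], by decide, rfl⟩
        | exact ⟨[0], by decide, rfl⟩
        | exact ⟨[1], by decide, rfl⟩
        | exact ⟨[0, 1], by decide, rfl⟩
        | exact ⟨[1, 0], by decide, rfl⟩
        | exact ⟨[0, 1, 0], by decide, rfl⟩

variable {s t : ℕ}

def tmk (s t : ℕ) (F : PlaneFace) : TorusFace s t := Quot.mk _ F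

theorem tmk_eq (hs : Adm s t) (F G : PlaneFace) :
    tmk s t F = tmk s t G ↔ ∃ l, Lat s t l ∧ G.1 = F.1.image (· + l) := by
  have hE : Equivalence fun F G : PlaneFace => ∃ l ∈ lattice s t, G.1 = F.1.image (· + l) := by
    refine ⟨fun F => ⟨0, zero_mem _, by simp⟩, ?_, ?_⟩
    · rintro F G ⟨l, hl, h⟩
      refine ⟨-l, neg_mem hl, ?_⟩
      rw [h, Finset.image_image]
      simp [Function.comp_def]
    · rintro F G H ⟨l, hl, h⟩ ⟨m, hm, h'⟩
      refine ⟨l + m, add_mem hl hm, ?_⟩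
      rw [h', h, Finset.image_image]
      simp [Function.comp_def, add_assoc]
  unfold tmk TorusFace
  rw [Quot.eq, hE.eqvGen_iff]
  simp only [mem_lattice hs]

def tf (s t : ℕ) (w : List (Fin 3)) (i : Fin 3) : TorusFace s t :=
  tmk s t (pf (fr w) (valid_fr w) i)

theorem tf_surj (a : TorusFace s t) : ∃ w i, a = tf s t w i := by
  induction a using Quot.ind with
  | mk F =>
    obtain ⟨x, hx, j, rfl⟩ := face_struct F
    obtain ⟨w, rfl⟩ := hx.exists_word
    exact ⟨w, j, rfl⟩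

theorem tf_eq_iff (hs : Adm s t) (w w' : List (Fin 3)) (i j : Fin 3) :
    tf s t w i = tf s t w' j ↔ i = j ∧ ∃ h, i ∉ h ∧ K s t (w'.reverse ++ (w ++ h)) := by
  rw [tf, tf, tmk_eq hs]
  constructor
  · rintro ⟨l, hl, h⟩
    simp only [pf] at h
    rw [← faceSet_shift] at h
    have hv : Valid (shift (fr w) l) := (valid_shift l).mpr (valid_fr w)
    have hij : i = j := by
      have := congrArg Finset.card h
      rw [hv.card_faceSet, (valid_fr w').card_faceSet] at this
      omega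
    subst hij
    obtain ⟨k, hk, h2⟩ := face_stab hv (valid_fr w') h
    refine ⟨rfl, k, hk, K_of_fr hl.neg ?_⟩
    rw [h2, run_shift, shift_shift, fr_append]
    simp
  · rintro ⟨rfl, h, hi, hK⟩
    obtain ⟨l, hl, h2⟩ := fr_of_K hK
    refine ⟨-l, hl.neg, ?_⟩
    simp only [pf]
    rw [← faceSet_shift, ← faceSet_run (shift (fr w) (-l)) hi, run_shift, ← fr_append, h2,
      shift_shift]
    simp

theorem tf_le_iff (hs : Adm s t) (w w' : List (Fin 3)) (i j : Fin 3) :
    tf s t w i ≤ tf s t w' j ↔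
      i ≤ j ∧ ∃ u, tf s t u i = tf s t w i ∧ tf s t u j = tf s t w' j := by
  constructor
  · rintro ⟨F, G, hF, hG, hFG⟩
    obtain ⟨x, hx, i', rfl⟩ := face_struct F
    obtain ⟨y, hy, j', rfl⟩ := face_struct G
    obtain ⟨a, rfl⟩ := hx.exists_word
    obtain ⟨b, rfl⟩ := hy.exists_word
    have hF' : tf s t a i' = tf s t w i := hF
    have hG' : tf s t b j' = tf s t w' j := hG
    obtain rfl := ((tf_eq_iff hs _ _ _ _).mp hF').1
    obtain rfl := ((tf_eq_iff hs _ _ _ _).mp hG').1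
    obtain ⟨hij, z, hz, h1, h2⟩ := face_sub hx hy hFG
    obtain ⟨u, rfl⟩ := hz.exists_word
    refine ⟨hij, u, ?_, ?_⟩
    · rw [← hF']
      exact congrArg (tmk s t) (Subtype.ext h1)
    · rw [← hG']
      exact congrArg (tmk s t) (Subtype.ext h2)
  · rintro ⟨hij, u, h1, h2⟩
    exact ⟨_, _, h1, h2, faceSet_mono _ hij⟩

theorem tf_append_avoid (_hs : Adm s t) (w : List (Fin 3)) {i : Fin 3} {h : List (Fin 3)}
    (hi : i ∉ h) : tf s t (w ++ h) i = tf s t w i := by
  apply congrArg (tmk s t) (Subtype.ext _)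
  simp only [pf]
  rw [fr_append, faceSet_run _ hi]

theorem tf_append_ne (hs : Adm s t) (w : List (Fin 3)) (i : Fin 3) :
    tf s t (w ++ [i]) i ≠ tf s t w i := by
  intro h
  obtain ⟨-, k, hk, l, hl, h2⟩ := (tf_eq_iff hs _ _ _ _).mp h
  rw [List.append_assoc, ← List.append_assoc w.reverse, fr_append, fr_append, fr,
    run_run_reverse sf_invol] at h2
  have key : ∀ i : Fin 3, ∀ k ∈ Stab i,
      fr [i] = shift (fr k) ((fr [i]).1 - (fr k).1) → (fr [i]).1 - (fr k).1 ∈ unitVecs := by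
    decide
  obtain ⟨k', hk', h3⟩ := fr_avoid i k.reverse (by simpa using hk)
  have h4 : fr [i] = shift (fr k') l := by
    rw [← h3, fr, fr, ← run_shift, ← h2, run_append, run_reverse_run sf_invol]
  have h5 : l = (fr [i]).1 - (fr k').1 := by
    rw [h4]
    simp [shift]
  exact hl.not_unit hs (h5 ▸ key i k' hk' (h5 ▸ h4))

theorem K_of_tf_eq (hs : Adm s t) {w w' : List (Fin 3)} (h : ∀ i, tf s t w i = tf s t w' i) :
    K s t (w'.reverse ++ w) := by
  obtain ⟨l, hl, h0⟩ := (tmk_eq hs _ _).mp (h 0)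
  obtain ⟨l1, hl1, h1⟩ := (tmk_eq hs _ _).mp (h 1)
  obtain ⟨l2, hl2, h2⟩ := (tmk_eq hs _ _).mp (h 2)
  apply K_of_fr hl.neg
  have hx := valid_fr w
  have hy := valid_fr w'
  simp only [pf] at h0 h1 h2
  generalize fr w = x at *
  generalize fr w' = y at *
  obtain ⟨p, q, r⟩ := x
  obtain ⟨p', q', r'⟩ := y
  simp only [faceSet, Finset.image_insert, Finset.image_singleton] at h0 h1 h2
  have hp : p' = p + l := by simpa using h0
  have hu : ∀ {m : Z2} {a : Z2}, Lat s t m → a - p ∈ unitVecs → p' ≠ a + m := by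
    intro m a hm ha hh
    apply (hl.sub hm).not_unit hs
    convert ha using 1
    linear_combination hh - hp
  have hq : q' = q + l := by
    rcases pair_eq h1 with ⟨h3, h4⟩ | ⟨h3, h4⟩
    · linear_combination h4 + hp - h3
    · exact absurd h3 (hu hl1 hx.1)
  have hl2l : l2 = l := by
    have : p' ∈ ({p + l2, q + l2, r + l2} : Finset Z2) := h2 ▸ (by simp)
    simp only [Finset.mem_insert, Finset.mem_singleton] at this
    rcases this with h3 | h3 | h3
    · linear_combination hp - h3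
    · exact absurd h3 (hu hl2 hx.1)
    · exact absurd h3 (hu hl2 hx.2.1)
  subst hl2l
  have hr : r' = r + l2 := by
    have : r' ∈ ({p + l2, q + l2, r + l2} : Finset Z2) := h2 ▸ (by simp)
    simp only [Finset.mem_insert, Finset.mem_singleton] at this
    rcases this with h3 | h3 | h3
    · exact absurd (h3.trans hp.symm) (ne_of_sub_unit hy.2.1)
    · exact absurd (h3.trans hq.symm) (ne_of_sub_unit hy.2.2)
    · exact h3
  simp [shift, hp, hq, hr]

theorem tf_eq_of_K (hs : Adm s t) {w w' : List (Fin 3)} (h : K s t (w'.reverse ++ w)) (i : Fin 3) :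
    tf s t w i = tf s t w' i :=
  (tf_eq_iff hs _ _ _ _).mpr ⟨rfl, [], by simp, by simpa using h⟩

theorem tf_chain (hs : Adm s t) {a b c : TorusFace s t} {w0 w1 w2 : List (Fin 3)}
    (ha : a = tf s t w0 0) (hb : b = tf s t w1 1) (hc : c = tf s t w2 2) (hab : a ≤ b)
    (hbc : b ≤ c) : ∃ w, a = tf s t w 0 ∧ b = tf s t w 1 ∧ c = tf s t w 2 := by
  subst ha hb hc
  obtain ⟨-, u, hu0, hu1⟩ := (tf_le_iff hs _ _ _ _).mp hab
  obtain ⟨-, u', hu1', hu2⟩ := (tf_le_iff hs _ _ _ _).mp hbc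
  obtain ⟨-, h, hh, hK⟩ := (tf_eq_iff hs _ _ _ _).mp (hu1.trans hu1'.symm)
  obtain ⟨k, hk, hhk⟩ := fr_avoid 1 h hh
  have hK' : K s t (u'.reverse ++ (u ++ k)) := by
    obtain ⟨l, hl, h2⟩ := fr_of_K hK
    apply K_of_fr hl
    rw [← h2, fr_append, fr_append, run_sf h, run_sf k, hhk]
  have key : ∀ k ∈ Stab 1, ∃ q ∈ ([[], [2]] : List (List (Fin 3))),
      ∃ p ∈ ([[], [0]] : List (List (Fin 3))), fr q = fr (k ++ p) ∧ 0 ∉ q ∧ 1 ∉ q ∧ 2 ∉ p := by
    decide
  obtain ⟨q, -, p, -, hqp, hq0, hq1, hp2⟩ := key k hk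
  refine ⟨u ++ q, ?_, ?_, ?_⟩
  · rw [tf_append_avoid hs _ hq0, hu0]
  · rw [tf_append_avoid hs _ hq1, hu1]
  · rw [← hu2, ← tf_eq_of_K hs hK' 2, ← tf_append_avoid hs (u ++ k) hp2]
    apply congrArg (tmk s t) (Subtype.ext _)
    simp only [pf]
    rw [List.append_assoc, fr_append, fr_append, run_sf q, run_sf (k ++ p), hqp]

end Pool.Agent.MP_6b3afb_co
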