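import Pool.Agent.MP_6b3afb_co.Words

namespace Pool.Agent.MP_6b3afb_co

abbrev Z2 := ℤ × ℤ

section group
variable {Γ : Type} [Group Γ]

structure Rel36 (f : Fin 3 → Γ) : Prop where
  inv : ∀ i, f i * f i = 1
  ab : (f 0 * f 1) ^ 3 = 1
  bc : (f 1 * f 2) ^ 6 = 1
  ac : (f 0 * f 2) ^ 2 = 1

def al36 : List (List (Fin 3)) :=
  [[0,1,0,1,0,1], [1,0,1,0,1,0], [1,2,1,2,1,2,1,2,1,2,1,2], [2,1,2,1,2,1,2,1,2,1,2,1],
   [0,2,0,2], [2,0,2,0]]

theorem Rel36.al {f : Fin 3 → Γ} (h : Rel36 f) : ∀ r ∈ al36, ev f r = 1 := by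
  have h0 : ev f [0,1,0,1,0,1] = 1 := by rw [← h.ab]; simp [pow_succ, mul_assoc]
  have h2 : ev f [1,2,1,2,1,2,1,2,1,2,1,2] = 1 := by rw [← h.bc]; simp [pow_succ, mul_assoc]
  have h4 : ev f [0,2,0,2] = 1 := by rw [← h.ac]; simp [pow_succ, mul_assoc]
  intro r hr
  simp only [al36, List.mem_cons, List.not_mem_nil, or_false] at hr
  rcases hr with rfl | rfl | rfl | rfl | rfl | rfl
  · exact h0
  · exact ev_rotate_eq_one h0 1
  · exact h2
  · exact ev_rotate_eq_one h2 1
  · exact h4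
  · exact ev_rotate_eq_one h4 1

theorem Rel36.eq_of_cert {f : Fin 3 → Γ} (h : Rel36 f) (u w : List (Fin 3)) (st : List (ℕ × ℕ))
    (hc : rewr al36 st (u ++ w.reverse) = []) : ev f u = ev f w := by
  have := ev_rewr h.inv al36 h.al st (u ++ w.reverse)
  rw [hc, ev_append, ev_reverse h.inv, ev_nil] at this
  exact (mul_inv_eq_one.mp this.symm)

def T0 : List (Fin 3) := [0,1,2,1,2,1]
def T1 : List (Fin 3) := [0,1,2,0,1,2]

def tau (f : Fin 3 → Γ) (l : Z2) : Γ := ev f T0 ^ l.1 * ev f T1 ^ l.2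

theorem Rel36.comm {f : Fin 3 → Γ} (h : Rel36 f) : Commute (ev f T0) (ev f T1) := by
  have := h.eq_of_cert (T0 ++ T1) (T1 ++ T0) [(10, 3), (8, 4), (5, 0), (4, 4), (6, 4), (3, 0)]
    (by decide)
  simpa [Commute, SemiconjBy] using this

theorem Rel36.tau_add {f : Fin 3 → Γ} (h : Rel36 f) (l m : Z2) :
    tau f (l + m) = tau f l * tau f m := by
  simp only [tau, Prod.fst_add, Prod.snd_add, zpow_add]
  have := (h.comm.zpow_zpow m.1 l.2).eq
  calc _ = ev f T0 ^ l.1 * (ev f T0 ^ m.1 * ev f T1 ^ l.2) * ev f T1 ^ m.2 := by group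
    _ = _ := by rw [this]; group

@[simp] theorem tau_zero (f : Fin 3 → Γ) : tau f 0 = 1 := by simp [tau]

theorem Rel36.tau_neg {f : Fin 3 → Γ} (h : Rel36 f) (l : Z2) : tau f (-l) = (tau f l)⁻¹ := by
  rw [eq_inv_iff_mul_eq_one, ← h.tau_add, neg_add_cancel, tau_zero]

theorem Rel36.b_tau {f : Fin 3 → Γ} (h : Rel36 f) (l : Z2) :
    f 1 * tau f l = tau f (l.2, l.1) * f 1 := by
  have h0 : SemiconjBy (f 1) (ev f T0) (ev f T1) := by
    have := h.eq_of_cert ([1] ++ T0) (T1 ++ [1]) [(3, 4), (0, 0)] (by decide)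
    simpa [SemiconjBy] using this
  have h1 : SemiconjBy (f 1) (ev f T1) (ev f T0) := by
    have := h.eq_of_cert ([1] ++ T1) (T0 ++ [1]) [(3, 4), (0, 0)] (by decide)
    simpa [SemiconjBy] using this
  have := ((h0.zpow_right l.1).mul_right (h1.zpow_right l.2)).eq
  rw [tau, this, tau, (h.comm.zpow_zpow l.2 l.1).eq]

theorem Rel36.c_tau {f : Fin 3 → Γ} (h : Rel36 f) (l : Z2) :
    f 2 * tau f l = tau f (l.1 + l.2, -l.2) * f 2 := by
  have h0 : SemiconjBy (f 2) (ev f T0) (ev f T0) := by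
    have := h.eq_of_cert ([2] ++ T0) (T0 ++ [2]) [(2, 3), (0, 4)] (by decide)
    simpa [SemiconjBy] using this
  have h1 : SemiconjBy (f 2) (ev f T1) (ev f T0 * (ev f T1)⁻¹) := by
    have := h.eq_of_cert ([2] ++ T1) (T0 ++ T1.reverse ++ [2]) [(12, 3), (8, 4), (4, 1), (0, 4)]
      (by decide)
    rw [ev_append, ev_append, ev_append, ev_reverse h.inv] at this
    simpa [SemiconjBy] using this
  have := ((h0.zpow_right l.1).mul_right (h1.zpow_right l.2)).eq
  rw [tau, this, tau, h.comm.inv_right.mul_zpow]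
  simp only [zpow_add, zpow_neg, inv_zpow', mul_assoc]

theorem Rel36.a_eq {f : Fin 3 → Γ} (h : Rel36 f) : f 0 = tau f (1, 0) * ev f [1,2,1,2,1] := by
  have := h.eq_of_cert [0] (T0 ++ [1,2,1,2,1]) [] (by decide)
  simpa [tau] using this

theorem Rel36.d_tau {f : Fin 3 → Γ} (h : Rel36 f) (d : List (Fin 3)) (hd : (0 : Fin 3) ∉ d)
    (l : Z2) : ∃ m, ev f d * tau f l = tau f m * ev f d := by
  induction d with
  | nil => exact ⟨l, by simp⟩
  | cons i d ih =>
    obtain ⟨m, hm⟩ := ih (fun hh => hd (by simp [hh]))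
    have hi : i = 1 ∨ i = 2 := by
      have : i ≠ 0 := fun hh => hd (by simp [hh])
      omega
    rcases hi with rfl | rfl
    · exact ⟨_, by rw [ev_cons, mul_assoc, hm, ← mul_assoc, h.b_tau, mul_assoc]⟩
    · exact ⟨_, by rw [ev_cons, mul_assoc, hm, ← mul_assoc, h.c_tau, mul_assoc]⟩

theorem Rel36.nf0 {f : Fin 3 → Γ} (h : Rel36 f) (w : List (Fin 3)) :
    ∃ l d, (0 : Fin 3) ∉ d ∧ ev f w = tau f l * ev f d := by
  induction w using List.reverseRecOn with
  | nil => exact ⟨0, [], by simp, by simp⟩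
  | append_singleton w i ih =>
    obtain ⟨l, d, hd, hw⟩ := ih
    by_cases hi : i = 0
    · subst hi
      obtain ⟨m, hm⟩ := h.d_tau d hd (1, 0)
      refine ⟨l + m, d ++ [1,2,1,2,1], by simpa using hd, ?_⟩
      rw [ev_append, hw, ev_cons, ev_nil, mul_one, h.a_eq, h.tau_add, ev_append, mul_assoc,
        ← mul_assoc (ev f d), hm]
      simp only [mul_assoc]
    · refine ⟨l, d ++ [i], by simp [hd, Ne.symm hi], ?_⟩
      rw [ev_append, hw, ev_append, mul_assoc]

def D12 : List (List (Fin 3)) :=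
  [[], [1], [2], [1,2], [2,1], [1,2,1], [2,1,2], [1,2,1,2], [2,1,2,1], [1,2,1,2,1], [2,1,2,1,2],
   [1,2,1,2,1,2]]

theorem Rel36.dih {f : Fin 3 → Γ} (h : Rel36 f) (d : List (Fin 3)) (hd : (0 : Fin 3) ∉ d) :
    ∃ k ∈ D12, ev f d = ev f k := by
  induction d with
  | nil => exact ⟨[], by simp [D12], rfl⟩
  | cons i d ih =>
    obtain ⟨k, hk, hdk⟩ := ih (fun hh => hd (by simp [hh]))
    have hi : i ≠ 0 := fun hh => hd (by simp [hh])
    have key : ∀ k ∈ D12, ∀ i : Fin 3, i ≠ 0 → ∃ k' ∈ D12,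
        rewr al36 [] ((i :: k) ++ k'.reverse) = [] ∨
        rewr al36 [(0, 2)] ((i :: k) ++ k'.reverse) = [] := by decide
    obtain ⟨k', hk', h1⟩ := key k hk i hi
    refine ⟨k', hk', ?_⟩
    rw [ev_cons, hdk, ← ev_cons]
    rcases h1 with h1 | h1
    · exact h.eq_of_cert _ _ _ h1
    · exact h.eq_of_cert _ _ _ h1

theorem Rel36.nf {f : Fin 3 → Γ} (h : Rel36 f) (w : List (Fin 3)) :
    ∃ l, ∃ k ∈ D12, ev f w = tau f l * ev f k := by
  obtain ⟨l, d, hd, hw⟩ := h.nf0 w
  obtain ⟨k, hk, hdk⟩ := h.dih d hd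
  exact ⟨l, k, hk, by rw [hw, hdk]⟩

theorem Rel36.prod {Δ : Type} [Group Δ] {f : Fin 3 → Γ} {g : Fin 3 → Δ} (h : Rel36 f)
    (h' : Rel36 g) : Rel36 (fun i => (f i, g i)) where
  inv i := Prod.ext (h.inv i) (h'.inv i)
  ab := Prod.ext h.ab h'.ab
  bc := Prod.ext h.bc h'.bc
  ac := Prod.ext h.ac h'.ac

theorem map_tau {Δ : Type} [Group Δ] (φ : Γ →* Δ) (f : Fin 3 → Γ) (l : Z2) :
    φ (tau f l) = tau (fun i => φ (f i)) l := by
  simp [tau, map_ev]

theorem Rel36.map {Δ : Type} [Group Δ] {f : Fin 3 → Γ} (h : Rel36 f) (φ : Γ →* Δ) :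
    Rel36 (fun i => φ (f i)) where
  inv i := by rw [← map_mul, h.inv, map_one]
  ab := by rw [← map_mul, ← map_pow, h.ab, map_one]
  bc := by rw [← map_mul, ← map_pow, h.bc, map_one]
  ac := by rw [← map_mul, ← map_pow, h.ac, map_one]

theorem Rel36.nf2 {Δ : Type} [Group Δ] {f : Fin 3 → Γ} {g : Fin 3 → Δ} (h : Rel36 f)
    (h' : Rel36 g) (w : List (Fin 3)) :
    ∃ l, ∃ k ∈ D12, ev f w = tau f l * ev f k ∧ ev g w = tau g l * ev g k := by
  obtain ⟨l, k, hk, hw⟩ := (h.prod h').nf w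
  refine ⟨l, k, hk, ?_, ?_⟩
  · have := congrArg (MonoidHom.fst Γ Δ) hw
    rw [map_mul, map_ev, map_ev, map_tau] at this
    exact this
  · have := congrArg (MonoidHom.snd Γ Δ) hw
    rw [map_mul, map_ev, map_ev, map_tau] at this
    exact this

end group

/-! ### frames -/

abbrev Fr := Z2 × Z2 × Z2

def sf : Fin 3 → Fr → Fr
  | 0, x => (x.2.1, x.1, x.2.2)
  | 1, x => (x.1, x.2.2, x.2.1)
  | 2, x => (x.1, x.2.1, x.1 + x.2.1 - x.2.2)

theorem sf_invol (i : Fin 3) : Function.Involutive (sf i) := by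
  intro x
  fin_cases i <;> simp [sf]

def base : Fr := ((0, 0), (1, 0), (0, 1))
def fr (w : List (Fin 3)) : Fr := run sf w base
def lin (x : Fr) (z : Z2) : Z2 := z.1 • (x.2.1 - x.1) + z.2 • (x.2.2 - x.1)
def aff (x : Fr) (z : Z2) : Z2 := x.1 + lin x z
def affX (x y : Fr) : Fr := (aff x y.1, aff x y.2.1, aff x y.2.2)
def shift (x : Fr) (l : Z2) : Fr := (x.1 + l, x.2.1 + l, x.2.2 + l)

theorem lin_add (x : Fr) (z z' : Z2) : lin x (z + z') = lin x z + lin x z' := by
  ext <;> simp [lin] <;> ring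

theorem affX_sf (x : Fr) (i : Fin 3) (y : Fr) : affX x (sf i y) = sf i (affX x y) := by
  fin_cases i <;> simp [sf, affX, aff, lin] <;> ext <;> simp <;> ring

theorem affX_base (x : Fr) : affX x base = x := by
  simp [affX, aff, lin, base]

theorem run_sf (w : List (Fin 3)) (x : Fr) : run sf w x = affX x (fr w) := by
  rw [fr, run_semiconj (affX x) (affX_sf x), affX_base]

theorem affX_shift (x y : Fr) (l : Z2) : affX x (shift y l) = shift (affX x y) (lin x l) := by
  simp [affX, shift, aff, lin_add, add_assoc]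

theorem shift_sf (i : Fin 3) (y : Fr) (l : Z2) : shift (sf i y) l = sf i (shift y l) := by
  fin_cases i <;> simp [sf, shift]
  abel

theorem run_shift (w : List (Fin 3)) (y : Fr) (l : Z2) :
    run sf w (shift y l) = shift (run sf w y) l :=
  (run_semiconj (fun y => shift y l) (fun i y => shift_sf i y l) w y).symm

theorem shift_shift (x : Fr) (l m : Z2) : shift (shift x l) m = shift x (l + m) := by
  simp [shift, add_assoc]

@[simp] theorem shift_zero (x : Fr) : shift x 0 = x := by simp [shift]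

theorem lin_shift (x : Fr) (l z : Z2) : lin (shift x l) z = lin x z := by
  simp [lin, shift]

theorem lin_base (z : Z2) : lin base z = z := by simp [lin, base]

theorem fr_append (u w : List (Fin 3)) : fr (u ++ w) = run sf w (fr u) := run_append _ _ _ _

def sp (i : Fin 3) : Equiv.Perm Fr := (sf_invol i).toPerm

theorem sp_apply (i : Fin 3) (x : Fr) : sp i x = sf i x := rfl

theorem rel36_sp : Rel36 sp where
  inv i := by ext1 x; exact sf_invol i x
  ab := by ext1 x; simp [pow_succ, sp_apply, sf]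
  bc := by
    ext1 x
    simp only [pow_succ, pow_zero, one_mul, Equiv.Perm.mul_apply, sp_apply, sf,
      Equiv.Perm.one_apply]
    ext <;> simp <;> ring
  ac := by
    ext1 x
    simp only [pow_succ, pow_zero, one_mul, Equiv.Perm.mul_apply, sp_apply, sf,
      Equiv.Perm.one_apply]
    ext <;> simp <;> ring

theorem ev_sp_inv (w : List (Fin 3)) (x : Fr) : (ev sp w)⁻¹ x = run sf w x :=
  ev_perm_inv_apply sf_invol w x

theorem zpow_shift (g : Equiv.Perm Fr) (e : Z2) (hg : ∀ x, g x = shift x (lin x e)) (n : ℤ)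
    (x : Fr) : (g ^ n) x = shift x (n • lin x e) := by
  have hinv : ∀ x, g⁻¹ x = shift x (-lin x e) := by
    intro x
    rw [Equiv.Perm.inv_eq_iff_eq, hg, lin_shift, shift_shift]
    simp
  induction n using Int.induction_on generalizing x with
  | zero => simp
  | succ n ih =>
    rw [zpow_add_one, Equiv.Perm.mul_apply, ih, hg, lin_shift, shift_shift]
    congr 1
    rw [add_smul, one_smul, add_comm]
  | pred n ih =>
    rw [zpow_sub_one, Equiv.Perm.mul_apply, ih, hinv, lin_shift, shift_shift]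
    congr 1
    rw [sub_smul, one_smul]
    abel

theorem fr_T0 : fr T0 = shift base (1, 0) := by decide
theorem fr_T1 : fr T1 = shift base (0, 1) := by decide

theorem run_of_fr_shift {w : List (Fin 3)} {l : Z2} (h : fr w = shift base l) (x : Fr) :
    run sf w x = shift x (lin x l) := by
  rw [run_sf, h, affX_shift, affX_base]

theorem tau_sp_inv (l : Z2) (x : Fr) : (tau sp l)⁻¹ x = shift x (lin x l) := by
  have h0 : ∀ x, (ev sp T0)⁻¹ x = shift x (lin x (1, 0)) := fun x => by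
    rw [ev_sp_inv, run_of_fr_shift fr_T0]
  have h1 : ∀ x, (ev sp T1)⁻¹ x = shift x (lin x (0, 1)) := fun x => by
    rw [ev_sp_inv, run_of_fr_shift fr_T1]
  rw [tau, mul_inv_rev, ← inv_zpow, ← inv_zpow, Equiv.Perm.mul_apply, zpow_shift _ _ h0,
    zpow_shift _ _ h1, lin_shift, shift_shift]
  congr 1
  simp [lin]

theorem Rel36.nf_fr {Γ : Type} [Group Γ] {f : Fin 3 → Γ} (h : Rel36 f) (w : List (Fin 3)) :
    ∃ l, ∃ k ∈ D12, ev f w = tau f l * ev f k ∧ fr w = shift (fr k) l := by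
  obtain ⟨l, k, hk, h1, h2⟩ := h.nf2 rel36_sp w
  refine ⟨l, k, hk, h1, ?_⟩
  rw [fr, ← ev_sp_inv, h2, mul_inv_rev, Equiv.Perm.mul_apply, tau_sp_inv, ev_sp_inv, lin_base,
    run_shift]
  rfl

theorem D12_fst : ∀ k ∈ D12, (fr k).1 = 0 := by decide
theorem D12_base : ∀ k ∈ D12, fr k = base → k = [] := by decide

theorem Rel36.key {Γ : Type} [Group Γ] {f : Fin 3 → Γ} (h : Rel36 f) {w : List (Fin 3)} {l : Z2}
    (hw : fr w = shift base l) : ev f w = tau f l := by
  obtain ⟨m, k, hk, h1, h2⟩ := h.nf_fr w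
  have h3 : m = l := by
    have := congrArg Prod.fst (h2.symm.trans hw)
    simpa [shift, D12_fst k hk, base, Prod.mk_zero_zero] using this
  subst h3
  have h4 : fr k = base := by
    have := congrArg (fun y => shift y (-m)) (h2.symm.trans hw)
    simpa [shift_shift] using this
  rw [h1, D12_base k hk h4]
  simp

theorem exists_transl (l : Z2) : ∃ w, fr w = shift base l := by
  have hadd : ∀ {u w : List (Fin 3)} {l m : Z2}, fr u = shift base l → fr w = shift base m →
      fr (u ++ w) = shift base (l + m) := by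
    intro u w l m hu hw
    rw [fr_append, run_of_fr_shift hw, hu, lin_shift, lin_base, shift_shift]
  have hz : ∀ (e : Z2) (u u' : List (Fin 3)), fr u = shift base e → fr u' = shift base (-e) →
      ∀ n : ℤ, ∃ w, fr w = shift base (n • e) := by
    intro e u u' hu hu' n
    induction n using Int.induction_on with
    | zero => exact ⟨[], by simp [fr]⟩
    | succ n ih =>
      obtain ⟨w, hw⟩ := ih
      exact ⟨w ++ u, by rw [hadd hw hu, add_smul, one_smul]⟩
    | pred n ih =>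
      obtain ⟨w, hw⟩ := ih
      exact ⟨w ++ u', by rw [hadd hw hu', sub_smul, one_smul, sub_eq_add_neg]⟩
  obtain ⟨w0, h0⟩ := hz (1, 0) T0 T0.reverse fr_T0 (by decide) l.1
  obtain ⟨w1, h1⟩ := hz (0, 1) T1 T1.reverse fr_T1 (by decide) l.2
  refine ⟨w0 ++ w1, ?_⟩
  rw [hadd h0 h1]
  congr 1
  simp

theorem Rel36.eq_of_fr_eq {Γ : Type} [Group Γ] {f : Fin 3 → Γ} (h : Rel36 f)
    {u w : List (Fin 3)} (huw : fr u = fr w) : ev f u = ev f w := by
  have : fr (u ++ w.reverse) = shift base 0 := by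
    rw [fr_append, huw, fr, run_reverse_run sf_invol, shift_zero]
  have := h.key this
  rw [ev_append, ev_reverse h.inv, tau_zero] at this
  exact mul_inv_eq_one.mp this

/-! ### valid frames -/

def Valid (x : Fr) : Prop :=
  x.2.1 - x.1 ∈ unitVecs ∧ x.2.2 - x.1 ∈ unitVecs ∧ x.2.2 - x.2.1 ∈ unitVecs

instance : DecidablePred Valid := fun x => by unfold Valid; infer_instance

theorem neg_mem_unit : ∀ e ∈ unitVecs, -e ∈ unitVecs := by decide

theorem sub_mem_unit_comm {x y : Z2} (h : x - y ∈ unitVecs) : y - x ∈ unitVecs := by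
  simpa using neg_mem_unit _ h

theorem Valid.sf {x : Fr} (h : Valid x) (i : Fin 3) : Valid (sf i x) := by
  obtain ⟨h1, h2, h3⟩ := h
  fin_cases i
  · exact ⟨sub_mem_unit_comm h1, h3, h2⟩
  · exact ⟨h2, h1, sub_mem_unit_comm h3⟩
  · refine ⟨h1, ?_, ?_⟩
    · have := sub_mem_unit_comm h3
      convert this using 1
      simp [MP_6b3afb_co.sf]
      abel
    · have := sub_mem_unit_comm h2
      convert this using 1
      simp [MP_6b3afb_co.sf]
      abel

theorem Valid.run {x : Fr} (h : Valid x) (w : List (Fin 3)) : Valid (run MP_6b3afb_co.sf w x) :=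
  run_invariant Valid w (fun i _ _ hx => hx.sf i) x h

theorem valid_fr (w : List (Fin 3)) : Valid (fr w) := Valid.run (by decide) w

theorem valid_shift {x : Fr} (l : Z2) : Valid (shift x l) ↔ Valid x := by
  simp [Valid, shift]

theorem Valid.exists_D12 {x : Fr} (h : Valid x) : ∃ k ∈ D12, x = shift (fr k) x.1 := by
  have key : ∀ e ∈ unitVecs, ∀ e' ∈ unitVecs, e' - e ∈ unitVecs →
      ∃ k ∈ D12, fr k = (0, e, e') := by decide
  obtain ⟨k, hk, hk'⟩ := key _ h.1 _ h.2.1 (by simpa using h.2.2)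
  exact ⟨k, hk, by rw [hk']; simp [shift]⟩

theorem Valid.exists_word {x : Fr} (h : Valid x) : ∃ w, fr w = x := by
  obtain ⟨k, -, hk⟩ := h.exists_D12
  obtain ⟨w, hw⟩ := exists_transl x.1
  refine ⟨w ++ k, ?_⟩
  rw [fr_append, hw, run_shift]
  exact hk.symm

end Pool.Agent.MP_6b3afb_co
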