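import Pool.Agent.MP_6b3afb_co.Tab

set_option synthInstance.maxSize 4000

namespace Pool.Agent.MP_6b3afb_co

/-! ### coset enumeration certificates without coincidences -/

noncomputable def tm (e : ℕ) : ℕ := Nat.mod (Nat.shiftRight e 17) 524288

noncomputable def ent (tb : ℕ → ℕ) (x : ℕ) (g : Fin 4) : ℕ := tb (Nat.add (Nat.mul 4 x) g.val)

noncomputable def trU (tb : ℕ → ℕ) (n t x0 : ℕ) (w : List (Fin 4)) : ℕ → Bool :=
  List.rec (fun x => Nat.beq x x0)
    (fun g _ ih x => and (Nat.blt x n) <| and (Nat.blt (tm (ent tb x g)) t) (ih (im tb x g))) w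

noncomputable def getW {α : Type} (al : List (List α)) : ℕ → List α :=
  List.rec (fun _ => []) (fun w _ ih k => Nat.rec w (fun k' _ => ih k') k) al

theorem getW_mem {α : Type} (al : List (List α)) (k : ℕ) : getW al k = [] ∨ getW al k ∈ al := by
  induction al generalizing k with
  | nil => exact Or.inl rfl
  | cons w al ih =>
    cases k with
    | zero => exact Or.inr (List.mem_cons_self ..)
    | succ k => exact (ih k).imp id (List.mem_cons_of_mem _)

noncomputable def pg (tb : ℕ → ℕ) (x : ℕ) : ℕ := Nat.shiftRight (tb (Nat.mul 4 x)) 42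

noncomputable def uent (tb : ℕ → ℕ) (n : ℕ) (sub : Bool) (al : List (List (Fin 4))) (x : ℕ)
    (g : Fin 4) : Bool :=
  Nat.rec (and (Nat.beq g.val (pg tb x)) (Nat.blt (im tb x g) x))
    (fun j1 _ => Nat.rec
      (and (and sub (Nat.blt 0 g.val)) (and (Nat.beq x 0) (Nat.beq (im tb x g) 0)))
      (fun j2 _ => Nat.rec (trU tb n (tm (ent tb x g)) x [g] (im tb x g))
        (fun k _ => List.rec false (fun g' w _ => and (Nat.beq g'.val g.val)
          (trU tb n (tm (ent tb x g)) x w (im tb x g))) (getW al k)) j2) j1)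
    (Nat.mod (Nat.shiftRight (ent tb x g) 36) 64)

noncomputable def uchk (tb : ℕ → ℕ) (n : ℕ) (sub : Bool) (al : List (List (Fin 4))) (x : ℕ) :
    Bool :=
  or (Nat.ble n x) <| and (uent tb n sub al x 0) <| and (uent tb n sub al x 1) <|
    and (uent tb n sub al x 2) <| and (uent tb n sub al x 3) <|
    or (Nat.beq x 0) (or (Nat.blt (im tb x 0) x) <| or (Nat.blt (im tb x 1) x) <|
      or (Nat.blt (im tb x 2) x) (Nat.blt (im tb x 3) x))

noncomputable def cs {X : Type} (tb : ℕ → ℕ) (r : Fin 4 → X → X) (x0 : X) (x : ℕ) : X :=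
  if _h : im tb x (Fin.ofNat 4 (pg tb x)) < x then
    r (Fin.ofNat 4 (pg tb x)) (cs tb r x0 (im tb x (Fin.ofNat 4 (pg tb x)))) else x0

theorem cs_zero {X : Type} (tb : ℕ → ℕ) (r : Fin 4 → X → X) (x0 : X) : cs tb r x0 0 = x0 := by
  rw [cs, dif_neg (Nat.not_lt_zero _)]

theorem u_sound {X : Type} {tb : ℕ → ℕ} {n : ℕ} {sub : Bool} {al : List (List (Fin 4))}
    (r : Fin 4 → X → X) (hr : ∀ i, Function.Involutive (r i)) (x0 : X)
    (hal : ∀ w ∈ al, ∀ z, run r w z = z) (hsub : sub = true → ∀ g, g ≠ 0 → r g x0 = x0)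
    (h : ∀ x < n, uchk tb n sub al x = true) (x : ℕ) (hx : x < n) (g : Fin 4) :
    r g (cs tb r x0 x) = cs tb r x0 (im tb x g) := by
  have H : ∀ x < n, ∀ g, uent tb n sub al x g = true := by
    intro x hx g
    have := h x hx
    simp only [uchk, Bool.or_eq_true, Bool.and_eq_true, Nat.ble_eq] at this
    obtain ⟨h0, h1, h2, h3, -⟩ := this.resolve_left (by omega)
    fin_cases g <;> assumption
  induction ht : tm (ent tb x g) using Nat.strong_induction_on generalizing x g with
  | _ t ih =>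
  have tr : ∀ w y, trU tb n t x w y = true → run r w (cs tb r x0 y) = cs tb r x0 x := by
    intro w
    induction w with
    | nil =>
      intro y e
      rw [Nat.eq_of_beq_eq_true e]
      rfl
    | cons a w ihw =>
      intro y e
      have e' : (Nat.blt y n && (Nat.blt (tm (ent tb y a)) t && trU tb n t x w (im tb y a))) = true :=
        e
      simp only [Bool.and_eq_true, Nat.blt_eq] at e'
      rw [run_cons, ih _ e'.2.1 y e'.1 a rfl, ihw _ e'.2.2]
  have H1 := H x hx g
  unfold uent at H1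
  rw [ht] at H1
  generalize Nat.mod (Nat.shiftRight (ent tb x g) 36) 64 = j at H1
  rcases j with _ | _ | _ | k
  · simp only [Nat.rec_zero, Bool.and_eq_true, Nat.beq_eq, Nat.blt_eq] at H1
    have e : Fin.ofNat 4 (pg tb x) = g := by
      rw [← H1.1]
      exact Fin.ext (Nat.mod_eq_of_lt g.2)
    rw [cs, e, dif_pos H1.2, hr]
  · simp only [Nat.rec_zero, Bool.and_eq_true, Nat.beq_eq, Nat.blt_eq] at H1
    rw [H1.2.2, H1.2.1, cs_zero]
    exact hsub H1.1.1 g (Fin.pos_iff_ne_zero.mp H1.1.2)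
  · rw [← tr _ _ H1]
    exact hr g _
  · simp only at H1
    rcases hw : getW al k with _ | ⟨g', w⟩
    · rw [hw] at H1
      exact absurd H1 (by simp)
    · rw [hw] at H1
      simp only [Bool.and_eq_true, Nat.beq_eq] at H1
      obtain rfl : g' = g := Fin.ext H1.1
      have := hal _ ((getW_mem al k).resolve_left (by simp [hw])) (r g' (cs tb r x0 (im tb x g')))
      rw [hw, run_cons, hr, tr _ _ H1.2] at this
      rw [this, hr]

theorem u_run {X : Type} {tb : ℕ → ℕ} {n : ℕ} {r : Fin 4 → X → X} {x0 : X}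
    (hlt : ∀ x < n, ∀ g, im tb x g < n)
    (h : ∀ x < n, ∀ g, r g (cs tb r x0 x) = cs tb r x0 (im tb x g)) (w : List (Fin 4)) (x : ℕ)
    (hx : x < n) : trc tb w x < n ∧ run r w (cs tb r x0 x) = cs tb r x0 (trc tb w x) := by
  induction w generalizing x with
  | nil => exact ⟨hx, rfl⟩
  | cons g w ih =>
    rw [run_cons, h x hx]
    exact ih _ (hlt x hx g)

/-! ### allowed words -/

def rots {α : Type} (ws : List (List α)) : List (List α) :=
  ws.flatMap fun w => (List.range w.length).flatMap fun n =>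
    [w.drop n ++ w.take n, (w.drop n ++ w.take n).reverse]

theorem ev_rots {ι Γ : Type} [Group Γ] {f : ι → Γ} (hf : ∀ i, f i * f i = 1) {ws : List (List ι)}
    (h : ∀ w ∈ ws, ev f w = 1) : ∀ w ∈ rots ws, ev f w = 1 := by
  intro w hw
  simp only [rots, List.mem_flatMap, List.mem_cons, List.not_mem_nil, or_false] at hw
  obtain ⟨u, hu, n, -, rfl | rfl⟩ := hw
  · exact ev_rotate_eq_one (h u hu) n
  · rw [ev_reverse hf, ev_rotate_eq_one (h u hu) n, inv_one]

def bwA (s t : ℕ) : List (List (Fin 4)) :=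
  [[0,3,0,3], [3,2,3,2,3,2], [3,1,3,1], [0,1,0,1,0,1], [1,2,1,2,1,2,1,2,1,2,1,2], [0,2,0,2],
    (torWord s t).map posA]

def bwAB (s t u v : ℕ) : List (List (Fin 4)) := (torWord u v).map posB :: bwA s t

variable {s t u v : ℕ}

theorem ev_bwAB : ∀ w ∈ bwAB s t u v, ev (rho s t u v) w = 1 := by
  have hr := rel363_rho (s := s) (t := t) (u := u) (v := v)
  intro w hw
  simp only [bwAB, bwA, List.mem_cons, List.not_mem_nil, or_false] at hw
  rcases hw with rfl | rfl | rfl | rfl | rfl | rfl | rfl | rfl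
  · rw [← ev_fB, ev_torWord]; exact hr.B.tor
  · simpa [pow_succ, mul_assoc] using hr.ad
  · exact (ev_fB _ [0,1,0,1,0,1]).symm.trans (hr.B.toRel36.al _ (by decide))
  · exact (ev_fB _ [0,2,0,2]).symm.trans (hr.B.toRel36.al _ (by decide))
  · exact (ev_fA _ [0,1,0,1,0,1]).symm.trans (hr.A.toRel36.al _ (by decide))
  · exact (ev_fA _ [1,2,1,2,1,2,1,2,1,2,1,2]).symm.trans (hr.A.toRel36.al _ (by decide))
  · exact (ev_fA _ [0,2,0,2]).symm.trans (hr.A.toRel36.al _ (by decide))
  · rw [← ev_fA, ev_torWord]; exact hr.A.tor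

theorem ev_of_AB {al : List (List (Fin 4))} (h : ∀ w ∈ al, w ∈ rots (bwAB s t u v)) :
    ∀ w ∈ al, ev (rho s t u v) w = 1 :=
  fun w hw => ev_rots rel363_rho.inv ev_bwAB w (h w hw)

theorem ev_of_A {al : List (List (Fin 4))} (h : ∀ w ∈ al, w ∈ rots (bwA s t)) (u v : ℕ) :
    ∀ w ∈ al, ev (rho s t u v) w = 1 :=
  fun w hw => ev_rots rel363_rho.inv (fun w hw => ev_bwAB w (List.mem_cons_of_mem _ hw)) w (h w hw)

theorem run_smul {Γ X ι : Type} [Group Γ] [MulAction Γ X] {f : ι → Γ} (hf : ∀ i, f i * f i = 1)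
    (w : List ι) (z : X) : run (fun g z => f g • z) w z = (ev f w)⁻¹ • z := by
  induction w generalizing z with
  | nil => simp
  | cons g w ih => rw [run_cons, ih, ev_cons, mul_inv_rev, mul_smul,
      inv_eq_of_mul_eq_one_right (hf g)]

theorem smul_invol {Γ X ι : Type} [Group Γ] [MulAction Γ X] {f : ι → Γ} (hf : ∀ i, f i * f i = 1)
    (i : ι) : Function.Involutive fun z : X => f i • z := fun z => by
  simp only [← mul_smul, hf, one_smul]

theorem ev_eq_one_of_tab {tb : ℕ → ℕ} {n : ℕ} {al : List (List (Fin 4))} (hn : 0 < n)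
    (hal : ∀ w ∈ al, ev (rho s t u v) w = 1) (hlt : ∀ x < n, ∀ g, im tb x g < n)
    (h : ∀ x < n, uchk tb n false al x = true) {w : List (Fin 4)} (hw : trc tb w 0 = 0) :
    ev (rho s t u v) w = 1 := by
  have hi := (rel363_rho (s := s) (t := t) (u := u) (v := v)).inv
  have := (u_run hlt (u_sound (fun g (z : G s t u v) => rho s t u v g • z) (smul_invol hi) 1
    (fun w hw z => by rw [run_smul hi, hal w hw]; simp) (by simp) h) w 0 hn).2
  rw [hw, cs_zero, run_smul hi] at this
  simpa using this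

def HS (s t u v : ℕ) (sub : Bool) : Subgroup (G s t u v) where
  carrier := {g | In (rho s t u v) (if sub then {1, 2, 3} else ∅) g}
  mul_mem' := In.mul
  one_mem' := In.one _ _
  inv_mem' := In.inv rel363_rho.inv

theorem TabAct.index {tb : ℕ → ℕ} {n : ℕ} (T : TabAct s t u v tb n) {sub : Bool}
    {al : List (List (Fin 4))} (hn : 0 < n) (hal : ∀ w ∈ al, ev (rho s t u v) w = 1)
    (hsub : sub = true → ∀ g, g ≠ 0 → im tb 0 g = 0)
    (h : ∀ x < n, uchk tb n sub al x = true) :
    Nat.card (G s t u v) = n * Nat.card (HS s t u v sub) := by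
  have hi := (rel363_rho (s := s) (t := t) (u := u) (v := v)).inv
  rw [Subgroup.card_eq_card_quotient_mul_card_subgroup (HS s t u v sub)]
  congr 1
  have hlt : ∀ x < n, ∀ g, im tb x g < n := fun x hx g => T.val g ⟨x, hx⟩ ▸ (T.a.r g ⟨x, hx⟩).2
  let r := fun g (z : G s t u v ⧸ HS s t u v sub) => rho s t u v g • z
  let x0 : G s t u v ⧸ HS s t u v sub := ((1 : G s t u v) : _)
  have U := u_run hlt (u_sound r (smul_invol hi) x0
    (fun w hw z => by rw [run_smul hi, hal w hw]; simp) (by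
      rintro rfl g hg
      change ((rho s t u v g * 1 : G s t u v) : G s t u v ⧸ HS s t u v true) = ((1 : G s t u v) : _)
      rw [QuotientGroup.eq]
      simp only [mul_one, inv_mem_iff]
      exact In.gen _ ((show ∀ g : Fin 4, g ≠ 0 → g ∈ ({1, 2, 3} : Finset (Fin 4)) by decide) g hg))
    h)
  have hs1 : Function.Surjective fun x : Fin n => cs tb r x0 x := by
    intro z
    obtain ⟨g, rfl⟩ := QuotientGroup.mk_surjective z
    obtain ⟨w, hw⟩ := exists_word g⁻¹
    obtain ⟨h1, h2⟩ := U w 0 hn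
    refine ⟨⟨_, h1⟩, h2.symm.trans ?_⟩
    rw [cs_zero, run_smul hi, hw, inv_inv]
    change ((g * 1 : G s t u v) : G s t u v ⧸ HS s t u v sub) = _
    rw [mul_one]
  let F : G s t u v ⧸ HS s t u v sub → Fin n := Quotient.lift (fun g => T.a.rel.hom g ⟨0, hn⟩) (by
    intro a b hab
    obtain ⟨y, hy, e⟩ := QuotientGroup.leftRel_apply.mp hab
    have h1 : run T.a.r y ⟨0, hn⟩ = ⟨0, hn⟩ := run_invariant (r := T.a.r) (fun z : Fin n => z = ⟨0, hn⟩) y (by
      rintro g hg _ rfl
      apply Fin.ext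
      rw [T.val]
      have := hy g hg
      cases sub
      · simp at this
      · exact hsub rfl g (by rintro rfl; simp at this)) _ rfl
    rw [T.a.run_eq_hom, e, Equiv.Perm.inv_eq_iff_eq, map_mul, map_inv, Equiv.Perm.mul_apply,
      Equiv.Perm.eq_inv_iff_eq] at h1
    exact h1)
  have hs2 : Function.Surjective F := by
    suffices H : ∀ x (hx : x < n), ∃ w, run T.a.r w ⟨0, hn⟩ = ⟨x, hx⟩ by
      intro x
      obtain ⟨w, hw⟩ := H x x.2
      exact ⟨((ev (rho s t u v) w)⁻¹ : G s t u v), by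
        rw [T.a.run_eq_hom, ← map_inv] at hw
        exact hw⟩
    intro x
    induction x using Nat.strong_induction_on with
    | _ x ih =>
    intro hx
    have := h x hx
    simp only [uchk, Bool.or_eq_true, Bool.and_eq_true, Nat.ble_eq, Nat.beq_eq, Nat.blt_eq] at this
    obtain ⟨-, -, -, -, h5⟩ := this.resolve_left (by omega)
    have key : ∀ g, im tb x g < x → ∃ w, run T.a.r w ⟨0, hn⟩ = ⟨x, hx⟩ := by
      intro g hg
      obtain ⟨w, hw⟩ := ih _ hg (hlt x hx g)
      refine ⟨w ++ [g], ?_⟩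
      rw [run_append, hw, ← T.a.invol g ⟨x, hx⟩]
      exact congrArg (T.a.r g) (Fin.ext (T.val g ⟨x, hx⟩).symm)
    rcases h5 with rfl | h5 | h5 | h5 | h5
    exacts [⟨[], rfl⟩, key _ h5, key _ h5, key _ h5, key _ h5]
  have : Finite (G s t u v ⧸ HS s t u v sub) := Finite.of_surjective _ hs1
  have c1 := Nat.card_le_card_of_surjective _ hs1
  have c2 := Nat.card_le_card_of_surjective _ hs2
  rw [Nat.card_eq_fintype_card (α := Fin n), Fintype.card_fin] at c1 c2
  omega

theorem card_HS_false : Nat.card (HS s t u v false) = 1 := by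
  rw [Subgroup.card_eq_one, eq_bot_iff]
  intro g hg
  exact In.empty hg

theorem TabAct.card_HS {tb : ℕ → ℕ} {n : ℕ} (T : TabAct s t u v tb n) (hu : Adm u v)
    {bs : List ℕ} (hb : ∀ b ∈ bs, b < n) (h : echk tb bs u v posB = true) :
    Nat.card (HS s t u v true) = (NF u v).length := by
  classical
  have hr := rel363_rho (s := s) (t := t) (u := u) (v := v)
  have h1 : ((NF u v).map (ev (fB (rho s t u v)))).Nodup := by
    rw [List.nodup_map_iff_inj_on (List.Nodup.of_map _ (nodupB_spec h))]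
    intro w hw w' hw' e
    rw [ev_fB, ev_fB] at e
    exact List.inj_on_of_nodup_map (nodupB_spec h) hw hw' (T.code_congr hb (T.a.run_congr e))
  have h2 : (HS s t u v true : Set (G s t u v)) =
      ((NF u v).map (ev (fB (rho s t u v)))).toFinset := by
    ext g
    simp only [SetLike.mem_coe, List.coe_toFinset, List.mem_map, Set.mem_setOf_eq]
    constructor
    · rintro ⟨y, hy, rfl⟩
      obtain ⟨w, rfl⟩ := exists_map_pos posB y (fun i hi =>
        (show ∀ i ∈ ({1, 2, 3} : Finset (Fin 4)), ∃ j, posB j = i by decide) i (hy i hi))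
      obtain ⟨p, hp, k, hk, hl, e⟩ := exists_nf hu w
      exact ⟨_, mem_NF hp hk, by rw [← ev_fB, hr.B.ev_eq_of_fr hu hl e]⟩
    · rintro ⟨w, -, rfl⟩
      refine ⟨w.map posB, fun i hi => ?_, (ev_fB _ _).symm⟩
      obtain ⟨j, -, rfl⟩ := List.mem_map.mp hi
      exact (show ∀ j, posB j ∈ ({1, 2, 3} : Finset (Fin 4)) by decide) j
  have h3 : Nat.card (HS s t u v true) = (HS s t u v true : Set (G s t u v)).ncard := rfl
  rw [h3, h2, Set.ncard_coe_finset, List.toFinset_card_of_nodup h1, List.length_map]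

/-! ### affine cocycles -/

noncomputable def atr (tb : ℕ → ℕ) (fin : ℕ → Bool → ℕ → ℕ → Bool) (w : List (Fin 4)) :
    ℕ → Bool → ℕ → ℕ → Bool :=
  List.rec fin (fun g _ ih x b p q =>
    cond (Nat.beq (Nat.mod (Nat.shiftRight (ent tb x g) 17) 2) 0)
      (ih (im tb x g) b (Nat.add p (Nat.mod (Nat.shiftRight (ent tb x g) 18) 256))
        (Nat.add q (Nat.shiftRight (ent tb x g) 26)))
      (ih (im tb x g) (not b) (Nat.add q (Nat.mod (Nat.shiftRight (ent tb x g) 18) 256))
        (Nat.add p (Nat.shiftRight (ent tb x g) 26)))) w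

def af (b : Bool) (p q : ℕ) (k : ℤ) : ℤ := cond b (-k) k + p - q

noncomputable def ar (tb : ℕ → ℕ) (g : Fin 4) (z : ℤ × ℕ) : ℤ × ℕ :=
  (af (not (Nat.beq (Nat.mod (Nat.shiftRight (ent tb z.2 g) 17) 2) 0))
    (Nat.mod (Nat.shiftRight (ent tb z.2 g) 18) 256) (Nat.shiftRight (ent tb z.2 g) 26) z.1,
   im tb z.2 g)

theorem atr_spec {tb fin} (w : List (Fin 4)) {x b p q} (h : atr tb fin w x b p q = true) :
    ∃ x' b' p' q', fin x' b' p' q' = true ∧
      ∀ k, run (ar tb) w (af b p q k, x) = (af b' p' q' k, x') := by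
  induction w generalizing x b p q with
  | nil => exact ⟨x, b, p, q, h, fun _ => rfl⟩
  | cons g w ih =>
    unfold atr at h ih
    simp only at h
    cases e : Nat.beq (Nat.mod (Nat.shiftRight (ent tb x g) 17) 2) 0 <;> rw [e] at h <;>
      obtain ⟨x', b', p', q', h1, h2⟩ := ih h <;> refine ⟨x', b', p', q', h1, fun k => ?_⟩ <;>
      rw [run_cons, ← h2, ar] <;> simp only [e] <;> congr 2 <;> cases b <;> simp [af] <;> ring

noncomputable def fxA (tb : ℕ → ℕ) (x : ℕ) (w : List (Fin 4)) : Bool :=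
  atr tb (fun x' b p q => and (Nat.beq x' x) (and (not b) (Nat.beq p q))) w x false 0 0

noncomputable def mvA (tb : ℕ → ℕ) (w : List (Fin 4)) : Bool :=
  atr tb (fun x' b p q => and (Nat.beq x' 0) (and (not b) (not (Nat.beq p q)))) w 0 false 0 0

theorem infinite_of_tab (hs : Adm s t) (hu : Adm u v) {tb n a1 a2 b1 b2} (hn : 0 < n)
    (ha : TW s t a1 a2) (hb : TW u v b1 b2)
    (h : ∀ x < n, rchk tb n (fxA tb) a1 a2 b1 b2 x = true) (w : List (Fin 4))
    (hw : mvA tb w = true) : Infinite (G s t u v) := by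
  let r : Fin 4 → {z : ℤ × ℕ // z.2 < n} → {z : ℤ × ℕ // z.2 < n} := fun g z =>
    ⟨ar tb g z.1, rchk_lt (h _ z.2) z.2 g⟩
  have hv : ∀ w z, (run r w z).1 = run (ar tb) w z.1 :=
    run_semiconj Subtype.val (fun _ _ => rfl)
  obtain ⟨a, e⟩ := exists_act hs hu ha hb h r (fun z => z.1.2) (fun z => z.2) (fun _ _ => rfl)
    (fun w z e => by
      obtain ⟨x', b', p', q', h1, h2⟩ := atr_spec w e
      simp only [Bool.and_eq_true, Nat.beq_eq, Bool.not_eq_true'] at h1
      obtain ⟨rfl, rfl, rfl⟩ := h1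
      apply Subtype.ext
      have := h2 z.1.1
      simpa [af, hv] using this)
  obtain ⟨x', b', p', q', h1, h2⟩ := atr_spec w hw
  simp only [Bool.and_eq_true, Nat.beq_eq, Bool.not_eq_true'] at h1
  obtain ⟨rfl, rfl, h3⟩ := h1
  have h3' : p' ≠ q' := by
    rintro rfl
    simp at h3
  have h4 : ∀ m : ℕ, ∀ k, run (ar tb) (wpow w m) (k, 0) = (k + m * ((p' : ℤ) - q'), 0) := by
    intro m
    induction m with
    | zero => simp [wpow]
    | succ m ih =>
      intro k
      have := h2 k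
      simp only [af, cond_false, Nat.cast_zero, add_zero, sub_zero] at this
      rw [wpow, run_append, this, ih]
      congr 1
      push_cast
      ring
  apply Infinite.of_injective (fun m : ℕ => ev (rho s t u v) (wpow w m))
  intro m m' e2
  have h5 := congrArg Subtype.val (a.run_congr e2 ⟨(0, 0), hn⟩)
  rw [e, hv, hv, h4, h4] at h5
  have h6 := congrArg Prod.fst h5
  simp only [zero_add, mul_eq_mul_right_iff, Nat.cast_inj] at h6
  exact h6.resolve_right (by omega)

end Pool.Agent.MP_6b3afb_co
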