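import Pool.Agent.MP_6b3afb_co.Defs

namespace Pool.Agent.MP_6b3afb_co

section ev
variable {ι Γ : Type} [Group Γ]

def ev (f : ι → Γ) (w : List ι) : Γ := (w.map f).prod

@[simp] theorem ev_nil (f : ι → Γ) : ev f [] = 1 := rfl
@[simp] theorem ev_cons (f : ι → Γ) (i : ι) (w : List ι) : ev f (i :: w) = f i * ev f w := by
  simp [ev]
@[simp] theorem ev_append (f : ι → Γ) (u w : List ι) : ev f (u ++ w) = ev f u * ev f w := by
  simp [ev]

theorem ev_reverse {f : ι → Γ} (hf : ∀ i, f i * f i = 1) (w : List ι) :
    ev f w.reverse = (ev f w)⁻¹ := by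
  induction w with
  | nil => simp
  | cons i w ih =>
    simp only [List.reverse_cons, ev_append, ev_cons, ev_nil, mul_one, ih, mul_inv_rev]
    rw [eq_inv_of_mul_eq_one_left (hf i), inv_inv, ← eq_inv_of_mul_eq_one_left (hf i)]

theorem ev_map {κ : Type} (f : ι → Γ) (g : κ → ι) (w : List κ) :
    ev f (w.map g) = ev (fun k => f (g k)) w := by
  simp [ev, Function.comp_def]

theorem map_ev {Δ : Type} [Group Δ] (φ : Γ →* Δ) (f : ι → Γ) (w : List ι) :
    φ (ev f w) = ev (fun i => φ (f i)) w := by
  induction w with
  | nil => simp
  | cons i w ih => simp [ih]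

def wpow (w : List ι) : ℕ → List ι
  | 0 => []
  | n + 1 => w ++ wpow w n

theorem ev_wpow (f : ι → Γ) (w : List ι) (n : ℕ) : ev f (wpow w n) = ev f w ^ n := by
  induction n with
  | zero => simp [wpow]
  | succ n ih => simp [wpow, ih, pow_succ']

theorem ev_mem (f : ι → Γ) (H : Subgroup Γ) (w : List ι) (h : ∀ i ∈ w, f i ∈ H) : ev f w ∈ H := by
  induction w with
  | nil => simp [H.one_mem]
  | cons i w ih =>
    rw [ev_cons]
    exact H.mul_mem (h i (by simp)) (ih fun j hj => h j (by simp [hj]))

/-- free reduction for involutive generators -/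
def red [DecidableEq ι] : List ι → List ι
  | [] => []
  | i :: w => match red w with
    | [] => [i]
    | j :: u => if i = j then u else i :: j :: u

theorem ev_red [DecidableEq ι] {f : ι → Γ} (hf : ∀ i, f i * f i = 1) (w : List ι) :
    ev f (red w) = ev f w := by
  induction w with
  | nil => rfl
  | cons i w ih =>
    rw [ev_cons, ← ih, red]
    cases red w with
    | nil => simp
    | cons j u =>
      by_cases h : i = j
      · subst h
        simp [← mul_assoc, hf]
      · simp [h]

/-- insert relators and reduce -/
def rewr [DecidableEq ι] (al : List (List ι)) : List (ℕ × ℕ) → List ι → List ι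
  | [], w => red w
  | (p, k) :: st, w => rewr al st (red (w.take p ++ al.getD k [] ++ w.drop p))

theorem ev_rewr [DecidableEq ι] {f : ι → Γ} (hf : ∀ i, f i * f i = 1) (al : List (List ι))
    (hal : ∀ r ∈ al, ev f r = 1) (st : List (ℕ × ℕ)) (w : List ι) :
    ev f (rewr al st w) = ev f w := by
  induction st generalizing w with
  | nil => exact ev_red hf w
  | cons pk st ih =>
    obtain ⟨p, k⟩ := pk
    rw [rewr, ih, ev_red hf, ev_append, ev_append]
    have : ev f (al.getD k []) = 1 := by
      rw [List.getD_eq_getElem?_getD]
      cases h : al[k]? with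
      | none => rfl
      | some r => exact hal r (List.mem_of_getElem? h)
    rw [this, mul_one, ← ev_append, List.take_append_drop]

theorem ev_rotate_eq_one {f : ι → Γ} {w : List ι} (h : ev f w = 1) (n : ℕ) :
    ev f (w.drop n ++ w.take n) = 1 := by
  rw [← List.take_append_drop n w, ev_append] at h
  rw [ev_append]
  exact mul_eq_one_comm.mp h

end ev

section run
variable {ι X : Type}

def run (r : ι → X → X) (w : List ι) (x : X) : X := w.foldl (fun y i => r i y) x

@[simp] theorem run_nil (r : ι → X → X) (x : X) : run r [] x = x := rfl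
@[simp] theorem run_cons (r : ι → X → X) (i : ι) (w : List ι) (x : X) :
    run r (i :: w) x = run r w (r i x) := rfl
theorem run_append (r : ι → X → X) (u w : List ι) (x : X) :
    run r (u ++ w) x = run r w (run r u x) := by
  simp [run]

theorem run_map {κ : Type} (r : ι → X → X) (g : κ → ι) (w : List κ) (x : X) :
    run r (w.map g) x = run (fun k => r (g k)) w x := by
  induction w generalizing x with
  | nil => rfl
  | cons i w ih => simp [ih]

theorem ev_perm_inv_apply {r : ι → X → X} (hr : ∀ i, Function.Involutive (r i)) (w : List ι)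
    (x : X) : (ev (fun i => (hr i).toPerm) w)⁻¹ x = run r w x := by
  induction w generalizing x with
  | nil => simp
  | cons i w ih =>
    rw [ev_cons, mul_inv_rev, Equiv.Perm.mul_apply, ih]
    rfl

theorem run_reverse_run {r : ι → X → X} (hr : ∀ i, Function.Involutive (r i)) (w : List ι)
    (x : X) : run r w.reverse (run r w x) = x := by
  induction w generalizing x with
  | nil => rfl
  | cons i w ih => simp [run_append, ih, hr i x]

theorem run_run_reverse {r : ι → X → X} (hr : ∀ i, Function.Involutive (r i)) (w : List ι)
    (x : X) : run r w (run r w.reverse x) = x := by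
  simpa using run_reverse_run hr w.reverse x

theorem run_semiconj {Y : Type} {r : ι → X → X} {r' : ι → Y → Y} (F : X → Y)
    (h : ∀ i x, F (r i x) = r' i (F x)) (w : List ι) (x : X) : F (run r w x) = run r' w (F x) := by
  induction w generalizing x with
  | nil => rfl
  | cons i w ih => simp [ih, h]

theorem run_invariant {r : ι → X → X} (p : X → Prop) (w : List ι)
    (h : ∀ i ∈ w, ∀ x, p x → p (r i x)) (x : X) (hx : p x) : p (run r w x) := by
  induction w generalizing x with
  | nil => exact hx
  | cons i w ih => exact ih (fun j hj => h j (by simp [hj])) _ (h i (by simp) x hx)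

end run

end Pool.Agent.MP_6b3afb_co
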